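import Pool.Agent.CTG.Defs

/-!
# CTG / Cert1: a `σ`-congruence certificate

First `diag(a⁻¹, β σ(a)^T, z)` reduces to `β = 1`, `α = Θ`, `ν' = ν`. Then `g = [[1, w, x], [0, 1, 0], [0, y, 1]]` (order
`U, W, F`), with `y = ρ' - ν σ(x)`, `ν x - σ(ν) Θ τ(x) = ρ - Θ σ(ρ')`, `w + Θ σ(w)^T = γ - ν x σ(x)^T`.
-/

set_option autoImplicit false

namespace Pool.Agent.CTG

open Matrix Pool.Agent.CTC

variable {F : Type*} [Field F]

/-- a `3 × 3` block matrix -/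
private def B3 {ι : Type*} (a11 a12 : Matrix ι ι F) (a13 : ι → F) (a21 a22 : Matrix ι ι F)
    (a23 a31 a32 : ι → F) (a33 : F) : Matrix ((ι ⊕ ι) ⊕ Unit) ((ι ⊕ ι) ⊕ Unit) F :=
  Matrix.fromBlocks (Matrix.fromBlocks a11 a12 a21 a22) (fun i _ => Sum.elim a13 a23 i)
    (fun _ j => Sum.elim a31 a32 j) (fun _ _ => a33)

@[simp] private theorem b3_11 {ι : Type*} (a11 a12 : Matrix ι ι F) (a13 : ι → F) (a21 a22 : Matrix ι ι F) (a23 a31 a32 : ι → F) (a33 : F)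
    (i : ι) (j : ι) :
    B3 a11 a12 a13 a21 a22 a23 a31 a32 a33 (Sum.inl (Sum.inl i)) (Sum.inl (Sum.inl j)) = a11 i j := rfl

@[simp] private theorem b3_12 {ι : Type*} (a11 a12 : Matrix ι ι F) (a13 : ι → F) (a21 a22 : Matrix ι ι F) (a23 a31 a32 : ι → F) (a33 : F)
    (i : ι) (j : ι) :
    B3 a11 a12 a13 a21 a22 a23 a31 a32 a33 (Sum.inl (Sum.inl i)) (Sum.inl (Sum.inr j)) = a12 i j := rfl

@[simp] private theorem b3_13 {ι : Type*} (a11 a12 : Matrix ι ι F) (a13 : ι → F) (a21 a22 : Matrix ι ι F) (a23 a31 a32 : ι → F) (a33 : F)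
    (i : ι) (v : Unit) :
    B3 a11 a12 a13 a21 a22 a23 a31 a32 a33 (Sum.inl (Sum.inl i)) (Sum.inr v) = a13 i := rfl

@[simp] private theorem b3_21 {ι : Type*} (a11 a12 : Matrix ι ι F) (a13 : ι → F) (a21 a22 : Matrix ι ι F) (a23 a31 a32 : ι → F) (a33 : F)
    (i : ι) (j : ι) :
    B3 a11 a12 a13 a21 a22 a23 a31 a32 a33 (Sum.inl (Sum.inr i)) (Sum.inl (Sum.inl j)) = a21 i j := rfl

@[simp] private theorem b3_22 {ι : Type*} (a11 a12 : Matrix ι ι F) (a13 : ι → F) (a21 a22 : Matrix ι ι F) (a23 a31 a32 : ι → F) (a33 : F)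
    (i : ι) (j : ι) :
    B3 a11 a12 a13 a21 a22 a23 a31 a32 a33 (Sum.inl (Sum.inr i)) (Sum.inl (Sum.inr j)) = a22 i j := rfl

@[simp] private theorem b3_23 {ι : Type*} (a11 a12 : Matrix ι ι F) (a13 : ι → F) (a21 a22 : Matrix ι ι F) (a23 a31 a32 : ι → F) (a33 : F)
    (i : ι) (v : Unit) :
    B3 a11 a12 a13 a21 a22 a23 a31 a32 a33 (Sum.inl (Sum.inr i)) (Sum.inr v) = a23 i := rfl

@[simp] private theorem b3_31 {ι : Type*} (a11 a12 : Matrix ι ι F) (a13 : ι → F) (a21 a22 : Matrix ι ι F) (a23 a31 a32 : ι → F) (a33 : F)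
    (u : Unit) (j : ι) :
    B3 a11 a12 a13 a21 a22 a23 a31 a32 a33 (Sum.inr u) (Sum.inl (Sum.inl j)) = a31 j := rfl

@[simp] private theorem b3_32 {ι : Type*} (a11 a12 : Matrix ι ι F) (a13 : ι → F) (a21 a22 : Matrix ι ι F) (a23 a31 a32 : ι → F) (a33 : F)
    (u : Unit) (j : ι) :
    B3 a11 a12 a13 a21 a22 a23 a31 a32 a33 (Sum.inr u) (Sum.inl (Sum.inr j)) = a32 j := rfl

@[simp] private theorem b3_33 {ι : Type*} (a11 a12 : Matrix ι ι F) (a13 : ι → F) (a21 a22 : Matrix ι ι F) (a23 a31 a32 : ι → F) (a33 : F)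
    (u : Unit) (v : Unit) :
    B3 a11 a12 a13 a21 a22 a23 a31 a32 a33 (Sum.inr u) (Sum.inr v) = a33 := rfl

private theorem b3_mul {ι : Type*} [Fintype ι] [DecidableEq ι] (a11 a12 : Matrix ι ι F)
    (a13 : ι → F) (a21 a22 : Matrix ι ι F) (a23 a31 a32 : ι → F) (a33 : F)
    (b11 b12 : Matrix ι ι F) (b13 : ι → F) (b21 b22 : Matrix ι ι F) (b23 b31 b32 : ι → F)
    (b33 : F) :
    B3 a11 a12 a13 a21 a22 a23 a31 a32 a33 * B3 b11 b12 b13 b21 b22 b23 b31 b32 b33 =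
      B3 (a11 * b11 + a12 * b21 + vecMulVec a13 b31) (a11 * b12 + a12 * b22 + vecMulVec a13 b32)
        (a11 *ᵥ b13 + a12 *ᵥ b23 + b33 • a13)
        (a21 * b11 + a22 * b21 + vecMulVec a23 b31) (a21 * b12 + a22 * b22 + vecMulVec a23 b32)
        (a21 *ᵥ b13 + a22 *ᵥ b23 + b33 • a23)
        (a31 ᵥ* b11 + a32 ᵥ* b21 + a33 • b31) (a31 ᵥ* b12 + a32 ᵥ* b22 + a33 • b32)
        (a31 ⬝ᵥ b13 + a32 ⬝ᵥ b23 + a33 * b33) := by
  ext i j
  rcases i with (i | i) | i <;> rcases j with (j | j) | j <;>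
    simp [Matrix.mul_apply, Fintype.sum_sum_type, vecMulVec, mulVec, vecMul, dotProduct,
      mul_comm]

private theorem b3_mapT {ι : Type*} (σ : F ≃+* F) (a11 a12 : Matrix ι ι F)
    (a13 : ι → F) (a21 a22 : Matrix ι ι F) (a23 a31 a32 : ι → F) (a33 : F) :
    ((B3 a11 a12 a13 a21 a22 a23 a31 a32 a33).map σ)ᵀ =
      B3 (a11.map σ)ᵀ (a21.map σ)ᵀ (fun i => σ (a31 i)) (a12.map σ)ᵀ (a22.map σ)ᵀ
        (fun i => σ (a32 i)) (fun i => σ (a13 i)) (fun i => σ (a23 i)) (σ a33) := by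
  ext i j
  rcases i with (i | i) | i <;> rcases j with (j | j) | j <;> simp

private theorem b3_one {ι : Type*} [DecidableEq ι] :
    B3 (1 : Matrix ι ι F) 0 0 0 1 0 0 0 1 = 1 := by
  ext i j
  rcases i with (i | i) | i <;> rcases j with (j | j) | j <;> simp [Matrix.one_apply]

private theorem qm_b3 {ι : Type*} (γ α β : Matrix ι ι F) (ρ ρ' : ι → F) (ν : F) :
    Qm γ α β ρ ρ' ν = B3 γ α ρ β 0 0 ρ' 0 ν := rfl

private theorem map_zero_T {ι : Type*} (σ : F ≃+* F) :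
    ((0 : Matrix ι ι F).map σ)ᵀ = 0 := by
  ext i j
  simp

private theorem map_one_T {ι : Type*} [DecidableEq ι] (σ : F ≃+* F) :
    ((1 : Matrix ι ι F).map σ)ᵀ = 1 := by
  rw [Matrix.map_one _ (map_zero _) (map_one _), Matrix.transpose_one]

private theorem fun_zero {ι : Type*} : (fun _ : ι => (0 : F)) = 0 := rfl

private theorem step_B [Finite F] {ι : Type*} [Fintype ι] [DecidableEq ι] (σ : F ≃+* F)
    (Θ : Matrix ι ι F) (ν : F) (hν : ν ≠ 0)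
    (h1 : ∀ x : ι → F, sm (σ.trans σ) Θ x = (ν / σ ν) • x → x = 0)
    (h2 : ∀ w : Matrix ι ι F, w = -(Θ * (w.map σ)ᵀ) → w = 0)
    (γ : Matrix ι ι F) (ρ ρ' : ι → F) :
    ∃ g g' : Matrix ((ι ⊕ ι) ⊕ Unit) ((ι ⊕ ι) ⊕ Unit) F, g * g' = 1 ∧
      Qm γ Θ 1 ρ ρ' ν = g * Sm Θ ν * (g.map σ)ᵀ := by
  have hσν : σ ν ≠ 0 := by simpa using hν
  -- the equation for `x`
  let L : (ι → F) →+ (ι → F) := AddMonoidHom.mk'
    (fun x => ν • x - σ ν • sm (σ.trans σ) Θ x) (by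
      intro x y
      simp only [map_add, smul_add]
      abel)
  have hL : Function.Injective L := by
    rw [injective_iff_map_eq_zero]
    intro x hx
    apply h1
    have hx' : ν • x - σ ν • sm (σ.trans σ) Θ x = 0 := hx
    rw [div_eq_inv_mul, mul_smul, sub_eq_zero.1 hx', smul_smul, inv_mul_cancel₀ hσν, one_smul]
  obtain ⟨x, hx⟩ := (Finite.injective_iff_surjective.1 hL) (ρ - Θ *ᵥ (fun i => σ (ρ' i)))
  have hx' : ν • x - σ ν • sm (σ.trans σ) Θ x = ρ - Θ *ᵥ (fun i => σ (ρ' i)) := hx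
  -- the equation for `w`
  let M : Matrix ι ι F →+ Matrix ι ι F := AddMonoidHom.mk'
    (fun w => w + Θ * (w.map σ)ᵀ) (by
      intro w v
      have e1 : ((w + v).map σ)ᵀ = (w.map σ)ᵀ + (v.map σ)ᵀ := by
        ext i j
        simp
      rw [e1, mul_add]
      abel)
  have hM : Function.Injective M := by
    rw [injective_iff_map_eq_zero]
    intro w hw
    apply h2
    have hw' : w + Θ * (w.map σ)ᵀ = 0 := hw
    exact eq_neg_of_add_eq_zero_left hw'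
  have hfin : Finite (Matrix ι ι F) := inferInstanceAs (Finite (ι → ι → F))
  obtain ⟨w, hw⟩ := (Finite.injective_iff_surjective.1 hM)
    (γ - vecMulVec (ν • x) (fun i => σ (x i)))
  have hw' : w + Θ * (w.map σ)ᵀ = γ - vecMulVec (ν • x) (fun i => σ (x i)) := hw
  let y : ι → F := fun i => ρ' i - ν * σ (x i)
  have hy : Θ *ᵥ (fun i => σ (y i)) + ν • x = ρ := by
    have e1 : (fun i => σ (y i)) = (fun i => σ (ρ' i)) - σ ν • (fun i => (σ.trans σ) (x i)) := by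
      funext i
      simp [y]
    have e2 : sm (σ.trans σ) Θ x = Θ *ᵥ (fun i => (σ.trans σ) (x i)) := rfl
    rw [e1, Matrix.mulVec_sub, Matrix.mulVec_smul, ← e2]
    have e3 : ρ = ν • x - σ ν • sm (σ.trans σ) Θ x + Θ *ᵥ (fun i => σ (ρ' i)) := by
      rw [hx', sub_add_cancel]
    conv_rhs => rw [e3]
    abel
  refine ⟨B3 1 w x 0 1 0 0 y 1, B3 1 (-w + vecMulVec x y) (-x) 0 1 0 0 (-y) 1, ?_, ?_⟩
  · rw [b3_mul, ← b3_one]
    congr 1
    · simp
    · simp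
    · simp
    · simp
    · simp
    · simp
    · simp
    · simp
    · simp
  · rw [Sm, qm_b3, qm_b3, b3_mapT, b3_mul, b3_mul]
    simp only [map_zero_T, map_one_T, Pi.zero_apply, map_zero, map_one, fun_zero]
    congr 1
    · have e4 : γ = w + Θ * (w.map σ)ᵀ + vecMulVec (ν • x) (fun i => σ (x i)) := by
        rw [hw', sub_add_cancel]
      conv_lhs => rw [e4]
      simp
    · simp
    · simp
      rw [← hy]
    · simp
    · simp
    · simp
    · simp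
      funext i
      simp [y]
    · simp
    · simp

theorem cert [Finite F] {ι : Type*} [Fintype ι] [DecidableEq ι] (σ : F ≃+* F) (Θ : Matrix ι ι F)
    (ν : F) (hν : ν ≠ 0)
    (h1 : ∀ x : ι → F, sm (σ.trans σ) Θ x = (ν / σ ν) • x → x = 0)
    (h2 : ∀ w : Matrix ι ι F, w = -(Θ * (w.map σ)ᵀ) → w = 0)
    (γ β θ a : Matrix ι ι F) (ρ ρ' : ι → F) (z : F) (hz : z ≠ 0) (hβ : β.det ≠ 0)
    (ha : a.det ≠ 0) (hθ : Θ * a.map (σ.trans σ) = a * θ) :
    Cg σ (Sm Θ ν) (Qm γ (θ * (β.map σ)ᵀ) β ρ ρ' (ν * (z * σ z))) := by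
  have hσz : σ z ≠ 0 := by simpa using hz
  have haU : IsUnit a.det := isUnit_iff_ne_zero.2 ha
  have ha1 : a⁻¹ * a = 1 := Matrix.nonsing_inv_mul _ haU
  have hmm : ∀ {κ : Type _} [Fintype κ] (M N : Matrix κ κ F), ((M * N).map σ)ᵀ =
      (N.map σ)ᵀ * (M.map σ)ᵀ := by
    intro κ _ M N
    rw [show (M * N).map σ = M.map σ * N.map σ from Matrix.map_mul (f := (σ : F →+* F)),
      Matrix.transpose_mul]
  have ha3 : (a.map σ)ᵀ * (a⁻¹.map σ)ᵀ = 1 := by rw [← hmm, ha1, map_one_T]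
  have hmd : ∀ M : Matrix ι ι F, (M.map σ)ᵀ.det = σ M.det := by
    intro M
    rw [Matrix.det_transpose, show M.map σ = σ.toRingHom.mapMatrix M from rfl, ← RingHom.map_det]
    rfl
  obtain ⟨b, hb⟩ : ∃ b, b = β * (a.map σ)ᵀ := ⟨_, rfl⟩
  have hbdet : b.det ≠ 0 := by
    rw [hb, Matrix.det_mul, hmd]
    exact mul_ne_zero hβ (by simpa using ha)
  have hb2 : b * b⁻¹ = 1 := Matrix.mul_nonsing_inv _ (isUnit_iff_ne_zero.2 hbdet)
  have hbT : (b.map σ)ᵀ = a.map (σ.trans σ) * (β.map σ)ᵀ := by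
    rw [hb, hmm]
    congr 1
  obtain ⟨g, g', hg, hQ⟩ := step_B σ Θ ν hν h1 h2 (a * γ * (a.map σ)ᵀ) ((σ z)⁻¹ • (a *ᵥ ρ))
    (z⁻¹ • (ρ' ᵥ* (a.map σ)ᵀ))
  refine ⟨B3 a⁻¹ 0 0 0 b 0 0 0 z * g, ?_, ?_⟩
  · rw [Matrix.det_mul]
    refine mul_ne_zero ?_ (Matrix.det_ne_zero_of_right_inverse hg)
    refine Matrix.det_ne_zero_of_right_inverse (B := B3 a 0 0 0 b⁻¹ 0 0 0 z⁻¹) ?_
    rw [b3_mul, ← b3_one]
    congr 1
    · simp [ha1]
    · simp
    · simp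
    · simp
    · simp [hb2]
    · simp
    · simp
    · simp
    · simp [hz]
  · rw [hmm]
    have e1 : B3 a⁻¹ 0 0 0 b 0 0 0 z * g * Sm Θ ν *
        ((g.map σ)ᵀ * ((B3 a⁻¹ 0 0 0 b 0 0 0 z).map σ)ᵀ) =
        B3 a⁻¹ 0 0 0 b 0 0 0 z * (g * Sm Θ ν * (g.map σ)ᵀ) *
          ((B3 a⁻¹ 0 0 0 b 0 0 0 z).map σ)ᵀ := by
      simp only [Matrix.mul_assoc]
    rw [e1, ← hQ, qm_b3, qm_b3, b3_mapT, b3_mul, b3_mul]
    simp only [map_zero_T, map_one_T, Pi.zero_apply, map_zero, map_one, fun_zero]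
    congr 1
    · simp only [Matrix.zero_mul, add_zero, Matrix.vecMulVec_zero, Matrix.zero_vecMulVec,
        Matrix.mul_zero]
      rw [Matrix.mul_assoc, Matrix.mul_assoc, ha3, Matrix.mul_one, ← Matrix.mul_assoc, ha1,
        Matrix.one_mul]
    · simp only [Matrix.zero_mul, add_zero, zero_add, Matrix.vecMulVec_zero,
        Matrix.zero_vecMulVec, Matrix.mul_zero]
      rw [hbT, Matrix.mul_assoc, ← Matrix.mul_assoc Θ, hθ, Matrix.mul_assoc, ← Matrix.mul_assoc,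
        ha1, Matrix.one_mul]
    · simp only [Matrix.mulVec_zero, add_zero, zero_add, smul_zero, Matrix.zero_mulVec,
        Matrix.mulVec_smul, Matrix.mulVec_mulVec, ha1, Matrix.one_mulVec, smul_smul,
        mul_inv_cancel₀ hσz, one_smul]
    · simp only [Matrix.zero_mul, add_zero, zero_add, Matrix.vecMulVec_zero,
        Matrix.zero_vecMulVec, Matrix.mul_zero, Matrix.mul_one]
      rw [hb, Matrix.mul_assoc, ha3, Matrix.mul_one]
    · simp
    · simp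
    · simp only [Matrix.zero_vecMul, add_zero, zero_add, smul_zero, Matrix.smul_vecMul,
        Matrix.vecMul_vecMul, ha3, Matrix.vecMul_one, smul_smul, mul_inv_cancel₀ hz, one_smul]
    · simp
    · simp
      ring

end Pool.Agent.CTG
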