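import Pool.Agent.CTG.Defs

/-! The matrices `Cn r t`: determinant, cyclicity (CTG, M5). -/

set_option autoImplicit false

namespace Pool.Agent.CTG

open Matrix Pool.Agent.CTC

variable {F : Type*} [Field F]

theorem cn_det (r : ℕ) (t : F) : (Cn r t).det = if r = 0 then 1 else (-1) ^ (r - 1) * t := by
  rcases r with _ | s
  · rw [if_pos rfl, Matrix.det_isEmpty]
  · rw [if_neg (Nat.succ_ne_zero s), Matrix.det_succ_column _ (Fin.last s),
      Finset.sum_eq_single 0]
    · have h1 : Cn (s + 1) t 0 (Fin.last s) = t := by
        unfold Cn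
        rw [if_neg (by simp), if_pos (by simp)]
      have h2 : (Cn (s + 1) t).submatrix (Fin.succAbove 0) (Fin.last s).succAbove =
          (1 : Matrix (Fin s) (Fin s) F) := by
        ext i j
        rw [Matrix.submatrix_apply, Fin.succAbove_last, Fin.zero_succAbove, Matrix.one_apply]
        unfold Cn
        have h3 : ¬ (((Fin.castSucc j : Fin (s + 1)) : ℕ) + 1 = s + 1 ∧
            ((Fin.succ i : Fin (s + 1)) : ℕ) = 0) := by
          simp
        rw [if_neg h3]
        by_cases hij : i = j
        · subst hij
          simp
        · rw [if_neg hij, if_neg]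
          intro h4
          apply hij
          apply Fin.ext
          simpa using h4
      rw [h1, h2, Matrix.det_one]
      simp
    · intro i _ hi
      have h1 : Cn (s + 1) t i (Fin.last s) = 0 := by
        unfold Cn
        have h2 : (i : ℕ) ≠ 0 := fun h => hi (Fin.ext h)
        have h3 : (i : ℕ) < s + 1 := i.2
        rw [if_neg (by simp only [Fin.val_last]; omega), if_neg (by
          rintro ⟨-, h4⟩
          exact h2 h4)]
      rw [h1]
      ring
    · intro h
      exact absurd (Finset.mem_univ _) h

theorem cn_cy (τ : F ≃+* F) (r : ℕ) (hr : 1 ≤ r) (t : F) : Cy τ (Cn r t) := by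
  refine ⟨Pi.single ⟨0, hr⟩ 1, fun W h0 hW => ?_⟩
  have key : ∀ (j : ℕ) (hj : j < r), (Pi.single (⟨j, hj⟩ : Fin r) (1 : F) : Fin r → F) ∈ W := by
    intro j
    induction j with
    | zero => intro _; exact h0
    | succ j ih =>
      intro hj
      have h1 := hW _ (ih (by omega))
      have h2 : sm τ (Cn r t) (Pi.single (⟨j, by omega⟩ : Fin r) (1 : F)) =
          Pi.single (⟨j + 1, hj⟩ : Fin r) (1 : F) := by
        have h3 : (fun i => τ ((Pi.single (⟨j, by omega⟩ : Fin r) (1 : F) : Fin r → F) i)) =
            Pi.single (⟨j, by omega⟩ : Fin r) (1 : F) := by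
          funext i
          rw [Pi.single_apply, apply_ite τ, map_one, map_zero]
        change Cn r t *ᵥ (fun i => τ ((Pi.single (⟨j, by omega⟩ : Fin r) (1 : F) :
          Fin r → F) i)) = _
        rw [h3, Matrix.mulVec_single_one]
        funext i
        rw [Matrix.col_apply, Pi.single_apply]
        unfold Cn
        simp only [Fin.ext_iff]
        split_ifs with h4 h5
        · rfl
        · exfalso
          omega
        · rfl
      rw [h2] at h1
      exact h1
  rw [eq_top_iff]
  intro v _
  have h1 : v = ∑ j : Fin r, v j • (Pi.single j (1 : F) : Fin r → F) := by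
    funext i
    rw [Finset.sum_apply]
    simp [Pi.single_apply]
  rw [h1]
  exact W.sum_mem fun j _ => W.smul_mem _ (key j j.2)

end Pool.Agent.CTG
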