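import Pool.Agent.CTG.Defs

/-! The monomial matrices `Cn`: no maps to one dimensional modules, the dual class
(CTG, module GCN1, second half; helper24). -/

set_option autoImplicit false

namespace Pool.Agent.CTG

open Matrix Pool.Agent.CTC

variable {F : Type*} [Field F]

private lemma cn_row0 {r : ℕ} (t : F) (i : Fin r) (hi : (i : ℕ) = 0) (v : Fin r → F) :
    ∑ j, Cn r t i j * v j = t * v ⟨r - 1, by have := i.2; omega⟩ := by
  have hr := i.2
  rw [Finset.sum_eq_single (⟨r - 1, by omega⟩ : Fin r)]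
  · have h1 : ¬ ((i : ℕ) = (r - 1) + 1) := by omega
    have h2 : (r - 1) + 1 = r := by omega
    simp only [Cn]
    rw [if_neg h1, if_pos ⟨h2, hi⟩]
  · intro j _ hj
    have hj' : (j : ℕ) ≠ r - 1 := fun h => hj (Fin.ext h)
    have h1 : ¬ ((i : ℕ) = j + 1) := by omega
    have h2 : ¬ ((j : ℕ) + 1 = r ∧ (i : ℕ) = 0) := by omega
    simp only [Cn]
    rw [if_neg h1, if_neg h2, zero_mul]
  · intro h; exact absurd (Finset.mem_univ _) h

private lemma cn_row1 {r : ℕ} (t : F) (i : Fin r) (hi : (i : ℕ) ≠ 0) (v : Fin r → F) :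
    ∑ j, Cn r t i j * v j = v ⟨i - 1, by have := i.2; omega⟩ := by
  have hr := i.2
  rw [Finset.sum_eq_single (⟨i - 1, by omega⟩ : Fin r)]
  · have h1 : (i : ℕ) = (i - 1) + 1 := by omega
    simp only [Cn]
    rw [if_pos h1, one_mul]
  · intro j _ hj
    have hj' : (j : ℕ) ≠ i - 1 := fun h => hj (Fin.ext h)
    have h1 : ¬ ((i : ℕ) = j + 1) := by omega
    have h2 : ¬ ((j : ℕ) + 1 = r ∧ (i : ℕ) = 0) := by omega
    simp only [Cn]
    rw [if_neg h1, if_neg h2, zero_mul]
  · intro h; exact absurd (Finset.mem_univ _) h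

private lemma nmul (τ : F ≃+* F) (x y : F) : Nm τ (x * y) = Nm τ x * Nm τ y := by
  unfold Nm
  rw [← Finset.prod_mul_distrib]
  exact Finset.prod_congr rfl (fun i _ => map_mul _ _ _)

private lemma nne (τ : F ≃+* F) {x : F} (hx : x ≠ 0) : Nm τ x ≠ 0 := by
  unfold Nm
  rw [Finset.prod_ne_zero_iff]
  intro i _ h
  exact hx ((map_eq_zero_iff _ (τ ^ i).injective).1 h)

private lemma ntau (τ : F ≃+* F) (x : F) : Nm τ (τ x) = Nm τ x := by
  rcases eq_or_ne x 0 with rfl | hx
  · rw [map_zero]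
  · unfold Nm
    have h1 := Finset.prod_range_succ (fun i => (τ ^ i) x) (orderOf τ)
    have h2 := Finset.prod_range_succ' (fun i => (τ ^ i) x) (orderOf τ)
    rw [h1] at h2
    simp only [pow_orderOf_eq_one, pow_zero] at h2
    have h3 : (1 : F ≃+* F) x = x := rfl
    rw [h3] at h2
    have h4 := mul_right_cancel₀ hx h2
    rw [h4]
    refine Finset.prod_congr rfl fun i _ => ?_
    rw [pow_succ]
    rfl

/-- `T^r (w_j e_j) = τ^i(t) τ^r(w_j) e_j` for some `i`; `T w = c w` gives
`T^r w = (c τ(c) … τ^{r-1}(c)) w`; take norms -/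
theorem cn_nc [Finite F] (τ : F ≃+* F) (r : ℕ) (t c : F) (hc : c ≠ 0)
    (h : Nm τ t ≠ Nm τ c ^ r) : NC τ (Cn r t) c := by
  rcases Nat.eq_zero_or_pos r with rfl | hr
  · refine ⟨fun l _ => ?_, fun w _ => ?_⟩
    · ext i
      exact i.elim0
    · ext i
      exact i.elim0
  have hr1 : (r - 1) + 1 = r := by omega
  constructor
  · intro l hl
    have key : ∀ j : Fin r, l (fun i => Cn r t i j) = c * τ (l (Pi.single j 1)) := by
      intro j
      rw [← hl]
      congr 1
      ext i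
      rw [sm_apply, Matrix.mulVec, dotProduct, Finset.sum_eq_single j]
      · simp
      · intro k _ hk
        simp [hk]
      · intro h'; exact absurd (Finset.mem_univ _) h'
    have k1 : ∀ (j : ℕ) (hj : j + 1 < r),
        l (Pi.single ⟨j + 1, hj⟩ 1) = c * τ (l (Pi.single ⟨j, by omega⟩ 1)) := by
      intro j hj
      rw [← key]
      congr 1
      ext i
      have e : (Pi.single (⟨j + 1, hj⟩ : Fin r) (1 : F) : Fin r → F) i
          = if (i : ℕ) = j + 1 then 1 else 0 := by
        rw [Pi.single_apply]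
        simp [Fin.ext_iff]
      rw [e]
      simp only [Cn]
      by_cases h1 : (i : ℕ) = j + 1
      · rw [if_pos h1, if_pos h1]
      · have h2 : ¬ (j + 1 = r ∧ (i : ℕ) = 0) := by omega
        rw [if_neg h1, if_neg h1, if_neg h2]
    have k2 : t * l (Pi.single ⟨0, hr⟩ 1) = c * τ (l (Pi.single ⟨r - 1, by omega⟩ 1)) := by
      rw [← key, ← smul_eq_mul, ← map_smul]
      congr 1
      ext i
      have e : (Pi.single (⟨0, hr⟩ : Fin r) (1 : F) : Fin r → F) i
          = if (i : ℕ) = 0 then 1 else 0 := by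
        rw [Pi.single_apply]
        simp [Fin.ext_iff]
      rw [Pi.smul_apply, e]
      simp only [Cn]
      have hi := i.2
      have h1 : ¬ ((i : ℕ) = r - 1 + 1) := by omega
      rw [if_neg h1]
      by_cases h2 : (i : ℕ) = 0
      · rw [if_pos h2, if_pos ⟨hr1, h2⟩, smul_eq_mul, mul_one]
      · rw [if_neg h2, if_neg (fun h' => h2 h'.2), smul_zero]
    have k3 : ∀ (j : ℕ) (hj : j < r), Nm τ (l (Pi.single ⟨j, hj⟩ 1))
        = Nm τ c ^ j * Nm τ (l (Pi.single ⟨0, hr⟩ 1)) := by
      intro j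
      induction j with
      | zero => intro hj; rw [pow_zero, one_mul]
      | succ j ih =>
        intro hj
        rw [k1 j hj, nmul, ntau, ih (by omega), pow_succ]
        ring
    have k4 : l (Pi.single ⟨0, hr⟩ 1) = 0 := by
      by_contra h0
      have h1 := congrArg (Nm τ) k2
      have h2 := k3 (r - 1) (by omega)
      rw [nmul, nmul, ntau, h2, ← mul_assoc, ← pow_succ', hr1] at h1
      exact h (mul_right_cancel₀ (nne τ h0) h1)
    have k5 : ∀ (j : ℕ) (hj : j < r), l (Pi.single ⟨j, hj⟩ 1) = 0 := by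
      intro j
      induction j with
      | zero => intro hj; exact k4
      | succ j ih =>
        intro hj
        rw [k1 j hj, ih (by omega), map_zero, mul_zero]
    refine (Pi.basisFun F (Fin r)).ext fun i => ?_
    rw [Pi.basisFun_apply, LinearMap.zero_apply]
    exact k5 i.1 i.2
  · intro w hw
    have key : ∀ i : Fin r, ∑ j, Cn r t i j * τ (w j) = c * w i := fun i => congrFun hw i
    have k1 : ∀ (j : ℕ) (hj : j + 1 < r), τ (w ⟨j, by omega⟩) = c * w ⟨j + 1, hj⟩ := by
      intro j hj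
      rw [← key, cn_row1 t (⟨j + 1, hj⟩ : Fin r) (by simp) (fun j => τ (w j))]
      rfl
    have k2 : t * τ (w ⟨r - 1, by omega⟩) = c * w ⟨0, hr⟩ := by
      rw [← key, cn_row0 t (⟨0, hr⟩ : Fin r) rfl (fun j => τ (w j))]
    have k3 : ∀ (j : ℕ) (hj : j < r), Nm τ c ^ j * Nm τ (w ⟨j, hj⟩) = Nm τ (w ⟨0, hr⟩) := by
      intro j
      induction j with
      | zero => intro hj; rw [pow_zero, one_mul]
      | succ j ih =>
        intro hj
        have h1 := congrArg (Nm τ) (k1 j hj)
        rw [ntau, nmul] at h1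
        rw [← ih (by omega), h1, pow_succ]
        ring
    have k4 : w ⟨0, hr⟩ = 0 := by
      by_contra h0
      have h1 := congrArg (Nm τ) k2
      rw [nmul, nmul, ntau] at h1
      have h2 := k3 (r - 1) (by omega)
      apply h
      apply mul_right_cancel₀ (nne τ h0)
      calc Nm τ t * Nm τ (w ⟨0, hr⟩)
          = Nm τ t * (Nm τ c ^ (r - 1) * Nm τ (w ⟨r - 1, by omega⟩)) := by rw [h2]
        _ = Nm τ c ^ (r - 1) * (Nm τ t * Nm τ (w ⟨r - 1, by omega⟩)) := by ring
        _ = Nm τ c ^ (r - 1) * (Nm τ c * Nm τ (w ⟨0, hr⟩)) := by rw [h1]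
        _ = Nm τ c ^ ((r - 1) + 1) * Nm τ (w ⟨0, hr⟩) := by rw [pow_succ]; ring
        _ = Nm τ c ^ r * Nm τ (w ⟨0, hr⟩) := by rw [hr1]
    have k5 : ∀ (j : ℕ) (hj : j < r), w ⟨j, hj⟩ = 0 := by
      intro j
      induction j with
      | zero => intro hj; exact k4
      | succ j ih =>
        intro hj
        have h1 := k1 j hj
        rw [ih (by omega), map_zero] at h1
        exact (mul_eq_zero.1 h1.symm).resolve_left hc
    ext i
    exact k5 i.1 i.2

private lemma cn_mul_tr {r : ℕ} {s : F} (hs : s ≠ 0) : Cn r s⁻¹ * (Cn r s)ᵀ = 1 := by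
  ext i j
  have hi := i.2
  have hj := j.2
  rw [Matrix.mul_apply]
  simp only [Matrix.transpose_apply]
  by_cases h0 : (i : ℕ) = 0
  · rw [cn_row0 s⁻¹ i h0 (fun k => Cn r s j k)]
    simp only [Cn]
    have h1 : ¬ ((j : ℕ) = r - 1 + 1) := by omega
    have h2 : r - 1 + 1 = r := by omega
    rw [if_neg h1]
    by_cases h3 : (j : ℕ) = 0
    · rw [if_pos ⟨h2, h3⟩, inv_mul_cancel₀ hs]
      have : i = j := Fin.ext (by omega)
      rw [this, Matrix.one_apply_eq]
    · rw [if_neg (fun h' => h3 h'.2), mul_zero]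
      have : i ≠ j := fun h' => h3 (by rw [← h', h0])
      rw [Matrix.one_apply_ne this]
  · rw [cn_row1 s⁻¹ i h0 (fun k => Cn r s j k)]
    simp only [Cn]
    have h2 : ¬ ((i : ℕ) - 1 + 1 = r ∧ (j : ℕ) = 0) := by omega
    rw [if_neg h2]
    by_cases h3 : (j : ℕ) = i - 1 + 1
    · have : i = j := Fin.ext (by omega)
      rw [if_pos h3, this, Matrix.one_apply_eq]
    · have : i ≠ j := fun h' => h3 (by rw [← h']; omega)
      rw [if_neg h3, Matrix.one_apply_ne this]

private theorem b11 {ι : Type*} (X : Matrix ι ι F) (c : F) (i j : ι) :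
    Bl X c (Sum.inl i) (Sum.inl j) = X i j := rfl

private theorem b12 {ι : Type*} (X : Matrix ι ι F) (c : F) (i : ι) (j : Unit) :
    Bl X c (Sum.inl i) (Sum.inr j) = 0 := rfl

private theorem b21 {ι : Type*} (X : Matrix ι ι F) (c : F) (i : Unit) (j : ι) :
    Bl X c (Sum.inr i) (Sum.inl j) = 0 := rfl

private theorem b22 {ι : Type*} (X : Matrix ι ι F) (c : F) (i j : Unit) :
    Bl X c (Sum.inr i) (Sum.inr j) = c := rfl

private lemma bl_mul' {ι : Type*} [Fintype ι] (M N : Matrix ι ι F)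
    (c d : F) : Bl M c * Bl N d = Bl (M * N) (c * d) := by
  ext i j
  rcases i with i | i <;> rcases j with j | j <;>
    simp [Matrix.mul_apply, Fintype.sum_sum_type, b11, b12, b21, b22]

private lemma bl_tr {ι : Type*} (M : Matrix ι ι F) (c : F) : (Bl M c)ᵀ = Bl Mᵀ c := by
  ext i j
  rcases i with i | i <;> rcases j with j | j <;> simp [b11, b12, b21, b22]

private lemma bl_map' {ι : Type*} (σ : F ≃+* F) (M : Matrix ι ι F) (c : F) :
    (Bl M c).map σ = Bl (M.map σ) (σ c) := by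
  ext i j
  rcases i with i | i <;> rcases j with j | j <;> simp [b11, b12, b21, b22]

private lemma bl_one {ι : Type*} [DecidableEq ι] : Bl (1 : Matrix ι ι F) 1 = 1 := by
  ext i j
  rcases i with i | i <;> rcases j with j | j <;> simp [b11, b12, b21, b22, Matrix.one_apply]

private lemma cn_map (σ : F ≃+* F) (r : ℕ) (t : F) : (Cn r t).map σ = Cn r (σ t) := by
  ext i j
  simp only [Matrix.map_apply, Cn]
  split_ifs <;> simp

/-- inverse transpose of a monomial matrix -/
theorem cn_star (σ : F ≃+* F) (r : ℕ) (t c : F) (ht : t ≠ 0) (hc : c ≠ 0) :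
    Ds σ (Bl (Cn r t) c) = Bl (Cn r (σ (σ (σ t)))⁻¹) (σ (σ (σ c)))⁻¹ := by
  have ht' : σ t ≠ 0 := by simpa using ht
  have hc' : σ c ≠ 0 := by simpa using hc
  unfold Ds
  have e : (((Bl (Cn r t) c).map σ)ᵀ)⁻¹ = Bl (Cn r (σ t)⁻¹) (σ c)⁻¹ := by
    apply Matrix.inv_eq_left_inv
    rw [bl_map', cn_map, bl_tr, bl_mul', cn_mul_tr ht', inv_mul_cancel₀ hc', bl_one]
  rw [e, bl_map', cn_map]
  simp

end Pool.Agent.CTG
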