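import Pool.Agent.CTG.Norm

/-! Module GCN2: the equation `w = -Θ σ(w)^T` for a monomial `Θ` (helper96 for helper47). -/

set_option autoImplicit false

namespace Pool.Agent.CTG

open Matrix Pool.Agent.CTC

variable {F : Type*} [Field F]

/-- the nonzero entry of column `s` of `Cn r t`, `s` modulo `r` -/
private def th (r : ℕ) (t : F) (s : ℕ) : F := if (s + 1) % r = 0 then t else 1

private theorem th_per (r : ℕ) (t : F) (s : ℕ) : th r t (s + r) = th r t s := by
  unfold th
  have : (s + r + 1) % r = (s + 1) % r := by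
    rw [show s + r + 1 = (s + 1) + r by ring, Nat.add_mod_right]
  rw [this]

/-- the product over a period does not depend on the start -/
private theorem prod_per (r : ℕ) (f : ℕ → F) (hf : ∀ s, f (s + r) = f s) (hne : ∀ s, f s ≠ 0)
    (s : ℕ) : ∏ m ∈ Finset.range r, f (s + m) = ∏ m ∈ Finset.range r, f m := by
  induction s with
  | zero => simp
  | succ s ih =>
    rw [← ih]
    have h1 := Finset.prod_range_succ (fun m => f (s + m)) r
    have h2 := Finset.prod_range_succ' (fun m => f (s + m)) r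
    rw [h1, hf, Nat.add_zero] at h2
    have h3 := mul_right_cancel₀ (hne s) h2
    rw [h3]
    refine Finset.prod_congr rfl fun m _ => ?_
    congr 1
    ring

private theorem prod_th (r : ℕ) (hr : 1 ≤ r) (t : F) (g : F → F) (h1 : g 1 = 1) :
    ∏ m ∈ Finset.range r, g (th r t m) = g t := by
  obtain ⟨k, rfl⟩ : ∃ k, r = k + 1 := ⟨r - 1, by omega⟩
  rw [Finset.prod_range_succ]
  have e1 : ∏ m ∈ Finset.range k, g (th (k + 1) t m) = 1 := by
    refine Finset.prod_eq_one fun m hm => ?_
    rw [Finset.mem_range] at hm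
    unfold th
    rw [if_neg, h1]
    rw [Nat.mod_eq_of_lt (by omega)]
    omega
  rw [e1, one_mul]
  unfold th
  rw [Nat.mod_self, if_pos rfl]

/-- row `s + 1` of `Cn r t * M` is a multiple of row `s` of `M` -/
private theorem cn_row {κ : Type*} (r : ℕ) (hr : 0 < r) (t : F) (M : Matrix (Fin r) κ F) (s : ℕ)
    (k : κ) : (Cn r t * M) ⟨(s + 1) % r, Nat.mod_lt _ hr⟩ k =
      th r t s * M ⟨s % r, Nat.mod_lt _ hr⟩ k := by
  rw [Matrix.mul_apply, Finset.sum_eq_single (⟨s % r, Nat.mod_lt _ hr⟩ : Fin r)]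
  · congr 1
    unfold Cn th
    have h0 : s % r < r := Nat.mod_lt _ hr
    have h1 : (s + 1) % r = if s % r + 1 = r then 0 else s % r + 1 := by
      rw [Nat.add_mod, ]
      split_ifs with h
      · rcases Nat.lt_or_ge 1 r with h2 | h2
        · rw [Nat.mod_eq_of_lt h2, h, Nat.mod_self]
        · have : r = 1 := by omega
          subst this
          exact Nat.mod_one _
      · rw [Nat.mod_eq_of_lt (show 1 < r by omega), Nat.mod_eq_of_lt (by omega)]
    simp only
    by_cases h : s % r + 1 = r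
    · rw [if_pos h] at h1
      rw [if_neg (by omega), if_pos ⟨h, h1⟩, if_pos h1]
    · rw [if_neg h] at h1
      rw [if_pos h1, if_neg (by omega)]
  · rintro ⟨j, hj⟩ _ hne
    have h0 : s % r < r := Nat.mod_lt _ hr
    have h1 : (s + 1) % r = if s % r + 1 = r then 0 else s % r + 1 := by
      rw [Nat.add_mod, ]
      split_ifs with h
      · rcases Nat.lt_or_ge 1 r with h2 | h2
        · rw [Nat.mod_eq_of_lt h2, h, Nat.mod_self]
        · have : r = 1 := by omega
          subst this
          exact Nat.mod_one _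
      · rw [Nat.mod_eq_of_lt (show 1 < r by omega), Nat.mod_eq_of_lt (by omega)]
    have hne' : j ≠ s % r := fun h => hne (Fin.ext h)
    have : Cn r t ⟨(s + 1) % r, Nat.mod_lt _ hr⟩ ⟨j, hj⟩ = 0 := by
      unfold Cn
      simp only
      by_cases h : s % r + 1 = r
      · rw [if_pos h] at h1
        rw [if_neg (by omega), if_neg (by omega)]
      · rw [if_neg h] at h1
        rw [if_neg (by omega), if_neg (by omega)]
    rw [this, zero_mul]
  · intro h
    exact absurd (Finset.mem_univ _) h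

/-- a `τ`-twisted periodic sequence with a wrong norm vanishes -/
private theorem seq_zero [Finite F] (τ : F ≃+* F) (r : ℕ) (x a : ℕ → F)
    (hx : ∀ m, x (m + 1) = a m * τ (x m)) (hr : x r = x 0)
    (ha : ∏ m ∈ Finset.range r, Nm τ (a m) ≠ 1) : x 0 = 0 := by
  by_contra h0
  have h1 : ∀ k, Nm τ (x k) = (∏ m ∈ Finset.range k, Nm τ (a m)) * Nm τ (x 0) := by
    intro k
    induction k with
    | zero => simp
    | succ k ih =>
      rw [hx, nm_mul, nm_tau, ih, Finset.prod_range_succ]
      ring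
  have h2 := h1 r
  rw [hr] at h2
  apply ha
  have h3 := nm_ne τ _ h0
  field_simp at h2
  exact h2.symm

theorem cn_c2 [Finite F] (σ : F ≃+* F) (r : ℕ) (t c : F) (ht : t ≠ 0) (hc : c ≠ 0)
    (h1 : Nm (σ.trans σ) t * σ (Nm (σ.trans σ) t) ≠ 1)
    (h2 : Nm (σ.trans σ) c * σ (Nm (σ.trans σ) c) ≠ 1)
    (h3 : Nm (σ.trans σ) t * σ (Nm (σ.trans σ) c) ^ r ≠ 1)
    (w : Matrix (Fin r ⊕ Unit) (Fin r ⊕ Unit) F)
    (hw : w = -(Bl (Cn r t) c * (w.map σ)ᵀ)) : w = 0 := by
  have hcomm : ∀ x, σ (Nm (σ.trans σ) x) = Nm (σ.trans σ) (σ x) := fun x =>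
    nm_comm σ (σ.trans σ) (fun z => rfl) x
  have hone : Nm (σ.trans σ) (1 : F) = 1 := by
    unfold Nm
    exact Finset.prod_eq_one fun i _ => map_one _
  -- the rows
  have er : ∀ (i : Unit) (k : Fin r ⊕ Unit), w (Sum.inr i) k = -(c * σ (w k (Sum.inr i))) := by
    intro i k
    conv_lhs => rw [hw]
    rw [Matrix.neg_apply]
    congr 1
    rw [Matrix.mul_apply, Fintype.sum_sum_type]
    simp [Bl, Matrix.fromBlocks, Matrix.transpose_apply, Matrix.map_apply]
  have el : ∀ (hr : 0 < r) (s : ℕ) (k : Fin r ⊕ Unit),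
      w (Sum.inl ⟨(s + 1) % r, Nat.mod_lt _ hr⟩) k =
        -(th r t s * σ (w k (Sum.inl ⟨s % r, Nat.mod_lt _ hr⟩))) := by
    intro hr s k
    conv_lhs => rw [hw]
    rw [Matrix.neg_apply]
    congr 1
    have e2 : (Bl (Cn r t) c * (w.map σ)ᵀ) (Sum.inl ⟨(s + 1) % r, Nat.mod_lt _ hr⟩) k =
        (Cn r t * (Matrix.of fun (j : Fin r) (k : Fin r ⊕ Unit) => σ (w k (Sum.inl j))))
          ⟨(s + 1) % r, Nat.mod_lt _ hr⟩ k := by
      rw [Matrix.mul_apply, Matrix.mul_apply, Fintype.sum_sum_type]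
      simp [Bl, Matrix.fromBlocks, Matrix.transpose_apply, Matrix.map_apply]
    rw [e2, cn_row r hr t _ s k]
    rfl
  have hrr : w (Sum.inr ()) (Sum.inr ()) = 0 := by
    refine seq_zero (σ.trans σ) 1 (fun _ => w (Sum.inr ()) (Sum.inr ())) (fun _ => c * σ c) ?_ rfl ?_
    · intro m
      show w (Sum.inr ()) (Sum.inr ()) = c * σ c * σ (σ (w (Sum.inr ()) (Sum.inr ())))
      conv_lhs => rw [er, er]
      rw [map_neg, map_mul]
      ring
    · rw [Finset.prod_range_one, nm_mul, ← hcomm]
      exact h2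
  have hlr : ∀ i : Fin r, w (Sum.inl i) (Sum.inr ()) = 0 := by
    intro i
    have hr : 0 < r := i.pos
    have key := seq_zero (σ.trans σ) r
      (fun m => w (Sum.inl ⟨(i.val + m) % r, Nat.mod_lt _ hr⟩) (Sum.inr ()))
      (fun m => th r t (i.val + m) * σ c) ?_ ?_ ?_
    · simp only [Nat.add_zero] at key
      have e : (⟨i.val % r, Nat.mod_lt _ hr⟩ : Fin r) = i := Fin.ext (Nat.mod_eq_of_lt i.isLt)
      rwa [e] at key
    · intro m
      show w (Sum.inl ⟨(i.val + (m + 1)) % r, Nat.mod_lt _ hr⟩) (Sum.inr ()) =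
        th r t (i.val + m) * σ c * σ (σ (w (Sum.inl ⟨(i.val + m) % r, Nat.mod_lt _ hr⟩)
          (Sum.inr ())))
      have e3 := el hr (i.val + m) (Sum.inr ())
      rw [show i.val + (m + 1) = i.val + m + 1 by ring, e3, er, map_neg, map_mul]
      ring
    · simp
    · have e4 : ∏ m ∈ Finset.range r, Nm (σ.trans σ) (th r t (i.val + m) * σ c) =
          (∏ m ∈ Finset.range r, Nm (σ.trans σ) (th r t (i.val + m))) *
            σ (Nm (σ.trans σ) c) ^ r := by
        simp_rw [nm_mul]
        rw [Finset.prod_mul_distrib, Finset.prod_const, Finset.card_range, ← hcomm]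
      rw [e4, prod_per r (fun m => Nm (σ.trans σ) (th r t m)) (fun s => by
        show Nm (σ.trans σ) (th r t (s + r)) = _
        rw [th_per]) (fun s => nm_ne _ _ (by unfold th; split_ifs; exacts [ht, one_ne_zero])),
        prod_th r hr t _ hone]
      exact h3
  have hrl : ∀ i : Fin r, w (Sum.inr ()) (Sum.inl i) = 0 := by
    intro i
    rw [er, hlr, map_zero, mul_zero, neg_zero]
  have hll : ∀ i j : Fin r, w (Sum.inl i) (Sum.inl j) = 0 := by
    intro i j
    have hr : 0 < r := i.pos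
    have key := seq_zero (σ.trans σ) r
      (fun m => w (Sum.inl ⟨(i.val + m) % r, Nat.mod_lt _ hr⟩)
        (Sum.inl ⟨(j.val + m) % r, Nat.mod_lt _ hr⟩))
      (fun m => th r t (i.val + m) * σ (th r t (j.val + m))) ?_ ?_ ?_
    · simp only [Nat.add_zero] at key
      have e : (⟨i.val % r, Nat.mod_lt _ hr⟩ : Fin r) = i := Fin.ext (Nat.mod_eq_of_lt i.isLt)
      have e' : (⟨j.val % r, Nat.mod_lt _ hr⟩ : Fin r) = j := Fin.ext (Nat.mod_eq_of_lt j.isLt)
      rwa [e, e'] at key
    · intro m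
      show w (Sum.inl ⟨(i.val + (m + 1)) % r, Nat.mod_lt _ hr⟩)
          (Sum.inl ⟨(j.val + (m + 1)) % r, Nat.mod_lt _ hr⟩) =
        th r t (i.val + m) * σ (th r t (j.val + m)) *
          σ (σ (w (Sum.inl ⟨(i.val + m) % r, Nat.mod_lt _ hr⟩)
            (Sum.inl ⟨(j.val + m) % r, Nat.mod_lt _ hr⟩)))
      have e3 := el hr (i.val + m) (Sum.inl ⟨(j.val + m + 1) % r, Nat.mod_lt _ hr⟩)
      have e5 := el hr (j.val + m) (Sum.inl ⟨(i.val + m) % r, Nat.mod_lt _ hr⟩)
      rw [show i.val + (m + 1) = i.val + m + 1 by ring,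
        show j.val + (m + 1) = j.val + m + 1 by ring, e3, e5, map_neg, map_mul]
      ring
    · simp
    · have e4 : ∏ m ∈ Finset.range r, Nm (σ.trans σ) (th r t (i.val + m) *
          σ (th r t (j.val + m))) =
          (∏ m ∈ Finset.range r, Nm (σ.trans σ) (th r t (i.val + m))) *
            ∏ m ∈ Finset.range r, σ (Nm (σ.trans σ) (th r t (j.val + m))) := by
        simp_rw [nm_mul, ← hcomm]
        rw [Finset.prod_mul_distrib]
      have hne : ∀ s, Nm (σ.trans σ) (th r t s) ≠ 0 := fun s =>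
        nm_ne _ _ (by unfold th; split_ifs; exacts [ht, one_ne_zero])
      rw [e4, prod_per r (fun m => Nm (σ.trans σ) (th r t m)) (fun s => by
        show Nm (σ.trans σ) (th r t (s + r)) = _
        rw [th_per]) hne,
        prod_per r (fun m => σ (Nm (σ.trans σ) (th r t m))) (fun s => by
        show σ (Nm (σ.trans σ) (th r t (s + r))) = _
        rw [th_per]) (fun s => by
          intro h
          exact hne s ((map_eq_zero_iff σ σ.injective).1 h)),
        prod_th r hr t _ hone,
        prod_th r hr t (fun x => σ (Nm (σ.trans σ) x)) (by rw [hone, map_one])]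
      exact h1
  ext i j
  rw [Matrix.zero_apply]
  rcases i with i | i
  · rcases j with j | j
    · exact hll i j
    · exact hlr i
  · rcases j with j | j
    · exact hrl j
    · exact hrr

end Pool.Agent.CTG
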