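import Pool.Agent.CTG.Defs
import Pool.Agent.CTC.Asm

/-! Factorization of semilinear maps into two given classes (helper47). -/

set_option autoImplicit false

namespace Pool.Agent.CTG

open Module Matrix Pool.Agent.CTC

variable {F : Type*} [Field F]

theorem ml2 [Finite F] {m : ℕ} (hm : 1 ≤ m) (σ : F ≃+* F)
    (Θ : (Fin m → F) →+ (Fin m → F)) (hΘ : SL σ Θ) (hΘi : Function.Injective Θ)
    (e : Fin m → F) (he : ∀ W : Submodule F (Fin m → F), e ∈ W → (∀ w ∈ W, Θ w ∈ W) → W = ⊤)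
    (ME : Matrix (Fin m) (Fin m) F) (hME : ∀ v, Θ v = sm σ ME v)
    (hε : ME.det ≠ 0) (c : F) (hc : c ≠ 0)
    (Θ₂ : (Fin m → F) →+ (Fin m → F)) (hΘ₂ : SL σ Θ₂)
    (e₂ : Fin m → F) (he₂ : ∀ W : Submodule F (Fin m → F), e₂ ∈ W → (∀ w ∈ W, Θ₂ w ∈ W) → W = ⊤)
    (ME₂ : Matrix (Fin m) (Fin m) F) (hME₂ : ∀ v, Θ₂ v = sm σ ME₂ v)
    (hε₂ : ME₂.det ≠ 0) (c₂ : F) (hc₂ : c₂ ≠ 0)
    (hHom : ∀ l : (Fin m → F) →ₗ[F] F, (∀ z, l (Θ₂ z) = c₂ * σ (l z)) → l = 0)
    (hKer : ∀ w : Fin m → F, Θ w = c • w → w = 0)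
    (B : Matrix (Fin m ⊕ Unit) (Fin m ⊕ Unit) F)
    (hB : B.det = (ME.det * c) * σ (ME₂.det * c₂))
    (hns : ¬ ((∀ z, σ (σ z) = z) ∧ ∃ b : F, B = b • (1 : Matrix _ _ F))) :
    ∃ a b P Q : Matrix (Fin m ⊕ Unit) (Fin m ⊕ Unit) F, a.det = 1 ∧ b.det = 1 ∧
      P * a.map σ = a * Mo ME c ∧ Q * b.map σ = b * Mo ME₂ c₂ ∧ B = P * Q.map σ := by
  classical
  set X := Mo ME₂ c₂ with hX
  have hXdet : X.det = ME₂.det * c₂ := det_Mo ME₂ c₂
  have hX0 : X.det ≠ 0 := by rw [hXdet]; exact mul_ne_zero hε₂ hc₂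
  have hB0 : B.det ≠ 0 := by
    rw [hB]; exact mul_ne_zero (mul_ne_zero hε hc) (by simp [hε₂, hc₂])
  set τ := σ.trans σ with hτ
  set A := sm τ B with hA
  have hAi : Function.Injective A := sm_injective τ hB0
  have hAs : Function.Surjective A := Finite.surjective_of_injective hAi
  have hASL : SL τ A := sm_sl τ B
  obtain ⟨φ, v₁, hv₁, hAv₁⟩ := exists_hyp (V := Fin m ⊕ Unit → F) τ (by
    rw [finrank_pi]; simp; omega) A hASL hAi (by
    rintro ⟨h1, b, hb⟩
    apply hns
    refine ⟨h1, b, ?_⟩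
    apply Matrix.ext_of_mulVec_single
    intro i
    have h2 := hb (Pi.single i 1)
    rw [hA, sm_apply] at h2
    have h3 : (fun j => τ ((Pi.single i 1 : Fin m ⊕ Unit → F) j)) = Pi.single i 1 := by
      ext j
      by_cases hj : j = i
      · subst hj; simp
      · simp [hj]
    rw [h3] at h2
    rw [h2, Matrix.smul_mulVec, Matrix.one_mulVec])
  have hφ0 : φ ≠ 0 := by
    intro h
    rw [h] at hAv₁
    exact hAv₁ rfl
  have hker : finrank F (LinearMap.ker φ) = m := by
    have h1 := Module.Dual.finrank_ker_add_one_of_ne_zero (f := φ) hφ0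
    rw [finrank_pi] at h1
    simp at h1
    exact h1
  obtain ⟨J, I, h, hJH, hIJ, hJI, hmem, hspan, hind, hstep, hlast⟩ :=
    build σ τ A hASL hAi Θ hΘ hΘi e he m (by simp) (by omega) φ hker v₁ hv₁ hAv₁
  -- the vector r
  obtain ⟨r, hr0⟩ := hAs (J (Θ (I (h 0))))
  have hφr : φ r ≠ 0 := by
    intro h0
    obtain ⟨a, ha⟩ := hspan r h0
    obtain ⟨m', rfl⟩ : ∃ m', m = m' + 1 := ⟨m - 1, by omega⟩
    have h3 : φ (A r) = 0 := by rw [hr0]; exact hJH _
    rw [ha, hASL.sum, map_sum, Finset.sum_range_succ, Finset.sum_eq_zero, zero_add, map_smul,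
      smul_eq_mul] at h3
    swap
    · intro j hj
      rw [map_smul, (hstep j (by have := Finset.mem_range.1 hj; omega)).1, smul_zero]
    have h1 : a m' = 0 := by
      have h4 := (mul_eq_zero.1 h3).resolve_right hlast
      simpa using h4
    have h5 : Θ (I (h 0)) = Θ (∑ j ∈ Finset.range m', σ (a j) • I (h (j + 1))) := by
      have h6 : I (A r) = Θ (I (h 0)) := by rw [hr0]; exact hIJ _
      rw [← h6, ha, hASL.sum, map_sum, Finset.sum_range_succ, h1, map_zero, zero_smul, map_zero,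
        add_zero, hΘ.sum]
      apply Finset.sum_congr rfl
      intro j hj
      rw [map_smul, (hstep j (by have := Finset.mem_range.1 hj; omega)).2, hIJ]
      rfl
    have h7 := hΘi h5
    have h8 : h 0 - ∑ j ∈ Finset.range m', σ (a j) • h (j + 1) = 0 := by
      have h9 : φ (h 0 - ∑ j ∈ Finset.range m', σ (a j) • h (j + 1)) = 0 := by
        rw [map_sub, hmem 0 (by omega), map_sum, Finset.sum_eq_zero, sub_zero]
        intro j hj
        rw [map_smul, hmem (j + 1) (by have := Finset.mem_range.1 hj; omega), smul_zero]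
      rw [← hJI _ h9, map_sub, map_sum, h7]
      have : ∑ j ∈ Finset.range m', I (σ (a j) • h (j + 1)) =
          ∑ j ∈ Finset.range m', σ (a j) • I (h (j + 1)) :=
        Finset.sum_congr rfl fun j _ => map_smul _ _ _
      rw [this, sub_self, map_zero]
    have h9 := hind (fun j => if j = 0 then 1 else - σ (a (j - 1))) (by
      rw [Finset.sum_range_succ']
      simp only [Nat.add_eq_zero_iff, one_ne_zero, and_false, if_false, if_true,
        Nat.add_sub_cancel, neg_smul, Finset.sum_neg_distrib, one_smul]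
      rw [← h8]
      abel) 0 (by omega)
    simp at h9
  -- the basis
  set CH : Fin m ⊕ Unit → (Fin m ⊕ Unit → F) := Sum.elim (fun j => h j) (fun _ => r) with hCH
  have hHm : (Mat CH).det ≠ 0 := by
    intro h0
    obtain ⟨x, hx, hx0⟩ := Matrix.exists_mulVec_eq_zero_iff.2 h0
    rw [mat_mulVec, Fintype.sum_sum_type] at hx0
    simp only [hCH, Sum.elim_inl, Sum.elim_inr, Finset.univ_unique, Finset.sum_singleton] at hx0
    have h1 := congrArg φ hx0
    rw [map_add, map_sum, Finset.sum_eq_zero, zero_add, map_smul, map_zero, smul_eq_mul] at h1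
    swap
    · intro j _
      rw [map_smul, hmem j j.2, smul_zero]
    have h2 : x (Sum.inr ()) = 0 := (mul_eq_zero.1 h1).resolve_right hφr
    have h3 : x (Sum.inr default) = 0 := h2
    rw [h3, zero_smul, add_zero] at hx0
    have h4 := hind (fun j => if hj : j < m then x (Sum.inl ⟨j, hj⟩) else 0) (by
      rw [Finset.sum_range, ← hx0]
      apply Finset.sum_congr rfl
      intro j _
      simp)
    apply hx
    ext k
    rcases k with j | j
    · have := h4 j j.2
      simpa using this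
    · exact h2
  obtain ⟨u, hu, hudet⟩ := exists_cyc_gen σ (by omega) Θ₂ hΘ₂ e₂ he₂ c₂ hHom (Mat CH).det
  set CU : Fin m ⊕ Unit → (Fin m ⊕ Unit → F) := Sum.elim (fun j : Fin m => u (j + 1))
    (fun _ => u 0) with hCU
  have hU0 : IsUnit (Mat CU).det := by rw [hudet]; exact isUnit_iff_ne_zero.2 hHm
  have hu' : ∀ j, u (j + 1) = sm σ X (u j) := by
    intro j
    rw [hu, hX, sm_Mo, hME₂]
  set b := Mat CH * (Mat CU)⁻¹ with hb
  have hbdet : b.det = 1 := by
    rw [hb, Matrix.det_mul, Matrix.det_nonsing_inv, hudet, Ring.inverse_eq_inv',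
      mul_inv_cancel₀ hHm]
  have hbU : b * Mat CU = Mat CH := by
    rw [hb, Matrix.nonsing_inv_mul_cancel_right _ _ hU0]
  have hbk : ∀ k, b *ᵥ (CU k) = CH k := by
    intro k
    have h1 : Mat CU *ᵥ (Pi.single k 1) = CU k := by
      ext i; simp [Mat]
    have h2 : Mat CH *ᵥ (Pi.single k 1) = CH k := by
      ext i; simp [Mat]
    rw [← h1, Matrix.mulVec_mulVec, hbU, h2]
  have hbσ : IsUnit (b.map σ).det := by
    rw [CTC.det_map', hbdet, map_one]; exact isUnit_one
  obtain ⟨Q, hQb⟩ : ∃ Q : Matrix (Fin m ⊕ Unit) (Fin m ⊕ Unit) F, Q * b.map σ = b * X :=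
    ⟨b * X * (b.map σ)⁻¹, by rw [Matrix.nonsing_inv_mul_cancel_right _ _ hbσ]⟩
  have hQdet : Q.det = ME₂.det * c₂ := by
    have h1 := congrArg Matrix.det hQb
    rw [Matrix.det_mul, Matrix.det_mul, CTC.det_map', hbdet, map_one, mul_one, one_mul, hXdet] at h1
    exact h1
  have hQX : ∀ w, sm σ Q (b *ᵥ w) = b *ᵥ (sm σ X w) := by
    intro w
    rw [sm_mulVec, hQb, ← mulVec_sm]
  have hQσ : IsUnit (Q.map σ).det := by
    rw [CTC.det_map', hQdet]
    exact isUnit_iff_ne_zero.2 (by simp [hε₂, hc₂])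
  obtain ⟨P, hPQ⟩ : ∃ P : Matrix (Fin m ⊕ Unit) (Fin m ⊕ Unit) F, P * Q.map σ = B :=
    ⟨B * (Q.map σ)⁻¹, by rw [Matrix.nonsing_inv_mul_cancel_right _ _ hQσ]⟩
  have hPdet : P.det = ME.det * c := by
    have h1 := congrArg Matrix.det hPQ
    rw [Matrix.det_mul, CTC.det_map', hQdet, hB] at h1
    have h2 : σ (ME₂.det * c₂) ≠ 0 := by simp [hε₂, hc₂]
    exact mul_right_cancel₀ h2 h1
  have hYX : ∀ v, sm σ P (sm σ Q v) = A v := by
    intro v
    rw [sm_sm, hPQ]
  set Y := sm σ P with hY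
  have hYSL : SL σ Y := sm_sl σ P
  have hYh : ∀ j, j < m → Y (h j) = J (Θ (I (h j))) := by
    intro j hj
    rcases j with _ | j
    · have h1 : sm σ Q r = h 0 := by
        have h2 := hQX (u 0)
        rw [← hu'] at h2
        have h3 := hbk (Sum.inr ())
        have h4 := hbk (Sum.inl ⟨0, hj⟩)
        simp only [hCU, hCH, Sum.elim_inl, Sum.elim_inr] at h3 h4
        rw [h3, h4] at h2
        exact h2
      rw [← h1, hYX, hr0, h1]
    · have h1 : sm σ Q (h j) = h (j + 1) := by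
        have h2 := hQX (u (j + 1))
        rw [← hu'] at h2
        have h3 := hbk (Sum.inl ⟨j, by omega⟩)
        have h4 := hbk (Sum.inl ⟨j + 1, hj⟩)
        simp only [hCU, hCH, Sum.elim_inl] at h3 h4
        rw [h3, h4] at h2
        exact h2
      have h2 := hYX (h j)
      rw [h1] at h2
      rw [h2, (hstep j hj).2]
  have hYJ : ∀ z, Y (J z) = J (Θ z) := by
    intro z
    obtain ⟨a, ha⟩ := hspan (J z) (hJH z)
    have h1 : z = ∑ j ∈ Finset.range m, a j • I (h j) := by
      rw [← hIJ z, ha, map_sum]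
      exact Finset.sum_congr rfl fun j _ => map_smul _ _ _
    rw [ha, hYSL.sum]
    conv_rhs => rw [h1, hΘ.sum, map_sum]
    apply Finset.sum_congr rfl
    intro j hj
    rw [map_smul, hYh j (Finset.mem_range.1 hj)]
  -- the eigenvector
  set μ := (φ r)⁻¹ * φ (Y r) with hμ
  have hw : φ (Y r - μ • r) = 0 := by
    rw [map_sub, map_smul, smul_eq_mul, hμ]
    field_simp
    ring
  have hsumJ : ∀ x : Fin m → F, ∑ j, x j • J (Pi.single j 1) = J x := by
    intro x
    have h1 : x = ∑ j, x j • (Pi.single j 1 : Fin m → F) := by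
      ext i
      simp [Finset.sum_apply, Pi.single_apply]
    conv_rhs => rw [h1, map_sum]
    exact Finset.sum_congr rfl fun j _ => (map_smul _ _ _).symm
  have key : ∀ (t : Fin m ⊕ Unit → F) (w : Fin m → F), φ t ≠ 0 → Y t = μ • t + J w →
      (Mat (Sum.elim (fun j => J (Pi.single j 1)) (fun _ => t))).det ≠ 0 ∧
      P * (Mat (Sum.elim (fun j => J (Pi.single j 1)) (fun _ => t))).map σ =
        Mat (Sum.elim (fun j => J (Pi.single j 1)) (fun _ => t)) *
          Matrix.fromBlocks ME (fun i _ => w i) 0 (fun _ _ => μ) ∧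
      ME.det * c * σ (Mat (Sum.elim (fun j => J (Pi.single j 1)) (fun _ => t))).det =
        (Mat (Sum.elim (fun j => J (Pi.single j 1)) (fun _ => t))).det * (ME.det * μ) := by
    intro t w hφt hYt
    set CA : Fin m ⊕ Unit → (Fin m ⊕ Unit → F) := Sum.elim (fun j => J (Pi.single j 1))
      (fun _ => t) with hCA
    have hCAv : ∀ x : Fin m ⊕ Unit → F, Mat CA *ᵥ x =
        J (fun j => x (Sum.inl j)) + x (Sum.inr ()) • t := by
      intro x
      rw [mat_mulVec, Fintype.sum_sum_type]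
      simp only [hCA, Sum.elim_inl, Sum.elim_inr, Finset.univ_unique, Finset.sum_singleton]
      rw [hsumJ (fun j => x (Sum.inl j))]
    have hδ : (Mat CA).det ≠ 0 := by
      intro h0
      obtain ⟨x, hx, hx0⟩ := Matrix.exists_mulVec_eq_zero_iff.2 h0
      rw [hCAv] at hx0
      have h1 := congrArg φ hx0
      rw [map_add, hJH, zero_add, map_smul, map_zero, smul_eq_mul] at h1
      have h2 : x (Sum.inr ()) = 0 := (mul_eq_zero.1 h1).resolve_right hφt
      rw [h2, zero_smul, add_zero] at hx0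
      have h3 := congrArg I hx0
      rw [hIJ, map_zero] at h3
      apply hx
      ext k
      rcases k with j | j
      · exact congrFun h3 j
      · exact h2
    have hPA : P * (Mat CA).map σ =
        Mat CA * Matrix.fromBlocks ME (fun i _ => w i) 0 (fun _ _ => μ) := by
      apply Matrix.ext_of_mulVec_single
      intro k
      rw [← Matrix.mulVec_mulVec, ← Matrix.mulVec_mulVec]
      have h1 : ((Mat CA).map σ) *ᵥ (Pi.single k 1) = fun i => σ (CA k i) := by
        ext i; simp [Mat]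
      rw [h1]
      have h2 : P *ᵥ (fun i => σ (CA k i)) = Y (CA k) := rfl
      rw [h2, hCAv]
      rcases k with j | j
      · simp only [hCA, Sum.elim_inl]
        rw [hYJ, hME]
        have h4 : ((Matrix.fromBlocks ME (fun i _ => w i) 0 (fun _ _ => μ) :
          Matrix (Fin m ⊕ Unit) (Fin m ⊕ Unit) F) *ᵥ
          Pi.single (Sum.inl j) 1) (Sum.inr ()) = 0 := by simp
        rw [h4, zero_smul, add_zero]
        congr 1
        ext i
        rw [sm_apply]
        have h5 : (fun i' => σ ((Pi.single j 1 : Fin m → F) i')) = Pi.single j 1 := by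
          ext i'
          by_cases hj : i' = j
          · subst hj; simp
          · simp [hj]
        rw [h5]
        simp
      · have h3 : (fun i => ((Matrix.fromBlocks ME (fun i _ => w i) 0 (fun _ _ => μ) :
            Matrix (Fin m ⊕ Unit) (Fin m ⊕ Unit) F) *ᵥ
            Pi.single (Sum.inr j) 1) (Sum.inl i)) = w := by
          ext i; simp
        have h4 : ((Matrix.fromBlocks ME (fun i _ => w i) 0 (fun _ _ => μ) :
            Matrix (Fin m ⊕ Unit) (Fin m ⊕ Unit) F) *ᵥ
            Pi.single (Sum.inr j) 1) (Sum.inr ()) = μ := by simp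
        rw [h3, h4, add_comm]
        exact hYt
    refine ⟨hδ, hPA, ?_⟩
    have h1 := congrArg Matrix.det hPA
    rw [Matrix.det_mul, Matrix.det_mul, CTC.det_map', hPdet, Matrix.det_fromBlocks_zero₂₁] at h1
    rw [h1]
    congr 2
    simp [Matrix.det_unique]
  obtain ⟨hδ1, -, hμ1⟩ := key r (I (Y r - μ • r)) hφr (by rw [hJI _ hw]; abel)
  have hinj : Function.Injective (fun z : Fin m → F => Θ z - μ • z) := by
    intro z z' h
    have h1 : Θ (z - z') = μ • (z - z') := by
      simp only at h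
      rw [map_sub, smul_sub, sub_eq_sub_iff_sub_eq_sub.1 h]
    set δ := (Mat (Sum.elim (fun j => J (Pi.single j 1)) (fun _ => r))).det with hδd
    have h2 : Θ (δ⁻¹ • (z - z')) = c • (δ⁻¹ • (z - z')) := by
      rw [hΘ, h1, smul_smul, smul_smul]
      congr 1
      have h3 : σ δ ≠ 0 := by simpa using hδ1
      rw [map_inv₀]
      field_simp
      have h4 : ME.det * (c * σ δ) = ME.det * (δ * μ) := by linear_combination hμ1
      have h5 := mul_left_cancel₀ hε h4
      linear_combination -h5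
    have h3 := hKer _ h2
    rcases smul_eq_zero.1 h3 with h4 | h4
    · exact absurd h4 (inv_ne_zero hδ1)
    · exact sub_eq_zero.1 h4
  obtain ⟨z₀, hz₀⟩ := Finite.surjective_of_injective hinj (I (Y r - μ • r))
  simp only at hz₀
  set t := r - J z₀ with ht
  have hφt : φ t = φ r := by rw [ht, map_sub, hJH, sub_zero]
  have hYt : Y t = μ • t := by
    have h1 : J (Θ z₀ - μ • z₀) = Y r - μ • r := by rw [hz₀, hJI _ hw]
    rw [map_sub, map_smul, sub_eq_sub_iff_add_eq_add] at h1
    rw [ht, map_sub, hYJ, smul_sub, sub_eq_sub_iff_add_eq_add, ← h1, add_comm]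
  obtain ⟨hδ, hPA, hμ0⟩ := key t 0 (by rw [hφt]; exact hφr) (by rw [map_zero, add_zero, hYt])
  have hMo : Matrix.fromBlocks ME (fun i _ => (0 : Fin m → F) i) 0 (fun _ _ => μ) = Mo ME μ := rfl
  rw [hMo] at hPA
  set CA : Fin m ⊕ Unit → (Fin m ⊕ Unit → F) := Sum.elim (fun j => J (Pi.single j 1))
    (fun _ => t) with hCA
  refine ⟨Mat CA * Mo 1 (Mat CA).det⁻¹, b, P, Q, ?_, hbdet, ?_, hQb, hPQ.symm⟩
  · rw [Matrix.det_mul, det_Mo, Matrix.det_one, one_mul, mul_inv_cancel₀ hδ]
  · have h1 : (Mat CA * Mo 1 (Mat CA).det⁻¹).map σ = (Mat CA).map σ * Mo 1 (σ (Mat CA).det)⁻¹ := by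
      rw [Matrix.map_mul, Mo_map, map_inv₀, Matrix.map_one _ (map_zero σ) (map_one σ)]
    rw [h1, ← mul_assoc, hPA, mul_assoc, mul_assoc, Mo_mul, Mo_mul, mul_one, one_mul]
    congr 2
    have h2 : σ (Mat CA).det ≠ 0 := by simpa using hδ
    field_simp
    have h3 : ME.det * (c * σ (Mat CA).det) = ME.det * ((Mat CA).det * μ) := by
      linear_combination hμ0
    have h4 := mul_left_cancel₀ hε h3
    linear_combination -h4


/-- two classes `X' ⊕ c'`, `X ⊕ c` -/
theorem factP_bl [Finite F] (τ : F ≃+* F) {r : ℕ} (hr : 1 ≤ r) (X' X : Matrix (Fin r) (Fin r) F)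
    (c' c : F) (hX' : X'.det ≠ 0) (hX : X.det ≠ 0) (hc' : c' ≠ 0) (hc : c ≠ 0) (h' : Cy τ X')
    (h : Cy τ X) (hn' : NC τ X' c') (hn : NC τ X c) : FactP τ (Bl X' c') (Bl X c) := by
  obtain ⟨e', he'⟩ := h'
  obtain ⟨e, he⟩ := h
  intro M hM hns
  have hdet : (Bl X c).det = X.det * c := det_Mo X c
  have hdet' : (Bl X' c').det = X'.det * c' := det_Mo X' c'
  obtain ⟨a, b, P, Q, ha, hb, hP, hQ, hMPQ⟩ := ml2 hr τ (sm τ X') (sm_sl τ X')
    (sm_injective τ hX') e' he' X' (fun _ => rfl) hX' c' hc' (sm τ X) (sm_sl τ X) e he X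
    (fun _ => rfl) hX c hc hn.1 hn'.2 M (by rw [hM, hdet, hdet']) (by
      rintro ⟨h1, h2⟩
      apply hns
      refine ⟨?_, h1, h2⟩
      simp
      omega)
  exact ⟨a, b, P, Q, by rw [ha]; exact one_ne_zero, by rw [hb]; exact one_ne_zero, hP, hQ, hMPQ,
    ha, hb⟩

theorem factP_one {ι : Type*} [Fintype ι] [DecidableEq ι] (hι : Fintype.card ι = 1)
    (τ : F ≃+* F) (Θ' Θ : Matrix ι ι F) : FactP τ Θ' Θ := by
  intro M hM _
  refine ⟨1, 1, Θ', Θ, ?_, ?_, ?_, ?_, ?_, ?_, ?_⟩
  · rw [Matrix.det_one]; exact one_ne_zero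
  · rw [Matrix.det_one]; exact one_ne_zero
  · rw [Matrix.map_one _ (map_zero τ) (map_one τ), mul_one, one_mul]
  · rw [Matrix.map_one _ (map_zero τ) (map_one τ), mul_one, one_mul]
  · ext i j
    have hsub : Subsingleton ι := Fintype.card_le_one_iff_subsingleton.1 hι.le
    have hj : j = i := Subsingleton.elim _ _
    subst hj
    rw [Matrix.det_eq_elem_of_card_eq_one hι j, Matrix.det_eq_elem_of_card_eq_one hι j,
      Matrix.det_eq_elem_of_card_eq_one hι j] at hM
    have hu : (Finset.univ : Finset ι) = {j} := by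
      ext k; simp [Subsingleton.elim k j]
    rw [hM, Matrix.mul_apply, hu, Finset.sum_singleton, Matrix.map_apply]
  · rw [Matrix.det_one]
  · rw [Matrix.det_one]

end Pool.Agent.CTG
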