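import Pool.Agent.CTG.Defs

/-! Norms of automorphisms of finite fields (CTG, module GNORM). -/

set_option autoImplicit false

namespace Pool.Agent.CTG

open Matrix Pool.Agent.CTC

variable {F : Type*} [Field F]

theorem nm_mul (τ : F ≃+* F) (x y : F) : Nm τ (x * y) = Nm τ x * Nm τ y := by
  unfold Nm
  rw [← Finset.prod_mul_distrib]
  exact Finset.prod_congr rfl fun i _ => map_mul _ _ _

theorem nm_ne [Finite F] (τ : F ≃+* F) (x : F) (hx : x ≠ 0) : Nm τ x ≠ 0 := by
  unfold Nm
  exact Finset.prod_ne_zero_iff.2 fun i _ => (map_ne_zero (τ ^ i)).2 hx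

private lemma pow_succ_apply (τ : F ≃+* F) (i : ℕ) (x : F) : (τ ^ (i + 1)) x = τ ((τ ^ i) x) := by
  rw [pow_succ']
  rfl

private lemma pow_succ_apply' (τ : F ≃+* F) (i : ℕ) (x : F) : (τ ^ (i + 1)) x = (τ ^ i) (τ x) := by
  rw [pow_succ]
  rfl

private lemma prod_shift [Finite F] (τ : F ≃+* F) (x : F) :
    ∏ i ∈ Finset.range (orderOf τ), (τ ^ (i + 1)) x = Nm τ x := by
  have h0 : 0 < orderOf τ := by
    have : Finite (F ≃+* F) := Finite.of_injective (fun e : F ≃+* F => (e : F → F))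
      fun e e' h => RingEquiv.ext fun z => congrFun h z
    exact orderOf_pos τ
  unfold Nm
  obtain ⟨n, hn⟩ := Nat.exists_eq_succ_of_ne_zero h0.ne'
  have h1 : (τ ^ (n + 1)) x = (τ ^ 0) x := by
    have h2 : τ ^ (n + 1) = 1 := by
      rw [← Nat.succ_eq_add_one, ← hn]
      exact pow_orderOf_eq_one τ
    rw [h2, pow_zero]
  rw [hn, Nat.succ_eq_add_one, Finset.prod_range_succ, Finset.prod_range_succ', h1]

/-- `Nm τ x` is fixed by `τ` -/
theorem nm_fix [Finite F] (τ : F ≃+* F) (x : F) : τ (Nm τ x) = Nm τ x := by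
  refine Eq.trans ?_ (prod_shift τ x)
  unfold Nm
  rw [map_prod]
  exact Finset.prod_congr rfl fun i _ => (pow_succ_apply τ i x).symm

theorem nm_tau [Finite F] (τ : F ≃+* F) (x : F) : Nm τ (τ x) = Nm τ x := by
  refine Eq.trans ?_ (prod_shift τ x)
  unfold Nm
  exact Finset.prod_congr rfl fun i _ => (pow_succ_apply' τ i x).symm

theorem nm_comm (σ τ : F ≃+* F) (h : ∀ z, σ (τ z) = τ (σ z)) (x : F) :
    σ (Nm τ x) = Nm τ (σ x) := by
  unfold Nm
  rw [map_prod]
  have key : ∀ i : ℕ, σ ((τ ^ i) x) = (τ ^ i) (σ x) := by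
    intro i
    induction i with
    | zero => rfl
    | succ i ih => rw [pow_succ_apply, h, ih, ← pow_succ_apply]
  exact Finset.prod_congr rfl fun i _ => key i

/-- surjectivity of the norm of finite fields -/
theorem nm_surj [Finite F] (τ : F ≃+* F) (y : F) (hy : τ y = y) : ∃ x, Nm τ x = y := by
  classical
  have hfin : Finite (F ≃+* F) := Finite.of_injective (fun e : F ≃+* F => (e : F → F))
    fun e e' h => RingEquiv.ext fun z => congrFun h z
  let G : Subgroup (RingAut F) := Subgroup.zpowers (τ : RingAut F)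
  let K : Subfield F := FixedPoints.subfield G F
  have hpow : ∀ i : ℕ, (τ ^ i) y = y := by
    intro i
    induction i with
    | zero => rfl
    | succ i ih => rw [pow_succ_apply, ih, hy]
  have hof : IsOfFinOrder (τ : RingAut F) := isOfFinOrder_of_finite _
  have hyK : y ∈ K := by
    intro g
    obtain ⟨n, hn⟩ := (finEquivZPowers hof).surjective g
    rw [← hn]
    exact hpow n
  obtain ⟨x, hx⟩ := FiniteField.norm_surjective K F ⟨y, hyK⟩
  refine ⟨x, ?_⟩
  have hfG : Finite G := inferInstance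
  have hft : Fintype G := Fintype.ofFinite G
  have h1 := Algebra.norm_eq_prod_automorphisms (K := K) (L := F) x
  rw [hx] at h1
  have h2 : ∏ g : G, g • x = ∏ e : (F ≃ₐ[K] F), e x :=
    (FixedPoints.toAlgAutMulEquiv G F).toEquiv.prod_comp (fun e : (F ≃ₐ[K] F) => e x)
  have h3 : ∏ i : Fin (orderOf (τ : RingAut F)), (finEquivZPowers hof i) • x = ∏ g : G, g • x :=
    (finEquivZPowers hof).prod_comp (fun g : G => g • x)
  have h4 : ∏ i : Fin (orderOf (τ : RingAut F)), (finEquivZPowers hof i) • x = Nm τ x :=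
    Fin.prod_univ_eq_prod_range (fun i => (τ ^ i) x) (orderOf τ)
  rw [← h4, h3, h2, ← h1]
  rfl

end Pool.Agent.CTG
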