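import Pool.Agent.CTG.Defs

/-! `P = B σ(Q)^T` for `B = L H U` (M3 of CTG; statement by helper47). -/

set_option autoImplicit false

namespace Pool.Agent.CTG

open Matrix Pool.Agent.CTC

variable {F : Type*} [Field F]

/-- block matrices on `U ⊕ W ⊕ F` -/
def Pq3 {ι : Type*} (A B C D : Matrix ι ι F) (r1 r2 s1 s2 : ι → F) (e : F) :
    Matrix ((ι ⊕ ι) ⊕ Unit) ((ι ⊕ ι) ⊕ Unit) F :=
  Matrix.fromBlocks (Matrix.fromBlocks A B C D) (fun i _ => Sum.elim r1 r2 i)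
    (fun _ j => Sum.elim s1 s2 j) (fun _ _ => e)

theorem pq3_mul {ι : Type*} [Fintype ι] (A B C D : Matrix ι ι F) (r1 r2 s1 s2 : ι → F) (e : F)
    (A' B' C' D' : Matrix ι ι F) (r1' r2' s1' s2' : ι → F) (e' : F) :
    Pq3 A B C D r1 r2 s1 s2 e * Pq3 A' B' C' D' r1' r2' s1' s2' e' =
      Pq3 (A * A' + B * C' + vecMulVec r1 s1') (A * B' + B * D' + vecMulVec r1 s2')
        (C * A' + D * C' + vecMulVec r2 s1') (C * B' + D * D' + vecMulVec r2 s2')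
        (A *ᵥ r1' + B *ᵥ r2' + e' • r1) (C *ᵥ r1' + D *ᵥ r2' + e' • r2)
        (s1 ᵥ* A' + s2 ᵥ* C' + e • s1') (s1 ᵥ* B' + s2 ᵥ* D' + e • s2')
        (s1 ⬝ᵥ r1' + s2 ⬝ᵥ r2' + e * e') := by
  ext i j
  rcases i with (i | i) | i <;> rcases j with (j | j) | j <;>
    simp [Pq3, Matrix.mul_apply, Fintype.sum_sum_type, vecMulVec_apply, Matrix.mulVec,
      Matrix.vecMul, dotProduct, mul_comm]

theorem pq3_st {ι : Type*} (σ : F ≃+* F) (A B C D : Matrix ι ι F) (r1 r2 s1 s2 : ι → F) (e : F) :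
    ((Pq3 A B C D r1 r2 s1 s2 e).map σ)ᵀ =
      Pq3 (A.map σ)ᵀ (C.map σ)ᵀ (B.map σ)ᵀ (D.map σ)ᵀ (fun i => σ (s1 i)) (fun i => σ (s2 i))
        (fun i => σ (r1 i)) (fun i => σ (r2 i)) (σ e) := by
  ext i j
  rcases i with (i | i) | i <;> rcases j with (j | j) | j <;> rfl

theorem pq_blocks {ι : Type*} [Fintype ι] [DecidableEq ι] (σ : F ≃+* F)
    (L11 L31 L33 U11 U13 U33 H1 H3 : Matrix ι ι F) (l21 l32 u12 u23 : ι → F) (h ν : F)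
    (hU1 : U11.det ≠ 0) (hU3 : U33.det ≠ 0) (α β : Matrix ι ι F) :
    ∃ (γ γ' : Matrix ι ι F) (ρ ρ' ρ1 ρ1' : ι → F),
      Wp F ι * ((Lb L11 L31 L33 l21 l32 * Hb H1 H3 h * Ub U11 U13 U33 u12 u23) *
        ((Qm γ α β ρ ρ' ν).map σ)ᵀ) * (Wp F ι)ᵀ =
      Qm γ' (L33 * H3 * U33 * (α.map σ)ᵀ) (L11 * H1 * U11 * (β.map σ)ᵀ) ρ1 ρ1' (h * σ ν) := by
  have hunit : IsUnit U11.det := isUnit_iff_ne_zero.2 hU1
  have eQ : ∀ (γ α β : Matrix ι ι F) (ρ ρ' : ι → F) (ν : F),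
      Qm γ α β ρ ρ' ν = Pq3 γ α β 0 ρ 0 ρ' 0 ν := fun _ _ _ _ _ _ => rfl
  have eL : Lb L11 L31 L33 l21 l32 = Pq3 L11 0 L31 L33 0 l32 l21 0 1 := rfl
  have eU : Ub U11 U13 U33 u12 u23 = Pq3 U11 U13 0 U33 u12 0 0 u23 1 := rfl
  have eH : Hb H1 H3 h = Pq3 H1 0 0 H3 0 0 0 0 h := by
    ext i j
    rcases i with (i | i) | i <;> rcases j with (j | j) | j <;> rfl
  have eW : Wp F ι = Pq3 0 1 1 0 0 0 0 0 1 := by
    ext i j
    rcases i with (i | i) | i <;> rcases j with (j | j) | j <;> simp [Wp, Pq3]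
  have eWt : (Wp F ι)ᵀ = Pq3 0 1 1 0 0 0 0 0 1 := by
    rw [eW]
    ext i j
    rcases i with (i | i) | i <;> rcases j with (j | j) | j <;>
      simp [Pq3, Matrix.one_apply, eq_comm]
  -- the choices, after `σ` and transposition
  set αs : Matrix ι ι F := (α.map σ)ᵀ with hαs
  set ρs : ι → F := -(u23 ᵥ* αs) with hρs
  set ρs' : ι → F := -(σ ν • (U11⁻¹ *ᵥ u12)) with hρs'
  set γs : Matrix ι ι F := -(U11⁻¹ * (U13 * αs + vecMulVec u12 ρs)) with hγs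
  refine ⟨(γs.map σ.symm)ᵀ, L31 * H1 * (U11 * (β.map σ)ᵀ), fun i => σ.symm (ρs i),
    fun i => σ.symm (ρs' i), (h * σ ν) • l32, (l21 ᵥ* H1) ᵥ* (U11 * (β.map σ)ᵀ), ?_⟩
  have e1 : (((γs.map σ.symm)ᵀ).map σ)ᵀ = γs := by
    ext i j
    simp
  rw [eWt, eQ, eQ, pq3_st, e1, ← hαs, eL, eH, eU, eW]
  have e2 : (fun i => σ ((fun i => σ.symm (ρs i)) i)) = ρs := by
    funext i
    simp
  have e3 : (fun i => σ ((fun i => σ.symm (ρs' i)) i)) = ρs' := by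
    funext i
    simp
  have e4 : (fun i => σ ((0 : ι → F) i)) = 0 := by
    funext i
    simp
  have e5 : ((0 : Matrix ι ι F).map σ)ᵀ = 0 := by
    ext i j
    simp
  rw [e2, e3, e4, e5, mul_assoc (Pq3 L11 0 L31 L33 0 l32 l21 0 1 * _)]
  -- `U Q*`
  have hR : Pq3 U11 U13 0 U33 u12 0 0 u23 1 * Pq3 γs (β.map σ)ᵀ αs 0 ρs' 0 ρs 0 (σ ν) =
      Pq3 0 (U11 * (β.map σ)ᵀ) (U33 * αs) 0 0 0 0 0 (σ ν) := by
    rw [pq3_mul]
    have f1 : U11 * γs + U13 * αs + vecMulVec u12 ρs = 0 := by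
      rw [hγs, mul_neg, ← mul_assoc, Matrix.mul_nonsing_inv _ hunit, one_mul]
      abel
    have f2 : U11 *ᵥ ρs' + U13 *ᵥ 0 + σ ν • u12 = 0 := by
      rw [hρs', Matrix.mulVec_neg, Matrix.mulVec_smul, Matrix.mulVec_mulVec,
        Matrix.mul_nonsing_inv _ hunit, Matrix.one_mulVec]
      simp
    have f3 : (0 : ι → F) ᵥ* γs + u23 ᵥ* αs + (1 : F) • ρs = 0 := by
      rw [hρs]
      simp
    rw [f1, f2, f3]
    simp
  rw [hR, mul_assoc (Pq3 L11 0 L31 L33 0 l32 l21 0 1), pq3_mul, pq3_mul, pq3_mul, pq3_mul]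
  simp [mul_assoc, smul_smul]

end Pool.Agent.CTG
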