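import Pool.Agent.CTG.Asm

/-! The assembly for a general `Θ` (helper47). -/

set_option autoImplicit false

namespace Pool.Agent.CTG

open Matrix Pool.Agent.CTC

variable {F : Type*} [Field F]

theorem gcoreG [Finite F] (σ : F ≃+* F) {r : ℕ} (D : F) (hD : D ≠ 0)
    (Θ : Matrix (Fin r ⊕ Unit) (Fin r ⊕ Unit) F) (ν : F)
    (hν : ν ≠ 0) (sg : F) (hsg : sg = (Matrix.fromBlocks 0 1 1 0 :
      Matrix ((Fin r ⊕ Unit) ⊕ (Fin r ⊕ Unit)) ((Fin r ⊕ Unit) ⊕ (Fin r ⊕ Unit)) F).det)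
    (hdet : Θ.det * ν = sg * D)
    (H1 : ∀ x : (Fin r ⊕ Unit) → F, sm (σ.trans σ) Θ x = (ν / σ ν) • x → x = 0)
    (H2 : ∀ w : Matrix (Fin r ⊕ Unit) (Fin r ⊕ Unit) F, w = -(Θ * (w.map σ)ᵀ) → w = 0)
    (FP : FactP (σ.trans σ) (Ds σ Θ) Θ)
    (B : Matrix (((Fin r ⊕ Unit) ⊕ (Fin r ⊕ Unit)) ⊕ Unit)
        (((Fin r ⊕ Unit) ⊕ (Fin r ⊕ Unit)) ⊕ Unit) F) (hB : B.det * σ D = D)
    (T0 : F) (hT0 : σ T0 = Θ.det)
    (g : Matrix (((Fin r ⊕ Unit) ⊕ (Fin r ⊕ Unit)) ⊕ Unit)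
        (((Fin r ⊕ Unit) ⊕ (Fin r ⊕ Unit)) ⊕ Unit) F)
    (L11 L31 L33 U11 U13 U33 E1 E3 : Matrix (Fin r ⊕ Unit) (Fin r ⊕ Unit) F)
    (l21 l32 u12 u23 : (Fin r ⊕ Unit) → F) (hg : g.det = 1)
    (hBg : B * g.map (σ.trans σ) = g * (Lb L11 L31 L33 l21 l32 *
      Hb E1 E3 (B.det / (σ T0 * (σ T0 * σ (σ T0) / T0))) * Ub U11 U13 U33 u12 u23))
    (hU1 : U11.det ≠ 0) (hU3 : U33.det ≠ 0) (hb1 : (L11 * E1 * U11).det = σ T0)
    (hs3 : (L33 * E3 * U33).det = σ T0 * σ (σ T0) / T0)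
    (β : Matrix (Fin r ⊕ Unit) (Fin r ⊕ Unit) F) (hβ : β.det = σ T0 / T0)
    (hβns : 2 ≤ Fintype.card (Fin r ⊕ Unit) → ¬ ∃ μ : F, β⁻¹ * (L33 * E3 * U33) *
      β.map (σ.trans σ) * Ts σ (Ts σ ((Ts σ (L11 * E1 * U11))⁻¹)) =
        μ • (1 : Matrix (Fin r ⊕ Unit) (Fin r ⊕ Unit) F)) :
    ∃ P Q, CgS σ (Sm Θ ν) P ∧ CgS σ (Sm Θ ν) Q ∧
      P = B * (Q.map σ)ᵀ := by
  have hsg2 : sg * sg = 1 := by rw [hsg]; exact sw_det (F := F) (Fin r ⊕ Unit)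
  have hsg0 : sg ≠ 0 := by intro h; rw [h, zero_mul] at hsg2; exact zero_ne_one hsg2
  have hσsg : σ sg = sg := by rw [hsg]; exact sg_fix σ
  have hΘ : Θ.det ≠ 0 := by
    intro h
    rw [h, zero_mul] at hdet
    exact mul_ne_zero hsg0 hD hdet.symm
  have hSdet : (Sm Θ ν).det = D := by
    unfold Sm
    rw [qm_det _ _ _ _ _ _ hν, ← hsg, Matrix.det_one, mul_one, hdet, ← mul_assoc, hsg2, one_mul]
  have u0 : T0 ≠ 0 := by intro h; rw [h, map_zero] at hT0; exact hΘ hT0.symm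
  have u1 : σ T0 ≠ 0 := by simpa using u0
  have u2 : σ (σ T0) ≠ 0 := by simpa using u0
  have u3 : σ (σ (σ T0)) ≠ 0 := by simpa using u0
  have hσν : σ ν ≠ 0 := by simpa using hν
  have hσD : σ D ≠ 0 := by simpa using hD
  have hB0 : B.det ≠ 0 := by
    intro h; rw [h, zero_mul] at hB; exact hD hB.symm
  set h3 := σ T0 * σ (σ T0) / T0 with hh3
  have hh30 : h3 ≠ 0 := div_ne_zero (mul_ne_zero u1 u2) u0
  set h := B.det / (σ T0 * h3) with hh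
  have hh0 : h ≠ 0 := div_ne_zero hB0 (mul_ne_zero u1 hh30)
  set Bd := Lb L11 L31 L33 l21 l32 * Hb E1 E3 h * Ub U11 U13 U33 u12 u23 with hBd
  set b1 := L11 * E1 * U11 with hb1d
  set s3 := L33 * E3 * U33 with hs3d
  have hb10 : b1.det ≠ 0 := by rw [hb1]; exact u1
  have hs30 : s3.det ≠ 0 := by rw [hs3]; exact hh30
  have hTs : ∀ {x : Matrix (Fin r ⊕ Unit) (Fin r ⊕ Unit) F}, x.det ≠ 0 → (Ts σ x).det ≠ 0 := by
    intro x hx; rw [Ts_det]; simpa using hx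
  set N := Ts σ (Ts σ ((Ts σ b1)⁻¹)) with hN
  have hN0 : N.det ≠ 0 := hTs (hTs (inv_det_ne (hTs hb10)))
  have hβ0 : β.det ≠ 0 := by rw [hβ]; exact div_ne_zero u1 u0
  obtain ⟨a', a, X', X, ha', ha, e1, e2, e3, ha'1, ha1⟩ :=
    FP (β⁻¹ * s3 * β.map (σ.trans σ) * N) (by
      have h4 : Ds σ Θ = Ts σ (Ts σ ((Ts σ Θ)⁻¹)) := rfl
      have h5 : β.map (σ.trans σ) = Ts σ (Ts σ β) := rfl
      rw [h4, h5, hN]
      simp only [Matrix.det_mul, Ts_det, Matrix.det_nonsing_inv, Ring.inverse_eq_inv', hβ, hs3,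
        hb1, ← hT0, RingEquiv.coe_trans, Function.comp_apply, map_div₀, map_inv₀, hh3]
      field_simp) (by
      rintro ⟨h4, -, h5⟩
      exact hβns h4 h5)
  obtain ⟨aQ, θQ, θP, aP, haQ, haP, hθQ, hθP, hkey, hdQ⟩ :=
    core σ b1 s3 β Θ a a' X' X hb10 hs30 hβ0 hΘ ha ha' e1 e2 e3
  have haQdet : aQ.det = T0⁻¹ := by
    have h4 := congrArg Matrix.det hdQ
    simp only [Matrix.det_mul, Ts_det, hβ, hs3, ha'1, mul_one, map_div₀, hh3] at h4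
    have h5 : σ (σ (σ (T0 * aQ.det))) = 1 := by
      rw [map_mul, map_mul, map_mul]
      field_simp at h4
      exact h4
    have h6 : T0 * aQ.det = 1 := by
      have h7 : σ (σ (σ (T0 * aQ.det))) = σ (σ (σ 1)) := by rw [h5, map_one, map_one, map_one]
      exact σ.injective (σ.injective (σ.injective h7))
    exact eq_inv_of_mul_eq_one_right h6
  have hθQdet : θQ.det = σ T0 * T0 / σ (σ T0) := by
    have h4 := congrArg Matrix.det hθQ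
    simp only [Matrix.det_mul, Ts_det, haQdet, map_inv₀, ← hT0] at h4
    field_simp at h4 ⊢
    linear_combination -h4
  obtain ⟨γ, γ', ρ, ρ', ρ1, ρ1', hPQ⟩ := pq_blocks σ L11 L31 L33 U11 U13 U33 E1 E3 l21 l32 u12 u23
    h ν hU1 hU3 (θQ * Ts σ β) β
  rw [← hBd, ← hb1d, ← hs3d] at hPQ
  set Q := Qm γ (θQ * Ts σ β) β ρ ρ' ν with hQ
  have hQdet : Q.det = D := by
    rw [hQ, qm_det _ _ _ _ _ _ hν, ← hsg, Matrix.det_mul, Ts_det, hθQdet, hβ, map_div₀]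
    have h4 : σ T0 * ν = sg * D := by rw [hT0, hdet]
    have h5 : σ T0 * T0 / σ (σ T0) * (σ (σ T0) / σ T0) * (σ T0 / T0) * ν = σ T0 * ν := by
      field_simp
    rw [h5, h4, ← mul_assoc, hsg2, one_mul]
  have hCQ : Cg σ (Sm Θ ν) Q := by
    have h4 := cert σ Θ ν hν H1 H2 γ β θQ aQ ρ ρ' 1 one_ne_zero hβ0 haQ hθQ
    rw [map_one, one_mul, mul_one] at h4
    exact h4
  have hCP' : Cg σ (Sm Θ ν) (Wp F (Fin r ⊕ Unit) * (Bd * (Q.map σ)ᵀ) * (Wp F (Fin r ⊕ Unit))ᵀ) := by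
    rw [hPQ]
    have h4 := cert σ Θ ν hν H1 H2 γ' (b1 * Ts σ β) θP aP ρ1 ρ1' (T0 / (σ T0 * σ T0))
      (div_ne_zero u0 (mul_ne_zero u1 u1)) (by rw [Matrix.det_mul]; exact mul_ne_zero hb10 (hTs hβ0))
      haP hθP
    have h5 : h * σ ν = ν * (T0 / (σ T0 * σ T0) * σ (T0 / (σ T0 * σ T0))) := by
      have h6 : B.det * (σ (σ T0) * σ ν) = σ T0 * ν := by
        have h7 : σ T0 * ν = sg * D := by rw [hT0, hdet]
        rw [← map_mul, h7, map_mul, hσsg, mul_left_comm, hB]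
      rw [hh, hh3, map_div₀, map_mul]
      field_simp
      linear_combination h6
    rw [h5]
    have h6 : s3 * ((θQ * Ts σ β).map σ)ᵀ = θP * ((b1 * Ts σ β).map σ)ᵀ := hkey
    have h7 : L11 * E1 * U11 * (β.map σ)ᵀ = b1 * Ts σ β := rfl
    rw [h6]
    exact h4
  have hWW := wp_mul (F := F) (Fin r ⊕ Unit)
  have hWT : (Wp F (Fin r ⊕ Unit))ᵀ = Wp F (Fin r ⊕ Unit) := by
    have h4 := wp_ts (F := F) (Fin r ⊕ Unit) (RingEquiv.refl F)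
    exact h4
  have hCP : Cg σ (Sm Θ ν) (Bd * (Q.map σ)ᵀ) := by
    obtain ⟨k, hk, hk1⟩ := hCP'
    refine ⟨Wp F (Fin r ⊕ Unit) * k, ?_, ?_⟩
    · rw [Matrix.det_mul]
      refine mul_ne_zero ?_ hk
      intro h4
      have h5 := congrArg Matrix.det hWW
      rw [Matrix.det_mul, h4, zero_mul, Matrix.det_one] at h5
      exact zero_ne_one h5
    · have h4 : ((Wp F (Fin r ⊕ Unit) * k).map σ)ᵀ = (k.map σ)ᵀ * Wp F (Fin r ⊕ Unit) := by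
        have := Ts_mul σ (Wp F (Fin r ⊕ Unit)) k
        rw [wp_ts] at this
        exact this
      rw [h4]
      rw [hWT] at hk1
      calc Bd * (Q.map σ)ᵀ = Wp F (Fin r ⊕ Unit) * Wp F (Fin r ⊕ Unit) * (Bd * (Q.map σ)ᵀ) *
            (Wp F (Fin r ⊕ Unit) * Wp F (Fin r ⊕ Unit)) := by rw [hWW, one_mul, mul_one]
        _ = Wp F (Fin r ⊕ Unit) * (Wp F (Fin r ⊕ Unit) * (Bd * (Q.map σ)ᵀ) *
            Wp F (Fin r ⊕ Unit)) * Wp F (Fin r ⊕ Unit) := by simp only [mul_assoc]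
        _ = Wp F (Fin r ⊕ Unit) * k * Sm Θ ν * ((k.map σ)ᵀ * Wp F (Fin r ⊕ Unit)) := by
            rw [hk1]; simp only [mul_assoc]
  have hS0 : (Sm Θ ν).det ≠ 0 := by rw [hSdet]; exact hD
  have hBddet : Bd.det = B.det := by
    have h4 := congrArg Matrix.det hBg
    rw [Matrix.det_mul, CTC.det_map', hg, map_one, mul_one, Matrix.det_mul, hg, one_mul] at h4
    exact h4.symm
  obtain ⟨k1, hk1, hk1'⟩ := sl_adj σ Θ ν hS0 Q hCQ (by rw [hQdet, hSdet])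
  obtain ⟨k2, hk2, hk2'⟩ := sl_adj σ Θ ν hS0 (Bd * (Q.map σ)ᵀ) hCP (by
    rw [Matrix.det_mul, Matrix.det_transpose, CTC.det_map', hQdet, hBddet, hSdet, hB])
  refine ⟨g * (Bd * (Q.map σ)ᵀ) * (g.map σ)ᵀ, g * Q * (g.map σ)ᵀ, ⟨g * k2, ?_, ?_⟩,
    ⟨g * k1, ?_, ?_⟩, ?_⟩
  · rw [Matrix.det_mul, hg, hk2, mul_one]
  · have h4 : ((g * k2).map σ)ᵀ = (k2.map σ)ᵀ * (g.map σ)ᵀ := Ts_mul σ g k2
    rw [h4]
    conv_lhs => rw [hk2']
    simp only [mul_assoc]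
  · rw [Matrix.det_mul, hg, hk1, mul_one]
  · have h4 : ((g * k1).map σ)ᵀ = (k1.map σ)ᵀ * (g.map σ)ᵀ := Ts_mul σ g k1
    rw [h4]
    conv_lhs => rw [hk1']
    simp only [mul_assoc]
  · have h4 : ((g * Q * (g.map σ)ᵀ).map σ)ᵀ = g.map (σ.trans σ) * ((Q.map σ)ᵀ * (g.map σ)ᵀ) := by
      have h5 := Ts_mul σ (g * Q) (Ts σ g)
      rw [Ts_mul σ g Q] at h5
      exact h5
    rw [h4, ← mul_assoc B, hBg]
    simp only [mul_assoc]


end Pool.Agent.CTG
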