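import Pool.Agent.CTG.Norm
import Pool.Agent.CTC.RDefs
import Pool.Agent.CTC.Lin

/-! Module G4 C2IRR: `w = -Θ σ(w)^T` for `Θ = diag(X, c)`, `X` irreducible (helper96 for helper47). -/

set_option autoImplicit false

namespace Pool.Agent.CTG

open Matrix Pool.Agent.CTC

variable {F : Type*} [Field F]

private theorem irr_line (τ : F ≃+* F) (r : ℕ) (hr : 2 ≤ r) (X : Matrix (Fin r) (Fin r) F)
    (h : Irr F (sm τ X)) (x : Fin r → F) (a : F) (hx : x = a • sm τ X x) : x = 0 := by
  by_contra hne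
  have ha : a ≠ 0 := by
    rintro rfl
    rw [zero_smul] at hx
    exact hne hx
  have hA : sm τ X x = a⁻¹ • x := by
    conv_rhs => rw [hx]
    rw [smul_smul, inv_mul_cancel₀ ha, one_smul]
  rcases h (Submodule.span F {x}) (fun w hw => by
    obtain ⟨b, rfl⟩ := Submodule.mem_span_singleton.1 hw
    rw [sm_sl τ X b x, hA]
    exact Submodule.smul_mem _ _ (Submodule.smul_mem _ _ (Submodule.mem_span_singleton_self x)))
    with h1 | h1
  · exact hne (Submodule.span_singleton_eq_bot.1 h1)
  · have h2 := finrank_span_singleton (K := F) hne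
    rw [h1, finrank_top, Module.finrank_fin_fun] at h2
    omega

private theorem irr_mat (τ : F ≃+* F) (r : ℕ) (X Y w : Matrix (Fin r) (Fin r) F)
    (h : Irr F (sm τ X)) (hY : Y.det ≠ 0) (hw : w = X * w.map τ * Y) : w = 0 ∨ w.det ≠ 0 := by
  have hYu : IsUnit Y.det := isUnit_iff_ne_zero.2 hY
  have hw' : X * w.map τ = w * Y⁻¹ := by
    conv_rhs => rw [hw]
    rw [Matrix.mul_assoc (X * w.map τ), Matrix.mul_nonsing_inv _ hYu, Matrix.mul_one]
  rcases h (LinearMap.range (Matrix.mulVecLin w)) (fun y hy => by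
    obtain ⟨v, rfl⟩ := LinearMap.mem_range.1 hy
    rw [Matrix.mulVecLin_apply, sm_mulVec, hw', sm_apply, ← Matrix.mulVec_mulVec]
    exact ⟨_, rfl⟩) with h1 | h1
  · left
    have h2 : Matrix.mulVecLin w = 0 := LinearMap.range_eq_bot.1 h1
    ext i j
    have h3 := congrFun (LinearMap.congr_fun h2 (Pi.single j 1)) i
    rw [Matrix.mulVecLin_apply, Matrix.mulVec_single_one] at h3
    exact h3
  · right
    have h2 : Function.Surjective w.mulVec := by
      intro y
      have h3 : y ∈ LinearMap.range (Matrix.mulVecLin w) := by rw [h1]; trivial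
      obtain ⟨v, hv⟩ := LinearMap.mem_range.1 h3
      exact ⟨v, hv⟩
    have h3 := Matrix.mulVec_surjective_iff_isUnit.1 h2
    exact isUnit_iff_ne_zero.1 ((Matrix.isUnit_iff_isUnit_det _).1 h3)

theorem c2_irr [Finite F] (σ : F ≃+* F) (r : ℕ) (hr : 2 ≤ r) (X : Matrix (Fin r) (Fin r) F) (c : F)
    (hX : X.det ≠ 0) (hc : c ≠ 0) (h : Irr F (sm (σ.trans σ) X))
    (h1 : Nm (σ.trans σ) X.det * σ (Nm (σ.trans σ) X.det) ≠ 1)
    (h2 : Nm (σ.trans σ) c * σ (Nm (σ.trans σ) c) ≠ 1)
    (w : Matrix (Fin r ⊕ Unit) (Fin r ⊕ Unit) F) (hw : w = -(Bl X c * (w.map σ)ᵀ)) : w = 0 := by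
  have hcomm : ∀ x, σ (Nm (σ.trans σ) x) = Nm (σ.trans σ) (σ x) := fun x =>
    nm_comm σ (σ.trans σ) (fun z => rfl) x
  -- the rows
  have er : ∀ (i : Unit) (k : Fin r ⊕ Unit), w (Sum.inr i) k = -(c * σ (w k (Sum.inr i))) := by
    intro i k
    conv_lhs => rw [hw]
    rw [Matrix.neg_apply]
    congr 1
    rw [Matrix.mul_apply, Fintype.sum_sum_type]
    simp [Bl, Matrix.fromBlocks, Matrix.transpose_apply, Matrix.map_apply]
  have el : ∀ (i : Fin r) (k : Fin r ⊕ Unit),
      w (Sum.inl i) k = -(∑ j, X i j * σ (w k (Sum.inl j))) := by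
    intro i k
    conv_lhs => rw [hw]
    rw [Matrix.neg_apply]
    congr 1
    rw [Matrix.mul_apply, Fintype.sum_sum_type]
    simp [Bl, Matrix.fromBlocks, Matrix.transpose_apply, Matrix.map_apply]
  have hrr : w (Sum.inr ()) (Sum.inr ()) = 0 := by
    by_contra h0
    have e1 : w (Sum.inr ()) (Sum.inr ()) = c * σ c * (σ.trans σ) (w (Sum.inr ()) (Sum.inr ())) := by
      show _ = c * σ c * σ (σ (w (Sum.inr ()) (Sum.inr ())))
      conv_lhs => rw [er, er]
      rw [map_neg, map_mul]
      ring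
    have e2 := congrArg (Nm (σ.trans σ)) e1
    rw [nm_mul, nm_mul, nm_tau, ← hcomm] at e2
    have e3 := nm_ne (σ.trans σ) _ h0
    apply h2
    field_simp at e2
    exact e2.symm
  have hlr : (fun i : Fin r => w (Sum.inl i) (Sum.inr ())) = 0 := by
    refine irr_line (σ.trans σ) r hr X h _ (σ c) ?_
    ext i
    rw [Pi.smul_apply, sm_apply, Matrix.mulVec, dotProduct, el, smul_eq_mul, Finset.mul_sum,
      ← Finset.sum_neg_distrib]
    refine Finset.sum_congr rfl fun j _ => ?_
    rw [er, map_neg, map_mul]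
    show -(X i j * -(σ c * σ (σ (w (Sum.inl j) (Sum.inr ()))))) =
      σ c * (X i j * σ (σ (w (Sum.inl j) (Sum.inr ()))))
    ring
  have hrl : ∀ i : Fin r, w (Sum.inr ()) (Sum.inl i) = 0 := by
    intro i
    have := congrFun hlr i
    rw [er, show w (Sum.inl i) (Sum.inr ()) = 0 from this, map_zero, mul_zero, neg_zero]
  have hll : (Matrix.of fun i j : Fin r => w (Sum.inl i) (Sum.inl j)) = 0 := by
    obtain ⟨u, hu⟩ : ∃ u : Matrix (Fin r) (Fin r) F,
      u = Matrix.of fun i j : Fin r => w (Sum.inl i) (Sum.inl j) := ⟨_, rfl⟩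
    have e1 : u = -(X * (u.map σ)ᵀ) := by
      ext i j
      rw [hu, Matrix.neg_apply, Matrix.mul_apply]
      exact el i (Sum.inl j)
    have e2 : u = X * u.map (σ.trans σ) * (X.map σ)ᵀ := by
      conv_lhs => rw [e1, e1]
      rw [← Matrix.mul_neg]
      rw [Matrix.mul_assoc]
      congr 1
      rw [show (-(X * (u.map σ)ᵀ)).map σ = -((X.map σ) * ((u.map σ)ᵀ).map σ) by
        ext i j
        rw [Matrix.map_apply, Matrix.neg_apply, Matrix.neg_apply, map_neg, Matrix.mul_apply,
          Matrix.mul_apply, map_sum]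
        congr 1
        refine Finset.sum_congr rfl fun k _ => ?_
        rw [map_mul]
        rfl]
      rw [Matrix.transpose_neg, neg_neg, Matrix.transpose_mul]
      congr 1
    rw [← hu]
    have hXs : ((X.map σ)ᵀ).det = σ X.det := by
      rw [Matrix.det_transpose]
      exact (RingEquiv.map_det σ X).symm
    rcases irr_mat (σ.trans σ) r X _ u h (by
      rw [hXs]
      intro h0
      exact hX ((map_eq_zero_iff σ σ.injective).1 h0)) e2 with h3 | h3
    · exact h3
    · exfalso
      have e3 := congrArg Matrix.det e2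
      rw [Matrix.det_mul, Matrix.det_mul, hXs,
        show (u.map (σ.trans σ)).det = (σ.trans σ) u.det from (RingEquiv.map_det (σ.trans σ) u).symm]
        at e3
      have e4 := congrArg (Nm (σ.trans σ)) e3
      rw [nm_mul, nm_mul, nm_tau, ← hcomm] at e4
      have e5 := nm_ne (σ.trans σ) _ h3
      apply h1
      field_simp at e4
      exact e4.symm
  ext i j
  rw [Matrix.zero_apply]
  rcases i with i | i
  · rcases j with j | j
    · exact congrFun (congrFun hll i) j
    · exact congrFun hlr i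
  · rcases j with j | j
    · exact hrl j
    · exact hrr

end Pool.Agent.CTG
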