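import Pool.Agent.CTG.Defs

/-! Determinants of the block matrices, adjustment of the determinant (helper47). -/

set_option autoImplicit false

namespace Pool.Agent.CTG

open Matrix Pool.Agent.CTC

variable {F : Type*} [Field F]

theorem anti_det {ι : Type*} [Fintype ι] [DecidableEq ι] (X α β : Matrix ι ι F) :
    (Matrix.fromBlocks X α β 0).det =
      (Matrix.fromBlocks 0 1 1 0 : Matrix (ι ⊕ ι) (ι ⊕ ι) F).det * (α.det * β.det) := by
  have h : Matrix.fromBlocks X α β 0 = (Matrix.fromBlocks 0 1 1 0 : Matrix (ι ⊕ ι) (ι ⊕ ι) F) *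
      Matrix.fromBlocks β 0 X α := by
    rw [Matrix.fromBlocks_multiply]
    simp
  rw [h, Matrix.det_mul, Matrix.det_fromBlocks_zero₁₂, mul_comm β.det]

theorem qm_det {ι : Type*} [Fintype ι] [DecidableEq ι] (γ α β : Matrix ι ι F) (ρ ρ' : ι → F) (ν : F)
    (hν : ν ≠ 0) :
    (Qm γ α β ρ ρ' ν).det =
      (Matrix.fromBlocks 0 1 1 0 : Matrix (ι ⊕ ι) (ι ⊕ ι) F).det * (α.det * β.det * ν) := by
  set Dm : Matrix Unit Unit F := Matrix.of fun _ _ => ν with hDm
  have hDdet : Dm.det = ν := by simp [hDm, Matrix.det_unique]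
  have : Invertible Dm.det := invertibleOfNonzero (by rw [hDdet]; exact hν)
  have : Invertible Dm := Matrix.invertibleOfDetInvertible Dm
  have h1 : Qm γ α β ρ ρ' ν = Matrix.fromBlocks (Matrix.fromBlocks γ α β 0)
      (Matrix.of fun i _ => Sum.elim ρ (fun _ => 0) i)
      (Matrix.of fun _ j => Sum.elim ρ' (fun _ => 0) j) Dm := rfl
  rw [h1, Matrix.det_fromBlocks₂₂, hDdet]
  set R : Matrix (ι ⊕ ι) Unit F := Matrix.of fun i _ => Sum.elim ρ (fun _ => 0) i with hR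
  set C : Matrix Unit (ι ⊕ ι) F := Matrix.of fun _ j => Sum.elim ρ' (fun _ => 0) j with hC
  obtain ⟨y, hy⟩ : ∃ y, y = (⅟Dm) () () := ⟨_, rfl⟩
  have h2 : Matrix.fromBlocks γ α β 0 - R * ⅟Dm * C =
      Matrix.fromBlocks (γ - Matrix.of fun i j => ρ i * y * ρ' j) α β 0 := by
    ext i j
    rcases i with i | i <;> rcases j with j | j <;>
      simp [Matrix.mul_apply, hR, hC, hy]
  rw [h2, anti_det]
  ring

theorem sw_det (ι : Type*) [Fintype ι] [DecidableEq ι] :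
    (Matrix.fromBlocks 0 1 1 0 : Matrix (ι ⊕ ι) (ι ⊕ ι) F).det *
      (Matrix.fromBlocks 0 1 1 0 : Matrix (ι ⊕ ι) (ι ⊕ ι) F).det = 1 := by
  rw [← Matrix.det_mul, Matrix.fromBlocks_multiply]
  simp [Matrix.fromBlocks_one]

theorem sl_adj {ι : Type*} [Fintype ι] [DecidableEq ι] (σ : F ≃+* F) (Θ : Matrix ι ι F)
    (ν : F) (hS : (Sm Θ ν).det ≠ 0) (P : Matrix ((ι ⊕ ι) ⊕ Unit) ((ι ⊕ ι) ⊕ Unit) F)
    (h : Cg σ (Sm Θ ν) P) (hP : P.det = (Sm Θ ν).det) : CgS σ (Sm Θ ν) P := by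
  obtain ⟨g, hg, hPg⟩ := h
  have hmap : (g.map σ).det = σ g.det := by
    have : (g.map σ) = σ.mapMatrix g := rfl
    rw [this, ← RingEquiv.map_det]
  have h1 : g.det * σ g.det = 1 := by
    rw [hPg, Matrix.det_mul, Matrix.det_mul, Matrix.det_transpose, hmap] at hP
    have h2 : (g.det * σ g.det) * (Sm Θ ν).det = 1 * (Sm Θ ν).det := by
      rw [one_mul]; linear_combination hP
    exact mul_right_cancel₀ hS h2
  set δ := g.det with hδ
  set Z : Matrix ((ι ⊕ ι) ⊕ Unit) ((ι ⊕ ι) ⊕ Unit) F :=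
    Matrix.fromBlocks 1 0 0 (Matrix.of fun _ _ => δ⁻¹) with hZ
  have hσδ : σ δ ≠ 0 := by simpa using hg
  have hZS : Z * Sm Θ ν * (Z.map σ)ᵀ = Sm Θ ν := by
    have h3 : Sm Θ ν = Matrix.fromBlocks (Matrix.fromBlocks 0 Θ 1 0) 0 0
        (Matrix.of fun _ _ => ν) := by
      ext i j
      rcases i with (i | i) | i <;> rcases j with (j | j) | j <;> rfl
    have h4 : (Z.map σ)ᵀ = Matrix.fromBlocks 1 0 0 (Matrix.of fun _ _ => (σ δ)⁻¹) := by
      rw [hZ, Matrix.fromBlocks_map, Matrix.fromBlocks_transpose]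
      congr 1
      · rw [Matrix.map_one _ (map_zero σ) (map_one σ), Matrix.transpose_one]
      · ext i j; simp
      · ext i j; simp
      · ext i j; simp
    rw [h3, h4, hZ, Matrix.fromBlocks_multiply, Matrix.fromBlocks_multiply]
    congr 1
    · simp
    · simp
    · simp
    · ext i j
      simp only [Matrix.mul_zero, Matrix.zero_mul, zero_add, Matrix.mul_apply, Finset.univ_unique,
        Finset.sum_singleton, Matrix.of_apply]
      field_simp
      linear_combination (-ν) * h1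
  refine ⟨g * Z, ?_, ?_⟩
  · rw [Matrix.det_mul, hZ, Matrix.det_fromBlocks_zero₂₁, Matrix.det_one, one_mul]
    simp only [Matrix.det_unique, Matrix.of_apply]
    rw [← hδ, mul_inv_cancel₀ hg]
  · rw [Matrix.map_mul, Matrix.transpose_mul, hPg]
    calc g * Sm Θ ν * (g.map σ)ᵀ = g * (Z * Sm Θ ν * (Z.map σ)ᵀ) * (g.map σ)ᵀ := by rw [hZS]
      _ = g * Z * Sm Θ ν * ((Z.map σ)ᵀ * (g.map σ)ᵀ) := by simp only [mul_assoc]

end Pool.Agent.CTG
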