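import Pool.Agent.CTG.Q2

/-!
# CTG / Cert2: a `σ`-congruence certificate, `n` even

`g = [[a⁻¹, a⁻¹ w], [0, β σ(a)^T]]`, `w + Θ σ(w)^T = a γ σ(a)^T`.
-/

set_option autoImplicit false

namespace Pool.Agent.CTG

open Matrix Pool.Agent.CTC

variable {F : Type*} [Field F]

theorem cert2 [Finite F] {ι : Type*} [Fintype ι] [DecidableEq ι] (σ : F ≃+* F) (Θ : Matrix ι ι F)
    (h2 : ∀ w : Matrix ι ι F, w = -(Θ * (w.map σ)ᵀ) → w = 0)
    (γ β θ a : Matrix ι ι F) (hβ : β.det ≠ 0)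
    (ha : a.det ≠ 0) (hθ : Θ * a.map (σ.trans σ) = a * θ) :
    ∃ g : Matrix (ι ⊕ ι) (ι ⊕ ι) F, g.det * a.det = β.det * σ a.det ∧
      Q2 γ (θ * (β.map σ)ᵀ) β = g * Q2 0 Θ 1 * (g.map σ)ᵀ := by
  have hu : IsUnit a.det := isUnit_iff_ne_zero.mpr ha
  have h1 : a⁻¹ * a = 1 := Matrix.nonsing_inv_mul a hu
  have h1' : a * a⁻¹ = 1 := Matrix.mul_nonsing_inv a hu
  have hm : ∀ M N : Matrix ι ι F, (M * N).map σ = M.map σ * N.map σ := by
    intro M N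
    exact Matrix.map_mul (f := (σ : F →+* F))
  have hmT : ∀ M N : Matrix ι ι F, ((M * N).map σ)ᵀ = (N.map σ)ᵀ * (M.map σ)ᵀ := by
    intro M N
    rw [hm, Matrix.transpose_mul]
  have hone : (((1 : Matrix ι ι F)).map σ)ᵀ = 1 := by
    rw [Matrix.map_one _ (map_zero σ) (map_one σ), Matrix.transpose_one]
  have hzero : (((0 : Matrix ι ι F)).map σ)ᵀ = 0 := by
    ext i j
    simp
  let M : Matrix ι ι F →+ Matrix ι ι F := AddMonoidHom.mk'
    (fun w => w + Θ * (w.map σ)ᵀ) (by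
      intro w v
      have e1 : ((w + v).map σ)ᵀ = (w.map σ)ᵀ + (v.map σ)ᵀ := by
        ext i j
        simp
      rw [e1, mul_add]
      abel)
  have hM : Function.Injective M := by
    rw [injective_iff_map_eq_zero]
    intro w hw
    apply h2
    have hw' : w + Θ * (w.map σ)ᵀ = 0 := hw
    exact eq_neg_of_add_eq_zero_left hw'
  have hfin : Finite (Matrix ι ι F) := inferInstanceAs (Finite (ι → ι → F))
  obtain ⟨w, hw⟩ := (Finite.injective_iff_surjective.1 hM) (a * γ * (a.map σ)ᵀ)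
  have hw' : w + Θ * (w.map σ)ᵀ = a * γ * (a.map σ)ᵀ := hw
  have hdetT : ((a.map σ)ᵀ).det = σ a.det := by
    rw [Matrix.det_transpose]
    exact (RingHom.map_det (σ : F →+* F) a).symm
  have h3 : (a.map σ)ᵀ * ((a⁻¹).map σ)ᵀ = 1 := by
    rw [← hmT, h1, hone]
  refine ⟨Matrix.fromBlocks a⁻¹ (a⁻¹ * w) 0 (β * (a.map σ)ᵀ), ?_, ?_⟩
  · rw [Matrix.det_fromBlocks_zero₂₁, Matrix.det_mul, hdetT]
    have h4 : (a⁻¹).det * a.det = 1 := by rw [← Matrix.det_mul, h1, Matrix.det_one]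
    calc (a⁻¹).det * (β.det * σ a.det) * a.det = ((a⁻¹).det * a.det) * (β.det * σ a.det) := by ring
      _ = _ := by rw [h4, one_mul]
  · have e1 : (a⁻¹ * w) * ((a⁻¹).map σ)ᵀ + a⁻¹ * Θ * ((a⁻¹ * w).map σ)ᵀ = γ := by
      rw [hmT]
      have e2 : (a⁻¹ * w) * ((a⁻¹).map σ)ᵀ + a⁻¹ * Θ * ((w.map σ)ᵀ * ((a⁻¹).map σ)ᵀ) =
          a⁻¹ * (w + Θ * (w.map σ)ᵀ) * ((a⁻¹).map σ)ᵀ := by
        simp only [mul_add, add_mul, mul_assoc]
      rw [e2, hw']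
      calc a⁻¹ * (a * γ * (a.map σ)ᵀ) * ((a⁻¹).map σ)ᵀ
          = (a⁻¹ * a) * γ * ((a.map σ)ᵀ * ((a⁻¹).map σ)ᵀ) := by simp only [mul_assoc]
        _ = γ := by rw [h1, h3, one_mul, mul_one]
    have e3 : a⁻¹ * Θ * ((β * (a.map σ)ᵀ).map σ)ᵀ = θ * (β.map σ)ᵀ := by
      rw [hmT]
      have e4 : (((a.map σ)ᵀ).map σ)ᵀ = a.map (σ.trans σ) := by
        ext i j
        simp
      rw [e4, ← mul_assoc, mul_assoc a⁻¹, hθ, ← mul_assoc, h1, one_mul]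
    have e5 : β * (a.map σ)ᵀ * ((a⁻¹).map σ)ᵀ = β := by
      rw [mul_assoc, h3, mul_one]
    unfold Q2
    rw [Matrix.fromBlocks_map, Matrix.fromBlocks_transpose, Matrix.fromBlocks_multiply,
      Matrix.fromBlocks_multiply]
    simp only [hzero, mul_zero, zero_mul, add_zero, zero_add, mul_one, e1, e3, e5]

theorem q2_det {ι : Type*} [Fintype ι] [DecidableEq ι] (γ α β : Matrix ι ι F) :
    (Q2 γ α β).det =
      (Matrix.fromBlocks 0 1 1 0 : Matrix (ι ⊕ ι) (ι ⊕ ι) F).det * (α.det * β.det) := by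
  have h : Q2 γ α β = Matrix.fromBlocks 0 1 1 0 * Matrix.fromBlocks β 0 γ α := by
    unfold Q2
    simp [Matrix.fromBlocks_multiply]
  rw [h, Matrix.det_mul, Matrix.det_fromBlocks_zero₁₂, mul_comm β.det]

end Pool.Agent.CTG
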