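import Pool.Agent.CTG.Core

/-! The algebra of the two congruences, with the determinant of the second conjugator (helper47). -/

set_option autoImplicit false

namespace Pool.Agent.CTG

open Matrix Pool.Agent.CTC

variable {F : Type*} [Field F]

section
variable {κ : Type*} [Fintype κ] [DecidableEq κ] (σ : F ≃+* F)

theorem core2 (b1 s3 β Θ a a' X' X : Matrix κ κ F) (hb1 : b1.det ≠ 0) (hs3 : s3.det ≠ 0)
    (hβ : β.det ≠ 0) (hΘ : Θ.det ≠ 0) (ha : a.det ≠ 0) (ha' : a'.det ≠ 0)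
    (e1 : X' * Ts σ (Ts σ a') = a' * Ts σ (Ts σ ((Ts σ Θ)⁻¹)))
    (e2 : X * Ts σ (Ts σ a) = a * Θ)
    (e3 : β⁻¹ * s3 * Ts σ (Ts σ β) * Ts σ (Ts σ ((Ts σ b1)⁻¹)) = X' * Ts σ (Ts σ X)) :
    ∃ aQ θQ θP aP : Matrix κ κ F, aQ.det ≠ 0 ∧ aP.det ≠ 0 ∧ Θ * Ts σ (Ts σ aQ) = aQ * θQ ∧
      Θ * Ts σ (Ts σ aP) = aP * θP ∧ s3 * Ts σ (θQ * Ts σ β) = θP * Ts σ (b1 * Ts σ β) ∧
      s3 * Ts σ (Ts σ β) * Ts σ (Ts σ (Ts σ aQ)) = β * a' ∧ aP = (β * a)⁻¹ := by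
  have hTT : ∀ x : Matrix κ κ F, x.det ≠ 0 → (Ts σ x).det ≠ 0 := by
    intro x hx; rw [Ts_det]; simpa using hx
  have hs : (s3 * Ts σ (Ts σ β)).det ≠ 0 := by
    rw [Matrix.det_mul]; exact mul_ne_zero hs3 (hTT _ (hTT _ hβ))
  obtain ⟨c2, hc2⟩ := Ts_surj σ ((s3 * Ts σ (Ts σ β))⁻¹ * (β * a'))
  obtain ⟨c1, hc1⟩ := Ts_surj σ c2
  obtain ⟨aQ, haQ⟩ := Ts_surj σ c1
  have hc : Ts σ (Ts σ (Ts σ aQ)) = (s3 * Ts σ (Ts σ β))⁻¹ * (β * a') := by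
    rw [haQ, hc1, hc2]
  have hcc : s3 * Ts σ (Ts σ β) * Ts σ (Ts σ (Ts σ aQ)) = β * a' := by
    rw [hc, ← mul_assoc, minv hs, one_mul]
  have haQ0 : aQ.det ≠ 0 := by
    intro h0
    have h1 := congrArg Matrix.det hcc
    simp only [Matrix.det_mul, Ts_det, h0, map_zero, mul_zero] at h1
    exact mul_ne_zero hβ ha' h1.symm
  have hβa : (β * a).det ≠ 0 := by rw [Matrix.det_mul]; exact mul_ne_zero hβ ha
  have hθQ : Θ * Ts σ (Ts σ aQ) = aQ * (aQ⁻¹ * (Θ * Ts σ (Ts σ aQ))) := by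
    rw [← mul_assoc aQ, minv haQ0, one_mul]
  have hθP : Θ * Ts σ (Ts σ (β * a)⁻¹) = (β * a)⁻¹ * ((β * a) * (Θ * Ts σ (Ts σ (β * a)⁻¹))) := by
    rw [← mul_assoc (β * a)⁻¹, invm hβa, one_mul]
  refine ⟨aQ, aQ⁻¹ * (Θ * Ts σ (Ts σ aQ)), (β * a) * (Θ * Ts σ (Ts σ (β * a)⁻¹)), (β * a)⁻¹, haQ0,
    inv_det_ne hβa, hθQ, hθP, ?_, hcc, rfl⟩
  set θQ := aQ⁻¹ * (Θ * Ts σ (Ts σ aQ)) with hθQd
  set θP := (β * a) * (Θ * Ts σ (Ts σ (β * a)⁻¹)) with hθPd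
  have h1 : θP * Ts σ (Ts σ β) = β * X := by
    apply rc (hTT _ (hTT _ ha))
    have h2 : Ts σ (Ts σ (β * a)⁻¹) * (Ts σ (Ts σ β) * Ts σ (Ts σ a)) = 1 := by
      rw [← Ts_mul, ← Ts_mul, ← Ts_mul, ← Ts_mul, invm hβa, Ts_one, Ts_one]
    calc θP * Ts σ (Ts σ β) * Ts σ (Ts σ a)
        = (β * a) * Θ * (Ts σ (Ts σ (β * a)⁻¹) * (Ts σ (Ts σ β) * Ts σ (Ts σ a))) := by
          rw [hθPd]; simp only [mul_assoc]
      _ = β * (a * Θ) := by rw [h2, mul_one, mul_assoc]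
      _ = β * X * Ts σ (Ts σ a) := by rw [← e2, mul_assoc]
  have h3 : s3 * Ts σ (θQ * Ts σ β) = s3 * Ts σ (Ts σ β) * Ts σ θQ := by
    rw [Ts_mul, mul_assoc]
  have h4 : θP * Ts σ (b1 * Ts σ β) = β * X * Ts σ b1 := by
    rw [Ts_mul, ← mul_assoc, h1]
  rw [h3, h4]
  apply rc (hTT _ haQ0)
  have h5 : Ts σ θQ * Ts σ aQ = Ts σ (Ts σ (Ts σ aQ)) * Ts σ Θ := by
    rw [← Ts_mul, ← hθQ, Ts_mul]
  have h6 : a' * Ts σ Θ = X * Ts σ b1 * Ts σ aQ := by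
    apply Ts_inj σ
    apply Ts_inj σ
    have hX' : X'.det ≠ 0 := by
      intro h0
      have h7 := congrArg Matrix.det e1
      rw [Matrix.det_mul, h0, zero_mul, Matrix.det_mul] at h7
      exact mul_ne_zero ha' (hTT _ (hTT _ (inv_det_ne (hTT _ hΘ)))) h7.symm
    apply lc hX'
    have h8 : β⁻¹ * s3 * Ts σ (Ts σ β) = X' * (Ts σ (Ts σ X) * Ts σ (Ts σ (Ts σ b1))) := by
      have h9 : Ts σ (Ts σ (Ts σ b1)⁻¹) * Ts σ (Ts σ (Ts σ b1)) = 1 := by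
        rw [← Ts_mul, ← Ts_mul, invm (hTT _ hb1), Ts_one, Ts_one]
      rw [← mul_assoc X', ← e3, mul_assoc _ (Ts σ (Ts σ (Ts σ b1)⁻¹)), h9, mul_one]
    have h10 : β⁻¹ * s3 * Ts σ (Ts σ β) * Ts σ (Ts σ (Ts σ aQ)) = a' := by
      have : β⁻¹ * s3 * Ts σ (Ts σ β) * Ts σ (Ts σ (Ts σ aQ)) =
        β⁻¹ * (s3 * Ts σ (Ts σ β) * Ts σ (Ts σ (Ts σ aQ))) := by simp only [mul_assoc]
      rw [this, hcc, ← mul_assoc, invm hβ, one_mul]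
    have h11 : Ts σ (Ts σ ((Ts σ Θ)⁻¹)) * Ts σ (Ts σ (Ts σ Θ)) = 1 := by
      rw [← Ts_mul, ← Ts_mul, invm (hTT _ hΘ), Ts_one, Ts_one]
    calc X' * Ts σ (Ts σ (a' * Ts σ Θ)) = X' * Ts σ (Ts σ a') * Ts σ (Ts σ (Ts σ Θ)) := by
          rw [Ts_mul, Ts_mul, mul_assoc]
      _ = a' := by rw [e1, mul_assoc, h11, mul_one]
      _ = X' * (Ts σ (Ts σ X) * Ts σ (Ts σ (Ts σ b1))) * Ts σ (Ts σ (Ts σ aQ)) := by
          rw [← h8, h10]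
      _ = X' * Ts σ (Ts σ (X * Ts σ b1 * Ts σ aQ)) := by
          simp only [Ts_mul, mul_assoc]
  calc s3 * Ts σ (Ts σ β) * Ts σ θQ * Ts σ aQ
      = s3 * Ts σ (Ts σ β) * Ts σ (Ts σ (Ts σ aQ)) * Ts σ Θ := by
        rw [mul_assoc, h5, ← mul_assoc]
    _ = β * (a' * Ts σ Θ) := by rw [hcc, mul_assoc]
    _ = β * X * Ts σ b1 * Ts σ aQ := by rw [h6]; simp only [mul_assoc]

end

end Pool.Agent.CTG
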