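import Pool.Agent.CTG.Defs
import Pool.Agent.Helper49.Coset.Gauss

/-! Module GDEC: the twisted Gauss decomposition in block form. -/

set_option autoImplicit false

namespace Pool.Agent.CTG

open Matrix Pool.Agent.CTC

variable {F : Type*} [Field F]

lemma gdec_det_low {ι : Type} [Fintype ι] [DecidableEq ι] {m : ℕ} (e : ι ≃ Fin m)
    (M : Matrix ι ι F) (h1 : ∀ i, M i i = 1) (h0 : ∀ i j, e i < e j → M i j = 0) : M.det = 1 := by
  rw [← Matrix.det_submatrix_equiv_self e.symm M, Matrix.det_of_isLowerTriangular]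
  · simp [h1]
  · intro a b hab
    exact h0 _ _ (by simpa using hab)

lemma gdec_det_up {ι : Type} [Fintype ι] [DecidableEq ι] {m : ℕ} (e : ι ≃ Fin m)
    (M : Matrix ι ι F) (h1 : ∀ i, M i i = 1) (h0 : ∀ i j, e j < e i → M i j = 0) : M.det = 1 := by
  rw [← Matrix.det_transpose]
  exact gdec_det_low e _ h1 fun i j h => h0 j i h

/-- the order `U, F, W` -/
def gdecE {ι : Type} {m : ℕ} (e : ι ≃ Fin m) : ((ι ⊕ ι) ⊕ Unit) ≃ Fin (2 * m + 1) :=
  (((Equiv.sumCongr (Equiv.sumCongr e e) (Equiv.ofUnique Unit (Fin 1))).trans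
    (Equiv.sumAssoc _ _ _)).trans ((Equiv.sumCongr (Equiv.refl _)
      ((Equiv.sumComm _ _).trans finSumFinEquiv)).trans finSumFinEquiv)).trans
        (finCongr (by omega))

lemma gdecE_U {ι : Type} {m : ℕ} (e : ι ≃ Fin m) (i : ι) :
    ((gdecE e (Sum.inl (Sum.inl i)) : Fin (2 * m + 1)) : ℕ) = e i := by
  simp [gdecE]

lemma gdecE_W {ι : Type} {m : ℕ} (e : ι ≃ Fin m) (i : ι) :
    ((gdecE e (Sum.inl (Sum.inr i)) : Fin (2 * m + 1)) : ℕ) = m + (1 + e i) := by
  simp [gdecE]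

lemma gdecE_F {ι : Type} {m : ℕ} (e : ι ≃ Fin m) (u : Unit) :
    ((gdecE e (Sum.inr u) : Fin (2 * m + 1)) : ℕ) = m := by
  simp [gdecE]

theorem dec [Finite F] (σ : F ≃+* F) (hτ : ∃ z, σ (σ z) ≠ z)
    (hq : 3 ≤ Nat.card {z : F // σ z = z}) {m : ℕ} (hm : 1 ≤ m) {ι : Type} [Fintype ι]
    [DecidableEq ι] (hι : Fintype.card ι = m) (h1 h h3 : F) (hh1 : h1 ≠ 0) (hh : h ≠ 0)
    (hh3 : h3 ≠ 0) (B : Matrix ((ι ⊕ ι) ⊕ Unit) ((ι ⊕ ι) ⊕ Unit) F) (hB : B.det = h1 * h * h3) :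
    ∃ (g : Matrix ((ι ⊕ ι) ⊕ Unit) ((ι ⊕ ι) ⊕ Unit) F)
      (L11 L31 L33 U11 U13 U33 H1 H3 : Matrix ι ι F) (l21 l32 u12 u23 : ι → F),
      g.det = 1 ∧ B * g.map (σ.trans σ) =
        g * (Lb L11 L31 L33 l21 l32 * Hb H1 H3 h * Ub U11 U13 U33 u12 u23) ∧
      U11.det ≠ 0 ∧ U33.det ≠ 0 ∧ (L11 * H1 * U11).det = h1 ∧ (L33 * H3 * U33).det = h3 := by
  obtain ⟨w, hw, hw0, hw1⟩ : ∃ w : F, σ w = w ∧ w ≠ 0 ∧ w ≠ 1 := by
    by_contra hcon
    push Not at hcon
    have h4 : Nat.card {z : F // σ z = z} ≤ 2 := by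
      have hsub : {z : F | σ z = z} ⊆ ({0, 1} : Set F) := by
        intro z hz
        by_cases h0 : z = 0
        · simp [h0]
        · right
          exact hcon z hz h0
      calc Nat.card {z : F // σ z = z} = Set.ncard {z : F | σ z = z} := rfl
        _ ≤ ({0, 1} : Set F).ncard := Set.ncard_le_ncard hsub
        _ ≤ 2 := (Set.ncard_insert_le _ _).trans (by simp)
    omega
  obtain ⟨eι⟩ : Nonempty (ι ≃ Fin m) := ⟨Fintype.equivFinOfCardEq hι⟩
  set e := gdecE eι with he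
  set i0 : ι := eι.symm ⟨0, by omega⟩ with hi0
  set Hf : (ι ⊕ ι) ⊕ Unit → F :=
    Sum.elim (Sum.elim (Pi.mulSingle i0 h1) (Pi.mulSingle i0 h3)) (fun _ => h) with hHf
  have hHf0 : ∀ x, Hf x ≠ 0 := by
    rintro ((x | x) | x)
    · show (Pi.mulSingle i0 h1 : ι → F) x ≠ 0
      by_cases hx : x = i0
      · subst hx; rwa [Pi.mulSingle_eq_same]
      · rw [Pi.mulSingle_eq_of_ne hx]; exact one_ne_zero
    · show (Pi.mulSingle i0 h3 : ι → F) x ≠ 0
      by_cases hx : x = i0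
      · subst hx; rwa [Pi.mulSingle_eq_same]
      · rw [Pi.mulSingle_eq_of_ne hx]; exact one_ne_zero
    · exact hh
  have hp : ∀ y : F, ∏ x, (Pi.mulSingle i0 y : ι → F) x = y := by
    intro y
    rw [Fintype.prod_eq_single i0 (fun x hx => by rw [Pi.mulSingle_eq_of_ne hx]),
      Pi.mulSingle_eq_same]
  obtain ⟨g', L, U, hg, ⟨hL1, hL0⟩, ⟨hU1, hU0⟩, hBg, -, -⟩ := CosetT.gauss (σ := σ)
    (τ := σ.trans σ) hτ (fun z hz => by
      show σ (σ z) = z
      rw [hz, hz]) hw hw0 hw1 (2 * m) (B.submatrix e.symm e.symm) (fun i => Hf (e.symm i))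
    (fun i => hHf0 _) (by
      rw [Matrix.det_submatrix_equiv_self, hB, Equiv.prod_comp e.symm Hf, Fintype.prod_sum_type,
        Fintype.prod_sum_type]
      show _ = (∏ x, (Pi.mulSingle i0 h1 : ι → F) x) * (∏ x, (Pi.mulSingle i0 h3 : ι → F) x) *
        ∏ _x : Unit, h
      rw [hp, hp]
      simp
      ring) (fun _ => 1) (fun _ => 1) (fun h => one_ne_zero (congrFun h 0))
      (fun h => one_ne_zero (congrFun h 0)) 1 1 one_ne_zero one_ne_zero
  have hU : ∀ i, ((e (Sum.inl (Sum.inl i)) : Fin (2 * m + 1)) : ℕ) = eι i := gdecE_U eι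
  have hW : ∀ i, ((e (Sum.inl (Sum.inr i)) : Fin (2 * m + 1)) : ℕ) = m + (1 + eι i) := gdecE_W eι
  have hF : ∀ i, ((e (Sum.inr i) : Fin (2 * m + 1)) : ℕ) = m := gdecE_F eι
  have hUF : ∀ i u, e (Sum.inl (Sum.inl i)) < e (Sum.inr u) := by
    intro i u
    rw [Fin.lt_def, hU, hF]
    exact (eι i).2
  have hUW : ∀ i j, e (Sum.inl (Sum.inl i)) < e (Sum.inl (Sum.inr j)) := by
    intro i j
    rw [Fin.lt_def, hU, hW]
    have := (eι i).2
    omega
  have hFW : ∀ u j, e (Sum.inr u) < e (Sum.inl (Sum.inr j)) := by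
    intro u j
    rw [Fin.lt_def, hF, hW]
    omega
  have hUU : ∀ i j, eι i < eι j → e (Sum.inl (Sum.inl i)) < e (Sum.inl (Sum.inl j)) := by
    intro i j hij
    rw [Fin.lt_def, hU, hU]
    exact hij
  have hWW : ∀ i j, eι i < eι j → e (Sum.inl (Sum.inr i)) < e (Sum.inl (Sum.inr j)) := by
    intro i j hij
    rw [Fin.lt_def, hW, hW]
    have : (eι i : ℕ) < eι j := hij
    omega
  have eL : L.submatrix e e = Lb (L.submatrix (fun i => e (Sum.inl (Sum.inl i))) (fun j => e (Sum.inl (Sum.inl j))))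
      (L.submatrix (fun i => e (Sum.inl (Sum.inr i))) (fun j => e (Sum.inl (Sum.inl j))))
      (L.submatrix (fun i => e (Sum.inl (Sum.inr i))) (fun j => e (Sum.inl (Sum.inr j))))
      (fun j => L (e (Sum.inr ())) (e (Sum.inl (Sum.inl j))))
      (fun i => L (e (Sum.inl (Sum.inr i))) (e (Sum.inr ()))) := by
    ext ((i | i) | i) ((j | j) | j)
    · rfl
    · exact hL0 _ _ (hUW i j)
    · exact hL0 _ _ (hUF i j)
    · rfl
    · rfl
    · rfl
    · rfl
    · exact hL0 _ _ (hFW i j)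
    · exact hL1 _
  have eU : U.submatrix e e = Ub (U.submatrix (fun i => e (Sum.inl (Sum.inl i))) (fun j => e (Sum.inl (Sum.inl j))))
      (U.submatrix (fun i => e (Sum.inl (Sum.inl i))) (fun j => e (Sum.inl (Sum.inr j))))
      (U.submatrix (fun i => e (Sum.inl (Sum.inr i))) (fun j => e (Sum.inl (Sum.inr j))))
      (fun i => U (e (Sum.inl (Sum.inl i))) (e (Sum.inr ())))
      (fun j => U (e (Sum.inr ())) (e (Sum.inl (Sum.inr j)))) := by
    ext ((i | i) | i) ((j | j) | j)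
    · rfl
    · rfl
    · rfl
    · exact hU0 _ _ (hUW j i)
    · rfl
    · exact hU0 _ _ (hFW j i)
    · exact hU0 _ _ (hUF j i)
    · rfl
    · exact hU1 _
  have eH : (Matrix.diagonal fun i => Hf (e.symm i)).submatrix e e =
      Hb (Matrix.diagonal (Pi.mulSingle i0 h1)) (Matrix.diagonal (Pi.mulSingle i0 h3)) h := by
    rw [Matrix.submatrix_diagonal_equiv]
    have h5 : ((fun i => Hf (e.symm i)) ∘ e) = Hf := by
      funext x
      simp
    rw [h5, hHf, ← Matrix.fromBlocks_diagonal, ← Matrix.fromBlocks_diagonal]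
    unfold Hb
    congr 1
  have dL1 : (L.submatrix (fun i => e (Sum.inl (Sum.inl i)))
      (fun j => e (Sum.inl (Sum.inl j)))).det = 1 :=
    gdec_det_low eι _ (fun i => hL1 _) (fun i j hij => hL0 _ _ (hUU i j hij))
  have dL3 : (L.submatrix (fun i => e (Sum.inl (Sum.inr i)))
      (fun j => e (Sum.inl (Sum.inr j)))).det = 1 :=
    gdec_det_low eι _ (fun i => hL1 _) (fun i j hij => hL0 _ _ (hWW i j hij))
  have dU1 : (U.submatrix (fun i => e (Sum.inl (Sum.inl i)))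
      (fun j => e (Sum.inl (Sum.inl j)))).det = 1 :=
    gdec_det_up eι _ (fun i => hU1 _) (fun i j hij => hU0 _ _ (hUU j i hij))
  have dU3 : (U.submatrix (fun i => e (Sum.inl (Sum.inr i)))
      (fun j => e (Sum.inl (Sum.inr j)))).det = 1 :=
    gdec_det_up eι _ (fun i => hU1 _) (fun i j hij => hU0 _ _ (hWW j i hij))
  refine ⟨g'.submatrix e e, L.submatrix (fun i => e (Sum.inl (Sum.inl i))) (fun j => e (Sum.inl (Sum.inl j))),
    L.submatrix (fun i => e (Sum.inl (Sum.inr i))) (fun j => e (Sum.inl (Sum.inl j))),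
    L.submatrix (fun i => e (Sum.inl (Sum.inr i))) (fun j => e (Sum.inl (Sum.inr j))),
    U.submatrix (fun i => e (Sum.inl (Sum.inl i))) (fun j => e (Sum.inl (Sum.inl j))),
    U.submatrix (fun i => e (Sum.inl (Sum.inl i))) (fun j => e (Sum.inl (Sum.inr j))),
    U.submatrix (fun i => e (Sum.inl (Sum.inr i))) (fun j => e (Sum.inl (Sum.inr j))),
    Matrix.diagonal (Pi.mulSingle i0 h1), Matrix.diagonal (Pi.mulSingle i0 h3),
    fun j => L (e (Sum.inr ())) (e (Sum.inl (Sum.inl j))),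
    fun i => L (e (Sum.inl (Sum.inr i))) (e (Sum.inr ())),
    fun i => U (e (Sum.inl (Sum.inl i))) (e (Sum.inr ())),
    fun j => U (e (Sum.inr ())) (e (Sum.inl (Sum.inr j))), ?_, ?_, ?_, ?_, ?_, ?_⟩
  rotate_left
  · rw [← eL, ← eH, ← eU]
    have h6 := congrArg (fun M => M.submatrix e e) hBg
    beta_reduce at h6
    rw [← Matrix.submatrix_mul_equiv _ _ e e e, ← Matrix.submatrix_mul_equiv _ _ e e e,
      ← Matrix.submatrix_mul_equiv _ _ e e e, ← Matrix.submatrix_mul_equiv _ _ e e e] at h6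
    rw [Matrix.submatrix_submatrix] at h6
    simp only [Equiv.symm_comp_self, Matrix.submatrix_id_id] at h6
    exact h6
  · rw [dU1]
    exact one_ne_zero
  · rw [dU3]
    exact one_ne_zero
  · rw [Matrix.det_mul, Matrix.det_mul, Matrix.det_diagonal, hp, dL1, dU1, one_mul, mul_one]
  · rw [Matrix.det_mul, Matrix.det_mul, Matrix.det_diagonal, hp, dL3, dU3, one_mul, mul_one]
  · rw [Matrix.det_submatrix_equiv_self, hg]

end Pool.Agent.CTG
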