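import Pool.Agent.CTG.Defs
import Pool.Agent.Helper49.Coset.Gauss

/-!
# Every nonscalar matrix is conjugate to `L H U` with prescribed diagonal `H` (Sourour)
-/

set_option autoImplicit false

namespace Pool.Agent.CTG

open Matrix Pool.Agent.CTC CosetT

variable {F : Type*} [Field F]

theorem g1_exists_vec {m : ℕ} (B : Matrix (Fin (m + 1)) (Fin (m + 1)) F)
    (hB : ¬ ∃ b : F, B = b • (1 : Matrix (Fin (m + 1)) (Fin (m + 1)) F)) :
    ∃ v : Fin (m + 1) → F, ∀ c : F, B *ᵥ v ≠ c • v := by
  by_contra hcon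
  push Not at hcon
  have hoff : ∀ i j, i ≠ j → B i j = 0 := by
    intro i j hij
    obtain ⟨c, hc⟩ := hcon (Pi.single j 1)
    have := congrFun hc i
    rw [Matrix.mulVec_single_one] at this
    simpa [Matrix.col, Pi.single_apply, hij] using this
  apply hB
  refine ⟨B 0 0, ?_⟩
  ext i j
  by_cases hij : i = j
  · subst hij
    rw [Matrix.smul_apply, Matrix.one_apply_eq, smul_eq_mul, mul_one]
    by_cases h0 : i = 0
    · rw [h0]
    · obtain ⟨c, hc⟩ := hcon (Pi.single 0 1 + Pi.single i 1)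
      rw [Matrix.mulVec_add, Matrix.mulVec_single_one, Matrix.mulVec_single_one] at hc
      have e0 := congrFun hc 0
      have e1 := congrFun hc i
      have h1 : B 0 i = 0 := hoff 0 i (Ne.symm h0)
      have h2 : B i 0 = 0 := hoff i 0 h0
      simp [Matrix.col, Ne.symm h0, h1] at e0
      simp [Matrix.col, h0, h2] at e1
      rw [e0, e1]
  · rw [hoff i j hij, Matrix.smul_apply, Matrix.one_apply_ne hij, smul_zero]

theorem g1_exists_functional {m : ℕ} {v w : Fin (m + 1) → F} (hv0 : v ≠ 0)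
    (hw : ∀ c : F, w ≠ c • v) (h : F) :
    ∃ φ : Fin (m + 1) → F, ∑ l, φ l * v l = 1 ∧ ∑ l, φ l * w l = h := by
  have hv : ∃ i, ∃ j, v i * w j - v j * w i ≠ 0 := by
    by_contra hcon
    push Not at hcon
    obtain ⟨i, hi⟩ := Function.ne_iff.1 hv0
    apply hw (w i / v i)
    ext j
    have hi' : v i ≠ 0 := hi
    have := hcon i j
    rw [Pi.smul_apply, smul_eq_mul]
    field_simp
    linear_combination this
  obtain ⟨i, j, hd⟩ := hv
  refine ⟨Pi.single i ((w j - h * v j) / (v i * w j - v j * w i)) +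
    Pi.single j ((h * v i - w i) / (v i * w j - v j * w i)), ?_, ?_⟩
  · simp only [Pi.add_apply, add_mul, Finset.sum_add_distrib, Pi.single_apply, ite_mul, zero_mul,
      Finset.sum_ite_eq', Finset.mem_univ, if_true]
    rw [div_mul_eq_mul_div, div_mul_eq_mul_div, ← add_div, div_eq_iff hd]
    ring
  · simp only [Pi.add_apply, add_mul, Finset.sum_add_distrib, Pi.single_apply, ite_mul, zero_mul,
      Finset.sum_ite_eq', Finset.mem_univ, if_true]
    rw [div_mul_eq_mul_div, div_mul_eq_mul_div, ← add_div, div_eq_iff hd]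
    ring

theorem g1_base {n : ℕ} (B : Matrix (Fin (n + 1 + 1)) (Fin (n + 1 + 1)) F)
    (hB : ¬ ∃ b : F, B = b • (1 : Matrix (Fin (n + 1 + 1)) (Fin (n + 1 + 1)) F)) (h : F) :
    ∃ (g : Matrix (Fin (n + 1 + 1)) (Fin (n + 1 + 1)) F) (r c : Fin (n + 1) → F)
      (M : Matrix (Fin (n + 1)) (Fin (n + 1)) F), g.det = 1 ∧ c ≠ 0 ∧
        B * g = g * blk h r c M := by
  obtain ⟨v, hv⟩ := g1_exists_vec B hB
  have hv0 : v ≠ 0 := by
    rintro rfl
    apply hv 0
    simp
  obtain ⟨φ, h1, h2⟩ := g1_exists_functional hv0 hv h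
  obtain ⟨g, hg, hgv, hgφ⟩ := exists_sl_ext (by omega : 1 ≤ n + 1) h1
  have hgu : IsUnit g.det := by rw [hg]; exact isUnit_one
  set M1 := g⁻¹ * (B * g) with hM1
  have hM1' : g * M1 = B * g := by
    rw [hM1, ← mul_assoc, Matrix.mul_nonsing_inv _ hgu, one_mul]
  clear_value M1
  have hcol0 : ∀ l, (B * g) l 0 = (B *ᵥ v) l := by
    intro l
    rw [Matrix.mul_apply, Matrix.mulVec, dotProduct]
    apply Finset.sum_congr rfl; intro k _
    rw [hgv]
  have hM00 : M1 0 0 = h := by
    have e1 : ∑ l, φ l * (g * M1) l 0 = ∑ k, (∑ l, φ l * g l k) * M1 k 0 := by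
      simp only [Matrix.mul_apply, Finset.mul_sum, Finset.sum_mul]
      rw [Finset.sum_comm]
      apply Finset.sum_congr rfl; intro k _
      apply Finset.sum_congr rfl; intro l _
      ring
    rw [hM1'] at e1
    simp only [hgφ, ite_mul, one_mul, zero_mul, Finset.sum_ite_eq', Finset.mem_univ, if_true] at e1
    rw [← e1, ← h2]
    apply Finset.sum_congr rfl; intro l _
    rw [hcol0]
  refine ⟨g, fun j => M1 0 j.succ, fun i => M1 i.succ 0, Matrix.of fun i j => M1 i.succ j.succ,
    hg, ?_, ?_⟩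
  · intro h0
    apply hv h
    ext l
    rw [← hcol0, ← hM1', Matrix.mul_apply, Fin.sum_univ_succ]
    have : ∀ i : Fin (n + 1), M1 i.succ 0 = 0 := fun i => congrFun h0 i
    simp only [this, mul_zero, Finset.sum_const_zero, add_zero, hM00, hgv]
    simp [mul_comm]
  · rw [← hM1']
    congr 1
    conv_lhs => rw [eq_blk M1]
    rw [hM00]

theorem g1_step {n : ℕ} (B : Matrix (Fin (n + 1 + 1)) (Fin (n + 1 + 1)) F)
    (hB : ¬ ∃ b : F, B = b • (1 : Matrix (Fin (n + 1 + 1)) (Fin (n + 1 + 1)) F))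
    (hBd : B.det ≠ 0) {h : F} (hh : h ≠ 0) :
    ∃ (g : Matrix (Fin (n + 1 + 1)) (Fin (n + 1 + 1)) F) (r c : Fin (n + 1) → F)
      (M : Matrix (Fin (n + 1)) (Fin (n + 1)) F), g.det = 1 ∧
        B * g = g * blk h r c M ∧ (1 ≤ n → ¬ ∃ b : F, (Matrix.of fun i j => M i j - c i * r j / h) =
          b • (1 : Matrix (Fin (n + 1)) (Fin (n + 1)) F)) := by
  obtain ⟨g, r, c, M, hg, hc, hgB⟩ := g1_base B hB h
  by_cases hS : ∃ b : F, (Matrix.of fun i j => M i j - c i * r j / h) =
      b • (1 : Matrix (Fin (n + 1)) (Fin (n + 1)) F)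
  swap
  · exact ⟨g, r, c, M, hg, hgB, fun _ => hS⟩
  rcases Nat.eq_zero_or_pos n with hn | hn
  · exact ⟨g, r, c, M, hg, hgB, fun h => absurd h (by omega)⟩
  obtain ⟨μ, hμ⟩ := hS
  have hμ0 : μ ≠ 0 := by
    rintro rfl
    apply hBd
    have e1 := congrArg Matrix.det hgB
    rw [Matrix.det_mul, Matrix.det_mul, hg, one_mul, mul_one, det_blk hh, hμ, zero_smul] at e1
    rw [e1, Matrix.det_zero, mul_zero]
  obtain ⟨i, hi⟩ := Function.ne_iff.1 hc
  have hi' : c i ≠ 0 := hi
  obtain ⟨j, hj⟩ : ∃ j : Fin (n + 1), j ≠ i := by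
    by_cases h0 : i = 0
    · refine ⟨Fin.last n, ?_⟩
      rw [h0]
      intro h1
      have := congrArg Fin.val h1
      simp at this
      omega
    · exact ⟨0, Ne.symm h0⟩
  set x : Fin (n + 1) → F := Pi.single j (c i) - Pi.single i (c j) with hx
  have hxc : ∑ l, x l * c l = 0 := by
    rw [hx]
    simp only [Pi.sub_apply, sub_mul, Finset.sum_sub_distrib, Pi.single_apply, ite_mul, zero_mul,
      Finset.sum_ite_eq', Finset.mem_univ, if_true]
    ring
  have hMe : ∀ a b, M a b = μ * (1 : Matrix (Fin (n + 1)) (Fin (n + 1)) F) a b + c a * r b / h := by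
    intro a b
    have := congrFun (congrFun hμ a) b
    rw [Matrix.of_apply, Matrix.smul_apply, smul_eq_mul] at this
    linear_combination this
  have hxM : ∀ b, ∑ l, x l * M l b = μ * x b := by
    intro b
    have : ∀ l, x l * M l b = μ * (x l * (1 : Matrix (Fin (n + 1)) (Fin (n + 1)) F) l b) +
        (x l * c l) * (r b / h) := by
      intro l
      rw [hMe]; ring
    simp only [this, Finset.sum_add_distrib, ← Finset.mul_sum, ← Finset.sum_mul, hxc, zero_mul,
      add_zero]
    congr 1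
    simp [Matrix.one_apply]
  refine ⟨g * blk 1 x 0 1, fun b => h * x b + r b - μ * x b, c,
    Matrix.of fun a b => M a b + c a * x b, ?_, ?_, ?_⟩
  · rw [Matrix.det_mul, hg, det_blk_upper]; simp
  · rw [← Matrix.mul_assoc, hgB, Matrix.mul_assoc, Matrix.mul_assoc]
    congr 1
    rw [blk_mul, blk_mul]
    ext a b
    refine Fin.cases ?_ (fun a => ?_) a <;> refine Fin.cases ?_ (fun b => ?_) b
    · simp [hxc]
    · simp only [blk_zs, Matrix.of_apply, mul_add, Finset.sum_add_distrib, hxM, one_mul]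
      have e1 : ∑ l, x l * (c l * x b) = 0 := by
        rw [← zero_mul (x b), ← hxc, Finset.sum_mul]
        apply Finset.sum_congr rfl; intro l _; ring
      rw [e1]
      simp [Matrix.one_apply]
    · simp [Matrix.one_apply]
    · simp [Matrix.one_apply, add_comm]
  · rintro - ⟨b, hb⟩
    have := congrFun (congrFun hb i) j
    rw [Matrix.of_apply, Matrix.of_apply, Matrix.smul_apply, Matrix.one_apply_ne (Ne.symm hj),
      smul_zero, hMe, Matrix.one_apply_ne (Ne.symm hj)] at this
    have hxj : x j = c i := by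
      rw [hx]
      simp [hj]
    beta_reduce at this
    rw [hxj] at this
    have e2 : c i * c i * (μ / h) = 0 := by
      rw [← this]
      field_simp
      ring
    have e3 : c i * c i * (μ / h) ≠ 0 :=
      mul_ne_zero (mul_ne_zero hi' hi') (div_ne_zero hμ0 hh)
    exact e3 e2

/-- Every nonscalar matrix is conjugate to `L H U` with prescribed diagonal `H`. -/
theorem gauss1 : ∀ (n : ℕ) (B : Matrix (Fin (n + 1)) (Fin (n + 1)) F) (H : Fin (n + 1) → F),
    (∀ i, H i ≠ 0) → B.det = ∏ i, H i →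
    (¬ ∃ b : F, B = b • (1 : Matrix (Fin (n + 1)) (Fin (n + 1)) F)) →
    ∃ g L U : Matrix (Fin (n + 1)) (Fin (n + 1)) F, g.det = 1 ∧ LowerUni L ∧ UpperUni U ∧
        B * g = g * (L * Matrix.diagonal H * U) := by
  intro n
  induction n with
  | zero =>
    intro B H hH hdet hns
    exfalso
    apply hns
    refine ⟨B 0 0, ?_⟩
    ext i j
    have hi : i = 0 := Fin.ext (by omega)
    have hj : j = 0 := Fin.ext (by omega)
    subst hi; subst hj
    simp
  | succ n ih =>
    intro B H hH hdet hns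
    have hBdet : B.det ≠ 0 := by
      rw [hdet]; exact Finset.prod_ne_zero_iff.2 (fun i _ => hH i)
    have hh0 : H 0 ≠ 0 := hH 0
    obtain ⟨g1, r, c, M, hg1, hg1B, hnsc⟩ := g1_step B hns hBdet hh0
    set S : Matrix (Fin (n + 1)) (Fin (n + 1)) F := Matrix.of fun i j => M i j - c i * r j / H 0
      with hS
    have hdetS : S.det = ∏ i : Fin (n + 1), H i.succ := by
      have e1 := congrArg Matrix.det hg1B
      rw [Matrix.det_mul, Matrix.det_mul, hg1, one_mul, mul_one, det_blk hh0, hdet,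
        Fin.prod_univ_succ] at e1
      exact (mul_left_cancel₀ hh0 e1).symm
    obtain ⟨g', L', U', hg', hL', hU', hdec⟩ : ∃ g' L' U' : Matrix (Fin (n + 1)) (Fin (n + 1)) F,
        g'.det = 1 ∧ LowerUni L' ∧ UpperUni U' ∧
        S * g' = g' * (L' * Matrix.diagonal (fun i => H i.succ) * U') := by
      rcases Nat.eq_zero_or_pos n with hn | hn
      · subst hn
        refine ⟨1, 1, 1, Matrix.det_one,
          ⟨fun i => Matrix.one_apply_eq i, fun i j h => Matrix.one_apply_ne (ne_of_lt h)⟩,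
          ⟨fun i => Matrix.one_apply_eq i, fun i j h => Matrix.one_apply_ne (ne_of_gt h)⟩, ?_⟩
        rw [mul_one, one_mul, one_mul, mul_one]
        ext i j
        have hi : i = 0 := Fin.ext (by omega)
        have hj : j = 0 := Fin.ext (by omega)
        subst hi; subst hj
        rw [Matrix.diagonal_apply_eq]
        have h2 : S.det = S 0 0 := Matrix.det_fin_one S
        rw [← h2, hdetS]; simp
      · exact ih S (fun i => H i.succ) (fun i => hH _) hdetS (hnsc hn)
    have hg'u : IsUnit g'.det := by rw [hg']; exact isUnit_one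
    set x : Fin (n + 1) → F := g'⁻¹ *ᵥ c with hx
    have hx' : ∀ i, ∑ l, g' i l * x l = c i := by
      intro i
      have : (g' *ᵥ x) i = c i := by
        rw [hx, Matrix.mulVec_mulVec, Matrix.mul_nonsing_inv _ hg'u, Matrix.one_mulVec]
      rw [← this]; simp [Matrix.mulVec, dotProduct]
    have hstep := step_identity hh0 r c x M g' L' (Matrix.diagonal fun i => H i.succ) U'
      g' hdec hx'
    refine ⟨g1 * blk 1 0 0 g', blk 1 0 (fun i => x i / H 0) L',
      blk 1 (fun j => (∑ l, r l * g' l j) / H 0) 0 U', ?_,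
      lowerUni_blk hL', upperUni_blk hU', ?_⟩
    · rw [Matrix.det_mul, hg1, det_blk_lower, hg']; ring
    · rw [← mul_assoc, hg1B, mul_assoc, hstep, diag_blk H]
      simp only [Matrix.mul_assoc]

end Pool.Agent.CTG
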