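import Pool.Agent.CTG.Dec
import Pool.Agent.CTG.Gauss1

/-! CTG / Dec1 (module DEC1): `gauss1` in block form, `U11` part not scalar. -/

set_option autoImplicit false

namespace Pool.Agent.CTG

open Matrix Pool.Agent.CTC CosetT

variable {F : Type*} [Field F]

/-- `L D U` with two different first diagonal entries of `D` is not scalar -/
theorem ldu_not_scalar {ι : Type*} [Fintype ι] [DecidableEq ι] {m : ℕ} (e : ι ≃ Fin m)
    (L U : Matrix ι ι F) (hL1 : ∀ i, L i i = 1) (hL0 : ∀ i j, e i < e j → L i j = 0)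
    (hU1 : ∀ i, U i i = 1) (d : ι → F) (i0 i1 : ι)
    (hi0 : ((e i0 : Fin m) : ℕ) = 0) (hi1 : ((e i1 : Fin m) : ℕ) = 1) (hd0 : d i0 ≠ 0)
    (hne : d i1 ≠ d i0) : ¬ ∃ μ : F, L * Matrix.diagonal d * U = μ • (1 : Matrix ι ι F) := by
  rintro ⟨μ, h⟩
  have hent : ∀ i j, (L * Matrix.diagonal d * U) i j = ∑ l, L i l * d l * U l j := by
    intro i j
    rw [Matrix.mul_apply]
    simp only [Matrix.mul_diagonal]
  have h01 : i1 ≠ i0 := by
    rintro rfl
    omega
  have hrow0 : ∀ j, (L * Matrix.diagonal d * U) i0 j = d i0 * U i0 j := by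
    intro j
    rw [hent, Finset.sum_eq_single i0]
    · rw [hL1, one_mul]
    · intro l _ hl
      have h1 : e i0 < e l := by
        rw [Fin.lt_def, hi0]
        have h2 : e l ≠ e i0 := fun h3 => hl (e.injective h3)
        have h3 : ((e l : Fin m) : ℕ) ≠ e i0 := fun h4 => h2 (Fin.ext h4)
        omega
      rw [hL0 _ _ h1, zero_mul, zero_mul]
    · intro h1
      exact absurd (Finset.mem_univ _) h1
  have h00 : μ = d i0 := by
    have h1 := congrFun (congrFun h i0) i0
    rw [hrow0, hU1, mul_one, Matrix.smul_apply, Matrix.one_apply_eq, smul_eq_mul, mul_one] at h1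
    exact h1.symm
  have hU01 : U i0 i1 = 0 := by
    have h1 := congrFun (congrFun h i0) i1
    rw [hrow0, Matrix.smul_apply, Matrix.one_apply_ne h01.symm, smul_zero] at h1
    exact (mul_eq_zero.1 h1).resolve_left hd0
  have h11 : (L * Matrix.diagonal d * U) i1 i1 = d i1 := by
    rw [hent, Finset.sum_eq_single i1]
    · rw [hL1, hU1, one_mul, mul_one]
    · intro l _ hl
      by_cases hl0 : l = i0
      · rw [hl0, hU01, mul_zero]
      · have h1 : e i1 < e l := by
          rw [Fin.lt_def, hi1]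
          have h3 : ((e l : Fin m) : ℕ) ≠ e i0 := fun h4 => hl0 (e.injective (Fin.ext h4))
          have h5 : ((e l : Fin m) : ℕ) ≠ e i1 := fun h4 => hl (e.injective (Fin.ext h4))
          omega
        rw [hL0 _ _ h1, zero_mul, zero_mul]
    · intro h1
      exact absurd (Finset.mem_univ _) h1
  have h2 := congrFun (congrFun h i1) i1
  rw [h11, Matrix.smul_apply, Matrix.one_apply_eq, smul_eq_mul, mul_one, h00] at h2
  exact hne h2

theorem dec1 {m : ℕ} (hm : 1 ≤ m) {ι : Type} [Fintype ι]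
    [DecidableEq ι] (hι : Fintype.card ι = m) (h1 h h3 x : F) (hh1 : h1 ≠ 0) (hh : h ≠ 0)
    (hh3 : h3 ≠ 0) (hx : x ≠ 0) (hxx : x * x ≠ h1)
    (B : Matrix ((ι ⊕ ι) ⊕ Unit) ((ι ⊕ ι) ⊕ Unit) F) (hB : B.det = h1 * h * h3)
    (hns : ¬ ∃ b : F, B = b • (1 : Matrix ((ι ⊕ ι) ⊕ Unit) ((ι ⊕ ι) ⊕ Unit) F)) :
    ∃ (g : Matrix ((ι ⊕ ι) ⊕ Unit) ((ι ⊕ ι) ⊕ Unit) F)
      (L11 L31 L33 U11 U13 U33 H1 H3 : Matrix ι ι F) (l21 l32 u12 u23 : ι → F),
      g.det = 1 ∧ B * g =
        g * (Lb L11 L31 L33 l21 l32 * Hb H1 H3 h * Ub U11 U13 U33 u12 u23) ∧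
      U11.det ≠ 0 ∧ U33.det ≠ 0 ∧ (L11 * H1 * U11).det = h1 ∧ (L33 * H3 * U33).det = h3 ∧
      (2 ≤ m → ¬ ∃ μ : F, L11 * H1 * U11 = μ • (1 : Matrix ι ι F)) := by
  obtain ⟨eι⟩ : Nonempty (ι ≃ Fin m) := ⟨Fintype.equivFinOfCardEq hι⟩
  set e := gdecE eι with he
  set i0 : ι := eι.symm ⟨0, by omega⟩ with hi0
  obtain ⟨d1, hd10, hd1p, hd1⟩ : ∃ d1 : ι → F, (∀ i, d1 i ≠ 0) ∧ (∏ i, d1 i = h1) ∧
      (∀ h2 : 2 ≤ m, d1 (eι.symm ⟨1, h2⟩) ≠ d1 i0) := by
    by_cases h2 : 2 ≤ m
    · have hne : eι.symm ⟨1, h2⟩ ≠ i0 := by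
        rw [hi0]
        intro h3
        have h4 := eι.symm.injective h3
        simp at h4
      refine ⟨Function.update (Pi.mulSingle (eι.symm ⟨1, h2⟩) (h1 / x)) i0 x, ?_, ?_, ?_⟩
      · intro i
        by_cases hi : i = i0
        · rw [hi, Function.update_self]; exact hx
        · rw [Function.update_of_ne hi]
          by_cases hi' : i = eι.symm ⟨1, h2⟩
          · rw [hi', Pi.mulSingle_eq_same]; exact div_ne_zero hh1 hx
          · rw [Pi.mulSingle_eq_of_ne hi']; exact one_ne_zero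
      · rw [Finset.prod_update_of_mem (Finset.mem_univ _),
          Finset.prod_eq_single (eι.symm ⟨1, h2⟩)]
        · rw [Pi.mulSingle_eq_same]; field_simp
        · intro b _ hb
          rw [Pi.mulSingle_eq_of_ne hb]
        · intro h3
          exact absurd (by simp [hne]) h3
      · intro _
        rw [Function.update_self, Function.update_of_ne hne, Pi.mulSingle_eq_same]
        intro h3
        apply hxx
        rw [div_eq_iff hx] at h3
        exact h3.symm
    · refine ⟨Pi.mulSingle i0 h1, ?_, ?_, fun h3 => absurd h3 h2⟩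
      · intro i
        by_cases hi : i = i0
        · rw [hi, Pi.mulSingle_eq_same]; exact hh1
        · rw [Pi.mulSingle_eq_of_ne hi]; exact one_ne_zero
      · rw [Fintype.prod_eq_single i0 (fun x hx => by rw [Pi.mulSingle_eq_of_ne hx]),
          Pi.mulSingle_eq_same]
  set Hf : (ι ⊕ ι) ⊕ Unit → F :=
    Sum.elim (Sum.elim d1 (Pi.mulSingle i0 h3)) (fun _ => h) with hHf
  have hHf0 : ∀ x, Hf x ≠ 0 := by
    rintro ((x | x) | x)
    · exact hd10 x
    · show (Pi.mulSingle i0 h3 : ι → F) x ≠ 0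
      by_cases hx : x = i0
      · subst hx; rwa [Pi.mulSingle_eq_same]
      · rw [Pi.mulSingle_eq_of_ne hx]; exact one_ne_zero
    · exact hh
  have hp : ∀ y : F, ∏ x, (Pi.mulSingle i0 y : ι → F) x = y := by
    intro y
    rw [Fintype.prod_eq_single i0 (fun x hx => by rw [Pi.mulSingle_eq_of_ne hx]),
      Pi.mulSingle_eq_same]
  obtain ⟨g', L, U, hg, ⟨hL1, hL0⟩, ⟨hU1, hU0⟩, hBg⟩ := gauss1 (2 * m)
    (B.submatrix e.symm e.symm) (fun i => Hf (e.symm i)) (fun i => hHf0 _) (by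
      rw [Matrix.det_submatrix_equiv_self, hB, Equiv.prod_comp e.symm Hf, Fintype.prod_sum_type,
        Fintype.prod_sum_type]
      show _ = (∏ x, d1 x) * (∏ x, (Pi.mulSingle i0 h3 : ι → F) x) * ∏ _x : Unit, h
      rw [hp, hd1p]
      simp
      ring) (by
      rintro ⟨b, hb⟩
      apply hns
      refine ⟨b, ?_⟩
      have h7 := congrArg (fun M => M.submatrix e e) hb
      beta_reduce at h7
      rw [Matrix.submatrix_submatrix] at h7
      simp only [Equiv.symm_comp_self, Matrix.submatrix_id_id] at h7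
      rw [h7, Matrix.submatrix_smul]
      simp)
  have hU : ∀ i, ((e (Sum.inl (Sum.inl i)) : Fin (2 * m + 1)) : ℕ) = eι i := gdecE_U eι
  have hW : ∀ i, ((e (Sum.inl (Sum.inr i)) : Fin (2 * m + 1)) : ℕ) = m + (1 + eι i) := gdecE_W eι
  have hF : ∀ i, ((e (Sum.inr i) : Fin (2 * m + 1)) : ℕ) = m := gdecE_F eι
  have hUF : ∀ i u, e (Sum.inl (Sum.inl i)) < e (Sum.inr u) := by
    intro i u
    rw [Fin.lt_def, hU, hF]
    exact (eι i).2
  have hUW : ∀ i j, e (Sum.inl (Sum.inl i)) < e (Sum.inl (Sum.inr j)) := by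
    intro i j
    rw [Fin.lt_def, hU, hW]
    have := (eι i).2
    omega
  have hFW : ∀ u j, e (Sum.inr u) < e (Sum.inl (Sum.inr j)) := by
    intro u j
    rw [Fin.lt_def, hF, hW]
    omega
  have hUU : ∀ i j, eι i < eι j → e (Sum.inl (Sum.inl i)) < e (Sum.inl (Sum.inl j)) := by
    intro i j hij
    rw [Fin.lt_def, hU, hU]
    exact hij
  have hWW : ∀ i j, eι i < eι j → e (Sum.inl (Sum.inr i)) < e (Sum.inl (Sum.inr j)) := by
    intro i j hij
    rw [Fin.lt_def, hW, hW]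
    have : (eι i : ℕ) < eι j := hij
    omega
  have eL : L.submatrix e e = Lb (L.submatrix (fun i => e (Sum.inl (Sum.inl i))) (fun j => e (Sum.inl (Sum.inl j))))
      (L.submatrix (fun i => e (Sum.inl (Sum.inr i))) (fun j => e (Sum.inl (Sum.inl j))))
      (L.submatrix (fun i => e (Sum.inl (Sum.inr i))) (fun j => e (Sum.inl (Sum.inr j))))
      (fun j => L (e (Sum.inr ())) (e (Sum.inl (Sum.inl j))))
      (fun i => L (e (Sum.inl (Sum.inr i))) (e (Sum.inr ()))) := by
    ext ((i | i) | i) ((j | j) | j)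
    · rfl
    · exact hL0 _ _ (hUW i j)
    · exact hL0 _ _ (hUF i j)
    · rfl
    · rfl
    · rfl
    · rfl
    · exact hL0 _ _ (hFW i j)
    · exact hL1 _
  have eU : U.submatrix e e = Ub (U.submatrix (fun i => e (Sum.inl (Sum.inl i))) (fun j => e (Sum.inl (Sum.inl j))))
      (U.submatrix (fun i => e (Sum.inl (Sum.inl i))) (fun j => e (Sum.inl (Sum.inr j))))
      (U.submatrix (fun i => e (Sum.inl (Sum.inr i))) (fun j => e (Sum.inl (Sum.inr j))))
      (fun i => U (e (Sum.inl (Sum.inl i))) (e (Sum.inr ())))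
      (fun j => U (e (Sum.inr ())) (e (Sum.inl (Sum.inr j)))) := by
    ext ((i | i) | i) ((j | j) | j)
    · rfl
    · rfl
    · rfl
    · exact hU0 _ _ (hUW j i)
    · rfl
    · exact hU0 _ _ (hFW j i)
    · exact hU0 _ _ (hUF j i)
    · rfl
    · exact hU1 _
  have eH : (Matrix.diagonal fun i => Hf (e.symm i)).submatrix e e =
      Hb (Matrix.diagonal d1) (Matrix.diagonal (Pi.mulSingle i0 h3)) h := by
    rw [Matrix.submatrix_diagonal_equiv]
    have h5 : ((fun i => Hf (e.symm i)) ∘ e) = Hf := by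
      funext x
      simp
    rw [h5, hHf, ← Matrix.fromBlocks_diagonal, ← Matrix.fromBlocks_diagonal]
    unfold Hb
    congr 1
  have dL1 : (L.submatrix (fun i => e (Sum.inl (Sum.inl i)))
      (fun j => e (Sum.inl (Sum.inl j)))).det = 1 :=
    gdec_det_low eι _ (fun i => hL1 _) (fun i j hij => hL0 _ _ (hUU i j hij))
  have dL3 : (L.submatrix (fun i => e (Sum.inl (Sum.inr i)))
      (fun j => e (Sum.inl (Sum.inr j)))).det = 1 :=
    gdec_det_low eι _ (fun i => hL1 _) (fun i j hij => hL0 _ _ (hWW i j hij))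
  have dU1 : (U.submatrix (fun i => e (Sum.inl (Sum.inl i)))
      (fun j => e (Sum.inl (Sum.inl j)))).det = 1 :=
    gdec_det_up eι _ (fun i => hU1 _) (fun i j hij => hU0 _ _ (hUU j i hij))
  have dU3 : (U.submatrix (fun i => e (Sum.inl (Sum.inr i)))
      (fun j => e (Sum.inl (Sum.inr j)))).det = 1 :=
    gdec_det_up eι _ (fun i => hU1 _) (fun i j hij => hU0 _ _ (hWW j i hij))
  refine ⟨g'.submatrix e e, L.submatrix (fun i => e (Sum.inl (Sum.inl i))) (fun j => e (Sum.inl (Sum.inl j))),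
    L.submatrix (fun i => e (Sum.inl (Sum.inr i))) (fun j => e (Sum.inl (Sum.inl j))),
    L.submatrix (fun i => e (Sum.inl (Sum.inr i))) (fun j => e (Sum.inl (Sum.inr j))),
    U.submatrix (fun i => e (Sum.inl (Sum.inl i))) (fun j => e (Sum.inl (Sum.inl j))),
    U.submatrix (fun i => e (Sum.inl (Sum.inl i))) (fun j => e (Sum.inl (Sum.inr j))),
    U.submatrix (fun i => e (Sum.inl (Sum.inr i))) (fun j => e (Sum.inl (Sum.inr j))),
    Matrix.diagonal d1, Matrix.diagonal (Pi.mulSingle i0 h3),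
    fun j => L (e (Sum.inr ())) (e (Sum.inl (Sum.inl j))),
    fun i => L (e (Sum.inl (Sum.inr i))) (e (Sum.inr ())),
    fun i => U (e (Sum.inl (Sum.inl i))) (e (Sum.inr ())),
    fun j => U (e (Sum.inr ())) (e (Sum.inl (Sum.inr j))), ?_, ?_, ?_, ?_, ?_, ?_, ?_⟩
  rotate_left
  · rw [← eL, ← eH, ← eU]
    have h6 := congrArg (fun M => M.submatrix e e) hBg
    beta_reduce at h6
    rw [← Matrix.submatrix_mul_equiv _ _ e e e, ← Matrix.submatrix_mul_equiv _ _ e e e,
      ← Matrix.submatrix_mul_equiv _ _ e e e, ← Matrix.submatrix_mul_equiv _ _ e e e] at h6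
    rw [Matrix.submatrix_submatrix] at h6
    simp only [Equiv.symm_comp_self, Matrix.submatrix_id_id] at h6
    exact h6
  · rw [dU1]
    exact one_ne_zero
  · rw [dU3]
    exact one_ne_zero
  · rw [Matrix.det_mul, Matrix.det_mul, Matrix.det_diagonal, hd1p, dL1, dU1, one_mul, mul_one]
  · rw [Matrix.det_mul, Matrix.det_mul, Matrix.det_diagonal, hp, dL3, dU3, one_mul, mul_one]
  · intro h2
    refine ldu_not_scalar eι _ _ (fun i => hL1 _) (fun i j hij => hL0 _ _ (hUU i j hij))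
      (fun i => hU1 _) d1 i0 (eι.symm ⟨1, h2⟩) (by rw [hi0]; simp) (by simp) (hd10 _) (hd1 h2)
  · rw [Matrix.det_submatrix_equiv_self, hg]


end Pool.Agent.CTG
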