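import Pool.Agent.CTG.Dec

/-! CTG / Dec2 (modules DEC2, DEC3): the Gauss decompositions in block form for `ι ⊕ ι`. -/

set_option autoImplicit false

namespace Pool.Agent.CTG

open Matrix Pool.Agent.CTC CosetT

variable {F : Type*} [Field F]

/-- the order `U, W` -/
def decE2 {ι : Type} {m : ℕ} (hm : 1 ≤ m) (e : ι ≃ Fin m) : (ι ⊕ ι) ≃ Fin (2 * m - 1 + 1) :=
  ((Equiv.sumCongr e e).trans finSumFinEquiv).trans (finCongr (by omega))

lemma decE2_U {ι : Type} {m : ℕ} (hm : 1 ≤ m) (e : ι ≃ Fin m) (i : ι) :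
    ((decE2 hm e (Sum.inl i) : Fin (2 * m - 1 + 1)) : ℕ) = e i := by
  simp [decE2]

lemma decE2_W {ι : Type} {m : ℕ} (hm : 1 ≤ m) (e : ι ≃ Fin m) (i : ι) :
    ((decE2 hm e (Sum.inr i) : Fin (2 * m - 1 + 1)) : ℕ) = m + e i := by
  simp [decE2, Nat.add_comm]

/-- from the Gauss decomposition over `Fin (2 m)` to blocks -/
theorem dec2_blocks {m : ℕ} (hm : 1 ≤ m) {ι : Type} [Fintype ι] [DecidableEq ι]
    (eι : ι ≃ Fin m) (τ : F ≃+* F) (B : Matrix (ι ⊕ ι) (ι ⊕ ι) F) (d1 d3 : ι → F)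
    (g' L U : Matrix (Fin (2 * m - 1 + 1)) (Fin (2 * m - 1 + 1)) F) (hg : g'.det = 1)
    (hL : LowerUni L) (hU : UpperUni U)
    (h : B.submatrix (decE2 hm eι).symm (decE2 hm eι).symm * g'.map τ = g' * (L *
      Matrix.diagonal (fun i => (Sum.elim d1 d3 : ι ⊕ ι → F) ((decE2 hm eι).symm i)) * U)) :
    ∃ (g : Matrix (ι ⊕ ι) (ι ⊕ ι) F) (L11 L31 L33 U11 U13 U33 : Matrix ι ι F),
      g.det = 1 ∧ B * g.map τ =
        g * (Matrix.fromBlocks L11 0 L31 L33 *
          Matrix.fromBlocks (Matrix.diagonal d1) 0 0 (Matrix.diagonal d3) *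
          Matrix.fromBlocks U11 U13 0 U33) ∧
      (∀ i, L11 i i = 1) ∧ (∀ i j, eι i < eι j → L11 i j = 0) ∧
      (∀ i, U11 i i = 1) ∧
      L11.det = 1 ∧ L33.det = 1 ∧ U11.det = 1 ∧ U33.det = 1 := by
  obtain ⟨hL1, hL0⟩ := hL
  obtain ⟨hU1, hU0⟩ := hU
  set e := decE2 hm eι with he
  have hU : ∀ i, ((e (Sum.inl i) : Fin (2 * m - 1 + 1)) : ℕ) = eι i := decE2_U hm eι
  have hW : ∀ i, ((e (Sum.inr i) : Fin (2 * m - 1 + 1)) : ℕ) = m + eι i := decE2_W hm eι
  have hUW : ∀ i j, e (Sum.inl i) < e (Sum.inr j) := by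
    intro i j
    rw [Fin.lt_def, hU, hW]
    have := (eι i).2
    omega
  have hUU : ∀ i j, eι i < eι j → e (Sum.inl i) < e (Sum.inl j) := by
    intro i j hij
    rw [Fin.lt_def, hU, hU]
    exact hij
  have hWW : ∀ i j, eι i < eι j → e (Sum.inr i) < e (Sum.inr j) := by
    intro i j hij
    rw [Fin.lt_def, hW, hW]
    have : (eι i : ℕ) < eι j := hij
    omega
  have eL : L.submatrix e e = Matrix.fromBlocks
      (L.submatrix (fun i => e (Sum.inl i)) (fun j => e (Sum.inl j))) 0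
      (L.submatrix (fun i => e (Sum.inr i)) (fun j => e (Sum.inl j)))
      (L.submatrix (fun i => e (Sum.inr i)) (fun j => e (Sum.inr j))) := by
    ext (i | i) (j | j)
    · rfl
    · exact hL0 _ _ (hUW i j)
    · rfl
    · rfl
  have eU : U.submatrix e e = Matrix.fromBlocks
      (U.submatrix (fun i => e (Sum.inl i)) (fun j => e (Sum.inl j)))
      (U.submatrix (fun i => e (Sum.inl i)) (fun j => e (Sum.inr j))) 0
      (U.submatrix (fun i => e (Sum.inr i)) (fun j => e (Sum.inr j))) := by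
    ext (i | i) (j | j)
    · rfl
    · rfl
    · exact hU0 _ _ (hUW j i)
    · rfl
  have eH : (Matrix.diagonal fun i => (Sum.elim d1 d3 : ι ⊕ ι → F) (e.symm i)).submatrix e e =
      Matrix.fromBlocks (Matrix.diagonal d1) 0 0 (Matrix.diagonal d3) := by
    rw [Matrix.submatrix_diagonal_equiv]
    have h5 : ((fun i => (Sum.elim d1 d3 : ι ⊕ ι → F) (e.symm i)) ∘ e) = Sum.elim d1 d3 := by
      funext x
      simp
    rw [h5, ← Matrix.fromBlocks_diagonal]
  have dL1 : (L.submatrix (fun i => e (Sum.inl i)) (fun j => e (Sum.inl j))).det = 1 :=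
    gdec_det_low eι _ (fun i => hL1 _) (fun i j hij => hL0 _ _ (hUU i j hij))
  have dL3 : (L.submatrix (fun i => e (Sum.inr i)) (fun j => e (Sum.inr j))).det = 1 :=
    gdec_det_low eι _ (fun i => hL1 _) (fun i j hij => hL0 _ _ (hWW i j hij))
  have dU1 : (U.submatrix (fun i => e (Sum.inl i)) (fun j => e (Sum.inl j))).det = 1 :=
    gdec_det_up eι _ (fun i => hU1 _) (fun i j hij => hU0 _ _ (hUU j i hij))
  have dU3 : (U.submatrix (fun i => e (Sum.inr i)) (fun j => e (Sum.inr j))).det = 1 :=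
    gdec_det_up eι _ (fun i => hU1 _) (fun i j hij => hU0 _ _ (hWW j i hij))
  refine ⟨g'.submatrix e e, L.submatrix (fun i => e (Sum.inl i)) (fun j => e (Sum.inl j)),
    L.submatrix (fun i => e (Sum.inr i)) (fun j => e (Sum.inl j)),
    L.submatrix (fun i => e (Sum.inr i)) (fun j => e (Sum.inr j)),
    U.submatrix (fun i => e (Sum.inl i)) (fun j => e (Sum.inl j)),
    U.submatrix (fun i => e (Sum.inl i)) (fun j => e (Sum.inr j)),
    U.submatrix (fun i => e (Sum.inr i)) (fun j => e (Sum.inr j)), ?_, ?_, fun i => hL1 _,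
    fun i j hij => hL0 _ _ (hUU i j hij), fun i => hU1 _, dL1, dL3, dU1, dU3⟩
  · rw [Matrix.det_submatrix_equiv_self, hg]
  · rw [← eL, ← eH, ← eU]
    have h6 := congrArg (fun M => M.submatrix e e) h
    beta_reduce at h6
    rw [← Matrix.submatrix_mul_equiv _ _ e e e, ← Matrix.submatrix_mul_equiv _ _ e e e,
      ← Matrix.submatrix_mul_equiv _ _ e e e, ← Matrix.submatrix_mul_equiv _ _ e e e] at h6
    rw [Matrix.submatrix_submatrix] at h6
    simp only [Equiv.symm_comp_self, Matrix.submatrix_id_id] at h6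
    exact h6

lemma dec2_prod_single {ι : Type} [Fintype ι] [DecidableEq ι] (i0 : ι) (y : F) :
    ∏ x, (Pi.mulSingle i0 y : ι → F) x = y := by
  rw [Fintype.prod_eq_single i0 (fun x hx => by rw [Pi.mulSingle_eq_of_ne hx]),
    Pi.mulSingle_eq_same]

lemma dec2_single_ne {ι : Type} [DecidableEq ι] (i0 : ι) {y : F} (hy : y ≠ 0) (x : ι) :
    (Pi.mulSingle i0 y : ι → F) x ≠ 0 := by
  by_cases hx : x = i0
  · subst hx; rwa [Pi.mulSingle_eq_same]
  · rw [Pi.mulSingle_eq_of_ne hx]; exact one_ne_zero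

theorem dec2 [Finite F] (σ : F ≃+* F) (hτ : ∃ z, σ (σ z) ≠ z)
    (hq : 3 ≤ Nat.card {z : F // σ z = z}) {m : ℕ} (hm : 1 ≤ m) {ι : Type} [Fintype ι]
    [DecidableEq ι] (hι : Fintype.card ι = m) (h1 h3 : F) (hh1 : h1 ≠ 0)
    (hh3 : h3 ≠ 0) (B : Matrix (ι ⊕ ι) (ι ⊕ ι) F) (hB : B.det = h1 * h3) :
    ∃ (g : Matrix (ι ⊕ ι) (ι ⊕ ι) F) (L11 L31 L33 U11 U13 U33 H1 H3 : Matrix ι ι F),
      g.det = 1 ∧ B * g.map (σ.trans σ) =
        g * (Matrix.fromBlocks L11 0 L31 L33 * Matrix.fromBlocks H1 0 0 H3 *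
          Matrix.fromBlocks U11 U13 0 U33) ∧
      U11.det ≠ 0 ∧ U33.det ≠ 0 ∧ (L11 * H1 * U11).det = h1 ∧ (L33 * H3 * U33).det = h3 := by
  obtain ⟨w, hw, hw0, hw1⟩ : ∃ w : F, σ w = w ∧ w ≠ 0 ∧ w ≠ 1 := by
    by_contra hcon
    push Not at hcon
    have h4 : Nat.card {z : F // σ z = z} ≤ 2 := by
      have hsub : {z : F | σ z = z} ⊆ ({0, 1} : Set F) := by
        intro z hz
        by_cases h0 : z = 0
        · simp [h0]
        · right
          exact hcon z hz h0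
      calc Nat.card {z : F // σ z = z} = Set.ncard {z : F | σ z = z} := rfl
        _ ≤ ({0, 1} : Set F).ncard := Set.ncard_le_ncard hsub
        _ ≤ 2 := (Set.ncard_insert_le _ _).trans (by simp)
    omega
  obtain ⟨eι⟩ : Nonempty (ι ≃ Fin m) := ⟨Fintype.equivFinOfCardEq hι⟩
  set e := decE2 hm eι with he
  set i0 : ι := eι.symm ⟨0, by omega⟩ with hi0
  obtain ⟨g', L, U, hg, hL, hU, hBg, -, -⟩ := CosetT.gauss (σ := σ)
    (τ := σ.trans σ) hτ (fun z hz => by
      show σ (σ z) = z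
      rw [hz, hz]) hw hw0 hw1 (2 * m - 1) (B.submatrix e.symm e.symm)
      (fun i => (Sum.elim (Pi.mulSingle i0 h1) (Pi.mulSingle i0 h3) : ι ⊕ ι → F) (e.symm i))
    (fun i => by
      rcases e.symm i with x | x
      · exact dec2_single_ne i0 hh1 x
      · exact dec2_single_ne i0 hh3 x) (by
      rw [Matrix.det_submatrix_equiv_self, hB, Equiv.prod_comp e.symm, Fintype.prod_sum_type]
      simp only [Sum.elim_inl, Sum.elim_inr]
      rw [dec2_prod_single, dec2_prod_single]) (fun _ => 1) (fun _ => 1)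
      (fun h => one_ne_zero (congrFun h 0))
      (fun h => one_ne_zero (congrFun h 0)) 1 1 one_ne_zero one_ne_zero
  obtain ⟨g, L11, L31, L33, U11, U13, U33, hg1, hBg1, -, -, -, dL1, dL3, dU1, dU3⟩ :=
    dec2_blocks hm eι (σ.trans σ) B _ _ g' L U hg hL hU hBg
  refine ⟨g, L11, L31, L33, U11, U13, U33, _, _, hg1, hBg1, ?_, ?_, ?_, ?_⟩
  · rw [dU1]; exact one_ne_zero
  · rw [dU3]; exact one_ne_zero
  · rw [Matrix.det_mul, Matrix.det_mul, Matrix.det_diagonal, dec2_prod_single, dL1, dU1, one_mul,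
      mul_one]
  · rw [Matrix.det_mul, Matrix.det_mul, Matrix.det_diagonal, dec2_prod_single, dL3, dU3, one_mul,
      mul_one]

end Pool.Agent.CTG
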