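import Pool.Agent.CTG.Dec1
import Pool.Agent.CTG.Dec2

/-! CTG / Dec3 (module DEC3): `gauss1` in block form for `ι ⊕ ι`, the first part not scalar. -/

set_option autoImplicit false

namespace Pool.Agent.CTG

open Matrix Pool.Agent.CTC CosetT

variable {F : Type*} [Field F]

theorem dec3 {m : ℕ} (hm : 2 ≤ m) {ι : Type} [Fintype ι]
    [DecidableEq ι] (hι : Fintype.card ι = m) (h1 h3 x : F) (hh1 : h1 ≠ 0)
    (hh3 : h3 ≠ 0) (hx : x ≠ 0) (hxx : x * x ≠ h1)
    (B : Matrix (ι ⊕ ι) (ι ⊕ ι) F) (hB : B.det = h1 * h3)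
    (hns : ¬ ∃ b : F, B = b • (1 : Matrix (ι ⊕ ι) (ι ⊕ ι) F)) :
    ∃ (g : Matrix (ι ⊕ ι) (ι ⊕ ι) F) (L11 L31 L33 U11 U13 U33 H1 H3 : Matrix ι ι F),
      g.det = 1 ∧ B * g =
        g * (Matrix.fromBlocks L11 0 L31 L33 * Matrix.fromBlocks H1 0 0 H3 *
          Matrix.fromBlocks U11 U13 0 U33) ∧
      U11.det ≠ 0 ∧ U33.det ≠ 0 ∧ (L11 * H1 * U11).det = h1 ∧ (L33 * H3 * U33).det = h3 ∧
      ¬ ∃ μ : F, L11 * H1 * U11 = μ • (1 : Matrix ι ι F) := by
  have hm1 : 1 ≤ m := by omega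
  obtain ⟨eι⟩ : Nonempty (ι ≃ Fin m) := ⟨Fintype.equivFinOfCardEq hι⟩
  set e := decE2 hm1 eι with he
  set i0 : ι := eι.symm ⟨0, by omega⟩ with hi0
  set i1 : ι := eι.symm ⟨1, by omega⟩ with hi1
  have hne : i1 ≠ i0 := by
    rw [hi0, hi1]
    intro h3
    have h4 := eι.symm.injective h3
    simp at h4
  set d1 : ι → F := Function.update (Pi.mulSingle i1 (h1 / x)) i0 x with hd1
  have hd10 : ∀ i, d1 i ≠ 0 := by
    intro i
    by_cases hi : i = i0
    · rw [hd1, hi, Function.update_self]; exact hx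
    · rw [hd1, Function.update_of_ne hi]
      exact dec2_single_ne i1 (div_ne_zero hh1 hx) i
  have hd1p : ∏ i, d1 i = h1 := by
    rw [hd1, Finset.prod_update_of_mem (Finset.mem_univ _), Finset.prod_eq_single i1]
    · rw [Pi.mulSingle_eq_same]; field_simp
    · intro b _ hb
      rw [Pi.mulSingle_eq_of_ne hb]
    · intro h3
      exact absurd (by simp [hne]) h3
  have hd1n : d1 i1 ≠ d1 i0 := by
    rw [hd1, Function.update_self, Function.update_of_ne hne, Pi.mulSingle_eq_same]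
    intro h3
    apply hxx
    rw [div_eq_iff hx] at h3
    exact h3.symm
  obtain ⟨g', L, U, hg, hL, hU, hBg⟩ := gauss1 (2 * m - 1) (B.submatrix e.symm e.symm)
      (fun i => (Sum.elim d1 (Pi.mulSingle i0 h3) : ι ⊕ ι → F) (e.symm i))
    (fun i => by
      rcases e.symm i with x | x
      · exact hd10 x
      · exact dec2_single_ne i0 hh3 x) (by
      rw [Matrix.det_submatrix_equiv_self, hB, Equiv.prod_comp e.symm, Fintype.prod_sum_type]
      simp only [Sum.elim_inl, Sum.elim_inr]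
      rw [hd1p, dec2_prod_single]) (by
      rintro ⟨b, hb⟩
      apply hns
      refine ⟨b, ?_⟩
      have h7 := congrArg (fun M => M.submatrix e e) hb
      beta_reduce at h7
      rw [Matrix.submatrix_submatrix] at h7
      simp only [Equiv.symm_comp_self, Matrix.submatrix_id_id] at h7
      rw [h7, Matrix.submatrix_smul]
      simp)
  have hmap : ∀ (κ : Type) (M : Matrix κ κ F), M.map (RingEquiv.refl F) = M := by
    intro κ M
    ext i j
    rfl
  obtain ⟨g, L11, L31, L33, U11, U13, U33, hg1, hBg1, hL1, hL0, hU1, dL1, dL3, dU1, dU3⟩ :=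
    dec2_blocks hm1 eι (RingEquiv.refl F) B _ _ g' L U hg hL hU (by rw [hmap]; exact hBg)
  rw [hmap] at hBg1
  refine ⟨g, L11, L31, L33, U11, U13, U33, _, _, hg1, hBg1, ?_, ?_, ?_, ?_, ?_⟩
  · rw [dU1]; exact one_ne_zero
  · rw [dU3]; exact one_ne_zero
  · rw [Matrix.det_mul, Matrix.det_mul, Matrix.det_diagonal, hd1p, dL1, dU1, one_mul, mul_one]
  · rw [Matrix.det_mul, Matrix.det_mul, Matrix.det_diagonal, dec2_prod_single, dL3, dU3, one_mul,
      mul_one]
  · exact ldu_not_scalar eι L11 U11 hL1 hL0 hU1 d1 i0 i1 (by rw [hi0]; simp) (by rw [hi1]; simp)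
      (hd10 i0) hd1n

end Pool.Agent.CTG
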