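import Pool.Agent.CTC.RDefs

/-! Definitions for the graph automorphism cosets of `PSL_n(q)`, `n` odd (helper47). -/

set_option autoImplicit false

namespace Pool.Agent.CTG

open Matrix Pool.Agent.CTC

variable {F : Type*} [Field F]

/-- block matrix on `U ⊕ W ⊕ F`: `(U,U) = γ`, `(U,W) = α`, `(W,U) = β`, `(W,W) = 0`, `(U,F) = ρ`,
`(F,U) = ρ'`, `(F,F) = ν`, other blocks zero -/
def Qm {ι : Type*} (γ α β : Matrix ι ι F) (ρ ρ' : ι → F) (ν : F) :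
    Matrix ((ι ⊕ ι) ⊕ Unit) ((ι ⊕ ι) ⊕ Unit) F :=
  Matrix.fromBlocks (Matrix.fromBlocks γ α β 0) (fun i _ => Sum.elim ρ (fun _ => 0) i)
    (fun _ j => Sum.elim ρ' (fun _ => 0) j) (fun _ _ => ν)

/-- the standard form -/
def Sm {ι : Type*} [DecidableEq ι] (Θ : Matrix ι ι F) (ν : F) :
    Matrix ((ι ⊕ ι) ⊕ Unit) ((ι ⊕ ι) ⊕ Unit) F := Qm 0 Θ 1 0 0 ν

/-- `Y` is `σ`-congruent to `X` -/
def Cg {κ : Type*} [Fintype κ] [DecidableEq κ] (σ : F ≃+* F) (X Y : Matrix κ κ F) : Prop :=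
  ∃ g : Matrix κ κ F, g.det ≠ 0 ∧ Y = g * X * (g.map σ)ᵀ

/-- `Y` is `σ`-congruent to `X` by a matrix of determinant one -/
def CgS {κ : Type*} [Fintype κ] [DecidableEq κ] (σ : F ≃+* F) (X Y : Matrix κ κ F) : Prop :=
  ∃ g : Matrix κ κ F, g.det = 1 ∧ Y = g * X * (g.map σ)ᵀ

/-- lower block unitriangular type matrix in the order `U, F, W` -/
def Lb {ι : Type*} (L11 L31 L33 : Matrix ι ι F) (l21 l32 : ι → F) :
    Matrix ((ι ⊕ ι) ⊕ Unit) ((ι ⊕ ι) ⊕ Unit) F :=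
  Matrix.fromBlocks (Matrix.fromBlocks L11 0 L31 L33) (fun i _ => Sum.elim (fun _ => 0) l32 i)
    (fun _ j => Sum.elim l21 (fun _ => 0) j) (fun _ _ => 1)

/-- upper block unitriangular type matrix in the order `U, F, W` -/
def Ub {ι : Type*} (U11 U13 U33 : Matrix ι ι F) (u12 u23 : ι → F) :
    Matrix ((ι ⊕ ι) ⊕ Unit) ((ι ⊕ ι) ⊕ Unit) F :=
  Matrix.fromBlocks (Matrix.fromBlocks U11 U13 0 U33) (fun i _ => Sum.elim u12 (fun _ => 0) i)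
    (fun _ j => Sum.elim (fun _ => 0) u23 j) (fun _ _ => 1)

/-- block diagonal -/
def Hb {ι : Type*} (H1 H3 : Matrix ι ι F) (h : F) :
    Matrix ((ι ⊕ ι) ⊕ Unit) ((ι ⊕ ι) ⊕ Unit) F :=
  Matrix.fromBlocks (Matrix.fromBlocks H1 0 0 H3) 0 0 (fun _ _ => h)

/-- the permutation matrix exchanging `U` and `W` -/
def Wp (F : Type*) [Field F] (ι : Type*) [DecidableEq ι] :
    Matrix ((ι ⊕ ι) ⊕ Unit) ((ι ⊕ ι) ⊕ Unit) F :=
  Matrix.fromBlocks (Matrix.fromBlocks 0 1 1 0) 0 0 1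

/-- `σ(Θ)^{-T}` with `σ³` applied: the dual class -/
noncomputable def Ds {ι : Type*} [Fintype ι] [DecidableEq ι] (σ : F ≃+* F) (Θ : Matrix ι ι F) :
    Matrix ι ι F := (((Θ.map σ)ᵀ)⁻¹).map (σ.trans σ)

/-- factorization of `τ²`-semilinear maps into the classes of `Θ'` and `Θ` -/
def FactP {ι : Type*} [Fintype ι] [DecidableEq ι] (τ : F ≃+* F) (Θ' Θ : Matrix ι ι F) : Prop :=
  ∀ M : Matrix ι ι F, M.det = Θ'.det * τ Θ.det →
    ¬ (2 ≤ Fintype.card ι ∧ (∀ z, τ (τ z) = z) ∧ ∃ b : F, M = b • (1 : Matrix ι ι F)) →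
    ∃ a' a X' X : Matrix ι ι F, a'.det ≠ 0 ∧ a.det ≠ 0 ∧
      X' * a'.map τ = a' * Θ' ∧ X * a.map τ = a * Θ ∧ M = X' * X.map τ ∧ a'.det = 1 ∧ a.det = 1

/-- the monomial matrix `e_j ↦ e_{j+1}`, `e_{r-1} ↦ t e_0` -/
def Cn (r : ℕ) (t : F) : Matrix (Fin r) (Fin r) F := fun i j =>
  if (i : ℕ) = j + 1 then 1 else if (j : ℕ) + 1 = r ∧ (i : ℕ) = 0 then t else 0

/-- the norm of `τ` -/
noncomputable def Nm (τ : F ≃+* F) (x : F) : F := ∏ i ∈ Finset.range (orderOf τ), (τ ^ i) x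

end Pool.Agent.CTG
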