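import Pool.Agent.CTG.Defs
import Pool.Agent.CTC.RBlk

/-!
# CTG / Dual: the dual of an irreducible semilinear map is irreducible

`τ = σ²`, `ρ = σ³`, `T u = X τ(u)`, `S w = Y τ(w)`, `Y = Ds σ X = (ρ(X)ᵀ)⁻¹`.  With
`⟨u, w⟩ = ∑ ρ(u_i) w_i` one has `⟨T u, S w⟩ = τ ⟨u, w⟩`.  If `S W ⊆ W` then `S W = W` (finite), so the
orthogonal space `U` of `W` is `T`-invariant, `U = 0` (then `W` is everything) or `U` is everything
(then `W = 0`).
-/

set_option autoImplicit false

namespace Pool.Agent.CTG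

open Matrix Pool.Agent.CTC

variable {F : Type*} [Field F]

theorem irr_dual [Finite F] (σ : F ≃+* F) (r : ℕ) (X : Matrix (Fin r) (Fin r) F) (hX : X.det ≠ 0)
    (h : Irr F (sm (σ.trans σ) X)) : Irr F (sm (σ.trans σ) (Ds σ X)) := by
  intro W hW
  obtain ⟨τ, hτ⟩ : ∃ τ : F ≃+* F, τ = σ.trans σ := ⟨_, rfl⟩
  obtain ⟨ρ, hρ⟩ : ∃ ρ : F ≃+* F, ρ = σ.trans τ := ⟨_, rfl⟩
  have hcomm : ∀ z, ρ (τ z) = τ (ρ z) := by
    intro z
    rw [hρ, hτ]
    rfl
  have hY : (X.map ρ)ᵀ * Ds σ X = 1 := by
    have h1 : (X.map ρ)ᵀ = ((X.map σ)ᵀ).map τ := by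
      rw [hρ]
      rfl
    have h2 : ((X.map σ)ᵀ) * ((X.map σ)ᵀ)⁻¹ = 1 := by
      refine Matrix.mul_nonsing_inv _ (isUnit_iff_ne_zero.2 ?_)
      rw [Matrix.det_transpose]
      have h3 : (X.map σ).det = σ X.det := ((σ : F →+* F).map_det X).symm
      rw [h3]
      exact (map_ne_zero σ).2 hX
    have h3 := congrArg (fun M : Matrix (Fin r) (Fin r) F => M.map τ) h2
    simp only [Matrix.map_mul] at h3
    rw [h1, Ds, ← hτ, h3]
    exact Matrix.map_one _ (map_zero τ) (map_one τ)
  rw [← hτ] at h hW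
  obtain ⟨Y, hYd⟩ : ∃ Y, Y = Ds σ X := ⟨_, rfl⟩
  rw [← hYd] at hW hY
  -- the pairing
  have hpair : ∀ u w : Fin r → F,
      (fun i => ρ (sm τ X u i)) ⬝ᵥ (sm τ Y w) = τ ((fun i => ρ (u i)) ⬝ᵥ w) := by
    intro u w
    have h1 : (fun i => ρ (sm τ X u i)) = (X.map ρ) *ᵥ (fun i => τ (ρ (u i))) := by
      funext i
      change ρ ((X *ᵥ fun i => τ (u i)) i) = _
      simp only [Matrix.mulVec, dotProduct, map_sum, map_mul, hcomm, Matrix.map_apply]
    have h2 : sm τ Y w = Y *ᵥ (fun i => τ (w i)) := rfl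
    rw [h1, h2, ← Matrix.vecMul_transpose, ← Matrix.dotProduct_mulVec, Matrix.mulVec_mulVec, hY,
      Matrix.one_mulVec]
    simp only [dotProduct, map_sum, map_mul]
  -- `S` is onto on `W`
  have hinj : Function.Injective (sm τ Y) := by
    intro a b hab
    have h1 : Y *ᵥ (fun i => τ (a i)) = Y *ᵥ (fun i => τ (b i)) := hab
    have h2 := congrArg (fun v => (X.map ρ)ᵀ *ᵥ v) h1
    simp only [Matrix.mulVec_mulVec, hY, Matrix.one_mulVec] at h2
    funext i
    exact τ.injective (congrFun h2 i)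
  have hsurj : ∀ w ∈ W, ∃ w' ∈ W, sm τ Y w' = w := by
    have h1 : Function.Surjective (fun w : W => (⟨sm τ Y w, hW w w.2⟩ : W)) := by
      refine Finite.surjective_of_injective fun a b hab => ?_
      exact Subtype.ext (hinj (congrArg Subtype.val hab))
    intro w hw
    obtain ⟨w', hw'⟩ := h1 ⟨w, hw⟩
    exact ⟨w', w'.2, congrArg Subtype.val hw'⟩
  let U : Submodule F (Fin r → F) :=
    { carrier := {u | ∀ w ∈ W, (fun i => ρ (u i)) ⬝ᵥ w = 0}
      add_mem' := by
        intro a b ha hb w hw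
        have h1 := ha w hw
        have h2 := hb w hw
        simp only [dotProduct, Pi.add_apply, map_add, add_mul, Finset.sum_add_distrib] at h1 h2 ⊢
        rw [h1, h2, add_zero]
      zero_mem' := by
        intro w _
        simp [dotProduct]
      smul_mem' := by
        intro c a ha w hw
        have h1 := ha w hw
        simp only [dotProduct, Pi.smul_apply, smul_eq_mul, map_mul, mul_assoc] at h1 ⊢
        rw [← Finset.mul_sum, h1, mul_zero] }
  have hU : ∀ u ∈ U, sm τ X u ∈ U := by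
    intro u hu w hw
    obtain ⟨w', hw', rfl⟩ := hsurj w hw
    rw [hpair, hu w' hw', map_zero]
  rcases h U hU with h1 | h1
  · right
    by_contra hne
    obtain ⟨f, hf, hfW⟩ := Submodule.exists_le_ker_of_lt_top W (lt_top_iff_ne_top.2 hne)
    have h2 : (fun i => ρ.symm (f (Pi.single i 1))) ∈ U := by
      intro w hw
      have h3 : f w = 0 := hfW hw
      have h4 : w = ∑ i, w i • (Pi.single i (1 : F) : Fin r → F) := by
        funext j
        simp [Finset.sum_apply, Pi.single_apply]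
      rw [h4, map_sum] at h3
      simp only [dotProduct, RingEquiv.apply_symm_apply]
      rw [← h3]
      refine Finset.sum_congr rfl fun i _ => ?_
      rw [map_smul, smul_eq_mul, mul_comm]
    rw [h1, Submodule.mem_bot] at h2
    apply hf
    refine LinearMap.pi_ext' fun i => LinearMap.ext_ring ?_
    have h5 := congrFun h2 i
    simp only [Pi.zero_apply] at h5
    have h6 : f (Pi.single i 1) = 0 := by
      have := congrArg ρ h5
      rwa [RingEquiv.apply_symm_apply, map_zero] at this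
    simpa using h6
  · left
    rw [Submodule.eq_bot_iff]
    intro w hw
    funext i
    have h2 : (Pi.single i (1 : F) : Fin r → F) ∈ U := by rw [h1]; trivial
    have h3 := h2 w hw
    have h4 : (fun j => ρ ((Pi.single i (1 : F) : Fin r → F) j)) = Pi.single i 1 := by
      funext j
      by_cases hj : j = i
      · subst hj; simp
      · simp [hj]
    rw [h4, single_one_dotProduct] at h3
    exact h3

end Pool.Agent.CTG
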