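import Pool.Agent.CTG.Defs

/-! The dual class of a direct sum and a choice of a parameter (CTG, module G5; helper24). -/

set_option autoImplicit false

namespace Pool.Agent.CTG

open Matrix Pool.Agent.CTC

variable {F : Type*} [Field F]

private theorem c11 {ι : Type*} (X : Matrix ι ι F) (c : F) (i j : ι) :
    Bl X c (Sum.inl i) (Sum.inl j) = X i j := rfl

private theorem c12 {ι : Type*} (X : Matrix ι ι F) (c : F) (i : ι) (j : Unit) :
    Bl X c (Sum.inl i) (Sum.inr j) = 0 := rfl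

private theorem c21 {ι : Type*} (X : Matrix ι ι F) (c : F) (i : Unit) (j : ι) :
    Bl X c (Sum.inr i) (Sum.inl j) = 0 := rfl

private theorem c22 {ι : Type*} (X : Matrix ι ι F) (c : F) (i j : Unit) :
    Bl X c (Sum.inr i) (Sum.inr j) = c := rfl

private lemma blx_mul {ι : Type*} [Fintype ι] (M N : Matrix ι ι F)
    (c d : F) : Bl M c * Bl N d = Bl (M * N) (c * d) := by
  ext i j
  rcases i with i | i <;> rcases j with j | j <;>
    simp [Matrix.mul_apply, Fintype.sum_sum_type, c11, c12, c21, c22]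

private lemma blx_tr {ι : Type*} (M : Matrix ι ι F) (c : F) : (Bl M c)ᵀ = Bl Mᵀ c := by
  ext i j
  rcases i with i | i <;> rcases j with j | j <;> simp [c11, c12, c21, c22]

private lemma blx_map {ι : Type*} (σ : F ≃+* F) (M : Matrix ι ι F) (c : F) :
    (Bl M c).map σ = Bl (M.map σ) (σ c) := by
  ext i j
  rcases i with i | i <;> rcases j with j | j <;> simp [c11, c12, c21, c22]

private lemma blx_one {ι : Type*} [DecidableEq ι] : Bl (1 : Matrix ι ι F) 1 = 1 := by
  ext i j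
  rcases i with i | i <;> rcases j with j | j <;> simp [c11, c12, c21, c22, Matrix.one_apply]

theorem ds_bl {ι : Type*} [Fintype ι] [DecidableEq ι] (σ : F ≃+* F) (X : Matrix ι ι F) (c : F)
    (hX : X.det ≠ 0) (hc : c ≠ 0) : Ds σ (Bl X c) = Bl (Ds σ X) (σ (σ (σ c)))⁻¹ := by
  have hc' : σ c ≠ 0 := (map_ne_zero σ).2 hc
  have hM : ((X.map σ)ᵀ).det ≠ 0 := by
    have h1 : (X.map σ).det = σ X.det := by
      have := (RingHom.map_det (σ : F →+* F) X).symm
      simpa using this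
    rw [Matrix.det_transpose, h1]
    exact (map_ne_zero σ).2 hX
  unfold Ds
  have e : (((Bl X c).map σ)ᵀ)⁻¹ = Bl (((X.map σ)ᵀ)⁻¹) (σ c)⁻¹ := by
    apply Matrix.inv_eq_left_inv
    rw [blx_map, blx_tr, blx_mul, Matrix.nonsing_inv_mul _ (isUnit_iff_ne_zero.2 hM),
      inv_mul_cancel₀ hc', blx_one]
  rw [e, blx_map]
  simp

private lemma choose_avoid2 {α : Type*} [Finite α] (l : List α) (h : l.length < Nat.card α) :
    ∃ x : α, ∀ y ∈ l, x ≠ y := by
  classical
  have := Fintype.ofFinite α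
  by_contra hcon
  push Not at hcon
  have h1 : (Finset.univ : Finset α) ⊆ l.toFinset := by
    intro x _
    obtain ⟨y, hy, hxy⟩ := hcon x
    rw [List.mem_toFinset, hxy]
    exact hy
  have h2 := Finset.card_le_card h1
  rw [Finset.card_univ, ← Nat.card_eq_fintype_card] at h2
  have h3 := List.toFinset_card_le l
  omega

/-- `t0` fixed by `σ`: at most four bad values -/
theorem ex2 [Finite F] (σ : F ≃+* F) (hq : 7 ≤ Nat.card {z : F // σ z = z}) (e : F) :
    ∃ t0 : F, t0 ≠ 0 ∧ σ t0 = t0 ∧ t0 * t0 ≠ 1 ∧ t0 * t0 ≠ e := by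
  have hfix0 : σ (0 : F) = 0 := map_zero σ
  have hfix1 : σ (1 : F) = 1 := map_one σ
  have hfixm : σ (-1 : F) = -1 := by rw [map_neg, map_one]
  by_cases hs : ∃ s : F, σ s = s ∧ s * s = e
  · obtain ⟨s, hσs, hse⟩ := hs
    have hσs' : σ (-s) = -s := by rw [map_neg, hσs]
    obtain ⟨⟨t0, ht0⟩, ht⟩ := choose_avoid2 (α := {z : F // σ z = z})
      [⟨0, hfix0⟩, ⟨1, hfix1⟩, ⟨-1, hfixm⟩, ⟨s, hσs⟩, ⟨-s, hσs'⟩] (by simp; omega)
    simp only [List.mem_cons, List.not_mem_nil, or_false, forall_eq_or_imp, forall_eq, ne_eq,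
      Subtype.mk.injEq] at ht
    obtain ⟨ht00, ht01, ht0m, hts, htsm⟩ := ht
    refine ⟨t0, ht00, ht0, ?_, ?_⟩
    · intro h
      rcases mul_self_eq_one_iff.1 h with h | h
      · exact ht01 h
      · exact ht0m h
    · intro h
      rw [← hse] at h
      rcases mul_self_eq_mul_self_iff.1 h with h | h
      · exact hts h
      · exact htsm h
  · obtain ⟨⟨t0, ht0⟩, ht⟩ := choose_avoid2 (α := {z : F // σ z = z})
      [⟨0, hfix0⟩, ⟨1, hfix1⟩, ⟨-1, hfixm⟩] (by simp; omega)
    simp only [List.mem_cons, List.not_mem_nil, or_false, forall_eq_or_imp, forall_eq, ne_eq,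
      Subtype.mk.injEq] at ht
    obtain ⟨ht00, ht01, ht0m⟩ := ht
    refine ⟨t0, ht00, ht0, ?_, fun h => hs ⟨t0, ht0, h⟩⟩
    intro h
    rcases mul_self_eq_one_iff.1 h with h | h
    · exact ht01 h
    · exact ht0m h

end Pool.Agent.CTG
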