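import Pool.Agent.CTG.GPack

/-! CTG, module Inner: the square of a graph automorphism is inner. -/

set_option autoImplicit false
set_option linter.all false

namespace Pool.Agent.CTG

open Matrix Pool.Agent.CTC CosetT

variable {F : Type*} [Field F]

/-- `σ(M)^{-T}` -/
private noncomputable def st {n : ℕ} (σ : F ≃+* F) (M : Matrix (Fin n) (Fin n) F) :
    Matrix (Fin n) (Fin n) F := ((M⁻¹).map σ)ᵀ

private theorem st_mul {n : ℕ} (σ : F ≃+* F) (M N : Matrix (Fin n) (Fin n) F) :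
    st σ (M * N) = st σ M * st σ N := by
  unfold st
  rw [Matrix.mul_inv_rev, CosetT.map_mul', Matrix.transpose_mul]

private theorem st_left {n : ℕ} (σ : F ≃+* F) {M : Matrix (Fin n) (Fin n) F} (hM : M.det ≠ 0) :
    st σ M * (M.map σ)ᵀ = 1 := by
  unfold st
  rw [← Matrix.transpose_mul, ← CosetT.map_mul',
    Matrix.mul_nonsing_inv _ (isUnit_iff_ne_zero.2 hM),
    Matrix.map_one _ (map_zero σ) (map_one σ), Matrix.transpose_one]

private theorem st_right {n : ℕ} (σ : F ≃+* F) {M : Matrix (Fin n) (Fin n) F} (hM : M.det ≠ 0) :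
    (M.map σ)ᵀ * st σ M = 1 := by
  unfold st
  rw [← Matrix.transpose_mul, ← CosetT.map_mul',
    Matrix.nonsing_inv_mul _ (isUnit_iff_ne_zero.2 hM),
    Matrix.map_one _ (map_zero σ) (map_one σ), Matrix.transpose_one]

private theorem st_det {n : ℕ} (σ : F ≃+* F) {M : Matrix (Fin n) (Fin n) F} (hM : M.det ≠ 0) :
    (st σ M).det = (σ M.det)⁻¹ := by
  unfold st
  rw [Matrix.det_transpose, CosetT.map_det', Matrix.det_nonsing_inv, Ring.inverse_eq_inv', map_inv₀]

private theorem st_st {n : ℕ} (σ τ : F ≃+* F) {M : Matrix (Fin n) (Fin n) F} (hM : M.det ≠ 0) :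
    st σ (st τ M) = M.map (τ.trans σ) := by
  have h1 : (st τ M)⁻¹ = (M.map τ)ᵀ := Matrix.inv_eq_left_inv (st_right τ hM)
  unfold st at h1 ⊢
  rw [h1]
  ext i j
  rfl

private theorem sl_det {n : ℕ} (g : SpecialLinearGroup (Fin n) F) :
    (g : Matrix (Fin n) (Fin n) F).det ≠ 0 := CosetT.det_one_ne g.2

private theorem sl_inv {n : ℕ} (g : SpecialLinearGroup (Fin n) F) :
    ((g⁻¹ : SpecialLinearGroup (Fin n) F) : Matrix (Fin n) (Fin n) F) =
      (g : Matrix (Fin n) (Fin n) F)⁻¹ := by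
  refine (Matrix.inv_eq_left_inv ?_).symm
  rw [← Matrix.SpecialLinearGroup.coe_mul, inv_mul_cancel, Matrix.SpecialLinearGroup.coe_one]

private theorem indG_iff {n : ℕ} {α : MulAut (CosetT.PSLn n F)} {A : Matrix (Fin n) (Fin n) F}
    {σ : F ≃+* F} : IndG α A σ ↔ ∀ g g' : SpecialLinearGroup (Fin n) F,
      (g' : Matrix (Fin n) (Fin n) F) * A = A * st σ (g : Matrix (Fin n) (Fin n) F) →
      α (CosetT.mk g) = CosetT.mk g' := by
  unfold IndG st
  constructor
  · intro h g g' hg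
    apply h g g'
    rw [sl_inv]
    exact hg
  · intro h g g' hg
    apply h g g'
    rw [sl_inv] at hg
    exact hg

private theorem ex_image {n : ℕ} {A : Matrix (Fin n) (Fin n) F} (hA : A.det ≠ 0) (σ : F ≃+* F)
    (g : SpecialLinearGroup (Fin n) F) : ∃ g' : SpecialLinearGroup (Fin n) F,
      (g' : Matrix (Fin n) (Fin n) F) * A = A * st σ (g : Matrix (Fin n) (Fin n) F) := by
  refine ⟨⟨A * st σ (g : Matrix (Fin n) (Fin n) F) * A⁻¹, ?_⟩, ?_⟩
  · rw [Matrix.det_mul, Matrix.det_mul, st_det σ (sl_det g), g.2, map_one, inv_one, mul_one,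
      Matrix.det_nonsing_inv, Ring.mul_inverse_cancel _ (isUnit_iff_ne_zero.2 hA)]
  · show A * st σ (g : Matrix (Fin n) (Fin n) F) * A⁻¹ * A = _
    rw [mul_assoc, Matrix.nonsing_inv_mul _ (isUnit_iff_ne_zero.2 hA), mul_one]

private theorem cancel {n : ℕ} {X Y Z : Matrix (Fin n) (Fin n) F} (hZ : Z.det ≠ 0)
    (h : X * Z = Y * Z) : X = Y := by
  have h4 := congrArg (fun W => W * Z⁻¹) h
  beta_reduce at h4
  rwa [Matrix.mul_nonsing_inv_cancel_right _ _ (isUnit_iff_ne_zero.2 hZ),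
    Matrix.mul_nonsing_inv_cancel_right _ _ (isUnit_iff_ne_zero.2 hZ)] at h4

private theorem st_det_ne {n : ℕ} (σ : F ≃+* F) {M : Matrix (Fin n) (Fin n) F} (hM : M.det ≠ 0) :
    (st σ M).det ≠ 0 := by
  rw [st_det σ hM]
  exact inv_ne_zero (by simpa using hM)

private theorem indG_mul {n : ℕ} {α β : MulAut (CosetT.PSLn n F)}
    {A B : Matrix (Fin n) (Fin n) F} {σ τ : F ≃+* F} (hA : A.det ≠ 0) (hB : B.det ≠ 0)
    (h1 : IndG α A σ) (h2 : IndG β B τ) : CosetT.Ind (α * β) (A * st σ B) (τ.trans σ) := by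
  rw [indG_iff] at h1 h2
  intro g g' hg
  obtain ⟨g1, hg1⟩ := ex_image hB τ g
  obtain ⟨g2, hg2⟩ := ex_image hA σ g1
  rw [MulAut.mul_apply, h2 g g1 hg1, h1 g1 g2 hg2]
  congr 1
  have hAB : (A * st σ B).det ≠ 0 := by
    rw [Matrix.det_mul]
    exact mul_ne_zero hA (st_det_ne σ hB)
  have h3 : (g2 : Matrix (Fin n) (Fin n) F) * (A * st σ B) = g' * (A * st σ B) := by
    rw [hg, ← mul_assoc, hg2, mul_assoc, ← st_mul, hg1, st_mul, st_st σ τ (sl_det g), mul_assoc]
  exact Subtype.ext (cancel hAB h3)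

/-- `α²` is induced by `A σ(A)^{-T} = b h`, `h ∈ SL_n` -/
theorem inner_sq {σ : F ≃+* F} (hσ : ∀ z, σ (σ z) = z) {n : ℕ} (A : Matrix (Fin n) (Fin n) F)
    (hA : A.det ≠ 0) (α : MulAut (CosetT.PSLn n F)) (hα : IndG α A σ) (b : F)
    (hb : b ^ n * σ A.det = A.det) :
    ∃ g : CosetT.PSLn n F, α ^ 2 = MulAut.conj g := by
  have hσA : σ A.det ≠ 0 := by simpa using hA
  have key : ∀ b : F, b ≠ 0 → b ^ n * σ A.det = A.det →
      ∃ g : CosetT.PSLn n F, α ^ 2 = MulAut.conj g := by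
    intro b hb0 hb
    have h1 := indG_mul hA hA hα hα
    have hAA : (A * st σ A).det ≠ 0 := by
      rw [Matrix.det_mul]
      exact mul_ne_zero hA (st_det_ne σ hA)
    have hd : (b⁻¹ • (A * st σ A)).det = 1 := by
      rw [Matrix.det_smul, Matrix.det_mul, st_det σ hA, Fintype.card_fin]
      nth_rewrite 1 [← hb]
      rw [inv_pow]
      field_simp
    have h2 := CosetT.ind_conj (⟨b⁻¹ • (A * st σ A), hd⟩ : SpecialLinearGroup (Fin n) F)
    have h3 := CosetT.Ind.smul h2 hb0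
    have e1 : b • ((⟨b⁻¹ • (A * st σ A), hd⟩ : SpecialLinearGroup (Fin n) F) :
        Matrix (Fin n) (Fin n) F) = A * st σ A := by
      show b • (b⁻¹ • (A * st σ A)) = _
      rw [smul_smul, mul_inv_cancel₀ hb0, one_smul]
    rw [e1] at h3
    have e2 : σ.trans σ = RingEquiv.refl F := by
      ext z
      exact hσ z
    rw [e2] at h1
    rw [pow_two]
    exact ⟨_, CosetT.Ind.eq hAA h1 h3⟩
  by_cases hb0 : b = 0
  · have hn : n = 0 := by
      by_contra hn
      rw [hb0, zero_pow hn, zero_mul] at hb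
      exact hA hb.symm
    refine key 1 one_ne_zero ?_
    have e1 : b ^ n = 1 := by rw [show b ^ n = b ^ 0 by rw [hn], pow_zero]
    rw [e1] at hb
    rw [one_pow]
    exact hb
  · exact key b hb0 hb

end Pool.Agent.CTG
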