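import Pool.Agent.CTG.Defs
import Pool.Agent.CTC.Irr

/-! Irreducible semilinear matrices with prescribed norm of the determinant. -/

set_option autoImplicit false
set_option linter.all false

namespace Pool.Agent.CTG
open Module Finset Matrix Pool.Agent.CTC Pool.Agent.CTC.IrrAux TensorProduct

/-- a generator of the extension with prescribed norm -/
private theorem ir_gen {K0 L : Type*} [Field K0] [Finite K0] [Field L] [Finite L] [Algebra K0 L]
    (hr : 2 ≤ Module.finrank K0 L) (t0 : K0) (ht0 : t0 ≠ 0) :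
    ∃ κ : L, κ ≠ 0 ∧ Algebra.norm K0 κ = t0 ∧ Algebra.adjoin K0 {κ} = ⊤ := by
  classical
  haveI : Fintype K0 := Fintype.ofFinite K0
  haveI : Fintype L := Fintype.ofFinite L
  obtain ⟨g, hg⟩ := IsCyclic.exists_monoid_generator (α := Lˣ)
  obtain ⟨x, hx⟩ := FiniteField.unitsMap_norm_surjective K0 L (Units.mk0 t0 ht0)
  obtain ⟨k, hk⟩ := hg x
  have hk' : g ^ k = x := hk
  obtain ⟨N, hN⟩ : ∃ N : K0ˣ, N = Units.map (Algebra.norm K0 (S := L)) g := ⟨_, rfl⟩
  have hNk : N ^ k = Units.mk0 t0 ht0 := by rw [hN, ← map_pow, hk', hx]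
  obtain ⟨q, hq⟩ : ∃ q, q = Fintype.card K0 := ⟨_, rfl⟩
  have hq2 : 2 ≤ q := by rw [hq]; exact Fintype.one_lt_card
  have hNq : N ^ (q - 1) = 1 := by
    rw [hq, ← Fintype.card_units]
    exact pow_card_eq_one
  obtain ⟨j, hj1, hjq, hj⟩ : ∃ j, 1 ≤ j ∧ j ≤ q - 1 ∧ N ^ j = Units.mk0 t0 ht0 := by
    have h1 : N ^ (k % (q - 1)) = Units.mk0 t0 ht0 := by
      rw [← hNk]
      conv_rhs => rw [← Nat.div_add_mod k (q - 1), pow_add, pow_mul, hNq, one_pow, one_mul]
    by_cases h0 : k % (q - 1) = 0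
    · refine ⟨q - 1, by omega, le_rfl, ?_⟩
      rw [h0, pow_zero] at h1
      rw [hNq, h1]
    · exact ⟨k % (q - 1), by omega, (Nat.mod_lt _ (by omega)).le, h1⟩
  refine ⟨((g ^ j : Lˣ) : L), Units.ne_zero _, ?_, ?_⟩
  · have h2 : Units.map (Algebra.norm K0 (S := L)) (g ^ j) = Units.mk0 t0 ht0 := by
      rw [map_pow, ← hN, hj]
    have h3 := congrArg (fun z : K0ˣ => (z : K0)) h2
    simpa using h3
  · obtain ⟨κ, hκ⟩ : ∃ κ : L, κ = ((g ^ j : Lˣ) : L) := ⟨_, rfl⟩
    rw [← hκ]
    have hκ0 : κ ≠ 0 := by rw [hκ]; exact Units.ne_zero _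
    haveI : FiniteDimensional K0 L := Module.finite_of_finrank_pos (by omega)
    have halg : IsAlgebraic K0 κ := Algebra.IsAlgebraic.isAlgebraic κ
    rw [← IntermediateField.adjoin_simple_toSubalgebra_of_isAlgebraic halg]
    by_contra hne
    obtain ⟨E, hE⟩ : ∃ E : IntermediateField K0 L, E = IntermediateField.adjoin K0 {κ} := ⟨_, rfl⟩
    rw [← hE] at hne
    have hκE : κ ∈ E := by rw [hE]; exact IntermediateField.mem_adjoin_simple_self K0 κ
    haveI : Finite E := inferInstance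
    haveI : Fintype E := Fintype.ofFinite E
    have hs : Module.finrank K0 E < Module.finrank K0 L := by
      have h4 : E.toSubalgebra.toSubmodule ≠ ⊤ := by
        intro h
        exact hne (Algebra.toSubmodule_eq_top.1 h)
      exact Submodule.finrank_lt h4
    have hcE : Nat.card E = q ^ Module.finrank K0 E := by
      rw [hq, ← Nat.card_eq_fintype_card]
      exact Module.natCard_eq_pow_finrank
    have hcL : Nat.card L = q ^ Module.finrank K0 L := by
      rw [hq, ← Nat.card_eq_fintype_card]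
      exact Module.natCard_eq_pow_finrank
    have hpow : κ ^ (Nat.card E - 1) = 1 := by
      have h5 : (⟨κ, hκE⟩ : E) ≠ 0 := by
        intro h
        exact hκ0 (congrArg Subtype.val h)
      have h6 := FiniteField.pow_card_sub_one_eq_one (⟨κ, hκE⟩ : E) h5
      rw [← Nat.card_eq_fintype_card] at h6
      exact congrArg Subtype.val h6
    have hord : orderOf g = Nat.card L - 1 := by
      have h7 : orderOf g = Nat.card Lˣ :=
        orderOf_eq_card_of_forall_mem_powers hg
      rw [h7, Nat.card_units]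
    have hdvd : orderOf g ∣ j * (Nat.card E - 1) := by
      rw [orderOf_dvd_iff_pow_eq_one]
      ext
      rw [pow_mul, Units.val_pow_eq_pow_val, ← hκ, hpow]
      rfl
    rw [hord, hcE, hcL] at hdvd
    obtain ⟨s, hs'⟩ : ∃ s, s = Module.finrank K0 E := ⟨_, rfl⟩
    obtain ⟨r, hr'⟩ : ∃ r, r = Module.finrank K0 L := ⟨_, rfl⟩
    rw [← hs', ← hr'] at hdvd
    rw [← hs', ← hr'] at hs
    have hs0 : 1 ≤ s := by rw [hs']; exact Module.finrank_pos
    have hqs : 2 ≤ q ^ s := le_trans hq2 (Nat.le_self_pow (by omega) q)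
    have h8 : 0 < j * (q ^ s - 1) := Nat.mul_pos (by omega) (by omega)
    have h9 := Nat.le_of_dvd h8 hdvd
    have h10 : q ^ (s + 1) ≤ q ^ r := Nat.pow_le_pow_right (by omega) (by omega)
    have h11 : j * (q ^ s - 1) ≤ (q - 1) * (q ^ s - 1) := Nat.mul_le_mul_right _ hjq
    have h12 : (q - 1) * (q ^ s - 1) + q ^ s + q = q ^ (s + 1) + 1 := by
      obtain ⟨a, ha⟩ : ∃ a, q = a + 1 := ⟨q - 1, by omega⟩
      obtain ⟨c, hc⟩ : ∃ c, q ^ s = c + 1 := ⟨q ^ s - 1, by omega⟩
      rw [pow_succ, hc, ha]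
      simp only [Nat.add_sub_cancel]
      ring
    omega

variable {F : Type*} [Field F] [Finite F] (τ : F ≃+* F) {K : Type*} [Field K] [Finite K]
  [Algebra (F0 τ) K] {m : ℕ} (b : Basis (Fin m) (F0 τ) K)

include b in
/-- invariant subspaces are ideals -/
private lemma ir_sub (d : ℕ) (hd0 : 0 < d)
    (hd : ∀ a, τ^[d] a = a) (hinj : ∀ i < d, ∀ j < d, (∀ a, τ^[i] a = τ^[j] a) → i = j)
    [Nontrivial (F ⊗[F0 τ] K)]
    (κ : K) (hκg : Algebra.adjoin (F0 τ) {κ} = ⊤) (u : F ⊗[F0 τ] K) (hu : IsUnit u)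
    (hN : P (SA τ K) u d = 1 ⊗ₜ κ) (W : Submodule F (F ⊗[F0 τ] K))
    (hW : ∀ r ∈ W, u * SA τ K r ∈ W) : W = ⊥ ∨ W = ⊤ := by
  have hκ : ∀ r ∈ W, ((1 : F) ⊗ₜ[F0 τ] κ) * r ∈ W := by
    intro r hr
    have h1 : ∀ j : ℕ, (fun r => u * SA τ K r)^[j] r ∈ W := by
      intro j
      induction j with
      | zero => exact hr
      | succ j ih =>
        rw [Function.iterate_succ_apply']
        exact hW _ ih
    have h2 := h1 d
    rw [iter_theta, hN, SA_iter_d τ b d hd] at h2
    exact h2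
  have hy' : ∀ y ∈ Algebra.adjoin (F0 τ) ({κ} : Set K), ∀ r : F ⊗[F0 τ] K, r ∈ W →
      ((1 : F) ⊗ₜ[F0 τ] y) * r ∈ W := by
    intro y hy
    induction hy using Algebra.adjoin_induction with
    | mem y hy =>
      intro r hr
      rw [Set.mem_singleton_iff.1 hy]
      exact hκ r hr
    | algebraMap c =>
      intro r hr
      have h3 : (1 : F) ⊗ₜ[F0 τ] (algebraMap (F0 τ) K c) = (c : F) ⊗ₜ[F0 τ] (1 : K) := by
        rw [Algebra.algebraMap_eq_smul_one, TensorProduct.tmul_smul, TensorProduct.smul_tmul']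
        congr 1
        exact mul_one (c : F)
      have h4 : ((c : F) ⊗ₜ[F0 τ] (1 : K)) * r = (c : F) • r := by
        have h5 : ((c : F) ⊗ₜ[F0 τ] (1 : K)) = (c : F) • (1 : F ⊗[F0 τ] K) := by
          rw [Algebra.TensorProduct.one_def, TensorProduct.smul_tmul', smul_eq_mul, mul_one]
        rw [h5, smul_mul_assoc, one_mul]
      rw [h3, h4]
      exact W.smul_mem _ hr
    | add y z _ _ h1 h2 =>
      intro r hr
      rw [TensorProduct.tmul_add, add_mul]
      exact W.add_mem (h1 r hr) (h2 r hr)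
    | mul y z _ _ h1 h2 =>
      intro r hr
      have h3 : ((1 : F) ⊗ₜ[F0 τ] (y * z)) =
          ((1 : F) ⊗ₜ[F0 τ] y) * ((1 : F) ⊗ₜ[F0 τ] z) := by
        rw [Algebra.TensorProduct.tmul_mul_tmul, one_mul]
      rw [h3, mul_assoc]
      exact h1 _ (h2 r hr)
  have hy : ∀ (y : K) (r : F ⊗[F0 τ] K), r ∈ W → ((1 : F) ⊗ₜ[F0 τ] y) * r ∈ W := by
    intro y r hr
    exact hy' y (by rw [hκg]; exact Algebra.mem_top) r hr
  have hall : ∀ (s r : F ⊗[F0 τ] K), r ∈ W → s * r ∈ W := by
    intro s r hr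
    induction s using TensorProduct.induction_on with
    | zero => rw [zero_mul]; exact W.zero_mem
    | tmul a y =>
      have h5 : (a ⊗ₜ[F0 τ] y) * r = a • (((1 : F) ⊗ₜ[F0 τ] y) * r) := by
        rw [← smul_mul_assoc, TensorProduct.smul_tmul', smul_eq_mul, mul_one]
      rw [h5]
      exact W.smul_mem _ (hy y r hr)
    | add x y hx hy => rw [add_mul]; exact W.add_mem hx hy
  let I : Ideal (F ⊗[F0 τ] K) :=
    { carrier := W
      add_mem' := fun {a b} ha hb => W.add_mem ha hb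
      zero_mem' := W.zero_mem
      smul_mem' := fun c x hx => hall c x hx }
  have hS : ∀ r ∈ I, SA τ K r ∈ I := by
    intro r hr
    obtain ⟨v, rfl⟩ := hu
    have h6 : SA τ K r = (↑v⁻¹ : F ⊗[F0 τ] K) * ((v : F ⊗[F0 τ] K) * SA τ K r) := by
      rw [← mul_assoc, Units.inv_mul, one_mul]
    rw [h6]
    exact I.mul_mem_left _ (hW r hr)
  by_cases hbot : I = ⊥
  · left
    rw [eq_bot_iff]
    intro r hr
    have : r ∈ I := hr
    rw [hbot] at this
    simpa using this
  · right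
    have htop := ideal_top (algebraMap F (F ⊗[F0 τ] K)) (SA τ K) d
      (h0' τ b d hd0 hd hinj) I hS hbot
    rw [eq_top_iff]
    intro r _
    have : r ∈ I := by rw [htop]; trivial
    exact this

private lemma lm_apply (x : F ⊗[F0 τ] K) (i j : Fin m) :
    Algebra.leftMulMatrix (BB τ b) x i j = (BB τ b).repr (x * BB τ b j) i := by
  rw [Algebra.leftMulMatrix_apply, LinearMap.toMatrix_apply]
  rfl

private lemma lm_SA (x : F ⊗[F0 τ] K) :
    Algebra.leftMulMatrix (BB τ b) (SA τ K x) = (Algebra.leftMulMatrix (BB τ b) x).map τ := by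
  ext i j
  have h1 : SA τ K (x * BB τ b j) = SA τ K x * BB τ b j := by
    rw [map_mul (SA τ K), BB_apply, SA_one_tmul]
  rw [Matrix.map_apply, lm_apply, lm_apply, ← repr_SA, h1]

private lemma lm_one (κ : K) :
    Algebra.leftMulMatrix (BB τ b) ((1 : F) ⊗ₜ[F0 τ] κ) =
      (Algebra.leftMulMatrix b κ).map (algebraMap (F0 τ) F) := by
  ext i j
  rw [Matrix.map_apply, lm_apply, BB_apply, Algebra.TensorProduct.tmul_mul_tmul, one_mul,
    Algebra.leftMulMatrix_apply, LinearMap.toMatrix_apply]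
  unfold BB
  rw [Algebra.TensorProduct.basis_repr_tmul]
  simp

private lemma map_det'' {n : Type*} [Fintype n] [DecidableEq n] (M : Matrix n n F) :
    (M.map τ).det = τ M.det := by
  have : (M.map τ) = τ.mapMatrix M := rfl
  rw [this, ← RingEquiv.map_det]

private lemma det_P (x : F ⊗[F0 τ] K) (j : ℕ) :
    (Algebra.leftMulMatrix (BB τ b) (P (SA τ K) x j)).det =
      P τ (Algebra.leftMulMatrix (BB τ b) x).det j := by
  induction j with
  | zero =>
    have h1 : P (SA τ K) x 0 = 1 := by simp [P]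
    have h2 : P τ (Algebra.leftMulMatrix (BB τ b) x).det 0 = 1 := by simp [P]
    rw [h1, h2, map_one, Matrix.det_one]
  | succ j ih =>
    rw [P_succ, P_succ, map_mul (Algebra.leftMulMatrix (BB τ b)), Matrix.det_mul, lm_SA,
      map_det'', ih]

/-- `K = Fix τ`, `L / K` of degree `r`, `u1` a generator of `L*`, `N(u1)` generates `K*`;
`t0 = N(u1)^j`, `1 ≤ j ≤ |K| - 1`; `u = u1^j` generates the field `L` (`u1^j` in a proper subfield
`K'` of `L` forces `(|L| - 1) / (|K'| - 1) > |K|` to divide `j`).  `T = v (τ ⊗ 1)` on `F ⊗_K L` with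
`N_τ(v) = u`: irreducible since `T^d = u`, and `Nm τ (det T) = N_{L/K}(u) = t0`. -/
theorem irr2 {F : Type*} [Field F] [Finite F] (τ : F ≃+* F) (r : ℕ) (hr : 2 ≤ r) (t0 : F)
    (ht0 : t0 ≠ 0) (h : τ t0 = t0) :
    ∃ X : Matrix (Fin r) (Fin r) F, X.det ≠ 0 ∧ Irr F (sm τ X) ∧ Nm τ X.det = t0 := by
  classical
  haveI hfa : Finite (F ≃+* F) :=
    Finite.of_injective (fun e : F ≃+* F => (e : F → F)) DFunLike.coe_injective
  have hit : ∀ (j : ℕ) (a : F), (((τ : RingAut F) ^ j : RingAut F) : F ≃+* F) a = τ^[j] a := by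
    intro j
    induction j with
    | zero => exact fun a => rfl
    | succ j ih =>
      intro a
      rw [pow_succ', Function.iterate_succ_apply', ← ih]
      rfl
  haveI : Finite (RingAut F) := hfa
  obtain ⟨d, hdd⟩ : ∃ d, d = orderOf (τ : RingAut F) := ⟨_, rfl⟩
  have hd0 : 0 < d := by rw [hdd]; exact orderOf_pos _
  have hd : ∀ a, τ^[d] a = a := by
    intro a
    rw [← hit, hdd, pow_orderOf_eq_one]
    rfl
  have hinj : ∀ i < d, ∀ j < d, (∀ a, τ^[i] a = τ^[j] a) → i = j := by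
    intro i hi j hj h
    have h1 : ((τ : RingAut F) ^ i : RingAut F) = (τ : RingAut F) ^ j := by
      apply RingEquiv.ext
      intro a
      exact (hit i a).trans ((h a).trans (hit j a).symm)
    rw [hdd] at hi hj
    exact pow_injOn_Iio_orderOf hi hj h1
  obtain ⟨p, hp⟩ := CharP.exists F
  haveI := hp
  haveI : Fact p.Prime := ⟨CharP.char_is_prime F p⟩
  haveI : CharP (F0 τ) p := RingHom.charP (algebraMap (F0 τ) F) (algebraMap (F0 τ) F).injective p
  haveI : NeZero r := ⟨by omega⟩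
  let K := FiniteField.Extension (F0 τ) p r
  have hfin : Module.finrank (F0 τ) K = r := FiniteField.finrank_extension (F0 τ) p r
  let b : Basis (Fin r) (F0 τ) K := Module.finBasisOfFinrankEq (F0 τ) K hfin
  haveI : Nontrivial (F ⊗[F0 τ] K) := ⟨⟨BB τ b ⟨0, by omega⟩, 0, (BB τ b).ne_zero _⟩⟩
  haveI : Finite (F ⊗[F0 τ] K) := Finite.of_injective _ (BB τ b).equivFun.injective
  obtain ⟨κ, hκ0, hκN, hκg⟩ := ir_gen (K0 := F0 τ) (L := K) (by rw [hfin]; exact hr)
    (⟨t0, h⟩ : F0 τ) (by intro h0; exact ht0 (congrArg Subtype.val h0))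
  have hκu : IsUnit ((1 : F) ⊗ₜ[F0 τ] κ) := by
    have : IsUnit (Algebra.TensorProduct.includeRight (R := F0 τ) (A := F) κ :
        F ⊗[F0 τ] K) := (isUnit_iff_ne_zero.2 hκ0).map _
    exact this
  obtain ⟨u, hu, hN⟩ := norm_surj (algebraMap F (F ⊗[F0 τ] K)) (SA τ K) d
    (h0' τ b d hd0 hd hinj) (h1' τ b d hd0 hinj) (SA_iter_d τ b d hd) _ hκu
    (SA_one_tmul τ κ)
  let e := (BB τ b).equivFun
  have hsm : ∀ v : Fin r → F, sm τ (Algebra.leftMulMatrix (BB τ b) u) v =
      e (u * SA τ K (e.symm v)) := by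
    intro v
    have h1 : (fun i => τ (v i)) = e (SA τ K (e.symm v)) := by
      funext i
      show τ (v i) = (BB τ b).repr (SA τ K (e.symm v)) i
      rw [repr_SA]
      congr 1
      exact (congrFun (e.apply_symm_apply v) i).symm
    show (Algebra.leftMulMatrix (BB τ b) u) *ᵥ (fun i => τ (v i)) = _
    rw [h1]
    exact Algebra.leftMulMatrix_mulVec_repr (BB τ b) u (SA τ K (e.symm v))
  refine ⟨Algebra.leftMulMatrix (BB τ b) u, ?_, ?_, ?_⟩
  · have h1 : IsUnit (Algebra.leftMulMatrix (BB τ b) u) := hu.map _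
    exact ((Matrix.isUnit_iff_isUnit_det _).1 h1).ne_zero
  · intro W hW
    have h1 := ir_sub τ b d hd0 hd hinj κ hκg u hu hN (W.comap (e : (F ⊗[F0 τ] K) →ₗ[F] _)) (by
      intro r hr
      rw [Submodule.mem_comap] at hr ⊢
      have h2 := hW _ hr
      rw [hsm] at h2
      simpa using h2)
    rcases h1 with h1 | h1
    · left
      rw [eq_bot_iff]
      intro w hw
      have h3 : e.symm w ∈ W.comap (e : (F ⊗[F0 τ] K) →ₗ[F] _) := by
        rw [Submodule.mem_comap]
        simpa using hw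
      rw [h1, Submodule.mem_bot] at h3
      rw [Submodule.mem_bot, ← e.apply_symm_apply w, h3, map_zero]
    · right
      rw [eq_top_iff]
      intro w _
      have h3 : e.symm w ∈ W.comap (e : (F ⊗[F0 τ] K) →ₗ[F] _) := by
        rw [h1]; trivial
      rw [Submodule.mem_comap] at h3
      simpa using h3
  · have h1 : Nm τ (Algebra.leftMulMatrix (BB τ b) u).det =
        P τ (Algebra.leftMulMatrix (BB τ b) u).det d := by
      unfold Nm P
      rw [hdd]
      exact prod_congr rfl fun i _ => hit i _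
    rw [h1, ← det_P, hN, lm_one]
    have h2 : ((Algebra.leftMulMatrix b κ).map (algebraMap (F0 τ) F)).det =
        algebraMap (F0 τ) F (Algebra.leftMulMatrix b κ).det := by
      have : (Algebra.leftMulMatrix b κ).map (algebraMap (F0 τ) F) =
        (algebraMap (F0 τ) F).mapMatrix (Algebra.leftMulMatrix b κ) := rfl
      rw [this, ← RingHom.map_det]
    rw [h2, ← Algebra.norm_eq_matrix_det, hκN]
    rfl

end Pool.Agent.CTG
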