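import Pool.Agent.CTG.Defs

/-! An irreducible matrix is similar to its transpose (CTG, G10). -/

set_option autoImplicit false

namespace Pool.Agent.CTG

open Matrix Pool.Agent.CTC

variable {F : Type*} [Field F]

private theorem it_ch {r : ℕ} (X : Matrix (Fin r) (Fin r) F) :
    ∃ c : Fin r → F, X ^ r = ∑ k : Fin r, c k • X ^ (k : ℕ) := by
  have h1 := Matrix.aeval_self_charpoly X
  have hd : X.charpoly.natDegree = r := by
    rw [Matrix.charpoly_natDegree_eq_dim, Fintype.card_fin]
  rw [Polynomial.aeval_eq_sum_range, hd, Finset.sum_range_succ] at h1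
  have h2 : X.charpoly.coeff r = 1 := by
    have := (Matrix.charpoly_monic X).coeff_natDegree
    rwa [hd] at this
  rw [h2, one_smul] at h1
  refine ⟨fun k => -X.charpoly.coeff k, ?_⟩
  rw [Finset.sum_range] at h1
  rw [eq_neg_of_add_eq_zero_right h1, ← Finset.sum_neg_distrib]
  exact Finset.sum_congr rfl fun k _ => (neg_smul _ _).symm

/-- an irreducible matrix is similar to its transpose: `X` and `X^T` are cyclic (`X^T` is irreducible
too) with the same characteristic polynomial, so both are similar to its companion matrix -/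
theorem irr_transpose {r : ℕ} (hr : 1 ≤ r) (X : Matrix (Fin r) (Fin r) F) (hX : X.det ≠ 0)
    (h : Irr F (sm (RingEquiv.refl F) X)) :
    ∃ u : Matrix (Fin r) (Fin r) F, u.det ≠ 0 ∧ X * u = u * Xᵀ := by
  classical
  obtain ⟨c, hc⟩ := it_ch X
  have hirr : ∀ W : Submodule F (Fin r → F), (∀ w ∈ W, X *ᵥ w ∈ W) → W = ⊥ ∨ W = ⊤ := by
    intro W hW
    exact h W fun w hw => hW w hw
  set z : Fin r := ⟨0, hr⟩ with hz
  set P : Matrix (Fin r) (Fin r) F := fun i j => (X ^ (j : ℕ)) i z with hP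
  set Q : Matrix (Fin r) (Fin r) F := fun i j => (X ^ (i : ℕ)) z j with hQ
  set C : Matrix (Fin r) (Fin r) F := fun i j =>
    if (j : ℕ) + 1 < r then (if (i : ℕ) = j + 1 then 1 else 0) else c i with hC
  have hcij : ∀ i j, (X ^ r) i j = ∑ k : Fin r, c k * (X ^ (k : ℕ)) i j := by
    intro i j
    rw [hc, Matrix.sum_apply]
    rfl
  have hCs : ∀ (g : ℕ → F) (j : Fin r), g r = ∑ k : Fin r, c k * g k →
      ∑ l : Fin r, C l j * g l = g (j + 1) := by
    intro g j hg
    by_cases hj : (j : ℕ) + 1 < r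
    · rw [Finset.sum_eq_single (⟨j + 1, hj⟩ : Fin r)]
      · simp only [hC, if_pos hj, if_true, one_mul]
      · intro l _ hl
        have h1 : (l : ℕ) ≠ j + 1 := fun h1 => hl (Fin.ext h1)
        simp only [hC, if_pos hj, if_neg h1, zero_mul]
      · intro h1
        exact absurd (Finset.mem_univ _) h1
    · have h1 : (j : ℕ) + 1 = r := by
        have := j.2
        omega
      simp only [hC, if_neg hj, h1]
      exact hg.symm
  have hXP : X * P = P * C := by
    ext i j
    rw [Matrix.mul_apply, Matrix.mul_apply]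
    have h1 := hCs (fun k => (X ^ k) i z) j (hcij i z)
    calc ∑ l, X i l * P l j = (X ^ ((j : ℕ) + 1)) i z := by
          rw [pow_succ', Matrix.mul_apply]
      _ = ∑ l : Fin r, C l j * (X ^ (l : ℕ)) i z := h1.symm
      _ = ∑ l, P i l * C l j := Finset.sum_congr rfl fun l _ => mul_comm _ _
  have hQX : Q * X = Cᵀ * Q := by
    ext i j
    rw [Matrix.mul_apply, Matrix.mul_apply]
    have h1 := hCs (fun k => (X ^ k) z j) i (hcij z j)
    calc ∑ l, Q i l * X l j = (X ^ ((i : ℕ) + 1)) z j := by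
          rw [pow_succ, Matrix.mul_apply]
      _ = ∑ l : Fin r, C l i * (X ^ (l : ℕ)) z j := h1.symm
      _ = ∑ l, Cᵀ i l * Q l j := rfl
  have hPdet : P.det ≠ 0 := by
    rcases hirr (LinearMap.range P.mulVecLin) (by
      rintro _ ⟨w, rfl⟩
      refine ⟨C *ᵥ w, ?_⟩
      rw [Matrix.mulVecLin_apply, Matrix.mulVecLin_apply, Matrix.mulVec_mulVec,
        Matrix.mulVec_mulVec, hXP]) with h1 | h1
    · exfalso
      have h2 : P.mulVecLin (Pi.single z 1) = 0 := by
        have : P.mulVecLin (Pi.single z 1) ∈ LinearMap.range P.mulVecLin := ⟨_, rfl⟩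
        rw [h1, Submodule.mem_bot] at this
        exact this
      have h3 := congrFun h2 z
      rw [Matrix.mulVecLin_apply, Matrix.mulVec_single_one, Matrix.col_apply] at h3
      simp [hP, hz] at h3
    · have h2 : Function.Injective P.mulVecLin :=
        LinearMap.injective_iff_surjective.2 (LinearMap.range_eq_top.1 h1)
      intro h3
      obtain ⟨v, hv, hv0⟩ := Matrix.exists_mulVec_eq_zero_iff.2 h3
      apply hv
      apply h2
      rw [Matrix.mulVecLin_apply, hv0, map_zero]
  have hQdet : Q.det ≠ 0 := by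
    rcases hirr (LinearMap.ker Q.mulVecLin) (by
      intro w hw
      rw [LinearMap.mem_ker, Matrix.mulVecLin_apply] at hw ⊢
      rw [Matrix.mulVec_mulVec, hQX, ← Matrix.mulVec_mulVec, hw, Matrix.mulVec_zero]) with h1 | h1
    · intro h3
      obtain ⟨v, hv, hv0⟩ := Matrix.exists_mulVec_eq_zero_iff.2 h3
      apply hv
      have : v ∈ LinearMap.ker Q.mulVecLin := by
        rw [LinearMap.mem_ker, Matrix.mulVecLin_apply, hv0]
      rw [h1, Submodule.mem_bot] at this
      exact this
    · exfalso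
      have h2 : Q.mulVecLin (Pi.single z 1) = 0 := by
        have : (Pi.single z 1 : Fin r → F) ∈ LinearMap.ker Q.mulVecLin := by
          rw [h1]
          trivial
        exact LinearMap.mem_ker.1 this
      have h3 := congrFun h2 z
      rw [Matrix.mulVecLin_apply, Matrix.mulVec_single_one, Matrix.col_apply] at h3
      simp [hQ, hz] at h3
  have hQt : (Qᵀ).det ≠ 0 := by rwa [Matrix.det_transpose]
  have hQu : IsUnit (Qᵀ).det := isUnit_iff_ne_zero.2 hQt
  have h4 : Xᵀ * Qᵀ = Qᵀ * C := by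
    rw [← Matrix.transpose_mul, hQX, Matrix.transpose_mul, Matrix.transpose_transpose]
  have h5 : C * (Qᵀ)⁻¹ = (Qᵀ)⁻¹ * Xᵀ := by
    calc C * (Qᵀ)⁻¹ = (Qᵀ)⁻¹ * (Qᵀ * C) * (Qᵀ)⁻¹ := by
          rw [← Matrix.mul_assoc, Matrix.nonsing_inv_mul _ hQu, Matrix.one_mul]
      _ = (Qᵀ)⁻¹ * Xᵀ := by
          rw [← h4, Matrix.mul_assoc, Matrix.mul_assoc, Matrix.mul_nonsing_inv _ hQu,
            Matrix.mul_one]
  refine ⟨P * (Qᵀ)⁻¹, ?_, ?_⟩
  · rw [Matrix.det_mul]
    refine mul_ne_zero hPdet ?_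
    have h6 : ((Qᵀ)⁻¹).det * (Qᵀ).det = 1 := by
      rw [← Matrix.det_mul, Matrix.nonsing_inv_mul _ hQu, Matrix.det_one]
    exact left_ne_zero_of_mul_eq_one h6
  · rw [← Matrix.mul_assoc, hXP, Matrix.mul_assoc, h5, ← Matrix.mul_assoc]

end Pool.Agent.CTG
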