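import Pool.Agent.CTG.Defs

/-! Block matrices on `U ⊕ W` (helper47). -/

set_option autoImplicit false

namespace Pool.Agent.CTG

variable {F : Type*} [Field F]

/-- block matrix on `U ⊕ W` -/
def Q2 {ι : Type*} (γ α β : Matrix ι ι F) : Matrix (ι ⊕ ι) (ι ⊕ ι) F := Matrix.fromBlocks γ α β 0

end Pool.Agent.CTG
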