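import Pool.Agent.CTG.Defs
import Pool.Agent.CTG.Q2

/-! `P = B σ(Q)^T` for `B = L H U`, `n` even (G7 of CTG; statement by helper47). -/

set_option autoImplicit false

namespace Pool.Agent.CTG

open Matrix Pool.Agent.CTC

variable {F : Type*} [Field F]

theorem pq2 {ι : Type*} [Fintype ι] [DecidableEq ι] (σ : F ≃+* F)
    (L11 L31 L33 U11 U13 U33 H1 H3 : Matrix ι ι F)
    (hU1 : U11.det ≠ 0) (hU3 : U33.det ≠ 0) (α β : Matrix ι ι F) :
    ∃ (γ γ' : Matrix ι ι F),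
      (Matrix.fromBlocks 0 1 1 0 : Matrix (ι ⊕ ι) (ι ⊕ ι) F) *
        ((Matrix.fromBlocks L11 0 L31 L33 * Matrix.fromBlocks H1 0 0 H3 *
          Matrix.fromBlocks U11 U13 0 U33) * ((Q2 γ α β).map σ)ᵀ) *
        (Matrix.fromBlocks 0 1 1 0 : Matrix (ι ⊕ ι) (ι ⊕ ι) F)ᵀ =
      Q2 γ' (L33 * H3 * U33 * (α.map σ)ᵀ) (L11 * H1 * U11 * (β.map σ)ᵀ) := by
  have hunit : IsUnit U11.det := isUnit_iff_ne_zero.2 hU1
  set αs : Matrix ι ι F := (α.map σ)ᵀ with hαs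
  set βs : Matrix ι ι F := (β.map σ)ᵀ with hβs
  set γs : Matrix ι ι F := -(U11⁻¹ * (U13 * αs)) with hγs
  refine ⟨(γs.map σ.symm)ᵀ, L31 * H1 * (U11 * βs), ?_⟩
  have e1 : (((γs.map σ.symm)ᵀ).map σ)ᵀ = γs := by
    ext i j
    simp
  have e2 : ((0 : Matrix ι ι F).map σ)ᵀ = 0 := by
    ext i j
    simp
  have eQ : ((Q2 (γs.map σ.symm)ᵀ α β).map σ)ᵀ = Matrix.fromBlocks γs βs αs 0 := by
    rw [Q2, Matrix.fromBlocks_map, Matrix.fromBlocks_transpose, e1, e2]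
  have f1 : U11 * γs + U13 * αs = 0 := by
    rw [hγs, mul_neg, ← mul_assoc, Matrix.mul_nonsing_inv _ hunit, one_mul]
    abel
  have hR : Matrix.fromBlocks U11 U13 0 U33 * Matrix.fromBlocks γs βs αs 0 =
      Matrix.fromBlocks 0 (U11 * βs) (U33 * αs) 0 := by
    rw [Matrix.fromBlocks_multiply, f1]
    simp
  rw [eQ, mul_assoc (Matrix.fromBlocks L11 0 L31 L33 * _), hR, Matrix.fromBlocks_transpose,
    Matrix.fromBlocks_multiply, Matrix.fromBlocks_multiply, Matrix.fromBlocks_multiply,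
    Matrix.fromBlocks_multiply, Q2]
  simp [mul_assoc]

end Pool.Agent.CTG
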