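import Pool.Agent.CTG.Q2

/-! Congruence of the standard form with its transpose, `n` even: CTG, module REAL2 (real2). -/

set_option autoImplicit false

namespace Pool.Agent.CTG

open Matrix Pool.Agent.CTC

variable {F : Type*} [Field F]

private theorem r2_detJ {ι : Type*} [Fintype ι] [DecidableEq ι] :
    (Matrix.fromBlocks 0 1 1 0 : Matrix (ι ⊕ ι) (ι ⊕ ι) F).det = (-1) ^ Fintype.card ι := by
  have h : (Matrix.fromBlocks 0 1 1 0 : Matrix (ι ⊕ ι) (ι ⊕ ι) F) =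
      Matrix.fromBlocks 1 1 0 1 * Matrix.fromBlocks 1 0 (-1) 1 * Matrix.fromBlocks 1 1 0 1 *
        Matrix.fromBlocks (-1) 0 0 1 := by
    simp [Matrix.fromBlocks_multiply]
  rw [h, Matrix.det_mul, Matrix.det_mul, Matrix.det_mul, Matrix.det_fromBlocks_zero₂₁,
    Matrix.det_fromBlocks_zero₁₂, Matrix.det_fromBlocks_zero₂₁, Matrix.det_neg]
  simp

/-- from `Θ W = W Θ^T`: `g = [[0, u], [v, 0]]`, `u = W^T`, `v = sg W⁻¹`,
`det g = sg * sg ^ m = 1`, where `sg = det [[0, 1], [1, 0]] = (-1)^m` -/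
theorem real2 {ι : Type*} [Fintype ι] [DecidableEq ι] (Θ W : Matrix ι ι F) (hΘ : Θ.det ≠ 0)
    (hW : W.det ≠ 0) (h : Θ * W = W * Θᵀ) :
    ∃ g : Matrix (ι ⊕ ι) (ι ⊕ ι) F, g.det = 1 ∧
      (Matrix.fromBlocks 0 1 1 0 : Matrix (ι ⊕ ι) (ι ⊕ ι) F).det • (Q2 0 Θ 1)ᵀ =
        g * Q2 0 Θ 1 * gᵀ := by
  rw [r2_detJ]
  have hu : IsUnit W.det := isUnit_iff_ne_zero.mpr hW
  have h1 : W⁻¹ * W = 1 := Matrix.nonsing_inv_mul W hu
  set s : F := (-1) ^ Fintype.card ι with hs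
  refine ⟨Matrix.fromBlocks 0 Wᵀ (s • W⁻¹) 0, ?_, ?_⟩
  · have hJ : (Matrix.fromBlocks 0 Wᵀ (s • W⁻¹) 0 : Matrix (ι ⊕ ι) (ι ⊕ ι) F) =
        Matrix.fromBlocks 0 1 1 0 * Matrix.fromBlocks (s • W⁻¹) 0 0 Wᵀ := by
      simp [Matrix.fromBlocks_multiply]
    rw [hJ, Matrix.det_mul, r2_detJ, Matrix.det_fromBlocks_zero₂₁, Matrix.det_smul,
      Matrix.det_transpose, ← hs]
    have h2 : (W⁻¹).det * W.det = 1 := by rw [← Matrix.det_mul, h1, Matrix.det_one]
    have h3 : s * s ^ Fintype.card ι = 1 := by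
      rw [hs, ← pow_mul, ← pow_add]
      refine Even.neg_one_pow ?_
      have := Nat.even_mul_succ_self (Fintype.card ι)
      convert this using 1
      ring
    calc s * (s ^ Fintype.card ι * (W⁻¹).det * W.det)
        = (s * s ^ Fintype.card ι) * ((W⁻¹).det * W.det) := by ring
      _ = 1 := by rw [h2, h3, one_mul]
  · have e1 : Wᵀ * (s • W⁻¹)ᵀ = s • (1 : Matrix ι ι F) := by
      rw [← Matrix.transpose_mul, smul_mul_assoc, h1, Matrix.transpose_smul,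
        Matrix.transpose_one]
    have e2 : s • W⁻¹ * Θ * (Wᵀ)ᵀ = s • Θᵀ := by
      rw [Matrix.transpose_transpose, Matrix.mul_assoc, h, smul_mul_assoc, ← Matrix.mul_assoc,
        h1, Matrix.one_mul]
    unfold Q2
    simp only [Matrix.fromBlocks_transpose, Matrix.fromBlocks_smul, Matrix.fromBlocks_multiply,
      Matrix.transpose_zero, Matrix.transpose_one, Matrix.zero_mul, Matrix.mul_zero, add_zero,
      zero_add, Matrix.mul_one, smul_zero, e1, e2]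

end Pool.Agent.CTG
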