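import Pool.Agent.CTG.Asm
import Pool.Agent.CTG.Core2
import Pool.Agent.CTG.Cert2
import Pool.Agent.CTG.C2irr
import Pool.Agent.CTG.Irr2
import Pool.Agent.CTG.Dual
import Pool.Agent.CTG.Ex2
import Pool.Agent.CTG.Pq2
import Pool.Agent.CTG.IrrT
import Pool.Agent.CTG.Real2
import Pool.Agent.CTG.Dec2
import Pool.Agent.CTG.Dec3
import Pool.Agent.CTG.Inner

/-! The assembly for `n` even (helper47). -/

set_option autoImplicit false

namespace Pool.Agent.CTG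

open Matrix Pool.Agent.CTC Module

variable {F : Type*} [Field F]

theorem irr_cy {r : ℕ} (hr : 1 ≤ r) (τ : F ≃+* F) (X : Matrix (Fin r) (Fin r) F)
    (h : Irr F (sm τ X)) : Cy τ X := by
  refine ⟨Pi.single ⟨0, by omega⟩ 1, ?_⟩
  intro W heW hW
  rcases h W hW with h | h
  · exfalso
    rw [h, Submodule.mem_bot] at heW
    have := congrFun heW ⟨0, by omega⟩
    simp at this
  · exact h

theorem irr_nc {r : ℕ} (hr : 2 ≤ r) (τ : F ≃+* F) (X : Matrix (Fin r) (Fin r) F) (c : F)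
    (h : Irr F (sm τ X)) : NC τ X c := by
  constructor
  · intro l hl
    rcases h (LinearMap.ker l) (by
      intro w hw
      rw [LinearMap.mem_ker] at hw ⊢
      rw [hl, hw, map_zero, mul_zero]) with h | h
    · exfalso
      have h1 := LinearMap.finrank_le_finrank_of_injective (LinearMap.ker_eq_bot.1 h)
      rw [finrank_fin_fun, finrank_self] at h1
      omega
    · exact LinearMap.ker_eq_top.1 h
  · intro w hw
    by_contra hne
    rcases h (Submodule.span F {w}) (by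
      intro v hv
      obtain ⟨a, rfl⟩ := Submodule.mem_span_singleton.1 hv
      rw [sm_sl, hw, smul_smul]
      exact Submodule.smul_mem _ _ (Submodule.mem_span_singleton_self _)) with h2 | h2
    · rw [Submodule.span_singleton_eq_bot] at h2
      exact hne h2
    · have h3 := finrank_span_singleton (K := F) hne
      rw [h2, finrank_top, finrank_fin_fun] at h3
      omega

theorem fact_irr' [Finite F] (σ : F ≃+* F) {r : ℕ} (hr : 2 ≤ r) (X : Matrix (Fin r) (Fin r) F)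
    (c : F) (hX : X.det ≠ 0) (hc : c ≠ 0) (h : Irr F (sm (σ.trans σ) X)) :
    FactP (σ.trans σ) (Ds σ (Bl X c)) (Bl X c) := by
  rw [ds_bl σ X c hX hc]
  have h' := irr_dual σ r X hX h
  have hσc : (σ (σ (σ c)))⁻¹ ≠ 0 := inv_ne_zero (by simpa using hc)
  have hDX : (Ds σ X).det ≠ 0 := by
    have h4 : Ds σ X = Ts σ (Ts σ ((Ts σ X)⁻¹)) := rfl
    have h5 : (Ts σ X).det ≠ 0 := by rw [Ts_det]; simpa using hX
    rw [h4, Ts_det, Ts_det]
    simpa using inv_det_ne h5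
  exact factP_bl (σ.trans σ) (by omega) _ _ _ _ hDX hX hσc hc (irr_cy (by omega) _ _ h')
    (irr_cy (by omega) _ _ h) (irr_nc hr _ _ _ h') (irr_nc hr _ _ _ h)

theorem gcore2 [Finite F] {ι : Type*} [Fintype ι] [DecidableEq ι] (σ : F ≃+* F) (D : F)
    (hD : D ≠ 0) (sg : F)
    (hsg : sg = (Matrix.fromBlocks 0 1 1 0 : Matrix (ι ⊕ ι) (ι ⊕ ι) F).det)
    (Θ : Matrix ι ι F) (H2 : ∀ w : Matrix ι ι F, w = -(Θ * (w.map σ)ᵀ) → w = 0)
    (FP : FactP (σ.trans σ) (Ds σ Θ) Θ) (hdet : Θ.det = sg * D)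
    (B : Matrix (ι ⊕ ι) (ι ⊕ ι) F) (T2 : F) (hT2 : σ (σ T2) = Θ.det) (x : F)
    (hx : x = sg * σ T2 / T2) (g : Matrix (ι ⊕ ι) (ι ⊕ ι) F)
    (L11 L31 L33 U11 U13 U33 E1 E3 : Matrix ι ι F) (hg : g.det = 1)
    (hBg : B * g.map (σ.trans σ) = g * (Matrix.fromBlocks L11 0 L31 L33 *
      Matrix.fromBlocks E1 0 0 E3 * Matrix.fromBlocks U11 U13 0 U33))
    (hU1 : U11.det ≠ 0) (hU3 : U33.det ≠ 0) (hb1 : (L11 * E1 * U11).det = sg * σ x / x)
    (hs3 : (L33 * E3 * U33).det = x / (σ x * σ (σ x)))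
    (β : Matrix ι ι F) (hβ : β.det = x / σ x)
    (hβns : ¬ ∃ μ : F, β⁻¹ * (L33 * E3 * U33) *
      β.map (σ.trans σ) * Ts σ (Ts σ ((Ts σ (L11 * E1 * U11))⁻¹)) =
        μ • (1 : Matrix ι ι F)) :
    ∃ P Q, CgS σ (Q2 0 Θ 1) P ∧ CgS σ (Q2 0 Θ 1) Q ∧ P = B * (Q.map σ)ᵀ := by
  have hsg2 : sg * sg = 1 := by rw [hsg]; exact sw_det (F := F) ι
  have hsg0 : sg ≠ 0 := by intro h; rw [h, zero_mul] at hsg2; exact zero_ne_one hsg2
  have hσsg : σ sg = sg := by rw [hsg]; exact sg_fix σ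
  have hΘ : Θ.det ≠ 0 := by rw [hdet]; exact mul_ne_zero hsg0 hD
  have hT20 : T2 ≠ 0 := by intro h; rw [h, map_zero, map_zero] at hT2; exact hΘ hT2.symm
  have inj : ∀ z : F, z ≠ 0 → σ z ≠ 0 := fun z hz => by simpa using hz
  have t1 := inj _ hT20
  have t2 := inj _ t1
  have t3 := inj _ t2
  have t4 := inj _ t3
  have t5 := inj _ t4
  have x0 : x ≠ 0 := by rw [hx]; exact div_ne_zero (mul_ne_zero hsg0 t1) hT20
  have x1 := inj _ x0
  have x2 := inj _ x1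
  have x3 := inj _ x2
  have x4 := inj _ x3
  have hx2 : σ (σ x) * σ (σ T2) = sg * σ (σ (σ T2)) := by
    rw [hx, map_div₀, map_div₀, map_mul, map_mul, hσsg, hσsg]; field_simp
  have hx4 : σ (σ (σ (σ x))) * σ (σ (σ (σ T2))) = sg * σ (σ (σ (σ (σ T2)))) := by
    rw [hx]; simp only [map_div₀, map_mul, hσsg]; field_simp
  set b1 := L11 * E1 * U11 with hb1d
  set s3 := L33 * E3 * U33 with hs3d
  have hb10 : b1.det ≠ 0 := by
    rw [hb1]; exact div_ne_zero (mul_ne_zero hsg0 x1) x0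
  have hs30 : s3.det ≠ 0 := by rw [hs3]; exact div_ne_zero x0 (mul_ne_zero x1 x2)
  have hTs : ∀ {x : Matrix ι ι F}, x.det ≠ 0 → (Ts σ x).det ≠ 0 := by
    intro x hx; rw [Ts_det]; simpa using hx
  set N := Ts σ (Ts σ ((Ts σ b1)⁻¹)) with hN
  have hβ0 : β.det ≠ 0 := by rw [hβ]; exact div_ne_zero x0 x1
  obtain ⟨a', a, X', X, ha', ha, e1, e2, e3, ha'1, ha1⟩ :=
    FP (β⁻¹ * s3 * β.map (σ.trans σ) * N) (by
      have h4 : Ds σ Θ = Ts σ (Ts σ ((Ts σ Θ)⁻¹)) := rfl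
      have h5 : β.map (σ.trans σ) = Ts σ (Ts σ β) := rfl
      rw [h4, h5, hN]
      simp only [Matrix.det_mul, Ts_det, Matrix.det_nonsing_inv, Ring.inverse_eq_inv', hβ, hs3,
        hb1, ← hT2, RingEquiv.coe_trans, Function.comp_apply, map_div₀, map_inv₀, map_mul, hσsg]
      have h6 : σ (σ (σ (σ (σ T2)))) = sg * (σ (σ (σ (σ x))) * σ (σ (σ (σ T2)))) := by
        rw [hx4, ← mul_assoc, hsg2, one_mul]
      rw [h6]
      field_simp) (by
      rintro ⟨h4, -, h5⟩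
      exact hβns h5)
  obtain ⟨aQ, θQ, θP, aP, haQ, haP, hθQ, hθP, hkey, hdQ, haPe⟩ :=
    core2 σ b1 s3 β Θ a a' X' X hb10 hs30 hβ0 hΘ ha ha' e1 e2 e3
  have haQdet : aQ.det = x := by
    have h4 := congrArg Matrix.det hdQ
    simp only [Matrix.det_mul, Ts_det, hβ, hs3, ha'1, mul_one, map_div₀] at h4
    apply σ.injective
    apply σ.injective
    apply σ.injective
    field_simp at h4
    exact h4
  have haPdet : aP.det = σ x / x := by
    have h4 : aP.det * (β * a).det = 1 := by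
      have h5 : (β * a).det ≠ 0 := by rw [Matrix.det_mul]; exact mul_ne_zero hβ0 ha
      rw [haPe, ← Matrix.det_mul, invm h5, Matrix.det_one]
    rw [Matrix.det_mul, ha1, mul_one, hβ] at h4
    field_simp at h4 ⊢
    exact h4
  obtain ⟨γ, γ', hPQ⟩ := pq2 σ L11 L31 L33 U11 U13 U33 E1 E3 hU1 hU3 (θQ * Ts σ β) β
  rw [← hb1d, ← hs3d] at hPQ
  set Bd := Matrix.fromBlocks L11 0 L31 L33 * Matrix.fromBlocks E1 0 0 E3 *
    Matrix.fromBlocks U11 U13 0 U33 with hBd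
  set Q := Q2 γ (θQ * Ts σ β) β with hQ
  set W : Matrix (ι ⊕ ι) (ι ⊕ ι) F := Matrix.fromBlocks 0 1 1 0 with hW
  obtain ⟨gQ, hgQ, hgQ'⟩ := cert2 σ Θ H2 γ β θQ aQ hβ0 haQ hθQ
  have hgQ1 : gQ.det = 1 := by
    rw [haQdet, hβ] at hgQ
    have h4 : gQ.det * x = 1 * x := by
      rw [hgQ, one_mul]; field_simp
    exact mul_right_cancel₀ x0 h4
  have hb0 : (b1 * Ts σ β).det ≠ 0 := by
    rw [Matrix.det_mul]; exact mul_ne_zero hb10 (hTs hβ0)
  obtain ⟨gP, hgP, hgP'⟩ := cert2 σ Θ H2 γ' (b1 * Ts σ β) θP aP hb0 haP hθP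
  have hgP1 : gP.det = sg := by
    rw [haPdet, Matrix.det_mul, hb1, Ts_det, hβ, map_div₀, map_div₀] at hgP
    have h4 : gP.det * (σ x / x) = sg * (σ x / x) := by
      rw [hgP]; field_simp
    exact mul_right_cancel₀ (div_ne_zero x1 x0) h4
  have hWW : W * W = 1 := by
    rw [hW, Matrix.fromBlocks_multiply]; simp [Matrix.fromBlocks_one]
  have hWs : ∀ ρ : F ≃+* F, Ts ρ W = W := by
    intro ρ
    rw [hW]
    unfold Ts
    ext i j
    rcases i with i | i <;> rcases j with j | j <;>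
      simp [Matrix.one_apply, apply_ite ρ, eq_comm]
  have hWT : Wᵀ = W := hWs (RingEquiv.refl F)
  have hP1 : W * (Bd * (Q.map σ)ᵀ) * W = gP * Q2 0 Θ 1 * (gP.map σ)ᵀ := by
    rw [← hgP', ← hWT]
    rw [hWT]
    have h6 : s3 * ((θQ * Ts σ β).map σ)ᵀ = θP * ((b1 * Ts σ β).map σ)ᵀ := hkey
    have h7 := hPQ
    rw [hWT, h6] at h7
    exact h7
  have hP2 : Bd * (Q.map σ)ᵀ = (W * gP) * Q2 0 Θ 1 * ((W * gP).map σ)ᵀ := by
    have h4 : ((W * gP).map σ)ᵀ = (gP.map σ)ᵀ * W := by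
      have := Ts_mul σ W gP
      rw [hWs] at this
      exact this
    rw [h4]
    calc Bd * (Q.map σ)ᵀ = W * W * (Bd * (Q.map σ)ᵀ) * (W * W) := by
          rw [hWW, one_mul, mul_one]
      _ = W * (W * (Bd * (Q.map σ)ᵀ) * W) * W := by simp only [mul_assoc]
      _ = W * gP * Q2 0 Θ 1 * ((gP.map σ)ᵀ * W) := by rw [hP1]; simp only [mul_assoc]
  have hWgP : (W * gP).det = 1 := by
    rw [Matrix.det_mul, hgP1, hW, ← hsg, hsg2]
  refine ⟨g * (Bd * (Q.map σ)ᵀ) * (g.map σ)ᵀ, g * Q * (g.map σ)ᵀ, ⟨g * (W * gP), ?_, ?_⟩,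
    ⟨g * gQ, ?_, ?_⟩, ?_⟩
  · rw [Matrix.det_mul, hg, hWgP, mul_one]
  · have h4 : ((g * (W * gP)).map σ)ᵀ = ((W * gP).map σ)ᵀ * (g.map σ)ᵀ := Ts_mul σ g (W * gP)
    rw [h4]
    conv_lhs => rw [hP2]
    simp only [mul_assoc]
  · rw [Matrix.det_mul, hg, hgQ1, mul_one]
  · have h4 : ((g * gQ).map σ)ᵀ = (gQ.map σ)ᵀ * (g.map σ)ᵀ := Ts_mul σ g gQ
    rw [h4]
    have h5 : Q = gQ * Q2 0 Θ 1 * (gQ.map σ)ᵀ := hgQ'
    conv_lhs => rw [h5]
    simp only [mul_assoc]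
  · have h4 : ((g * Q * (g.map σ)ᵀ).map σ)ᵀ = g.map (σ.trans σ) * ((Q.map σ)ᵀ * (g.map σ)ᵀ) := by
      have h5 := Ts_mul σ (g * Q) (Ts σ g)
      rw [Ts_mul σ g Q] at h5
      exact h5
    rw [h4, ← mul_assoc B, hBg]
    simp only [mul_assoc]

end Pool.Agent.CTG
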