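import Pool.Agent.CTG.Cn1
import Pool.Agent.CTG.Norm

/-!
# CTG / Ex: existence of the parameters (module M8 GEX)
-/

set_option autoImplicit false
namespace Pool.Agent.CTG
open Matrix Pool.Agent.CTC
variable {F : Type*} [Field F]

private lemma nm_zero [Finite F] (τ : F ≃+* F) : Nm τ (0 : F) = 0 := by
  have hpos : 0 < orderOf τ := by
    have : Finite (F ≃+* F) := Finite.of_injective (fun f : F ≃+* F => (f : F → F))
      (fun f g h => RingEquiv.ext (fun x => congrFun h x))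
    exact orderOf_pos τ
  unfold Nm
  exact Finset.prod_eq_zero (Finset.mem_range.2 hpos) (by simp)

private lemma choose_avoid {α : Type*} [Finite α] (l : List α) (h : l.length < Nat.card α) :
    ∃ x : α, ∀ y ∈ l, x ≠ y := by
  classical
  have := Fintype.ofFinite α
  by_contra hcon
  push Not at hcon
  have h1 : (Finset.univ : Finset α) ⊆ l.toFinset := by
    intro x _
    obtain ⟨y, hy, hxy⟩ := hcon x
    rw [List.mem_toFinset, hxy]
    exact hy
  have h2 := Finset.card_le_card h1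
  rw [Finset.card_univ, ← Nat.card_eq_fintype_card] at h2
  have h3 := List.toFinset_card_le l
  omega

theorem ex_par [Finite F] (σ : F ≃+* F) (hq : 7 ≤ Nat.card {z : F // σ z = z}) (r : ℕ) (D : F)
    (hD : D ≠ 0) :
    ∃ t c ν : F, t ≠ 0 ∧ c ≠ 0 ∧ ν ≠ 0 ∧ (Bl (Cn r t) c).det * ν = D ∧
      Nm (σ.trans σ) t ≠ Nm (σ.trans σ) c ^ r ∧
      Nm (σ.trans σ) t * σ (Nm (σ.trans σ) t) ≠ 1 ∧
      Nm (σ.trans σ) c * σ (Nm (σ.trans σ) c) ≠ 1 ∧
      Nm (σ.trans σ) t * σ (Nm (σ.trans σ) c) ^ r ≠ 1 ∧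
      Nm (σ.trans σ) t ≠ Nm (σ.trans σ) (ν / σ ν) ^ r ∧
      Nm (σ.trans σ) c ≠ Nm (σ.trans σ) (ν / σ ν) := by
  set τ := σ.trans σ with hτ
  have hτa : ∀ z, τ z = σ (σ z) := fun z => rfl
  have hfix0 : σ (0 : F) = 0 := map_zero σ
  have hfix1 : σ (1 : F) = 1 := map_one σ
  have hfixm : σ (-1 : F) = -1 := by rw [map_neg, map_one]
  obtain ⟨⟨c0, hc0⟩, hc⟩ := choose_avoid (α := {z : F // σ z = z})
    [⟨0, hfix0⟩, ⟨1, hfix1⟩, ⟨-1, hfixm⟩] (by simp; omega)
  simp only [List.mem_cons, List.not_mem_nil, or_false, forall_eq_or_imp, forall_eq, ne_eq,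
    Subtype.mk.injEq] at hc
  obtain ⟨hc00, hc01, hc0m⟩ := hc
  have hcr : σ (c0 ^ r) = c0 ^ r := by rw [map_pow, hc0]
  have hcri : σ ((c0 ^ r)⁻¹) = (c0 ^ r)⁻¹ := by rw [map_inv₀, hcr]
  obtain ⟨⟨t0, ht0⟩, ht⟩ := choose_avoid (α := {z : F // σ z = z})
    [⟨0, hfix0⟩, ⟨1, hfix1⟩, ⟨-1, hfixm⟩, ⟨c0 ^ r, hcr⟩, ⟨(c0 ^ r)⁻¹, hcri⟩] (by simp; omega)
  simp only [List.mem_cons, List.not_mem_nil, or_false, forall_eq_or_imp, forall_eq, ne_eq,
    Subtype.mk.injEq] at ht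
  obtain ⟨ht00, ht01, ht0m, htc, htci⟩ := ht
  have hsqc : c0 * c0 ≠ 1 := by
    intro h
    rcases mul_self_eq_one_iff.1 h with h | h
    · exact hc01 h
    · exact hc0m h
  have hsqt : t0 * t0 ≠ 1 := by
    intro h
    rcases mul_self_eq_one_iff.1 h with h | h
    · exact ht01 h
    · exact ht0m h
  obtain ⟨t, htt⟩ := nm_surj τ t0 (by rw [hτa, ht0, ht0])
  obtain ⟨c, hcc⟩ := nm_surj τ c0 (by rw [hτa, hc0, hc0])
  have htne : t ≠ 0 := by
    rintro rfl
    rw [nm_zero] at htt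
    exact ht00 htt.symm
  have hcne : c ≠ 0 := by
    rintro rfl
    rw [nm_zero] at hcc
    exact hc00 hcc.symm
  have hdet : (Bl (Cn r t) c).det ≠ 0 := by
    have h1 : (Cn r t).det ≠ 0 := by
      rw [cn_det]
      split_ifs
      · exact one_ne_zero
      · exact mul_ne_zero (pow_ne_zero _ (neg_ne_zero.2 one_ne_zero)) htne
    have h2 : (Bl (Cn r t) c).det = (Cn r t).det * c := by
      have h3 := Matrix.det_fromBlocks_zero₂₁ (Cn r t) (0 : Matrix (Fin r) Unit F)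
        (Matrix.of fun _ _ => c : Matrix Unit Unit F)
      rw [Matrix.det_unique (Matrix.of fun _ _ => c : Matrix Unit Unit F)] at h3
      exact h3
    rw [h2]
    exact mul_ne_zero h1 hcne
  refine ⟨t, c, D / (Bl (Cn r t) c).det, htne, hcne, div_ne_zero hD hdet,
    mul_div_cancel₀ _ hdet, ?_, ?_, ?_, ?_, ?_, ?_⟩
  · rw [htt, hcc]; exact htc
  · rw [htt, ht0]; exact hsqt
  · rw [hcc, hc0]; exact hsqc
  · rw [htt, hcc, hc0]
    intro h
    exact htci (eq_inv_of_mul_eq_one_left h)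
  all_goals
    set ν := D / (Bl (Cn r t) c).det with hν
    have hνne : ν ≠ 0 := div_ne_zero hD hdet
    clear_value ν
    have hσν : σ ν ≠ 0 := (map_ne_zero σ).2 hνne
    set e := Nm τ (ν / σ ν) with he
    have hcomm : ∀ z, σ (τ z) = τ (σ z) := fun z => rfl
    have hee : e * σ e = 1 := by
      rw [he, nm_comm σ τ hcomm, ← nm_mul]
      have h1 : ν / σ ν * σ (ν / σ ν) = ν / τ ν := by
        rw [hτa, map_div₀, div_mul_div_cancel₀ hσν]
      rw [h1]
      have h2 : Nm τ (ν / τ ν) * Nm τ (τ ν) = Nm τ ν := by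
        rw [← nm_mul, div_mul_cancel₀]
        exact (map_ne_zero τ).2 hνne
      have h3 : Nm τ (τ ν) = Nm τ ν := by
        rw [← nm_comm τ τ (fun _ => rfl), nm_fix]
      rw [h3] at h2
      have h4 : Nm τ ν ≠ 0 := nm_ne τ ν hνne
      exact mul_right_cancel₀ h4 (by rw [h2, one_mul])
  · rw [htt]
    intro h
    apply hsqt
    have h1 : t0 = σ e ^ r := by rw [← map_pow, ← h, ht0]
    calc t0 * t0 = e ^ r * σ e ^ r := by rw [← h, ← h1]
      _ = 1 := by rw [← mul_pow, hee, one_pow]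
  · rw [hcc]
    intro h
    apply hsqc
    have h1 : c0 = σ e := by rw [← h, hc0]
    calc c0 * c0 = e * σ e := by rw [← h, hc0]
      _ = 1 := hee

end Pool.Agent.CTG
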