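import Pool.Agent.CTG.Defs

/-! An element of the fixed field which is not `0`, `1`, `-1` (helper47). -/

set_option autoImplicit false

namespace Pool.Agent.CTG

variable {F : Type*} [Field F]

theorem ex3 [Finite F] (σ : F ≃+* F) (hq : 4 ≤ Nat.card {z : F // σ z = z}) :
    ∃ t0 : F, t0 ≠ 0 ∧ σ t0 = t0 ∧ t0 * t0 ≠ 1 := by
  by_contra h
  push Not at h
  have hsub : {z : F | σ z = z} ⊆ ({0, 1, -1} : Set F) := by
    intro z hz
    by_cases h0 : z = 0
    · exact Or.inl h0
    · have h1 := h z h0 hz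
      rcases mul_self_eq_one_iff.1 h1 with h2 | h2
      · exact Or.inr (Or.inl h2)
      · exact Or.inr (Or.inr h2)
  have h1 : Nat.card {z : F // σ z = z} = Set.ncard {z : F | σ z = z} :=
    Nat.card_coe_set_eq {z : F | σ z = z}
  have h2 := Set.ncard_le_ncard hsub (Set.toFinite _)
  have h3 : Set.ncard ({0, 1, -1} : Set F) ≤ 3 := by
    refine (Set.ncard_insert_le _ _).trans ?_
    have h4 : Set.ncard ({1, -1} : Set F) ≤ 2 := by
      refine (Set.ncard_insert_le _ _).trans ?_
      rw [Set.ncard_singleton]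
    omega
  omega

end Pool.Agent.CTG
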