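import Pool.Agent.CTG.Norm

/-!
# CTG / Ex4: the parameters for `n = 4` (helper24)

`lam` with `d = Nm(lam)^4 Nm(D) ≠ 1`, `s` fixed by `σ` with `s² ∉ {1, d, d σ(d)}`, `Nm c = s`,
`t = lam^4 D / c`.
-/

set_option autoImplicit false

namespace Pool.Agent.CTG

open Matrix Pool.Agent.CTC

variable {F : Type*} [Field F]

private lemma choose_avoid4 {α : Type*} [Finite α] (l : List α) (h : l.length < Nat.card α) :
    ∃ x : α, ∀ y ∈ l, x ≠ y := by
  classical
  have := Fintype.ofFinite α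
  by_contra hcon
  push Not at hcon
  have h1 : (Finset.univ : Finset α) ⊆ l.toFinset := by
    intro x _
    obtain ⟨y, hy, hxy⟩ := hcon x
    rw [List.mem_toFinset, hxy]
    exact hy
  have h2 := Finset.card_le_card h1
  rw [Finset.card_univ, ← Nat.card_eq_fintype_card] at h2
  have h3 := List.toFinset_card_le l
  omega

private lemma roots2 (σ : F ≃+* F) (e : F) :
    ∃ l : List {z : F // σ z = z}, l.length ≤ 2 ∧ ∀ z : {z : F // σ z = z},
      z.1 * z.1 = e → z ∈ l := by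
  by_cases h : ∃ s : {z : F // σ z = z}, s.1 * s.1 = e
  · obtain ⟨s, hs⟩ := h
    refine ⟨[s, ⟨-s.1, by rw [map_neg, s.2]⟩], le_rfl, fun z hz => ?_⟩
    rw [← hs] at hz
    rcases mul_self_eq_mul_self_iff.1 hz with h1 | h1
    · have : z = s := Subtype.ext h1
      rw [this]
      exact List.mem_cons_self
    · have : z = ⟨-s.1, by rw [map_neg, s.2]⟩ := Subtype.ext h1
      rw [this]
      exact List.mem_cons_of_mem _ List.mem_cons_self
  · exact ⟨[], by simp, fun z hz => absurd ⟨z, hz⟩ h⟩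

/-- three squares can be avoided -/
private lemma avoid3 [Finite F] (σ : F ≃+* F) (hq : 8 ≤ Nat.card {z : F // σ z = z})
    (e1 e2 e3 : F) : ∃ s : F, s ≠ 0 ∧ σ s = s ∧ s * s ≠ e1 ∧ s * s ≠ e2 ∧ s * s ≠ e3 := by
  obtain ⟨l1, h1, k1⟩ := roots2 σ e1
  obtain ⟨l2, h2, k2⟩ := roots2 σ e2
  obtain ⟨l3, h3, k3⟩ := roots2 σ e3
  obtain ⟨s, hs⟩ := choose_avoid4 ((⟨0, map_zero σ⟩ : {z : F // σ z = z}) :: (l1 ++ l2 ++ l3))
    (by rw [List.length_cons, List.length_append, List.length_append]; omega)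
  refine ⟨s.1, ?_, s.2, ?_, ?_, ?_⟩
  · intro h
    exact hs _ List.mem_cons_self (Subtype.ext h)
  · intro h
    refine hs s (List.mem_cons_of_mem _ ?_) rfl
    rw [List.mem_append, List.mem_append]
    exact Or.inl (Or.inl (k1 s h))
  · intro h
    refine hs s (List.mem_cons_of_mem _ ?_) rfl
    rw [List.mem_append, List.mem_append]
    exact Or.inl (Or.inr (k2 s h))
  · intro h
    refine hs s (List.mem_cons_of_mem _ ?_) rfl
    rw [List.mem_append, List.mem_append]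
    exact Or.inr (k3 s h)

private lemma nm_pow4 (τ : F ≃+* F) (x : F) : Nm τ (x ^ 4) = Nm τ x ^ 4 := by
  have e : ∀ y : F, y ^ 4 = y * y * y * y := fun y => by ring
  rw [e x, nm_mul, nm_mul, nm_mul, e (Nm τ x)]

private lemma nm_zero4 [Finite F] (τ : F ≃+* F) : Nm τ (0 : F) = 0 := by
  have hpos : 0 < orderOf τ := by
    have : Finite (F ≃+* F) := Finite.of_injective (fun f : F ≃+* F => (f : F → F))
      (fun f g h => RingEquiv.ext (fun x => congrFun h x))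
    exact orderOf_pos τ
  unfold Nm
  exact Finset.prod_eq_zero (Finset.mem_range.2 hpos) (by simp)

theorem ex4 [Finite F] (σ : F ≃+* F) (hq : 8 ≤ Nat.card {z : F // σ z = z}) (D : F)
    (hD : D ≠ 0) : ∃ lam t c : F, lam ≠ 0 ∧ t ≠ 0 ∧ c ≠ 0 ∧ t * c = lam ^ 4 * D ∧
      Nm (σ.trans σ) t ≠ Nm (σ.trans σ) c ∧
      Nm (σ.trans σ) t * σ (Nm (σ.trans σ) t) ≠ 1 ∧
      Nm (σ.trans σ) c * σ (Nm (σ.trans σ) c) ≠ 1 ∧
      Nm (σ.trans σ) t * σ (Nm (σ.trans σ) c) ≠ 1 := by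
  set τ := σ.trans σ with hτ
  have hτa : ∀ z, τ z = σ (σ z) := fun z => rfl
  obtain ⟨lam, hlam, hd1⟩ : ∃ lam : F, lam ≠ 0 ∧ Nm τ (lam ^ 4 * D) ≠ 1 := by
    by_cases h : Nm τ D = 1
    · obtain ⟨u, hu0, hu, hu1, hu2, _⟩ := avoid3 σ hq 1 (-1) 1
      obtain ⟨lam, hl⟩ := nm_surj τ u (by rw [hτa, hu, hu])
      refine ⟨lam, ?_, ?_⟩
      · rintro rfl
        rw [nm_zero4] at hl
        exact hu0 hl.symm
      · rw [nm_mul, h, mul_one, nm_pow4, hl]
        intro h4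
        have h5 : (u * u) * (u * u) = 1 := by rw [← h4]; ring
        rcases mul_self_eq_one_iff.1 h5 with h6 | h6
        · exact hu1 h6
        · exact hu2 h6
    · exact ⟨1, one_ne_zero, by rw [one_pow, one_mul]; exact h⟩
  have hDD : lam ^ 4 * D ≠ 0 := mul_ne_zero (pow_ne_zero _ hlam) hD
  obtain ⟨d, hd⟩ : ∃ d, d = Nm τ (lam ^ 4 * D) := ⟨_, rfl⟩
  rw [← hd] at hd1
  obtain ⟨s, hs0, hs, hs1, hs2, hs3⟩ := avoid3 σ hq 1 d (d * σ d)
  obtain ⟨c, hc⟩ := nm_surj τ s (by rw [hτa, hs, hs])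
  have hc0 : c ≠ 0 := by
    rintro rfl
    rw [nm_zero4] at hc
    exact hs0 hc.symm
  have htc : lam ^ 4 * D / c * c = lam ^ 4 * D := div_mul_cancel₀ _ hc0
  have hT : Nm τ (lam ^ 4 * D / c) * s = d := by
    rw [← hc, ← nm_mul, htc, hd]
  obtain ⟨T, hTd⟩ : ∃ T, T = Nm τ (lam ^ 4 * D / c) := ⟨_, rfl⟩
  refine ⟨lam, lam ^ 4 * D / c, c, hlam, div_ne_zero hDD hc0, hc0, htc, ?_, ?_, ?_, ?_⟩
  · rw [hc, ← hTd]
    intro h
    rw [← hTd, h] at hT
    exact hs2 hT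
  · rw [← hTd]
    intro h
    apply hs3
    rw [← hTd] at hT
    have hσ : σ d = σ T * s := by rw [← hT, map_mul, hs]
    rw [hσ, ← hT]
    calc s * s = 1 * (s * s) := (one_mul _).symm
      _ = T * σ T * (s * s) := by rw [h]
      _ = T * s * (σ T * s) := by ring
  · rw [hc, hs]
    exact hs1
  · rw [hc, hs, ← hTd]
    rw [← hTd] at hT
    rw [hT]
    exact hd1

end Pool.Agent.CTG
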