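import Pool.Agent.CTG.Defs

/-!
# CTG / Ex4k: the parameters for `n = 4`, `σ` of order two (helper24)

`lam` with `d = lam^4 D1 ≠ ν0`, `c1` with `c1² ∉ {ν0, d, ν0 d²}`, `t1 = d / c1`.
-/

set_option autoImplicit false

namespace Pool.Agent.CTG

open Matrix Pool.Agent.CTC

variable {F : Type*} [Field F]

private lemma choose_avoid4k {α : Type*} [Finite α] (l : List α) (h : l.length < Nat.card α) :
    ∃ x : α, ∀ y ∈ l, x ≠ y := by
  classical
  have := Fintype.ofFinite α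
  by_contra hcon
  push Not at hcon
  have h1 : (Finset.univ : Finset α) ⊆ l.toFinset := by
    intro x _
    obtain ⟨y, hy, hxy⟩ := hcon x
    rw [List.mem_toFinset, hxy]
    exact hy
  have h2 := Finset.card_le_card h1
  rw [Finset.card_univ, ← Nat.card_eq_fintype_card] at h2
  have h3 := List.toFinset_card_le l
  omega

private lemma roots2k (σ : F ≃+* F) (e : F) :
    ∃ l : List {z : F // σ z = z}, l.length ≤ 2 ∧ ∀ z : {z : F // σ z = z},
      z.1 * z.1 = e → z ∈ l := by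
  by_cases h : ∃ s : {z : F // σ z = z}, s.1 * s.1 = e
  · obtain ⟨s, hs⟩ := h
    refine ⟨[s, ⟨-s.1, by rw [map_neg, s.2]⟩], le_rfl, fun z hz => ?_⟩
    rw [← hs] at hz
    rcases mul_self_eq_mul_self_iff.1 hz with h1 | h1
    · have : z = s := Subtype.ext h1
      rw [this]
      exact List.mem_cons_self
    · have : z = ⟨-s.1, by rw [map_neg, s.2]⟩ := Subtype.ext h1
      rw [this]
      exact List.mem_cons_of_mem _ List.mem_cons_self
  · exact ⟨[], by simp, fun z hz => absurd ⟨z, hz⟩ h⟩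

/-- three squares can be avoided -/
private lemma avoid3k [Finite F] (σ : F ≃+* F) (hq : 8 ≤ Nat.card {z : F // σ z = z})
    (e1 e2 e3 : F) : ∃ s : F, s ≠ 0 ∧ σ s = s ∧ s * s ≠ e1 ∧ s * s ≠ e2 ∧ s * s ≠ e3 := by
  obtain ⟨l1, h1, k1⟩ := roots2k σ e1
  obtain ⟨l2, h2, k2⟩ := roots2k σ e2
  obtain ⟨l3, h3, k3⟩ := roots2k σ e3
  obtain ⟨s, hs⟩ := choose_avoid4k ((⟨0, map_zero σ⟩ : {z : F // σ z = z}) :: (l1 ++ l2 ++ l3))
    (by rw [List.length_cons, List.length_append, List.length_append]; omega)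
  refine ⟨s.1, ?_, s.2, ?_, ?_, ?_⟩
  · intro h
    exact hs _ List.mem_cons_self (Subtype.ext h)
  · intro h
    refine hs s (List.mem_cons_of_mem _ ?_) rfl
    rw [List.mem_append, List.mem_append]
    exact Or.inl (Or.inl (k1 s h))
  · intro h
    refine hs s (List.mem_cons_of_mem _ ?_) rfl
    rw [List.mem_append, List.mem_append]
    exact Or.inl (Or.inr (k2 s h))
  · intro h
    refine hs s (List.mem_cons_of_mem _ ?_) rfl
    rw [List.mem_append, List.mem_append]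
    exact Or.inr (k3 s h)

theorem ex4k [Finite F] (σ : F ≃+* F) (hq : 8 ≤ Nat.card {z : F // σ z = z}) (D1 ν0 : F)
    (hD1 : D1 ≠ 0) (hD1' : σ D1 = D1) (hν0 : ν0 * ν0 = 1) (hν0' : σ ν0 = ν0) :
    ∃ lam t1 c1 : F, lam ≠ 0 ∧ t1 ≠ 0 ∧ c1 ≠ 0 ∧ σ lam = lam ∧ σ t1 = t1 ∧ σ c1 = c1 ∧
      t1 * c1 = lam ^ 4 * D1 ∧ t1 ≠ c1 ∧ ν0 * (t1 * t1) ≠ 1 ∧ ν0 * (c1 * c1) ≠ 1 ∧
      ν0 * (t1 * c1) ≠ 1 := by
  have hν : ∀ z : F, ν0 * z = 1 → z = ν0 := by
    intro z hz
    calc z = ν0 * ν0 * z := by rw [hν0, one_mul]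
      _ = ν0 * (ν0 * z) := by ring
      _ = ν0 := by rw [hz, mul_one]
  obtain ⟨lam, hlam, hσl, hd1⟩ : ∃ lam : F, lam ≠ 0 ∧ σ lam = lam ∧ lam ^ 4 * D1 ≠ ν0 := by
    by_cases h : D1 = ν0
    · obtain ⟨u, hu0, hu, hu1, hu2, _⟩ := avoid3k σ hq 1 (-1) 1
      refine ⟨u, hu0, hu, ?_⟩
      intro h4
      have h5 : (u * u) * (u * u) = 1 := by
        apply mul_right_cancel₀ hD1
        rw [one_mul]
        calc u * u * (u * u) * D1 = u ^ 4 * D1 := by ring
          _ = D1 := by rw [h4, h]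
      rcases mul_self_eq_one_iff.1 h5 with h6 | h6
      · exact hu1 h6
      · exact hu2 h6
    · exact ⟨1, one_ne_zero, map_one σ, by rw [one_pow, one_mul]; exact h⟩
  have hDD : lam ^ 4 * D1 ≠ 0 := mul_ne_zero (pow_ne_zero _ hlam) hD1
  obtain ⟨d, hd⟩ : ∃ d, d = lam ^ 4 * D1 := ⟨_, rfl⟩
  have hσd : σ d = d := by rw [hd, map_mul, map_pow, hσl, hD1']
  rw [← hd] at hDD hd1
  obtain ⟨s, hs0, hs, hs1, hs2, hs3⟩ := avoid3k σ hq ν0 d (ν0 * (d * d))
  have htc : d / s * s = d := div_mul_cancel₀ _ hs0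
  refine ⟨lam, d / s, s, hlam, div_ne_zero hDD hs0, hs0, hσl, ?_, hs, ?_, ?_, ?_, ?_, ?_⟩
  · rw [map_div₀, hσd, hs]
  · rw [htc, hd]
  · intro h
    apply hs2
    calc s * s = d / s * s := by rw [h]
      _ = d := htc
  · intro h
    apply hs3
    have h1 := hν _ h
    calc s * s = ν0 * ν0 * (s * s) := by rw [hν0, one_mul]
      _ = ν0 * (d / s * (d / s) * (s * s)) := by rw [h1]; ring
      _ = ν0 * ((d / s * s) * (d / s * s)) := by ring
      _ = ν0 * (d * d) := by rw [htc]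
  · intro h
    exact hs1 (hν _ h)
  · intro h
    rw [htc] at h
    exact hd1 (hν _ h)

end Pool.Agent.CTG
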