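import Pool.Agent.CTG.KDefs
import Pool.Agent.CTG.Irr2
import Pool.Agent.CTG.IrrT

/-! CTG / Exk (module K1 EXK): matrices over the fixed field with prescribed determinant. -/

set_option autoImplicit false

namespace Pool.Agent.CTG

open Matrix Pool.Agent.CTC

variable {F : Type*} [Field F]

private lemma exk_avoid {α : Type*} [Finite α] (l : List α) (h : l.length < Nat.card α) :
    ∃ x : α, ∀ y ∈ l, x ≠ y := by
  classical
  have := Fintype.ofFinite α
  by_contra hcon
  push Not at hcon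
  have h1 : (Finset.univ : Finset α) ⊆ l.toFinset := by
    intro x _
    obtain ⟨y, hy, hxy⟩ := hcon x
    rw [List.mem_toFinset, hxy]
    exact hy
  have h2 := Finset.card_le_card h1
  rw [Finset.card_univ, ← Nat.card_eq_fintype_card] at h2
  have h3 := List.toFinset_card_le l
  omega

private lemma exk_sqrt {K : Type*} [Field K] (a : K) : ∃ s : K, ∀ x : K, x * x = a → x = s ∨ x = -s := by
  by_cases h : ∃ s : K, s * s = a
  · obtain ⟨s, hs⟩ := h
    refine ⟨s, fun x hx => ?_⟩
    exact mul_self_eq_mul_self_iff.1 (hx.trans hs.symm)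
  · push Not at h
    exact ⟨0, fun x hx => absurd hx (h x)⟩

/-- the fixed field -/
private def fixK (σ : F ≃+* F) : Subfield F := (σ : F →+* F).eqLocusField (RingHom.id F)

private lemma mem_fixK (σ : F ≃+* F) (z : F) : z ∈ fixK σ ↔ σ z = z := Iff.rfl

/-- an irreducible matrix over the fixed field satisfies `KI` -/
private lemma ki_of_irr (σ : F ≃+* F) {r : ℕ} (X0 : Matrix (Fin r) (Fin r) (fixK σ))
    (h : ∀ W : Submodule (fixK σ) (Fin r → fixK σ), (∀ w ∈ W, X0 *ᵥ w ∈ W) → W = ⊥ ∨ W = ⊤) :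
    KI σ (X0.map (fixK σ).subtype) := by
  classical
  intro v hv hv0 W hvW hW
  let S : Submodule (fixK σ) (Fin r → fixK σ) :=
    { carrier := {u | (fun i => (u i : F)) ∈ W}
      add_mem' := by
        intro a b ha hb
        have h1 := W.add_mem ha hb
        exact h1
      zero_mem' := by
        have h1 := W.zero_mem
        exact h1
      smul_mem' := by
        intro c a ha
        have h1 := W.smul_mem (c : F) ha
        exact h1 }
  have hS : ∀ w ∈ S, X0 *ᵥ w ∈ S := by
    intro w hw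
    have h1 := hW _ hw
    have h2 : (X0.map (fixK σ).subtype) *ᵥ (fun i => (w i : F)) =
        fun i => ((X0 *ᵥ w) i : F) := by
      funext i
      simp only [Matrix.mulVec, dotProduct, Matrix.map_apply]
      push_cast
      rfl
    rw [h2] at h1
    exact h1
  have hvS : (fun i => (⟨v i, hv i⟩ : fixK σ)) ∈ S := hvW
  rcases h S hS with h1 | h1
  · exfalso
    rw [h1, Submodule.mem_bot] at hvS
    apply hv0
    funext i
    have h2 := congrFun hvS i
    exact congrArg Subtype.val h2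
  · rw [Submodule.eq_top_iff']
    intro x
    have h2 : x = ∑ i, x i • (fun j => ((Pi.single i (1 : fixK σ) : Fin r → fixK σ) j : F)) := by
      funext j
      rw [Finset.sum_apply, Finset.sum_eq_single j]
      · simp
      · intro i _ hij
        rw [Pi.smul_apply, Pi.single_eq_of_ne hij.symm]
        simp
      · intro h3
        exact absurd (Finset.mem_univ _) h3
    rw [h2]
    refine W.sum_mem fun i _ => W.smul_mem _ ?_
    have h3 : (Pi.single i (1 : fixK σ) : Fin r → fixK σ) ∈ S := by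
      rw [h1]
      exact Submodule.mem_top
    exact h3

theorem exk [Finite F] (σ : F ≃+* F) (hq : 7 ≤ Nat.card {z : F // σ z = z}) (r : ℕ) (hr : 2 ≤ r)
    (D1 ν0 : F) (hD1 : D1 ≠ 0) (hD1' : σ D1 = D1) (hν0 : ν0 ≠ 0) (hν0' : σ ν0 = ν0) :
    ∃ (X1 W : Matrix (Fin r) (Fin r) F) (c1 : F), (∀ i j, σ (X1 i j) = X1 i j) ∧ σ c1 = c1 ∧
      c1 ≠ 0 ∧ X1.det ≠ 0 ∧ W.det ≠ 0 ∧ X1.det * c1 = D1 ∧ X1 * W = W * X1ᵀ ∧ KI σ X1 ∧
      KI σ X1ᵀ ∧ ν0 ^ r * (X1.det * X1.det) ≠ 1 ∧ ν0 * (c1 * c1) ≠ 1 := by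
  classical
  have hqK : 7 ≤ Nat.card (fixK σ) := hq
  set d : fixK σ := ⟨D1, hD1'⟩ with hd
  set n : fixK σ := ⟨ν0, hν0'⟩ with hn
  have hd0 : d ≠ 0 := fun h => hD1 (congrArg Subtype.val h)
  have hn0 : n ≠ 0 := fun h => hν0 (congrArg Subtype.val h)
  obtain ⟨s, hs⟩ := exk_sqrt ((n ^ r)⁻¹)
  obtain ⟨u, hu⟩ := exk_sqrt (n * (d * d))
  obtain ⟨t0, ht⟩ := exk_avoid [0, s, -s, u, -u] (by
    simp only [List.length_cons, List.length_nil]
    omega)
  simp only [List.mem_cons, List.not_mem_nil, or_false, forall_eq_or_imp, forall_eq, ne_eq] at ht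
  obtain ⟨ht0, hts, hts', htu, htu'⟩ := ht
  have hc1 : n ^ r * (t0 * t0) ≠ 1 := by
    intro h
    rcases hs t0 (eq_inv_of_mul_eq_one_right h) with h1 | h1
    · exact hts h1
    · exact hts' h1
  have hc2 : n * ((d / t0) * (d / t0)) ≠ 1 := by
    intro h
    have h1 : t0 * t0 = n * (d * d) := by
      field_simp at h
      linear_combination (-1 : fixK σ) * h
    rcases hu t0 h1 with h2 | h2
    · exact htu h2
    · exact htu' h2
  obtain ⟨X0, hX0, hirr, hNm⟩ := irr2 (RingEquiv.refl (fixK σ)) r hr t0 ht0 rfl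
  have hNm1 : ∀ x : fixK σ, Nm (RingEquiv.refl (fixK σ)) x = x := by
    intro x
    unfold Nm
    have h1 : (RingEquiv.refl (fixK σ)) = 1 := rfl
    rw [h1, orderOf_one, Finset.prod_range_one, pow_zero]
    rfl
  rw [hNm1] at hNm
  obtain ⟨W0, hW0, hXW⟩ := irr_transpose (by omega) X0 hX0 hirr
  have hirr' : ∀ W : Submodule (fixK σ) (Fin r → fixK σ), (∀ w ∈ W, X0 *ᵥ w ∈ W) →
      W = ⊥ ∨ W = ⊤ := fun W hW => hirr W fun w hw => hW w hw
  have hirrT : ∀ W : Submodule (fixK σ) (Fin r → fixK σ), (∀ w ∈ W, X0ᵀ *ᵥ w ∈ W) →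
      W = ⊥ ∨ W = ⊤ := by
    intro W hW
    have hinj : Function.Injective (Matrix.mulVecLin W0) := by
      rw [Matrix.coe_mulVecLin]
      exact Matrix.mulVec_injective_iff_isUnit.2
        ((Matrix.isUnit_iff_isUnit_det W0).2 (isUnit_iff_ne_zero.2 hW0))
    rcases hirr' (W.map (Matrix.mulVecLin W0)) (by
      rintro _ ⟨w, hw, rfl⟩
      refine ⟨X0ᵀ *ᵥ w, hW w hw, ?_⟩
      rw [Matrix.mulVecLin_apply, Matrix.mulVecLin_apply, Matrix.mulVec_mulVec,
        Matrix.mulVec_mulVec, hXW]) with h1 | h1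
    · left
      rw [Submodule.eq_bot_iff]
      intro x hx
      have h2 : Matrix.mulVecLin W0 x ∈ W.map (Matrix.mulVecLin W0) := ⟨x, hx, rfl⟩
      rw [h1, Submodule.mem_bot] at h2
      exact hinj (by rw [h2, map_zero])
    · right
      rw [Submodule.eq_top_iff']
      intro x
      have h2 : Matrix.mulVecLin W0 x ∈ W.map (Matrix.mulVecLin W0) := by
        rw [h1]
        exact Submodule.mem_top
      obtain ⟨y, hy, hxy⟩ := h2
      rw [← hinj hxy]
      exact hy
  have hdet : (X0.map (fixK σ).subtype).det = (t0 : F) := by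
    have h1 := (RingHom.map_det (fixK σ).subtype X0).symm
    rw [hNm] at h1
    exact h1
  have hdetW : (W0.map (fixK σ).subtype).det = (W0.det : F) :=
    (RingHom.map_det (fixK σ).subtype W0).symm
  have ht0F : (t0 : F) ≠ 0 := fun h => ht0 (Subtype.ext h)
  refine ⟨X0.map (fixK σ).subtype, W0.map (fixK σ).subtype, ((d / t0 : fixK σ) : F), ?_, ?_, ?_,
    ?_, ?_, ?_, ?_, ki_of_irr σ X0 hirr', ?_, ?_, ?_⟩
  · intro i j
    exact (X0 i j).2
  · exact (d / t0).2
  · intro h
    exact div_ne_zero hd0 ht0 (Subtype.ext h)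
  · rw [hdet]
    exact ht0F
  · rw [hdetW]
    intro h
    exact hW0 (Subtype.ext h)
  · rw [hdet]
    have h1 : t0 * (d / t0) = d := mul_div_cancel₀ _ ht0
    exact congrArg Subtype.val h1
  · have h1 := congrArg (fun M => M.map (fixK σ).subtype) hXW
    beta_reduce at h1
    rw [Matrix.map_mul, Matrix.map_mul] at h1
    rw [h1]
    rfl
  · exact ki_of_irr σ X0ᵀ hirrT
  · rw [hdet]
    intro h
    apply hc1
    exact Subtype.ext h
  · intro h
    apply hc2
    exact Subtype.ext h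

end Pool.Agent.CTG
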