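import Pool.Agent.CTG.GPack

/-! CTG, module GPack1: from matrices to automorphisms, up to scalars, for the graph automorphism cosets. -/

set_option autoImplicit false
set_option linter.all false

namespace Pool.Agent.CTG

open Matrix Pool.Agent.CTC

variable {F : Type*} [Field F]

/-- `σ(M)^{-T}` -/
private noncomputable def st {n : ℕ} (σ : F ≃+* F) (M : Matrix (Fin n) (Fin n) F) :
    Matrix (Fin n) (Fin n) F := ((M⁻¹).map σ)ᵀ

private theorem st_mul {n : ℕ} (σ : F ≃+* F) (M N : Matrix (Fin n) (Fin n) F) :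
    st σ (M * N) = st σ M * st σ N := by
  unfold st
  rw [Matrix.mul_inv_rev, CosetT.map_mul', Matrix.transpose_mul]

private theorem st_left {n : ℕ} (σ : F ≃+* F) {M : Matrix (Fin n) (Fin n) F} (hM : M.det ≠ 0) :
    st σ M * (M.map σ)ᵀ = 1 := by
  unfold st
  rw [← Matrix.transpose_mul, ← CosetT.map_mul',
    Matrix.mul_nonsing_inv _ (isUnit_iff_ne_zero.2 hM),
    Matrix.map_one _ (map_zero σ) (map_one σ), Matrix.transpose_one]

private theorem st_right {n : ℕ} (σ : F ≃+* F) {M : Matrix (Fin n) (Fin n) F} (hM : M.det ≠ 0) :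
    (M.map σ)ᵀ * st σ M = 1 := by
  unfold st
  rw [← Matrix.transpose_mul, ← CosetT.map_mul',
    Matrix.nonsing_inv_mul _ (isUnit_iff_ne_zero.2 hM),
    Matrix.map_one _ (map_zero σ) (map_one σ), Matrix.transpose_one]

private theorem st_det {n : ℕ} (σ : F ≃+* F) {M : Matrix (Fin n) (Fin n) F} (hM : M.det ≠ 0) :
    (st σ M).det = (σ M.det)⁻¹ := by
  unfold st
  rw [Matrix.det_transpose, CosetT.map_det', Matrix.det_nonsing_inv, Ring.inverse_eq_inv', map_inv₀]

private theorem st_st {n : ℕ} (σ τ : F ≃+* F) {M : Matrix (Fin n) (Fin n) F} (hM : M.det ≠ 0) :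
    st σ (st τ M) = M.map (τ.trans σ) := by
  have h1 : (st τ M)⁻¹ = (M.map τ)ᵀ := Matrix.inv_eq_left_inv (st_right τ hM)
  unfold st at h1 ⊢
  rw [h1]
  ext i j
  rfl

private theorem sl_det {n : ℕ} (g : SpecialLinearGroup (Fin n) F) :
    (g : Matrix (Fin n) (Fin n) F).det ≠ 0 := CosetT.det_one_ne g.2

private theorem sl_inv {n : ℕ} (g : SpecialLinearGroup (Fin n) F) :
    ((g⁻¹ : SpecialLinearGroup (Fin n) F) : Matrix (Fin n) (Fin n) F) =
      (g : Matrix (Fin n) (Fin n) F)⁻¹ := by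
  refine (Matrix.inv_eq_left_inv ?_).symm
  rw [← Matrix.SpecialLinearGroup.coe_mul, inv_mul_cancel, Matrix.SpecialLinearGroup.coe_one]

private theorem indG_iff {n : ℕ} {α : MulAut (CosetT.PSLn n F)} {A : Matrix (Fin n) (Fin n) F}
    {σ : F ≃+* F} : IndG α A σ ↔ ∀ g g' : SpecialLinearGroup (Fin n) F,
      (g' : Matrix (Fin n) (Fin n) F) * A = A * st σ (g : Matrix (Fin n) (Fin n) F) →
      α (CosetT.mk g) = CosetT.mk g' := by
  unfold IndG st
  constructor
  · intro h g g' hg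
    apply h g g'
    rw [sl_inv]
    exact hg
  · intro h g g' hg
    apply h g g'
    rw [sl_inv] at hg
    exact hg

private theorem ex_image {n : ℕ} {A : Matrix (Fin n) (Fin n) F} (hA : A.det ≠ 0) (σ : F ≃+* F)
    (g : SpecialLinearGroup (Fin n) F) : ∃ g' : SpecialLinearGroup (Fin n) F,
      (g' : Matrix (Fin n) (Fin n) F) * A = A * st σ (g : Matrix (Fin n) (Fin n) F) := by
  refine ⟨⟨A * st σ (g : Matrix (Fin n) (Fin n) F) * A⁻¹, ?_⟩, ?_⟩
  · rw [Matrix.det_mul, Matrix.det_mul, st_det σ (sl_det g), g.2, map_one, inv_one, mul_one,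
      Matrix.det_nonsing_inv, Ring.mul_inverse_cancel _ (isUnit_iff_ne_zero.2 hA)]
  · show A * st σ (g : Matrix (Fin n) (Fin n) F) * A⁻¹ * A = _
    rw [mul_assoc, Matrix.nonsing_inv_mul _ (isUnit_iff_ne_zero.2 hA), mul_one]

private theorem cancel {n : ℕ} {X Y Z : Matrix (Fin n) (Fin n) F} (hZ : Z.det ≠ 0)
    (h : X * Z = Y * Z) : X = Y := by
  have h4 := congrArg (fun W => W * Z⁻¹) h
  beta_reduce at h4
  rwa [Matrix.mul_nonsing_inv_cancel_right _ _ (isUnit_iff_ne_zero.2 hZ),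
    Matrix.mul_nonsing_inv_cancel_right _ _ (isUnit_iff_ne_zero.2 hZ)] at h4

private theorem st_det_ne {n : ℕ} (σ : F ≃+* F) {M : Matrix (Fin n) (Fin n) F} (hM : M.det ≠ 0) :
    (st σ M).det ≠ 0 := by
  rw [st_det σ hM]
  exact inv_ne_zero (by simpa using hM)

private theorem indG_mul {n : ℕ} {α β : MulAut (CosetT.PSLn n F)}
    {A B : Matrix (Fin n) (Fin n) F} {σ τ : F ≃+* F} (hA : A.det ≠ 0) (hB : B.det ≠ 0)
    (h1 : IndG α A σ) (h2 : IndG β B τ) : CosetT.Ind (α * β) (A * st σ B) (τ.trans σ) := by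
  rw [indG_iff] at h1 h2
  intro g g' hg
  obtain ⟨g1, hg1⟩ := ex_image hB τ g
  obtain ⟨g2, hg2⟩ := ex_image hA σ g1
  rw [MulAut.mul_apply, h2 g g1 hg1, h1 g1 g2 hg2]
  congr 1
  have hAB : (A * st σ B).det ≠ 0 := by
    rw [Matrix.det_mul]
    exact mul_ne_zero hA (st_det_ne σ hB)
  have h3 : (g2 : Matrix (Fin n) (Fin n) F) * (A * st σ B) = g' * (A * st σ B) := by
    rw [hg, ← mul_assoc, hg2, mul_assoc, ← st_mul, hg1, st_mul, st_st σ τ (sl_det g), mul_assoc]
  exact Subtype.ext (cancel hAB h3)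

private theorem indG_conj {n : ℕ} {α : MulAut (CosetT.PSLn n F)} {A : Matrix (Fin n) (Fin n) F}
    {σ : F ≃+* F} (h : IndG α A σ) (w : SpecialLinearGroup (Fin n) F) :
    IndG (α * MulAut.conj (CosetT.mk w)) (A * st σ (w : Matrix (Fin n) (Fin n) F)) σ := by
  rw [indG_iff] at h ⊢
  intro g g' hg
  rw [MulAut.mul_apply, MulAut.conj_apply, ← CosetT.mk_inv, ← CosetT.mk_mul, ← CosetT.mk_mul]
  apply h
  apply cancel (st_det_ne σ (sl_det w))
  have e1 : (w * g * w⁻¹) * w = w * g := by rw [inv_mul_cancel_right]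
  have e2 : ((w * g * w⁻¹ : SpecialLinearGroup (Fin n) F) : Matrix (Fin n) (Fin n) F) * w =
      (w : Matrix (Fin n) (Fin n) F) * g := by
    rw [← Matrix.SpecialLinearGroup.coe_mul, e1, Matrix.SpecialLinearGroup.coe_mul]
  rw [mul_assoc, hg, mul_assoc A (st σ _) (st σ (w : Matrix (Fin n) (Fin n) F)), ← st_mul, e2,
    st_mul, mul_assoc]

private theorem indG_conjugate {n : ℕ} {x : MulAut (CosetT.PSLn n F)}
    {X : Matrix (Fin n) (Fin n) F} {σ : F ≃+* F} (hX : X.det ≠ 0) (h : IndG x X σ)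
    (u : SpecialLinearGroup (Fin n) F) :
    IndG (MulAut.conj (CosetT.mk u) * x * (MulAut.conj (CosetT.mk u))⁻¹)
      ((u : Matrix (Fin n) (Fin n) F) * X * ((u : Matrix (Fin n) (Fin n) F).map σ)ᵀ) σ := by
  rw [indG_iff] at h ⊢
  intro g g' hg
  have e1 : (MulAut.conj (CosetT.mk u))⁻¹ (CosetT.mk g) = CosetT.mk (u⁻¹ * g * u) := by
    rw [← map_inv, MulAut.conj_apply, CosetT.mk_mul, CosetT.mk_mul, CosetT.mk_inv, inv_inv]
  obtain ⟨g1, hg1⟩ := ex_image hX σ (u⁻¹ * g * u)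
  rw [MulAut.mul_apply, MulAut.mul_apply, e1, h _ _ hg1, MulAut.conj_apply, ← CosetT.mk_inv,
    ← CosetT.mk_mul, ← CosetT.mk_mul]
  congr 1
  obtain ⟨U, hU⟩ : ∃ U, U = (u : Matrix (Fin n) (Fin n) F) := ⟨_, rfl⟩
  obtain ⟨T, hT⟩ : ∃ T, T = ((u : Matrix (Fin n) (Fin n) F).map σ)ᵀ := ⟨_, rfl⟩
  have hTu : T * st σ U = 1 := by rw [hT, hU]; exact st_right σ (sl_det u)
  have huT : st σ U * T = 1 := by rw [hT, hU]; exact st_left σ (sl_det u)
  have hUd : U.det ≠ 0 := by rw [hU]; exact sl_det u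
  have hTd : T.det ≠ 0 := by
    rw [hT, Matrix.det_transpose, CosetT.map_det', u.2, map_one]; exact one_ne_zero
  have e3 : U * ((u⁻¹ * g * u : SpecialLinearGroup (Fin n) F) : Matrix (Fin n) (Fin n) F) =
      (g : Matrix (Fin n) (Fin n) F) * U := by
    rw [hU, ← Matrix.SpecialLinearGroup.coe_mul, ← Matrix.SpecialLinearGroup.coe_mul]
    congr 1
    group
  have e4 : st σ U * st σ ((u⁻¹ * g * u : SpecialLinearGroup (Fin n) F) :
      Matrix (Fin n) (Fin n) F) = st σ (g : Matrix (Fin n) (Fin n) F) * st σ U := by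
    rw [← st_mul, e3, st_mul]
  have e5 : st σ ((u⁻¹ * g * u : SpecialLinearGroup (Fin n) F) : Matrix (Fin n) (Fin n) F) =
      T * (st σ (g : Matrix (Fin n) (Fin n) F) * st σ U) := by
    rw [← e4, ← mul_assoc, hTu, one_mul]
  have e6 : ((u * g1 * u⁻¹ : SpecialLinearGroup (Fin n) F) : Matrix (Fin n) (Fin n) F) * U =
      U * (g1 : Matrix (Fin n) (Fin n) F) := by
    rw [hU, ← Matrix.SpecialLinearGroup.coe_mul, ← Matrix.SpecialLinearGroup.coe_mul]
    congr 1
    group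
  have hdet : (U * X * T).det ≠ 0 := by
    rw [Matrix.det_mul, Matrix.det_mul]
    exact mul_ne_zero (mul_ne_zero hUd hX) hTd
  rw [← hT, ← hU] at hg
  apply Subtype.ext
  apply cancel hdet
  rw [hg]
  calc ((u * g1 * u⁻¹ : SpecialLinearGroup (Fin n) F) : Matrix (Fin n) (Fin n) F) * (U * X * T)
      = (((u * g1 * u⁻¹ : SpecialLinearGroup (Fin n) F) : Matrix (Fin n) (Fin n) F) * U) * X * T := by
        simp only [mul_assoc]
    _ = U * ((g1 : Matrix (Fin n) (Fin n) F) * X) * T := by rw [e6]; simp only [mul_assoc]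
    _ = U * (X * (T * (st σ (g : Matrix (Fin n) (Fin n) F) * st σ U))) * T := by rw [hg1, e5]
    _ = U * X * T * st σ (g : Matrix (Fin n) (Fin n) F) * (st σ U * T) := by
        simp only [mul_assoc]
    _ = U * X * T * st σ (g : Matrix (Fin n) (Fin n) F) := by rw [huT, mul_one]

open scoped Pointwise in
theorem packG1 {σ : F ≃+* F} {n : ℕ} (A : Matrix (Fin n) (Fin n) F)
    (hA : A.det ≠ 0) (α : MulAut (CosetT.PSLn n F)) (hα : IndG α A σ)
    (S : Matrix (Fin n) (Fin n) F) (hS : S.det = A.det)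
    (hF : ∀ B : Matrix (Fin n) (Fin n) F, B.det * σ S.det = S.det →
      ∃ (P Q : Matrix (Fin n) (Fin n) F) (μ : F), μ ≠ 0 ∧ CgS σ S P ∧ CgS σ S Q ∧
        μ • P = B * (Q.map σ)ᵀ) :
    ∃ x ∈ CosetT.coset α, CosetT.cls x * CosetT.cls x = CosetT.coset (α ^ 2) := by
  have hS0 : S.det ≠ 0 := by rw [hS]; exact hA
  have hσA : σ A.det ≠ 0 := by simpa using hA
  set W : Matrix (Fin n) (Fin n) F := ((S⁻¹ * A)ᵀ).map σ.symm with hW
  have hWdet : W.det = 1 := by
    rw [hW, CosetT.map_det', Matrix.det_transpose, Matrix.det_mul, Matrix.det_nonsing_inv, hS,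
      Ring.inverse_eq_inv', inv_mul_cancel₀ hA, map_one]
  have hWσ : (W.map σ)ᵀ = S⁻¹ * A := by
    ext i j
    rw [Matrix.transpose_apply, hW, Matrix.map_apply, Matrix.map_apply,
      RingEquiv.apply_symm_apply, Matrix.transpose_apply]
  have hst : A * st σ W = S := by
    have h1 := st_right σ (CosetT.det_one_ne hWdet)
    rw [hWσ] at h1
    have h2 : S * (S⁻¹ * A * st σ W) = S := by rw [h1, mul_one]
    rwa [← mul_assoc, ← mul_assoc, Matrix.mul_nonsing_inv _ (isUnit_iff_ne_zero.2 hS0), one_mul]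
      at h2
  set w0 : SpecialLinearGroup (Fin n) F := ⟨W, hWdet⟩ with hw0'
  have hxInd : IndG (α * MulAut.conj (CosetT.mk w0)) S σ := by
    have h1 := indG_conj hα w0
    have e1 : A * st σ (w0 : Matrix (Fin n) (Fin n) F) = S := hst
    rwa [e1] at h1
  have hx : α * MulAut.conj (CosetT.mk w0) ∈ CosetT.coset α := ⟨CosetT.mk w0, rfl⟩
  refine ⟨α * MulAut.conj (CosetT.mk w0), hx,
    Set.Subset.antisymm (CosetT.cls_mul_subset hx) ?_⟩
  rintro y ⟨g0, rfl⟩
  obtain ⟨g0, rfl⟩ := CosetT.mk_surj g0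
  have h1 := indG_mul hA hA hα hα
  have hAA : (A * st σ A).det ≠ 0 := by
    rw [Matrix.det_mul]; exact mul_ne_zero hA (st_det_ne σ hA)
  have h2 := CosetT.Ind.mul hAA (CosetT.det_one_ne g0.2) h1 (CosetT.ind_conj g0)
  have e2 : (RingEquiv.refl F).trans (σ.trans σ) = σ.trans σ := by ext z; rfl
  rw [e2, ← pow_two] at h2
  set B := A * st σ A * (g0 : Matrix (Fin n) (Fin n) F).map (σ.trans σ) with hB
  have hBdet : B.det * σ S.det = S.det := by
    rw [hB, Matrix.det_mul, Matrix.det_mul, CosetT.map_det', st_det σ hA, g0.2, map_one, mul_one,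
      hS, mul_assoc, inv_mul_cancel₀ hσA, mul_one]
  have hB0 : B.det ≠ 0 := by
    intro h0
    rw [h0, zero_mul] at hBdet
    exact hS0 hBdet.symm
  obtain ⟨P, Q, μ, hμ, ⟨a, ha, hP⟩, ⟨b, hb, hQ⟩, hPQ⟩ := hF B hBdet
  set u : SpecialLinearGroup (Fin n) F := ⟨a, ha⟩ with hu
  set v : SpecialLinearGroup (Fin n) F := ⟨b, hb⟩ with hv
  have i1 := indG_conjugate hS0 hxInd u
  have i2 := indG_conjugate hS0 hxInd v
  have eP : (u : Matrix (Fin n) (Fin n) F) * S * ((u : Matrix (Fin n) (Fin n) F).map σ)ᵀ = P :=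
    hP.symm
  have eQ : (v : Matrix (Fin n) (Fin n) F) * S * ((v : Matrix (Fin n) (Fin n) F).map σ)ᵀ = Q :=
    hQ.symm
  rw [eP] at i1
  rw [eQ] at i2
  have hPd : P.det ≠ 0 := by
    rw [hP, Matrix.det_mul, Matrix.det_mul, Matrix.det_transpose, CosetT.map_det', ha, map_one,
      one_mul, mul_one]
    exact hS0
  have hQd : Q.det ≠ 0 := by
    rw [hQ, Matrix.det_mul, Matrix.det_mul, Matrix.det_transpose, CosetT.map_det', hb, map_one,
      one_mul, mul_one]
    exact hS0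
  have i3 := (indG_mul hPd hQd i1 i2).smul hμ
  have e3 : μ • (P * st σ Q) = B := by
    rw [← Matrix.smul_mul, hPQ, mul_assoc, st_right σ hQd, mul_one]
  rw [e3] at i3
  have e4 := CosetT.Ind.eq hB0 h2 i3
  apply mem_cls_mul
  exact ⟨CosetT.mk u, CosetT.mk v, e4⟩

end Pool.Agent.CTG
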