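import Mathlib

/-!
# CTG / Nsc: the cosets of graph automorphisms of `PSL_n(q)`

PROOF. `β₁ = diag(b, 1, …, 1)`, `κ = 1 + x E_ij`.  If `β₁⁻¹ s τ(β₁) G = μ₁` and the same with `β₁ κ` gives `μ`, then `τ(κ) G = c G κ`,
`c = μ / μ₁`.  So `τ(x) E G = G ((c - 1) + c x E)`, the square of the last factor is `0`, so `c = 1` and `τ(x) E G = x G E` for all `x`;
`x = 1` gives `E G = G E`, so `(τ(x) - x) E G = 0`, `E = 0`.
-/

set_option autoImplicit false

namespace Pool.Agent.CTG

open Matrix

variable {F : Type*} [Field F]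

theorem nsc {ι : Type*} [Fintype ι] [DecidableEq ι] (h2 : 2 ≤ Fintype.card ι) (τ : F ≃+* F)
    (hτ : ∃ z, τ z ≠ z) (s G : Matrix ι ι F) (hs : s.det ≠ 0) (hG : G.det ≠ 0) (b : F)
    (hb : b ≠ 0) :
    ∃ β : Matrix ι ι F, β.det = b ∧ ¬ ∃ μ : F, β⁻¹ * s * β.map τ * G = μ • (1 : Matrix ι ι F) := by
  by_contra hcon
  push Not at hcon
  obtain ⟨i, j, hij⟩ := Fintype.exists_pair_of_one_lt_card (show 1 < Fintype.card ι by omega)
  have hGu : IsUnit G.det := isUnit_iff_ne_zero.2 hG
  have hne : Nonempty ι := ⟨i⟩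
  set β₁ : Matrix ι ι F := Matrix.diagonal (fun a => if a = i then b else 1) with hβ₁
  have hd1 : β₁.det = b := by
    rw [hβ₁, det_diagonal, Finset.prod_ite_eq' Finset.univ i (fun _ => b)]
    simp
  obtain ⟨μ₁, h1⟩ := hcon β₁ hd1
  set M : Matrix ι ι F := β₁⁻¹ * s * β₁.map τ with hM
  have hmapdet : ∀ B : Matrix ι ι F, (B.map τ).det = τ B.det := by
    intro B
    exact (RingHom.map_det (τ : F →+* F) B).symm
  have hMdet : M.det ≠ 0 := by
    rw [hM, det_mul, det_mul, hmapdet, hd1]
    refine mul_ne_zero (mul_ne_zero ?_ hs) ?_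
    · rw [det_nonsing_inv, hd1]
      simpa using hb
    · exact (map_ne_zero τ).2 hb
  have hμ₁ : μ₁ ≠ 0 := by
    rintro rfl
    rw [zero_smul] at h1
    have h3 : (M * G).det = 0 := by
      rw [h1, det_zero]
    rw [det_mul] at h3
    exact mul_ne_zero hMdet hG h3
  have hGM : G * M = μ₁ • (1 : Matrix ι ι F) := by
    have h3 : M = μ₁ • G⁻¹ := by
      calc M = M * (G * G⁻¹) := by rw [mul_nonsing_inv G hGu, mul_one]
        _ = (M * G) * G⁻¹ := (mul_assoc M G G⁻¹).symm
        _ = μ₁ • G⁻¹ := by rw [h1, smul_mul_assoc, one_mul]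
    rw [h3, mul_smul_comm, mul_nonsing_inv G hGu]
  set E : Matrix ι ι F := Matrix.single i j 1 with hE
  have hEE : E * E = 0 := by
    rw [hE, Matrix.single_mul_single_of_ne]
    exact hij.symm
  have key : ∀ x : F, ∃ c : F, (1 + τ x • E) * G = c • (G * (1 + x • E)) := by
    intro x
    set κ : Matrix ι ι F := 1 + x • E with hκ
    have hκt : κ = transvection i j x := by
      rw [hκ, hE, transvection, smul_single, smul_eq_mul, mul_one]
    have hdκ : κ.det = 1 := by
      rw [hκt]
      exact det_transvection_of_ne i j hij x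
    have hκτ : κ.map τ = 1 + τ x • E := by
      ext a a'
      simp only [hκ, hE, Matrix.map_apply, Matrix.add_apply, Matrix.smul_apply, smul_eq_mul,
        map_add, map_mul, Matrix.one_apply, Matrix.single_apply]
      split_ifs <;> simp
    obtain ⟨μ, h3⟩ := hcon (β₁ * κ) (by rw [det_mul, hd1, hdκ, mul_one])
    refine ⟨μ / μ₁, ?_⟩
    have hmm : (β₁ * κ).map τ = β₁.map τ * κ.map τ := Matrix.map_mul (f := (τ : F →+* F))
    rw [Matrix.mul_inv_rev, hmm] at h3
    have hκu : IsUnit κ.det := by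
      rw [hdκ]
      exact isUnit_one
    have h4 : M * κ.map τ * G = μ • κ := by
      calc M * κ.map τ * G = κ * (κ⁻¹ * β₁⁻¹ * s * (β₁.map τ * κ.map τ) * G) := by
            rw [hM]
            simp only [mul_assoc]
            rw [← mul_assoc κ κ⁻¹, mul_nonsing_inv κ hκu, one_mul]
        _ = μ • κ := by rw [h3, mul_smul_comm, mul_one]
    have h5 : μ₁ • (κ.map τ * G) = μ • (G * κ) := by
      calc μ₁ • (κ.map τ * G) = (μ₁ • (1 : Matrix ι ι F)) * (κ.map τ * G) := by
            rw [smul_mul_assoc, one_mul]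
        _ = G * (M * κ.map τ * G) := by
            rw [← hGM]
            simp only [mul_assoc]
        _ = μ • (G * κ) := by rw [h4, mul_smul_comm]
    rw [← hκτ]
    calc κ.map τ * G = μ₁⁻¹ • (μ₁ • (κ.map τ * G)) := by
          rw [smul_smul, inv_mul_cancel₀ hμ₁, one_smul]
      _ = (μ / μ₁) • (G * κ) := by
          rw [h5, smul_smul]
          congr 1
          field_simp
  have key2 : ∀ x : F, τ x • (E * G) = x • (G * E) := by
    intro x
    obtain ⟨c, hc⟩ := key x
    -- `τ(x) E G = G ((c-1) + c x E)`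
    have h3 : (τ x • E) * G = G * ((c - 1) • 1 + (c * x) • E) := by
      have h4 : (1 + τ x • E) * G = G + (τ x • E) * G := by rw [add_mul, one_mul]
      have h5 : (τ x • E) * G = c • (G * (1 + x • E)) - G := by
        rw [← hc, h4]
        abel
      rw [h5, mul_add, mul_add, mul_one, mul_smul_comm, mul_smul_comm, mul_smul_comm, mul_one,
        smul_add, smul_smul, sub_smul, one_smul]
      abel
    have h4 : G * (((c - 1) • 1 + (c * x) • E) * ((c - 1) • 1 + (c * x) • E)) = 0 := by
      rw [← mul_assoc, ← h3, mul_assoc, ← h3, ← mul_assoc, smul_mul_smul_comm, hEE, smul_zero,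
        zero_mul]
    have h5 : ((c - 1) • (1 : Matrix ι ι F) + (c * x) • E) * ((c - 1) • 1 + (c * x) • E) = 0 := by
      have := congrArg (fun X => G⁻¹ * X) h4
      simp only [mul_zero] at this
      rwa [← mul_assoc, nonsing_inv_mul G hGu, one_mul] at this
    have h6 : ((c - 1) • (1 : Matrix ι ι F) + (c * x) • E) * ((c - 1) • 1 + (c * x) • E) =
        ((c - 1) * (c - 1)) • 1 + (2 * ((c - 1) * (c * x))) • E := by
      rw [add_mul, mul_add, mul_add, smul_mul_smul_comm, smul_mul_smul_comm, smul_mul_smul_comm,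
        smul_mul_smul_comm, hEE, one_mul, one_mul, mul_one, smul_zero, add_zero, add_assoc,
        ← add_smul]
      congr 2
      ring
    rw [h6] at h5
    have h7 := congrFun (congrFun h5 i) i
    have h8 : E i i = 0 := by
      rw [hE, Matrix.single_apply]
      rw [if_neg]
      rintro ⟨-, h⟩
      exact hij h.symm
    simp only [Matrix.add_apply, Matrix.smul_apply, Matrix.one_apply_eq, Matrix.zero_apply,
      smul_eq_mul, h8, mul_zero, add_zero, mul_one] at h7
    have h9 : c = 1 := by
      have := mul_self_eq_zero.1 h7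
      exact sub_eq_zero.1 this
    rw [h9, sub_self, zero_smul, zero_add, one_mul, mul_smul_comm, smul_mul_assoc] at h3
    exact h3
  obtain ⟨z, hz⟩ := hτ
  have h3 := key2 1
  rw [map_one, one_smul, one_smul] at h3
  have h4 := key2 z
  rw [← h3] at h4
  have h5 : (τ z - z) • (E * G) = 0 := by rw [sub_smul, h4, sub_self]
  have h6 : E * G = 0 := by
    rcases smul_eq_zero.1 h5 with h | h
    · exact absurd (sub_eq_zero.1 h) hz
    · exact h
  have h7 : E = 0 := by
    calc E = E * G * G⁻¹ := by rw [mul_assoc, mul_nonsing_inv G hGu, mul_one]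
      _ = 0 := by rw [h6, zero_mul]
  have h8 := congrFun (congrFun h7 i) j
  rw [hE, Matrix.single_apply_same] at h8
  exact one_ne_zero h8

end Pool.Agent.CTG
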