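import Pool.Agent.CTG.Defs
import Pool.Agent.Helper49.Coset.Aut

/-! CTG, module Nsc1: a product with a conjugate which is not scalar. -/

set_option autoImplicit false
set_option linter.all false

namespace Pool.Agent.CTG

open Matrix Pool.Agent.CTC CosetT

variable {F : Type*} [Field F]

private theorem nsc1_comm {ι : Type*} [Fintype ι] [DecidableEq ι] {A : Matrix ι ι F}
    (hA : A.det ≠ 0) {i j : ι} (hij : i ≠ j) {c ν : F}
    (h : A * transvection i j c = ν • (transvection i j c * A)) :
    transvection i j c * A = A * transvection i j c := by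
  have hinv : IsUnit A := (Matrix.isUnit_iff_isUnit_det A).2 (isUnit_iff_ne_zero.2 hA)
  set T := transvection i j c with hT
  have h9 : T * T - (2 : F) • T + 1 = 0 := by
    rw [hT, transvection_mul_transvection_same i j hij]
    ext a b
    simp only [transvection, Matrix.add_apply, Matrix.sub_apply, Matrix.smul_apply,
      Matrix.single_apply, Matrix.zero_apply, smul_eq_mul]
    split_ifs <;> ring
  have h8 : A * (T * T - (2 : F) • T + 1) =
      ((ν * ν) • (T * T) - (2 * ν) • T + 1) * A := by
    rw [Matrix.mul_add, Matrix.mul_sub, Matrix.mul_smul, ← Matrix.mul_assoc, h, Matrix.smul_mul,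
      Matrix.mul_assoc, h, Matrix.mul_smul, smul_smul, ← Matrix.mul_assoc, Matrix.add_mul,
      Matrix.sub_mul, Matrix.smul_mul, Matrix.smul_mul, smul_smul, mul_one, one_mul]
  rw [h9, mul_zero] at h8
  have h10 : (ν * ν) • (T * T) - (2 * ν) • T + 1 = 0 := hinv.mul_left_eq_zero.1 h8.symm
  have h11 : (ν - 1) ^ 2 = 0 := by
    have h12 := congrFun (congrFun h10 i) i
    rw [hT, transvection_mul_transvection_same i j hij] at h12
    simp [transvection, hij.symm] at h12
    linear_combination h12
  have h13 : ν = 1 := by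
    have := pow_eq_zero_iff (two_ne_zero) |>.1 h11
    linear_combination this
  rw [h, h13, one_smul]

/-- `s` scalar: any `β`. Otherwise `v` with `s v ∉ F v`, `w = v + s v`, `u` with `G⁻¹ u ∉ F u`,
`β u = v`, `β G⁻¹ u ∈ F w` (scale, and complete to a basis, to get `det β = b`): then
`s β u ∉ F β G⁻¹ u`. -/
theorem nsc1 {ι : Type*} [Fintype ι] [DecidableEq ι] (h2 : 2 ≤ Fintype.card ι)
    (s G : Matrix ι ι F) (hs : s.det ≠ 0) (hG : G.det ≠ 0)
    (hGn : ¬ ∃ μ : F, G = μ • (1 : Matrix ι ι F)) (b : F) (hb : b ≠ 0) :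
    ∃ β : Matrix ι ι F, β.det = b ∧ ¬ ∃ μ : F, β⁻¹ * s * β * G = μ • (1 : Matrix ι ι F) := by
  classical
  haveI : Nonempty ι := Fintype.card_pos_iff.1 (by omega)
  obtain ⟨i0⟩ : Nonempty ι := inferInstance
  by_contra hcon
  have hc : ∀ β : Matrix ι ι F, β.det = b → ∃ μ : F, β⁻¹ * s * β * G = μ • (1 : Matrix ι ι F) := by
    intro β hβ
    by_contra h
    exact hcon ⟨β, hβ, h⟩
  obtain ⟨β, hβ⟩ : ∃ β : Matrix ι ι F, β.det = b := by
    refine ⟨Matrix.diagonal (Function.update (fun _ => (1 : F)) i0 b), ?_⟩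
    rw [Matrix.det_diagonal, Finset.prod_update_of_mem (Finset.mem_univ i0)]
    simp
  have hβ0 : β.det ≠ 0 := by rw [hβ]; exact hb
  obtain ⟨A, hAd⟩ : ∃ A, A = β⁻¹ * s * β := ⟨_, rfl⟩
  have hA : A.det ≠ 0 := by
    rw [hAd, Matrix.det_mul, Matrix.det_mul, Matrix.det_nonsing_inv, Ring.inverse_eq_inv']
    exact mul_ne_zero (mul_ne_zero (inv_ne_zero hβ0) hs) hβ0
  obtain ⟨μ0, hμ0⟩ := hc β hβ
  rw [← hAd] at hμ0
  have hμ00 : μ0 ≠ 0 := by
    rintro rfl
    rw [zero_smul] at hμ0
    have := congrArg Matrix.det hμ0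
    rw [Matrix.det_mul, Matrix.det_zero] at this
    exact mul_ne_zero hA hG this
  have key : ∀ t : TransvectionStruct ι F, Commute t.toMatrix A := by
    rintro ⟨i, j, hij, c⟩
    show Commute (transvection i j c) A
    obtain ⟨μ, hμ⟩ := hc (β * transvection i j c) (by
      rw [Matrix.det_mul, det_transvection_of_ne i j hij c, mul_one, hβ])
    have hTd : (transvection i j c).det ≠ 0 := by
      rw [det_transvection_of_ne i j hij c]; exact one_ne_zero
    have e1 : (transvection i j c)⁻¹ * A * transvection i j c * G = μ • (1 : Matrix ι ι F) := by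
      rw [← hμ, hAd, Matrix.mul_inv_rev]
      simp only [Matrix.mul_assoc]
    have e2 : A * transvection i j c * G = μ • transvection i j c := by
      have := congrArg (fun Z => transvection i j c * Z) e1
      simp only [Matrix.mul_smul, mul_one] at this
      rw [← this]
      simp only [← Matrix.mul_assoc]
      rw [Matrix.mul_nonsing_inv _ (isUnit_iff_ne_zero.2 hTd), Matrix.one_mul]
    have e3 : A * transvection i j c = (μ / μ0) • (transvection i j c * A) := by
      have e4 : (A * transvection i j c) * G = ((μ / μ0) • (transvection i j c * A)) * G := by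
        rw [e2, Matrix.smul_mul, Matrix.mul_assoc, hμ0, Matrix.mul_smul, mul_one, smul_smul,
          div_mul_cancel₀ _ hμ00]
      have h4 := congrArg (fun W => W * G⁻¹) e4
      beta_reduce at h4
      rwa [Matrix.mul_nonsing_inv_cancel_right _ _ (isUnit_iff_ne_zero.2 hG),
        Matrix.mul_nonsing_inv_cancel_right _ _ (isUnit_iff_ne_zero.2 hG)] at h4
    exact nsc1_comm hA hij e3
  obtain ⟨a, ha⟩ := Matrix.mem_range_scalar_of_commute_transvectionStruct key
  rw [Matrix.scalar_apply, ← Matrix.smul_one_eq_diagonal] at ha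
  apply hGn
  refine ⟨a⁻¹ * μ0, ?_⟩
  rw [← ha, Matrix.smul_mul, one_mul] at hμ0
  have ha0 : a ≠ 0 := by
    rintro rfl
    rw [zero_smul] at ha
    apply hA
    rw [← ha, Matrix.det_zero]
  rw [mul_smul, ← hμ0, smul_smul, inv_mul_cancel₀ ha0, one_smul]

end Pool.Agent.CTG
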