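import Pool.Agent.CTG.Defs

/-! Number theory for the graph automorphisms with `σ² = 1` (CTG, module NT1; helper24). -/

set_option autoImplicit false

namespace Pool.Agent.CTG

open Matrix Pool.Agent.CTC

variable {F : Type*} [Field F]

/-- `c = b σ b`, `c ^ n = 1`, `σ c = c`; `b' = b c^((n-1)/2)` has `b'^n = b^n`, `b' σ(b') = 1`;
Hilbert 90: `b' = y / σ y` (`y = 1 + b'`, or `z - σ z`, or `1`); `D1 = D / y^n`. -/
theorem nt1 {n : ℕ} (ho : Odd n) (σ : F ≃+* F) (hσ : ∀ z, σ (σ z) = z) (b D : F) (hD : D ≠ 0)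
    (h : b ^ n * σ D = D) : ∃ y D1 : F, y ≠ 0 ∧ D1 ≠ 0 ∧ σ D1 = D1 ∧ D = y ^ n * D1 := by
  obtain ⟨m, hm⟩ := ho
  have h1 : σ b ^ n * D = σ D := by
    have := congrArg σ h
    rwa [map_mul, map_pow, hσ] at this
  have hc : (b * σ b) ^ n = 1 := by
    have : (b * σ b) ^ n * D = 1 * D := by
      rw [mul_pow, one_mul, mul_assoc, h1, h]
    exact mul_right_cancel₀ hD this
  have hσc : σ (b * σ b) = b * σ b := by rw [map_mul, hσ, mul_comm]
  obtain ⟨b', hb'⟩ : ∃ b' : F, b' = b * (b * σ b) ^ m := ⟨_, rfl⟩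
  have hb'n : b' ^ n = b ^ n := by
    rw [hb', mul_pow, ← pow_mul, mul_comm m, pow_mul, hc, one_pow, mul_one]
  have hb'1 : b' * σ b' = 1 := by
    have : b' * σ b' = (b * σ b) ^ n := by
      rw [hb', map_mul, map_pow, hσc, hm]
      ring
    rw [this, hc]
  -- Hilbert 90
  obtain ⟨y, hy0, hy⟩ : ∃ y : F, y ≠ 0 ∧ y = b' * σ y := by
    by_cases hm1 : b' = -1
    · by_cases hid : ∀ z, σ z = z
      · refine ⟨1, one_ne_zero, ?_⟩
        have h2 : b ^ n = 1 := by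
          rw [hid] at h
          exact mul_right_cancel₀ hD (by rw [h, one_mul])
        rw [← hb'n, hm1, Odd.neg_one_pow ⟨m, hm⟩] at h2
        rw [map_one, mul_one, hm1, h2]
      · push Not at hid
        obtain ⟨z, hz⟩ := hid
        refine ⟨z - σ z, sub_ne_zero.2 (Ne.symm hz), ?_⟩
        rw [map_sub, hσ, hm1]
        ring
    · refine ⟨1 + b', ?_, ?_⟩
      · intro h0
        exact hm1 (by linear_combination h0)
      · rw [map_add, map_one, mul_add, mul_one, hb'1, add_comm]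
  have hσy : σ y ≠ 0 := (map_ne_zero σ).2 hy0
  refine ⟨y, D / y ^ n, hy0, div_ne_zero hD (pow_ne_zero _ hy0), ?_, ?_⟩
  · rw [map_div₀, map_pow, div_eq_div_iff (pow_ne_zero _ hσy) (pow_ne_zero _ hy0)]
    calc σ D * y ^ n = σ D * (b' * σ y) ^ n := by rw [← hy]
      _ = (b' ^ n * σ D) * σ y ^ n := by rw [mul_pow]; ring
      _ = D * σ y ^ n := by rw [hb'n, h]
  · rw [mul_comm, div_mul_cancel₀ _ (pow_ne_zero _ hy0)]

theorem nm_one (τ : F ≃+* F) (h : ∀ z, τ z = z) (x : F) : Nm τ x = x := by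
  have h1 : τ = 1 := RingEquiv.ext h
  unfold Nm
  rw [h1, orderOf_one, Finset.prod_range_one, pow_zero]
  rfl

private lemma choose_avoid1 {α : Type*} [Finite α] (l : List α) (h : l.length < Nat.card α) :
    ∃ x : α, ∀ y ∈ l, x ≠ y := by
  classical
  have := Fintype.ofFinite α
  by_contra hcon
  push Not at hcon
  have h1 : (Finset.univ : Finset α) ⊆ l.toFinset := by
    intro x _
    obtain ⟨y, hy, hxy⟩ := hcon x
    rw [List.mem_toFinset, hxy]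
    exact hy
  have h2 := Finset.card_le_card h1
  rw [Finset.card_univ, ← Nat.card_eq_fintype_card] at h2
  have h3 := List.toFinset_card_le l
  omega

theorem ex1 [Finite F] (σ : F ≃+* F) (hq : 7 ≤ Nat.card {z : F // σ z = z}) (r : ℕ) :
    ∃ t1 c1 : F, t1 ≠ 0 ∧ c1 ≠ 0 ∧ σ t1 = t1 ∧ σ c1 = c1 ∧ t1 ≠ c1 ^ r ∧ t1 * t1 ≠ 1 ∧
      c1 * c1 ≠ 1 ∧ t1 * c1 ^ r ≠ 1 := by
  have hfix0 : σ (0 : F) = 0 := map_zero σ
  have hfix1 : σ (1 : F) = 1 := map_one σ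
  have hfixm : σ (-1 : F) = -1 := by rw [map_neg, map_one]
  obtain ⟨⟨c0, hc0⟩, hc⟩ := choose_avoid1 (α := {z : F // σ z = z})
    [⟨0, hfix0⟩, ⟨1, hfix1⟩, ⟨-1, hfixm⟩] (by simp; omega)
  simp only [List.mem_cons, List.not_mem_nil, or_false, forall_eq_or_imp, forall_eq, ne_eq,
    Subtype.mk.injEq] at hc
  obtain ⟨hc00, hc01, hc0m⟩ := hc
  have hcr : σ (c0 ^ r) = c0 ^ r := by rw [map_pow, hc0]
  have hcri : σ ((c0 ^ r)⁻¹) = (c0 ^ r)⁻¹ := by rw [map_inv₀, hcr]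
  obtain ⟨⟨t0, ht0⟩, ht⟩ := choose_avoid1 (α := {z : F // σ z = z})
    [⟨0, hfix0⟩, ⟨1, hfix1⟩, ⟨-1, hfixm⟩, ⟨c0 ^ r, hcr⟩, ⟨(c0 ^ r)⁻¹, hcri⟩] (by simp; omega)
  simp only [List.mem_cons, List.not_mem_nil, or_false, forall_eq_or_imp, forall_eq, ne_eq,
    Subtype.mk.injEq] at ht
  obtain ⟨ht00, ht01, ht0m, htc, htci⟩ := ht
  refine ⟨t0, c0, ht00, hc00, ht0, hc0, htc, ?_, ?_, ?_⟩
  · intro h
    rcases mul_self_eq_one_iff.1 h with h | h
    · exact ht01 h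
    · exact ht0m h
  · intro h
    rcases mul_self_eq_one_iff.1 h with h | h
    · exact hc01 h
    · exact hc0m h
  · intro h
    exact htci (eq_inv_of_mul_eq_one_left h)

end Pool.Agent.CTG
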