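import Pool.Agent.CTG.Defs

/-! The standard form is congruent to a multiple of its dual (CTG, A3). -/

set_option autoImplicit false

namespace Pool.Agent.CTG

open Matrix Pool.Agent.CTC

variable {F : Type*} [Field F]

private theorem re_sm {ι : Type*} [DecidableEq ι] (Θ : Matrix ι ι F) (ν : F) :
    Sm Θ ν = Matrix.fromBlocks (Matrix.fromBlocks 0 Θ 1 0) 0 0 (ν • (1 : Matrix Unit Unit F)) := by
  unfold Sm Qm
  congr 1
  · ext i j
    rcases i with i | i <;> rfl
  · ext i j
    rcases j with j | j <;> rfl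
  · ext i j
    simp

private theorem re_aux {ι : Type*} [Fintype ι] [DecidableEq ι] (σ : F ≃+* F)
    (hσ : ∀ z, σ (σ z) = z) (s ν : F) (hs : s * σ s = 1) (hν : s * σ ν = ν)
    (Θ W W' : Matrix ι ι F) (hW : W * W' = 1)
    (hΘ : Θ * W = (s * s) • (W * (Θ.map σ)ᵀ)) :
    Cg σ (Sm Θ ν) (s • ((Sm Θ ν).map σ)ᵀ) := by
  have hW' : W' * W = 1 := mul_eq_one_comm.1 hW
  have hs0 : s ≠ 0 := left_ne_zero_of_mul_eq_one hs
  have hsi : s⁻¹ * s = 1 := inv_mul_cancel₀ hs0
  have hσs : σ s⁻¹ = s := by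
    rw [map_inv₀]
    exact inv_eq_of_mul_eq_one_left hs
  have hmm : ∀ A B : Matrix ι ι F, (A * B).map σ = A.map σ * B.map σ := fun A B =>
    Matrix.map_mul (f := (σ : F →+* F))
  have hm1 : ((1 : Matrix ι ι F)).map σ = 1 := Matrix.map_one _ (map_zero σ) (map_one σ)
  have hm0 : ((0 : Matrix ι ι F)).map σ = 0 := Matrix.map_zero _ (map_zero σ)
  have hσσ : ∀ A : Matrix ι ι F, (((A.map σ)ᵀ).map σ)ᵀ = A := by
    intro A
    ext i j
    simp [hσ]
  have hsm : ∀ (c : F) (A : Matrix ι ι F), (c • A).map σ = σ c • A.map σ := by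
    intro c A
    ext i j
    simp
  have h1 : (W.map σ)ᵀ * (W'.map σ)ᵀ = 1 := by
    rw [← Matrix.transpose_mul, ← hmm, hW', hm1, Matrix.transpose_one]
  refine ⟨Matrix.fromBlocks (Matrix.fromBlocks 0 (W.map σ)ᵀ (s⁻¹ • W') 0) 0 0 1, ?_, ?_⟩
  · have h2 : Matrix.fromBlocks (Matrix.fromBlocks 0 (W.map σ)ᵀ (s⁻¹ • W') 0) 0 0
        (1 : Matrix Unit Unit F) *
        Matrix.fromBlocks (Matrix.fromBlocks 0 (s • W) (W'.map σ)ᵀ 0) 0 0 1 = 1 := by
      rw [Matrix.fromBlocks_multiply, Matrix.fromBlocks_multiply]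
      simp only [Matrix.zero_mul, Matrix.mul_zero, add_zero, zero_add, Matrix.smul_mul,
        Matrix.mul_smul, h1, hW', smul_smul, mul_inv_cancel₀ hs0, one_smul, Matrix.mul_one,
        smul_zero, Matrix.fromBlocks_one]
    have h3 := congrArg Matrix.det h2
    rw [Matrix.det_mul, Matrix.det_one] at h3
    exact left_ne_zero_of_mul_eq_one h3
  · have h4 : (s⁻¹ • W') * Θ * W = s • (Θ.map σ)ᵀ := by
      rw [Matrix.mul_assoc, hΘ, Matrix.smul_mul, Matrix.mul_smul, ← Matrix.mul_assoc, hW',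
        Matrix.one_mul, smul_smul, ← mul_assoc, hsi, one_mul]
    have h5 : (W.map σ)ᵀ * (s • (W'.map σ)ᵀ) = s • (1 : Matrix ι ι F) := by
      rw [Matrix.mul_smul, h1]
    have h6 : (ν • (1 : Matrix Unit Unit F)).map σ = σ ν • 1 := by
      ext i j
      simp
    rw [re_sm]
    simp only [Matrix.fromBlocks_map, Matrix.fromBlocks_transpose, Matrix.fromBlocks_smul,
      Matrix.fromBlocks_multiply, hσσ, hsm, hσs, Matrix.transpose_smul, h6,
      Matrix.map_zero _ (map_zero σ), Matrix.map_one _ (map_zero σ) (map_one σ),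
      Matrix.transpose_zero, Matrix.transpose_one, Matrix.zero_mul, Matrix.mul_zero, add_zero,
      zero_add, Matrix.mul_one, Matrix.one_mul, smul_zero, h4, h5, smul_smul, hν]

/-- the antidiagonal matrix with entries `s ^ (2 j)` -/
private def W1 (r : ℕ) (s : F) : Matrix (Fin r) (Fin r) F := fun i j =>
  if (i : ℕ) + j + 1 = r then s ^ (2 * (j : ℕ)) else 0

private def W2 (r : ℕ) (s : F) : Matrix (Fin r) (Fin r) F := fun i j =>
  if (i : ℕ) + j + 1 = r then (s ^ (2 * (i : ℕ)))⁻¹ else 0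

private theorem w12 (r : ℕ) (s : F) (hs : s ≠ 0) : W1 r s * W2 r s = 1 := by
  ext i j
  have hi := i.2
  have hj := j.2
  rw [Matrix.mul_apply, Finset.sum_eq_single (⟨r - 1 - i, by omega⟩ : Fin r)]
  · unfold W1 W2
    simp only
    rw [if_pos (by omega), Matrix.one_apply]
    by_cases h : i = j
    · subst h
      rw [if_pos (by omega), if_pos rfl, mul_inv_cancel₀ (pow_ne_zero _ hs)]
    · rw [if_neg h, if_neg, mul_zero]
      intro h2
      apply h
      apply Fin.ext
      omega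
  · intro l _ hl
    have : W1 r s i l = 0 := by
      unfold W1
      rw [if_neg]
      intro h2
      apply hl
      apply Fin.ext
      simp only
      omega
    rw [this, zero_mul]
  · intro h
    exact absurd (Finset.mem_univ _) h

private theorem cw (r : ℕ) (s t1 : F) (hs : s ≠ 0) :
    Cn r (s ^ r * t1) * W1 r s = (s * s) • (W1 r s * (Cn r ((s⁻¹) ^ r * t1))ᵀ) := by
  ext i j
  have hi := i.2
  have hj := j.2
  rw [Matrix.smul_apply, Matrix.mul_apply, Matrix.mul_apply, smul_eq_mul]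
  -- left side: only `l = r - 1 - j`
  rw [Finset.sum_eq_single (⟨r - 1 - j, by omega⟩ : Fin r)]
  · -- right side: only `l = r - 1 - i`
    rw [Finset.sum_eq_single (⟨r - 1 - i, by omega⟩ : Fin r)]
    · rw [Matrix.transpose_apply]
      unfold W1 Cn
      simp only
      rw [if_pos (show r - 1 - (j : ℕ) + j + 1 = r by omega),
        if_pos (show (i : ℕ) + (r - 1 - i) + 1 = r by omega)]
      by_cases hj0 : (j : ℕ) = 0
      · by_cases hi0 : (i : ℕ) = 0
        · rw [if_neg (by omega), if_pos ⟨by omega, hi0⟩, if_neg (by omega),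
            if_pos ⟨by omega, hj0⟩, hj0, hi0]
          have h1 : r - 1 - 0 = r - 1 := by omega
          rw [h1]
          obtain ⟨q, rfl⟩ : ∃ q, r = q + 1 := ⟨r - 1, by omega⟩
          simp only [Nat.add_sub_cancel, Nat.mul_zero, pow_zero, mul_one]
          rw [inv_pow]
          field_simp
          ring
        · rw [if_neg (by omega), if_neg (by omega), if_neg (by omega), if_neg (by omega)]
          ring
      · by_cases hij : (i : ℕ) + j = r
        · rw [if_pos (by omega), if_pos (by omega)]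
          obtain ⟨q, hq⟩ : ∃ q, (j : ℕ) = q + 1 := ⟨(j : ℕ) - 1, by omega⟩
          rw [show r - 1 - (i : ℕ) = q by omega, hq]
          ring
        · rw [if_neg (by omega), if_neg (by omega), if_neg (by omega), if_neg (by omega)]
          ring
    · intro l _ hl
      have : W1 r s i l = 0 := by
        unfold W1
        rw [if_neg]
        intro h2
        apply hl
        apply Fin.ext
        simp only
        omega
      rw [this, zero_mul]
    · intro h
      exact absurd (Finset.mem_univ _) h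
  · intro l _ hl
    have : W1 r s l j = 0 := by
      unfold W1
      rw [if_neg]
      intro h2
      apply hl
      apply Fin.ext
      simp only
      omega
    rw [this, mul_zero]
  · intro h
    exact absurd (Finset.mem_univ _) h

private theorem bl_eq {ι : Type*} (X : Matrix ι ι F) (c : F) :
    Bl X c = Matrix.fromBlocks X 0 0 (c • (1 : Matrix Unit Unit F)) := by
  unfold Bl
  congr 1
  ext i j
  simp

private theorem bl_mul {ι : Type*} [Fintype ι] (X Y : Matrix ι ι F) (c d : F) :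
    Bl X c * Bl Y d = Bl (X * Y) (c * d) := by
  rw [bl_eq, bl_eq, bl_eq, Matrix.fromBlocks_multiply]
  simp only [Matrix.mul_zero, Matrix.zero_mul, add_zero, zero_add, Matrix.smul_mul,
    Matrix.mul_smul, Matrix.one_mul, smul_smul, smul_zero, mul_comm d c]

private theorem bl_smul {ι : Type*} (X : Matrix ι ι F) (c d : F) :
    d • Bl X c = Bl (d • X) (d * c) := by
  rw [bl_eq, bl_eq, Matrix.fromBlocks_smul, smul_zero, smul_zero, smul_smul]

private theorem bl_map {ι : Type*} (σ : F ≃+* F) (X : Matrix ι ι F) (c : F) :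
    ((Bl X c).map σ)ᵀ = Bl ((X.map σ)ᵀ) (σ c) := by
  rw [bl_eq, bl_eq, Matrix.fromBlocks_map, Matrix.fromBlocks_transpose]
  congr 1
  · ext i j; simp
  · ext i j; simp
  · ext i j; simp

/-- `s = y / σ y`, `s σ(s) = 1`, `Θ = Cn r (s^r t1) ⊕ s c1`. `W1 i j = s^(2 j)` if `i + j + 1 = r`,
else `0`: `Cn r (s^r t1) * W1 = W1 * (s² (Cn r (s^{-r} t1))^T)`; `W = W1 ⊕ 1`,
`Θ W = W (s² σ(Θ)^T)`; `u = σ(W)^T`, `v = s⁻¹ W⁻¹`, `g = [[0, u], [v, 0]] ⊕ 1`. -/
theorem real1 (σ : F ≃+* F) (hσ : ∀ z, σ (σ z) = z) (r : ℕ) (y t1 c1 ν1 : F) (hy : y ≠ 0)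
    (ht : t1 ≠ 0) (hc : c1 ≠ 0) (hν : ν1 ≠ 0) (ht1 : σ t1 = t1) (hc1 : σ c1 = c1)
    (hν1 : σ ν1 = ν1) :
    Cg σ (Sm (Bl (Cn r ((y / σ y) ^ r * t1)) (y / σ y * c1)) (y * ν1))
      ((y / σ y) • ((Sm (Bl (Cn r ((y / σ y) ^ r * t1)) (y / σ y * c1)) (y * ν1)).map σ)ᵀ) := by
  have hσy : σ y ≠ 0 := (map_ne_zero σ).2 hy
  set s := y / σ y with hs
  have hs0 : s ≠ 0 := div_ne_zero hy hσy
  have hss : s * σ s = 1 := by
    rw [hs, map_div₀, hσ]
    field_simp
  have hσs : σ s = s⁻¹ := eq_inv_of_mul_eq_one_right hss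
  refine re_aux σ hσ s (y * ν1) hss ?_ _ (Bl (W1 r s) 1) (Bl (W2 r s) 1) ?_ ?_
  · rw [map_mul, hν1, hs]
    field_simp
  · rw [bl_mul, w12 r s hs0, mul_one, bl_eq, one_smul, Matrix.fromBlocks_one]
  · have h1 : ((Cn r (s ^ r * t1)).map σ)ᵀ = (Cn r ((s⁻¹) ^ r * t1))ᵀ := by
      congr 1
      ext i j
      rw [Matrix.map_apply]
      unfold Cn
      split_ifs <;> simp [hσs, ht1]
    rw [bl_map, h1, bl_mul, bl_mul, cw r s t1 hs0, bl_smul, map_mul, hσs, hc1]
    congr 1
    field_simp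

end Pool.Agent.CTG
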