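import Pool.Agent.CTG.Asm
import Pool.Agent.CTG.Ex
import Pool.Agent.CTG.Dec
import Pool.Agent.CTG.Nsc
import Pool.Agent.CTG.Dec1
import Pool.Agent.CTG.Nsc1
import Pool.Agent.CTG.Real1
import Pool.Agent.CTG.Nt1
import Pool.Agent.CTG.GPack1

/-! The final assembly (helper47). -/

set_option autoImplicit false

namespace Pool.Agent.CTG

open Matrix Pool.Agent.CTC

variable {F : Type*} [Field F]

/-- the property for a form `S` -/
def Good {κ : Type*} [Fintype κ] [DecidableEq κ] (σ : F ≃+* F) (S : Matrix κ κ F) : Prop :=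
  ∀ B : Matrix κ κ F, B.det * σ S.det = S.det →
    ∃ (P Q : Matrix κ κ F) (μ : F), μ ≠ 0 ∧ CgS σ S P ∧ CgS σ S Q ∧ μ • P = B * (Q.map σ)ᵀ

theorem sm_det' {ι : Type*} [Fintype ι] [DecidableEq ι] (Θ : Matrix ι ι F) (ν D : F) (hν : ν ≠ 0)
    (h : Θ.det * ν = (Matrix.fromBlocks 0 1 1 0 : Matrix (ι ⊕ ι) (ι ⊕ ι) F).det * D) :
    (Sm Θ ν).det = D := by
  unfold Sm
  rw [qm_det _ _ _ _ _ _ hν, Matrix.det_one, mul_one, h, ← mul_assoc, sw_det, one_mul]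

/-- `σ² ≠ 1` -/
theorem gK [Finite F] (σ : F ≃+* F) (hτ : ∃ z, σ (σ z) ≠ z)
    (hq : 7 ≤ Nat.card {z : F // σ z = z}) (r : ℕ) (D : F) (hD : D ≠ 0) :
    ∃ S : Matrix (((Fin r ⊕ Unit) ⊕ (Fin r ⊕ Unit)) ⊕ Unit)
        (((Fin r ⊕ Unit) ⊕ (Fin r ⊕ Unit)) ⊕ Unit) F, S.det = D ∧ Good σ S := by
  have hsg2 := sw_det (F := F) (Fin r ⊕ Unit)
  have hsg0 : (Matrix.fromBlocks 0 1 1 0 :
      Matrix ((Fin r ⊕ Unit) ⊕ (Fin r ⊕ Unit)) ((Fin r ⊕ Unit) ⊕ (Fin r ⊕ Unit)) F).det ≠ 0 := by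
    intro h; rw [h, zero_mul] at hsg2; exact zero_ne_one hsg2
  obtain ⟨t, c, ν, ht, hc, hν, hdet, n1, n2, n3, n4, n5, n6⟩ :=
    ex_par σ hq r ((Matrix.fromBlocks 0 1 1 0 :
      Matrix ((Fin r ⊕ Unit) ⊕ (Fin r ⊕ Unit)) ((Fin r ⊕ Unit) ⊕ (Fin r ⊕ Unit)) F).det * D)
      (mul_ne_zero hsg0 hD)
  have hSdet := sm_det' (Bl (Cn r t) c) ν D hν hdet
  have hΘ : (Bl (Cn r t) c).det ≠ 0 := by
    intro h
    rw [h, zero_mul] at hdet
    exact mul_ne_zero hsg0 hD hdet.symm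
  obtain ⟨T0, hT0⟩ : ∃ T0, σ T0 = (Bl (Cn r t) c).det :=
    ⟨σ.symm (Bl (Cn r t) c).det, σ.apply_symm_apply _⟩
  have u0 : T0 ≠ 0 := by intro h; rw [h, map_zero] at hT0; exact hΘ hT0.symm
  have u1 : σ T0 ≠ 0 := by simpa using u0
  have u2 : σ (σ T0) ≠ 0 := by simpa using u0
  refine ⟨Sm (Bl (Cn r t) c) ν, hSdet, fun B hB => ?_⟩
  rw [hSdet] at hB
  have hB0 : B.det ≠ 0 := by
    intro h; rw [h, zero_mul] at hB; exact hD hB.symm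
  have hh30 : σ T0 * σ (σ T0) / T0 ≠ 0 := div_ne_zero (mul_ne_zero u1 u2) u0
  obtain ⟨g, L11, L31, L33, U11, U13, U33, E1, E3, l21, l32, u12, u23, hg, hBg, hU1, hU3, hb1,
    hs3⟩ := dec σ hτ (by omega) (m := r + 1) (by omega) (ι := Fin r ⊕ Unit) (by simp) (σ T0)
      (B.det / (σ T0 * (σ T0 * σ (σ T0) / T0))) (σ T0 * σ (σ T0) / T0)
      u1 (div_ne_zero hB0 (mul_ne_zero u1 hh30)) hh30 B (by field_simp)
  have hTs : ∀ {x : Matrix (Fin r ⊕ Unit) (Fin r ⊕ Unit) F}, x.det ≠ 0 → (Ts σ x).det ≠ 0 := by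
    intro x hx; rw [Ts_det]; simpa using hx
  have hb10 : (L11 * E1 * U11).det ≠ 0 := by rw [hb1]; exact u1
  have hs30 : (L33 * E3 * U33).det ≠ 0 := by rw [hs3]; exact hh30
  obtain ⟨β, hβ, hβns⟩ : ∃ β : Matrix (Fin r ⊕ Unit) (Fin r ⊕ Unit) F, β.det = σ T0 / T0 ∧
      (2 ≤ Fintype.card (Fin r ⊕ Unit) → ¬ ∃ μ : F, β⁻¹ * (L33 * E3 * U33) *
        β.map (σ.trans σ) * Ts σ (Ts σ ((Ts σ (L11 * E1 * U11))⁻¹)) =
          μ • (1 : Matrix (Fin r ⊕ Unit) (Fin r ⊕ Unit) F)) := by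
    by_cases h2 : 2 ≤ Fintype.card (Fin r ⊕ Unit)
    · obtain ⟨β, h4, h5⟩ := nsc h2 (σ.trans σ) hτ (L33 * E3 * U33)
        (Ts σ (Ts σ ((Ts σ (L11 * E1 * U11))⁻¹))) hs30 (hTs (hTs (inv_det_ne (hTs hb10))))
        (σ T0 / T0) (div_ne_zero u1 u0)
      exact ⟨β, h4, fun _ => h5⟩
    · refine ⟨Bl 1 (σ T0 / T0), by rw [bl_det, Matrix.det_one, one_mul], fun h => absurd h h2⟩
  obtain ⟨P, Q, hP, hQ, hPQ⟩ := gcore σ r D hD t c ν ht hc hν _ rfl hdet n1 n2 n3 n4 n5 n6 B hB T0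
    hT0 g L11 L31 L33 U11 U13 U33 E1 E3 l21 l32 u12 u23 hg hBg hU1 hU3 hb1 hs3 β hβ hβns
  exact ⟨P, Q, 1, one_ne_zero, hP, hQ, by rw [one_smul]; exact hPQ⟩

/-- `σ² = 1`, `B` not scalar -/
theorem gK1ns [Finite F] (σ : F ≃+* F) (hσ : ∀ z, σ (σ z) = z) (r : ℕ) (D : F) (hD : D ≠ 0)
    (t c ν : F) (ht : t ≠ 0) (hc : c ≠ 0) (hν : ν ≠ 0)
    (hdet : (Bl (Cn r t) c).det * ν = (Matrix.fromBlocks 0 1 1 0 :
      Matrix ((Fin r ⊕ Unit) ⊕ (Fin r ⊕ Unit)) ((Fin r ⊕ Unit) ⊕ (Fin r ⊕ Unit)) F).det * D)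
    (n1 : t ≠ c ^ r) (n2 : t * σ t ≠ 1) (n3 : c * σ c ≠ 1) (n4 : t * σ c ^ r ≠ 1)
    (n5 : t ≠ (ν / σ ν) ^ r) (n6 : c ≠ ν / σ ν) (x1 : F) (hx1 : x1 ≠ 0) (hx1' : x1 * x1 ≠ 1)
    (B : Matrix (((Fin r ⊕ Unit) ⊕ (Fin r ⊕ Unit)) ⊕ Unit)
        (((Fin r ⊕ Unit) ⊕ (Fin r ⊕ Unit)) ⊕ Unit) F) (hB : B.det * σ D = D)
    (hns : ¬ ∃ b : F, B = b • (1 : Matrix (((Fin r ⊕ Unit) ⊕ (Fin r ⊕ Unit)) ⊕ Unit)
        (((Fin r ⊕ Unit) ⊕ (Fin r ⊕ Unit)) ⊕ Unit) F)) :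
    ∃ P Q, CgS σ (Sm (Bl (Cn r t) c) ν) P ∧ CgS σ (Sm (Bl (Cn r t) c) ν) Q ∧
      P = B * (Q.map σ)ᵀ := by
  have hsg2 := sw_det (F := F) (Fin r ⊕ Unit)
  have hsg0 : (Matrix.fromBlocks 0 1 1 0 :
      Matrix ((Fin r ⊕ Unit) ⊕ (Fin r ⊕ Unit)) ((Fin r ⊕ Unit) ⊕ (Fin r ⊕ Unit)) F).det ≠ 0 := by
    intro h; rw [h, zero_mul] at hsg2; exact zero_ne_one hsg2
  have hNm : ∀ x, Nm (σ.trans σ) x = x := nm_one (σ.trans σ) hσ
  have hmap : ∀ {κ : Type} (M : Matrix κ κ F), M.map (σ.trans σ) = M := by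
    intro κ M; ext i j; exact hσ _
  have hΘ : (Bl (Cn r t) c).det ≠ 0 := by
    intro h
    rw [h, zero_mul] at hdet
    exact mul_ne_zero hsg0 hD hdet.symm
  obtain ⟨T0, hT0⟩ : ∃ T0, σ T0 = (Bl (Cn r t) c).det :=
    ⟨σ.symm (Bl (Cn r t) c).det, σ.apply_symm_apply _⟩
  have u0 : T0 ≠ 0 := by intro h; rw [h, map_zero] at hT0; exact hΘ hT0.symm
  have u1 : σ T0 ≠ 0 := by simpa using u0
  have u2 : σ (σ T0) ≠ 0 := by simpa using u0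
  have hB0 : B.det ≠ 0 := by
    intro h; rw [h, zero_mul] at hB; exact hD hB.symm
  have hh30 : σ T0 * σ (σ T0) / T0 ≠ 0 := div_ne_zero (mul_ne_zero u1 u2) u0
  obtain ⟨x, hx, hxx⟩ : ∃ x : F, x ≠ 0 ∧ x * x ≠ σ T0 := by
    by_cases h : (1 : F) = σ T0
    · exact ⟨x1, hx1, by rw [← h]; exact hx1'⟩
    · exact ⟨1, one_ne_zero, by rw [one_mul]; exact h⟩
  obtain ⟨g, L11, L31, L33, U11, U13, U33, E1, E3, l21, l32, u12, u23, hg, hBg, hU1, hU3, hb1,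
    hs3, hb1ns⟩ := dec1 (m := r + 1) (by omega) (ι := Fin r ⊕ Unit) (by simp) (σ T0)
      (B.det / (σ T0 * (σ T0 * σ (σ T0) / T0))) (σ T0 * σ (σ T0) / T0) x
      u1 (div_ne_zero hB0 (mul_ne_zero u1 hh30)) hh30 hx hxx B (by field_simp) hns
  have hTs : ∀ {x : Matrix (Fin r ⊕ Unit) (Fin r ⊕ Unit) F}, x.det ≠ 0 → (Ts σ x).det ≠ 0 := by
    intro x hx; rw [Ts_det]; simpa using hx
  have hb10 : (L11 * E1 * U11).det ≠ 0 := by rw [hb1]; exact u1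
  have hs30 : (L33 * E3 * U33).det ≠ 0 := by rw [hs3]; exact hh30
  have hTT : ∀ M : Matrix (Fin r ⊕ Unit) (Fin r ⊕ Unit) F, Ts σ (Ts σ M) = M := hmap
  obtain ⟨β, hβ, hβns⟩ : ∃ β : Matrix (Fin r ⊕ Unit) (Fin r ⊕ Unit) F, β.det = σ T0 / T0 ∧
      (2 ≤ Fintype.card (Fin r ⊕ Unit) → ¬ ∃ μ : F, β⁻¹ * (L33 * E3 * U33) *
        β.map (σ.trans σ) * Ts σ (Ts σ ((Ts σ (L11 * E1 * U11))⁻¹)) =
          μ • (1 : Matrix (Fin r ⊕ Unit) (Fin r ⊕ Unit) F)) := by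
    by_cases h2 : 2 ≤ Fintype.card (Fin r ⊕ Unit)
    · have hN : ¬ ∃ μ : F, (Ts σ (L11 * E1 * U11))⁻¹ =
          μ • (1 : Matrix (Fin r ⊕ Unit) (Fin r ⊕ Unit) F) := by
        rintro ⟨μ, hμ⟩
        have hμ0 : μ ≠ 0 := by
          rintro rfl
          rw [zero_smul] at hμ
          have h4 := inv_det_ne (hTs hb10)
          rw [hμ, Matrix.det_zero] at h4
          exact h4 rfl
        apply hb1ns (by simpa using h2)
        refine ⟨σ μ⁻¹, ?_⟩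
        have h4 := minv (hTs hb10)
        rw [hμ, Matrix.mul_smul, mul_one] at h4
        have h5 : Ts σ (L11 * E1 * U11) = μ⁻¹ • (1 : Matrix (Fin r ⊕ Unit) (Fin r ⊕ Unit) F) := by
          rw [← h4, smul_smul, inv_mul_cancel₀ hμ0, one_smul]
        rw [← hTT (L11 * E1 * U11), h5]
        ext i j
        simp only [Ts, Matrix.transpose_apply, Matrix.map_apply, Matrix.smul_apply,
          Matrix.one_apply, smul_eq_mul, map_mul, eq_comm]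
        split_ifs <;> simp
      obtain ⟨β, h4, h5⟩ := nsc1 h2 (L33 * E3 * U33)
        ((Ts σ (L11 * E1 * U11))⁻¹) hs30 (inv_det_ne (hTs hb10)) hN
        (σ T0 / T0) (div_ne_zero u1 u0)
      refine ⟨β, h4, fun _ => ?_⟩
      rw [hTT, hmap]
      exact h5
    · refine ⟨Bl 1 (σ T0 / T0), by rw [bl_det, Matrix.det_one, one_mul], fun h => absurd h h2⟩
  exact gcore σ r D hD t c ν ht hc hν _ rfl hdet (by rw [hNm, hNm]; exact n1)
    (by rw [hNm]; exact n2) (by rw [hNm]; exact n3) (by rw [hNm, hNm]; exact n4)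
    (by rw [hNm, hNm]; exact n5) (by rw [hNm, hNm]; exact n6) B hB T0
    hT0 g L11 L31 L33 U11 U13 U33 E1 E3 l21 l32 u12 u23 hg (by rw [hmap]; exact hBg) hU1 hU3 hb1
    hs3 β hβ hβns

theorem cn_det_smul (r : ℕ) (s t : F) : (Cn r (s ^ r * t)).det = s ^ r * (Cn r t).det := by
  rw [cn_det, cn_det]
  split_ifs with h
  · subst h; simp
  · ring

/-- `σ² = 1` -/
theorem gK1 [Finite F] (σ : F ≃+* F) (hσ : ∀ z, σ (σ z) = z)
    (hq : 7 ≤ Nat.card {z : F // σ z = z}) (r : ℕ) (D : F) (hD : D ≠ 0) :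
    ∃ S : Matrix (((Fin r ⊕ Unit) ⊕ (Fin r ⊕ Unit)) ⊕ Unit)
        (((Fin r ⊕ Unit) ⊕ (Fin r ⊕ Unit)) ⊕ Unit) F, S.det = D ∧ Good σ S := by
  set sg := (Matrix.fromBlocks 0 1 1 0 :
      Matrix ((Fin r ⊕ Unit) ⊕ (Fin r ⊕ Unit)) ((Fin r ⊕ Unit) ⊕ (Fin r ⊕ Unit)) F).det with hsg
  have hsg2 : sg * sg = 1 := sw_det (F := F) (Fin r ⊕ Unit)
  have hsg0 : sg ≠ 0 := by
    intro h; rw [h, zero_mul] at hsg2; exact zero_ne_one hsg2
  have hσsg : σ sg = sg := sg_fix σ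
  have hNm : ∀ x, Nm (σ.trans σ) x = x := nm_one (σ.trans σ) hσ
  obtain ⟨t1, c1, ht1, hc1, hσt, hσc, k1, k2, k3, k4⟩ := ex1 σ hq r
  have hcard : Fintype.card (((Fin r ⊕ Unit) ⊕ (Fin r ⊕ Unit)) ⊕ Unit) = 2 * (r + 1) + 1 := by
    simp; omega
  by_cases hsc : ∃ y D1 : F, y ≠ 0 ∧ D1 ≠ 0 ∧ σ D1 = D1 ∧ D = y ^ (2 * (r + 1) + 1) * D1
  · obtain ⟨y, D1, hy, hD1, hσD1, rfl⟩ := hsc
    have hσy : σ y ≠ 0 := by simpa using hy
    have hCn1 : (Cn r t1).det ≠ 0 := by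
      rw [cn_det]
      split_ifs
      · exact one_ne_zero
      · exact mul_ne_zero (pow_ne_zero _ (neg_ne_zero.2 one_ne_zero)) ht1
    have hσCn1 : σ (Cn r t1).det = (Cn r t1).det := by
      rw [cn_det]
      split_ifs
      · exact map_one σ
      · rw [map_mul, map_pow, map_neg, map_one, hσt]
    obtain ⟨ν1, hν1d⟩ : ∃ ν1 : F, ν1 = sg * (y * σ y) ^ (r + 1) * D1 / ((Cn r t1).det * c1) :=
      ⟨_, rfl⟩
    have hν1 : ν1 ≠ 0 := by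
      rw [hν1d]
      exact div_ne_zero (mul_ne_zero (mul_ne_zero hsg0 (pow_ne_zero _ (mul_ne_zero hy hσy))) hD1)
        (mul_ne_zero hCn1 hc1)
    have hσν1 : σ ν1 = ν1 := by
      rw [hν1d, map_div₀, map_mul, map_mul, map_pow, map_mul, map_mul, hσ, hσsg, hσD1, hσCn1, hσc,
        mul_comm (σ y) y]
    obtain ⟨s, hs⟩ : ∃ s : F, s = y / σ y := ⟨_, rfl⟩
    have hs0 : s ≠ 0 := by rw [hs]; exact div_ne_zero hy hσy
    have hσs : σ s * s = 1 := by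
      rw [hs, map_div₀, hσ]; field_simp
    have hσs' : σ s = s⁻¹ := eq_inv_of_mul_eq_one_left hσs
    have hνs : y * ν1 / σ (y * ν1) = s := by
      rw [map_mul, hσν1, hs]; field_simp
    have hν : y * ν1 ≠ 0 := mul_ne_zero hy hν1
    have ht : s ^ r * t1 ≠ 0 := mul_ne_zero (pow_ne_zero _ hs0) ht1
    have hc : s * c1 ≠ 0 := mul_ne_zero hs0 hc1
    have hdet : (Bl (Cn r (s ^ r * t1)) (s * c1)).det * (y * ν1) =
        sg * (y ^ (2 * (r + 1) + 1) * D1) := by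
      rw [bl_det, cn_det_smul, hν1d, hs, div_pow]
      field_simp
      ring
    have hR := real1 σ hσ r y t1 c1 ν1 hy ht1 hc1 hν1 hσt hσc hσν1
    rw [← hs] at hR
    have hSdet := sm_det' (Bl (Cn r (s ^ r * t1)) (s * c1)) (y * ν1) _ hν hdet
    refine ⟨Sm (Bl (Cn r (s ^ r * t1)) (s * c1)) (y * ν1), hSdet, fun B hB => ?_⟩
    rw [hSdet] at hB
    by_cases hBs : ∃ b : F, B = b • (1 : Matrix (((Fin r ⊕ Unit) ⊕ (Fin r ⊕ Unit)) ⊕ Unit)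
        (((Fin r ⊕ Unit) ⊕ (Fin r ⊕ Unit)) ⊕ Unit) F)
    · obtain ⟨b, rfl⟩ := hBs
      have hb : b ≠ 0 := by
        rintro rfl
        rw [zero_smul, Matrix.det_zero, zero_mul] at hB
        exact hD hB.symm
      have hR' : CgS σ (Sm (Bl (Cn r (s ^ r * t1)) (s * c1)) (y * ν1))
          (s • ((Sm (Bl (Cn r (s ^ r * t1)) (s * c1)) (y * ν1)).map σ)ᵀ) := by
        refine sl_adj σ _ _ (by rw [hSdet]; exact hD) _ hR ?_
        rw [Matrix.det_smul, Matrix.det_transpose, CTC.det_map', hSdet, hcard, map_mul, map_pow,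
          hσD1, hs, ← mul_assoc, ← mul_pow, div_mul_cancel₀ _ hσy]
      refine ⟨_, Sm (Bl (Cn r (s ^ r * t1)) (s * c1)) (y * ν1), b / s, div_ne_zero hb hs0, hR',
        ⟨1, Matrix.det_one, ?_⟩, ?_⟩
      · rw [Matrix.map_one _ (map_zero σ) (map_one σ), Matrix.transpose_one, one_mul, mul_one]
      · rw [smul_smul, div_mul_cancel₀ _ hs0, Matrix.smul_mul, one_mul]
    · obtain ⟨P, Q, hP, hQ, hPQ⟩ := gK1ns σ hσ r _ hD (s ^ r * t1) (s * c1) (y * ν1) ht hc hν hdet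
        (by
          rw [mul_pow]
          intro h
          exact k1 (mul_left_cancel₀ (pow_ne_zero _ hs0) h))
        (by
          rw [map_mul, map_pow, hσt, hσs', inv_pow]
          intro h
          apply k2
          rw [← h]
          field_simp)
        (by
          rw [map_mul, hσc, hσs']
          intro h
          apply k3
          rw [← h]
          field_simp)
        (by
          rw [map_mul, hσc, hσs', mul_pow, inv_pow]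
          intro h
          apply k4
          rw [← h]
          field_simp)
        (by
          rw [hνs]
          intro h
          have h1 : s ^ r * t1 = s ^ r * 1 := by rw [h, mul_one]
          have h2 := mul_left_cancel₀ (pow_ne_zero _ hs0) h1
          apply k2
          rw [h2, one_mul])
        (by
          rw [hνs]
          intro h
          have h1 : s * c1 = s * 1 := by rw [h, mul_one]
          have h2 := mul_left_cancel₀ hs0 h1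
          apply k3
          rw [h2, one_mul])
        c1 hc1 k3 B hB hBs
      exact ⟨P, Q, 1, one_ne_zero, hP, hQ, by rw [one_smul]; exact hPQ⟩
  · obtain ⟨t, c, ν, ht, hc, hν, hdet, n1, n2, n3, n4, n5, n6⟩ :=
      ex_par σ hq r (sg * D) (mul_ne_zero hsg0 hD)
    simp only [hNm] at n1 n2 n3 n4 n5 n6
    have hSdet := sm_det' (Bl (Cn r t) c) ν D hν hdet
    refine ⟨Sm (Bl (Cn r t) c) ν, hSdet, fun B hB => ?_⟩
    rw [hSdet] at hB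
    have hBs : ¬ ∃ b : F, B = b • (1 : Matrix (((Fin r ⊕ Unit) ⊕ (Fin r ⊕ Unit)) ⊕ Unit)
        (((Fin r ⊕ Unit) ⊕ (Fin r ⊕ Unit)) ⊕ Unit) F) := by
      rintro ⟨b, rfl⟩
      apply hsc
      rw [Matrix.det_smul, Matrix.det_one, mul_one, hcard] at hB
      obtain ⟨y, D1, h1, h2, h3, h4⟩ := nt1 (n := 2 * (r + 1) + 1) ⟨r + 1, rfl⟩ σ hσ b D hD hB
      exact ⟨y, D1, h1, h2, h3, h4⟩
    obtain ⟨P, Q, hP, hQ, hPQ⟩ := gK1ns σ hσ r D hD t c ν ht hc hν hdet n1 n2 n3 n4 n5 n6 c1 hc1 k3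
      B hB hBs
    exact ⟨P, Q, 1, one_ne_zero, hP, hQ, by rw [one_smul]; exact hPQ⟩

theorem gN [Finite F] (σ : F ≃+* F)
    (hq : 7 ≤ Nat.card {z : F // σ z = z}) {n : ℕ} (hn : 3 ≤ n) (ho : Odd n) (D : F)
    (hD : D ≠ 0) :
    ∃ S : Matrix (Fin n) (Fin n) F, S.det = D ∧ Good σ S := by
  obtain ⟨m, hm⟩ := ho
  obtain ⟨r, rfl⟩ : ∃ r, m = r + 1 := ⟨m - 1, by omega⟩
  let e : Fin n ≃ ((Fin r ⊕ Unit) ⊕ (Fin r ⊕ Unit)) ⊕ Unit :=
    (Fintype.equivFinOfCardEq (by simp; omega)).symm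
  obtain ⟨S, hS, hF⟩ : ∃ S : Matrix (((Fin r ⊕ Unit) ⊕ (Fin r ⊕ Unit)) ⊕ Unit)
        (((Fin r ⊕ Unit) ⊕ (Fin r ⊕ Unit)) ⊕ Unit) F, S.det = D ∧ Good σ S := by
    by_cases hτ : ∀ z, σ (σ z) = z
    · exact gK1 σ hτ hq r D hD
    · push Not at hτ
      exact gK σ hτ hq r D hD
  have hmul : ∀ M N : Matrix (((Fin r ⊕ Unit) ⊕ (Fin r ⊕ Unit)) ⊕ Unit)
      (((Fin r ⊕ Unit) ⊕ (Fin r ⊕ Unit)) ⊕ Unit) F,
      (M * N).submatrix e e = M.submatrix e e * N.submatrix e e := by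
    intro M N
    rw [Matrix.submatrix_mul_equiv]
  have hT : ∀ M : Matrix (((Fin r ⊕ Unit) ⊕ (Fin r ⊕ Unit)) ⊕ Unit)
      (((Fin r ⊕ Unit) ⊕ (Fin r ⊕ Unit)) ⊕ Unit) F,
      ((M.map σ)ᵀ).submatrix e e = ((M.submatrix e e).map σ)ᵀ := fun M => rfl
  have hC : ∀ P, CgS σ S P → CgS σ (S.submatrix e e) (P.submatrix e e) := by
    rintro P ⟨g, hg, hP⟩
    refine ⟨g.submatrix e e, by rw [Matrix.det_submatrix_equiv_self, hg], ?_⟩
    rw [← hT, ← hmul, ← hmul, ← hP]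
  refine ⟨S.submatrix e e, by rw [Matrix.det_submatrix_equiv_self, hS], fun B hB => ?_⟩
  have hB' : (B.submatrix e.symm e.symm).submatrix e e = B := by
    ext i j; simp
  rw [Matrix.det_submatrix_equiv_self] at hB
  obtain ⟨P, Q, μ, hμ, hP, hQ, hPQ⟩ := hF (B.submatrix e.symm e.symm) (by
    rw [Matrix.det_submatrix_equiv_self, hB])
  refine ⟨_, _, μ, hμ, hC P hP, hC Q hQ, ?_⟩
  rw [← hT, ← hB', ← hmul, ← hPQ]
  rfl

open scoped Pointwise in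
theorem mainG [Finite F] (σ : F ≃+* F)
    (hq : 7 ≤ Nat.card {z : F // σ z = z}) {n : ℕ} (hn : 3 ≤ n) (ho : Odd n)
    (A : Matrix (Fin n) (Fin n) F) (hA : A.det ≠ 0) (α : MulAut (CosetT.PSLn n F))
    (hα : IndG α A σ) :
    ∃ x ∈ CosetT.coset α, CosetT.cls x * CosetT.cls x = CosetT.coset (α ^ 2) := by
  obtain ⟨S, hS, hF⟩ := gN σ hq hn ho A.det hA
  exact packG1 A hA α hα S hS hF

end Pool.Agent.CTG
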