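import Pool.Agent.CTG.Even
import Pool.Agent.CTG.Fin

/-! The final assembly for `n` even (helper47). -/

set_option autoImplicit false

namespace Pool.Agent.CTG

open Matrix Pool.Agent.CTC Module

variable {F : Type*} [Field F]

theorem ex_th [Finite F] (σ : F ≃+* F) (hq : 7 ≤ Nat.card {z : F // σ z = z}) {r : ℕ} (hr : 2 ≤ r)
    (D' : F) (hD' : D' ≠ 0) :
    ∃ (X : Matrix (Fin r) (Fin r) F) (c : F), X.det ≠ 0 ∧ c ≠ 0 ∧ Irr F (sm (σ.trans σ) X) ∧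
      (Bl X c).det = D' ∧
      ∀ w : Matrix (Fin r ⊕ Unit) (Fin r ⊕ Unit) F, w = -(Bl X c * (w.map σ)ᵀ) → w = 0 := by
  obtain ⟨t0, ht0, hσt0, k1, k2⟩ := ex2 σ hq (Nm (σ.trans σ) D' * σ (Nm (σ.trans σ) D'))
  obtain ⟨X, hX, hXi, hXn⟩ := irr2 (σ.trans σ) r hr t0 ht0 (by
    change σ (σ t0) = t0
    rw [hσt0, hσt0])
  have hc : D' / X.det ≠ 0 := div_ne_zero hD' hX
  have hcn : Nm (σ.trans σ) (D' / X.det) * t0 = Nm (σ.trans σ) D' := by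
    rw [← hXn, ← nm_mul, div_mul_cancel₀ _ hX]
  refine ⟨X, D' / X.det, hX, hc, hXi, ?_, fun w hw => ?_⟩
  · rw [bl_det, mul_div_cancel₀ _ hX]
  · refine c2_irr σ r hr X _ hX hc hXi ?_ ?_ w hw
    · rw [hXn, hσt0]; exact k1
    · intro h
      apply k2
      rw [← hcn, map_mul, hσt0]
      linear_combination (-(t0 * t0)) * h

/-- general assembly for `Q2 0 Θ 1` -/
theorem gEgen [Finite F] (σ : F ≃+* F) (hq : 3 ≤ Nat.card {z : F // σ z = z})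
    (hy : ∃ y : F, y ≠ 0 ∧ y * y ≠ 1) {r : ℕ} (hr : 1 ≤ r) (D : F) (hD : D ≠ 0)
    (Θ : Matrix (Fin r ⊕ Unit) (Fin r ⊕ Unit) F)
    (H2 : ∀ w : Matrix (Fin r ⊕ Unit) (Fin r ⊕ Unit) F, w = -(Θ * (w.map σ)ᵀ) → w = 0)
    (FP : FactP (σ.trans σ) (Ds σ Θ) Θ)
    (hdet : Θ.det = (Matrix.fromBlocks 0 1 1 0 :
      Matrix ((Fin r ⊕ Unit) ⊕ (Fin r ⊕ Unit)) ((Fin r ⊕ Unit) ⊕ (Fin r ⊕ Unit)) F).det * D)
    (hsc : (∀ z, σ (σ z) = z) → ∀ b : F, b ≠ 0 → b ^ (2 * (r + 1)) * σ D = D →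
      ∃ (P : Matrix ((Fin r ⊕ Unit) ⊕ (Fin r ⊕ Unit)) ((Fin r ⊕ Unit) ⊕ (Fin r ⊕ Unit)) F) (μ : F),
        μ ≠ 0 ∧ CgS σ (Q2 0 Θ 1) P ∧ μ • P = b • ((Q2 0 Θ 1).map σ)ᵀ) :
    (Q2 0 Θ 1).det = D ∧ Good σ (Q2 0 Θ 1) := by
  obtain ⟨sg, hsg⟩ : ∃ sg : F, sg = (Matrix.fromBlocks 0 1 1 0 :
    Matrix ((Fin r ⊕ Unit) ⊕ (Fin r ⊕ Unit)) ((Fin r ⊕ Unit) ⊕ (Fin r ⊕ Unit)) F).det := ⟨_, rfl⟩
  have hsg2 : sg * sg = 1 := by rw [hsg]; exact sw_det (F := F) _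
  have hsg0 : sg ≠ 0 := by intro h; rw [h, zero_mul] at hsg2; exact zero_ne_one hsg2
  have hσsg : σ sg = sg := by rw [hsg]; exact sg_fix σ
  rw [← hsg] at hdet
  have hΘ : Θ.det ≠ 0 := by rw [hdet]; exact mul_ne_zero hsg0 hD
  have hSdet : (Q2 0 Θ 1).det = D := by
    rw [q2_det, Matrix.det_one, mul_one, hdet, ← hsg, ← mul_assoc, hsg2, one_mul]
  obtain ⟨T2, hT2⟩ : ∃ T2, σ (σ T2) = Θ.det :=
    ⟨σ.symm (σ.symm Θ.det), by rw [σ.apply_symm_apply, σ.apply_symm_apply]⟩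
  have hT20 : T2 ≠ 0 := by intro h; rw [h, map_zero, map_zero] at hT2; exact hΘ hT2.symm
  have inj : ∀ z : F, z ≠ 0 → σ z ≠ 0 := fun z hz => by simpa using hz
  have t1 := inj _ hT20
  have t2 := inj _ t1
  have t3 := inj _ t2
  obtain ⟨x, hx⟩ : ∃ x, x = sg * σ T2 / T2 := ⟨_, rfl⟩
  have x0 : x ≠ 0 := by rw [hx]; exact div_ne_zero (mul_ne_zero hsg0 t1) hT20
  have x1 := inj _ x0
  have x2 := inj _ x1
  have hx2 : σ (σ x) * (sg * D) = sg * (sg * σ D) := by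
    have h1 : σ (σ x) * σ (σ T2) = sg * σ (σ (σ T2)) := by
      rw [hx, map_div₀, map_div₀, map_mul, map_mul, hσsg, hσsg]; field_simp
    rw [hT2, hdet, map_mul, hσsg] at h1
    exact h1
  have hTs : ∀ {x : Matrix (Fin r ⊕ Unit) (Fin r ⊕ Unit) F}, x.det ≠ 0 → (Ts σ x).det ≠ 0 := by
    intro x hx; rw [Ts_det]; simpa using hx
  have hh1 : sg * σ x / x ≠ 0 := div_ne_zero (mul_ne_zero hsg0 x1) x0
  have hh3 : x / (σ x * σ (σ x)) ≠ 0 := div_ne_zero x0 (mul_ne_zero x1 x2)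
  have hBdet : ∀ B : Matrix ((Fin r ⊕ Unit) ⊕ (Fin r ⊕ Unit)) ((Fin r ⊕ Unit) ⊕ (Fin r ⊕ Unit)) F,
      B.det * σ D = D → B.det = sg * σ x / x * (x / (σ x * σ (σ x))) := by
    intro B hB
    have h1 : sg * σ x / x * (x / (σ x * σ (σ x))) = sg / σ (σ x) := by field_simp
    rw [h1, eq_div_iff x2]
    have hσD : σ D ≠ 0 := by simpa using hD
    apply mul_right_cancel₀ hσD
    have h2 : σ (σ x) * D = sg * σ D := by
      apply mul_left_cancel₀ hsg0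
      linear_combination hx2
    calc B.det * σ (σ x) * σ D = σ (σ x) * (B.det * σ D) := by ring
      _ = sg * σ D := by rw [hB, h2]
  refine ⟨hSdet, fun B hB => ?_⟩
  rw [hSdet] at hB
  by_cases hτ : ∃ z, σ (σ z) ≠ z
  · obtain ⟨g, L11, L31, L33, U11, U13, U33, E1, E3, hg, hBg, hU1, hU3, hb1, hs3⟩ :=
      dec2 σ hτ hq (m := r + 1) (by omega) (ι := Fin r ⊕ Unit) (by simp) _ _ hh1 hh3 B
        (hBdet B hB)
    have hb10 : (L11 * E1 * U11).det ≠ 0 := by rw [hb1]; exact hh1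
    have hs30 : (L33 * E3 * U33).det ≠ 0 := by rw [hs3]; exact hh3
    obtain ⟨β, hβ, hβns⟩ := nsc (by simp; omega) (σ.trans σ) hτ (L33 * E3 * U33)
        (Ts σ (Ts σ ((Ts σ (L11 * E1 * U11))⁻¹))) hs30 (hTs (hTs (inv_det_ne (hTs hb10))))
        (x / σ x) (div_ne_zero x0 x1)
    obtain ⟨P, Q, hP, hQ, hPQ⟩ := gcore2 σ D hD sg hsg Θ H2 FP hdet B T2 hT2 x hx g L11 L31
      L33 U11 U13 U33 E1 E3 hg hBg hU1 hU3 hb1 hs3 β hβ hβns
    exact ⟨P, Q, 1, one_ne_zero, hP, hQ, by rw [one_smul]; exact hPQ⟩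
  · push Not at hτ
    have hmap : ∀ {κ : Type} (M : Matrix κ κ F), M.map (σ.trans σ) = M := by
      intro κ M; ext i j; exact hτ _
    have hTT : ∀ M : Matrix (Fin r ⊕ Unit) (Fin r ⊕ Unit) F, Ts σ (Ts σ M) = M := hmap
    by_cases hBs : ∃ b : F, B = b • (1 : Matrix ((Fin r ⊕ Unit) ⊕ (Fin r ⊕ Unit))
        ((Fin r ⊕ Unit) ⊕ (Fin r ⊕ Unit)) F)
    · obtain ⟨b, rfl⟩ := hBs
      have hcard : Fintype.card ((Fin r ⊕ Unit) ⊕ (Fin r ⊕ Unit)) = 2 * (r + 1) := by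
        simp; omega
      have hb : b ≠ 0 := by
        rintro rfl
        rw [zero_smul, Matrix.det_zero, zero_mul] at hB
        exact hD hB.symm
      rw [Matrix.det_smul, Matrix.det_one, mul_one, hcard] at hB
      obtain ⟨P, μ, hμ, hP, hPb⟩ := hsc hτ b hb hB
      refine ⟨P, Q2 0 Θ 1, μ, hμ, hP, ⟨1, Matrix.det_one, ?_⟩, ?_⟩
      · rw [Matrix.map_one _ (map_zero σ) (map_one σ), Matrix.transpose_one, one_mul, mul_one]
      · rw [hPb, Matrix.smul_mul, one_mul]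
    · obtain ⟨x1', hx1', hxx⟩ : ∃ y : F, y ≠ 0 ∧ y * y ≠ sg * σ x / x := by
        by_cases h : (1 : F) = sg * σ x / x
        · obtain ⟨c1, hc1, k3⟩ := hy
          exact ⟨c1, hc1, by rw [← h]; exact k3⟩
        · exact ⟨1, one_ne_zero, by rw [one_mul]; exact h⟩
      obtain ⟨g, L11, L31, L33, U11, U13, U33, E1, E3, hg, hBg, hU1, hU3, hb1, hs3, hb1ns⟩ :=
        dec3 (m := r + 1) (by omega) (ι := Fin r ⊕ Unit) (by simp) _ _ x1' hh1 hh3 hx1' hxx B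
          (hBdet B hB) hBs
      have hb10 : (L11 * E1 * U11).det ≠ 0 := by rw [hb1]; exact hh1
      have hs30 : (L33 * E3 * U33).det ≠ 0 := by rw [hs3]; exact hh3
      have hN : ¬ ∃ μ : F, (Ts σ (L11 * E1 * U11))⁻¹ =
          μ • (1 : Matrix (Fin r ⊕ Unit) (Fin r ⊕ Unit) F) := by
        rintro ⟨μ, hμ⟩
        have hμ0 : μ ≠ 0 := by
          rintro rfl
          rw [zero_smul] at hμ
          have h4 := inv_det_ne (hTs hb10)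
          rw [hμ, Matrix.det_zero] at h4
          exact h4 rfl
        apply hb1ns
        refine ⟨σ μ⁻¹, ?_⟩
        have h4 := minv (hTs hb10)
        rw [hμ, Matrix.mul_smul, mul_one] at h4
        have h5 : Ts σ (L11 * E1 * U11) = μ⁻¹ • (1 : Matrix (Fin r ⊕ Unit) (Fin r ⊕ Unit) F) := by
          rw [← h4, smul_smul, inv_mul_cancel₀ hμ0, one_smul]
        rw [← hTT (L11 * E1 * U11), h5]
        ext i j
        simp only [Ts, Matrix.transpose_apply, Matrix.map_apply, Matrix.smul_apply,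
          Matrix.one_apply, smul_eq_mul, map_mul, eq_comm]
        split_ifs <;> simp
      obtain ⟨β, hβ, h5⟩ := nsc1 (by simp; omega) (L33 * E3 * U33)
        ((Ts σ (L11 * E1 * U11))⁻¹) hs30 (inv_det_ne (hTs hb10)) hN
        (x / σ x) (div_ne_zero x0 x1)
      obtain ⟨P, Q, hP, hQ, hPQ⟩ := gcore2 σ D hD sg hsg Θ H2 FP hdet B T2 hT2 x hx g L11 L31
        L33 U11 U13 U33 E1 E3 hg (by rw [hmap]; exact hBg) hU1 hU3 hb1 hs3 β hβ (by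
          rw [hTT, hmap]
          exact h5)
      exact ⟨P, Q, 1, one_ne_zero, hP, hQ, by rw [one_smul]; exact hPQ⟩

/-- the scalar case for `σ = 1` -/
theorem sc_one (σ : F ≃+* F) (hσ : ∀ z, σ z = z) {ι : Type*} [Fintype ι] [DecidableEq ι]
    (Θ W : Matrix ι ι F) (hΘ : Θ.det ≠ 0) (hW : W.det ≠ 0) (h : Θ * W = W * Θᵀ) (b : F)
    (hb : b ≠ 0) :
    ∃ (P : Matrix (ι ⊕ ι) (ι ⊕ ι) F) (μ : F),
        μ ≠ 0 ∧ CgS σ (Q2 0 Θ 1) P ∧ μ • P = b • ((Q2 0 Θ 1).map σ)ᵀ := by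
  have hmap1 : ∀ M : Matrix (ι ⊕ ι) (ι ⊕ ι) F, M.map σ = M := by
    intro M; ext i j; exact hσ _
  obtain ⟨sg, hsg⟩ : ∃ sg : F, sg = (Matrix.fromBlocks 0 1 1 0 :
    Matrix (ι ⊕ ι) (ι ⊕ ι) F).det := ⟨_, rfl⟩
  have hsg2 : sg * sg = 1 := by rw [hsg]; exact sw_det (F := F) _
  have hsg0 : sg ≠ 0 := by intro h; rw [h, zero_mul] at hsg2; exact zero_ne_one hsg2
  obtain ⟨g, hg, hg'⟩ := real2 Θ W hΘ hW h
  rw [← hsg] at hg'
  refine ⟨sg • (Q2 0 Θ 1)ᵀ, b / sg, div_ne_zero hb hsg0, ⟨g, hg, ?_⟩, ?_⟩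
  · rw [hmap1]; exact hg'
  · rw [hmap1, smul_smul, div_mul_cancel₀ _ hsg0]

theorem gE [Finite F] (σ : F ≃+* F) (hq : 7 ≤ Nat.card {z : F // σ z = z}) {r : ℕ} (hr : 2 ≤ r)
    (D : F) (hD : D ≠ 0)
    (hcase : (∃ z, σ (σ z) ≠ z) ∨ (∀ z, σ z = z) ∨ ∀ b : F, b ^ (2 * (r + 1)) * σ D ≠ D) :
    ∃ S : Matrix ((Fin r ⊕ Unit) ⊕ (Fin r ⊕ Unit)) ((Fin r ⊕ Unit) ⊕ (Fin r ⊕ Unit)) F,
      S.det = D ∧ Good σ S := by
  obtain ⟨sg, hsg⟩ : ∃ sg : F, sg = (Matrix.fromBlocks 0 1 1 0 :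
    Matrix ((Fin r ⊕ Unit) ⊕ (Fin r ⊕ Unit)) ((Fin r ⊕ Unit) ⊕ (Fin r ⊕ Unit)) F).det := ⟨_, rfl⟩
  have hsg2 : sg * sg = 1 := by rw [hsg]; exact sw_det (F := F) _
  have hsg0 : sg ≠ 0 := by intro h; rw [h, zero_mul] at hsg2; exact zero_ne_one hsg2
  obtain ⟨X, c, hX, hc, hXi, hdet, H2⟩ := ex_th σ hq hr (sg * D) (mul_ne_zero hsg0 hD)
  have FP := fact_irr' σ hr X c hX hc hXi
  have hΘ : (Bl X c).det ≠ 0 := by rw [hdet]; exact mul_ne_zero hsg0 hD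
  obtain ⟨-, c1, -, hc1, -, -, -, -, k3, -⟩ := ex1 σ hq r
  refine ⟨_, gEgen σ (by omega) ⟨c1, hc1, k3⟩ (by omega) D hD (Bl X c) H2 FP
    (by rw [hdet, hsg]) ?_⟩
  intro hτ b hb hbD
  rcases hcase with h | h | h
  · obtain ⟨z, hz⟩ := h
    exact absurd (hτ z) hz
  · have hXi' : Irr F (sm (RingEquiv.refl F) X) := by
      have h1 : sm (σ.trans σ) X = sm (RingEquiv.refl F) X := by
        refine DFunLike.ext _ _ fun v => ?_
        rw [sm_apply, sm_apply]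
        congr 1
        ext j
        exact hτ _
      rwa [h1] at hXi
    obtain ⟨u, hu, hXu⟩ := irr_transpose (by omega) X hX hXi'
    have hW : (Bl u 1).det ≠ 0 := by rw [bl_det, mul_one]; exact hu
    have hWeq : Bl X c * Bl u 1 = Bl u 1 * (Bl X c)ᵀ := by
      have h1 : ∀ (M N : Matrix (Fin r) (Fin r) F) (c d : F),
          Bl M c * Bl N d = Bl (M * N) (c * d) := by
        intro M N c d
        ext i j
        rcases i with i | i <;> rcases j with j | j <;>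
          simp [Bl, Matrix.mul_apply, Fintype.sum_sum_type]
      have h2 : (Bl X c)ᵀ = Bl Xᵀ c := by
        ext i j
        rcases i with i | i <;> rcases j with j | j <;> simp [Bl]
      rw [h2, h1, h1, hXu, mul_one, one_mul]
    exact sc_one σ h (Bl X c) (Bl u 1) hΘ hW hWeq b hb
  · exact absurd hbD (h b)

theorem gNE [Finite F] (σ : F ≃+* F)
    (hq : 7 ≤ Nat.card {z : F // σ z = z}) {n : ℕ} (hn : 6 ≤ n) (ho : Even n) (D : F)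
    (hD : D ≠ 0)
    (hcase : (∃ z, σ (σ z) ≠ z) ∨ (∀ z, σ z = z) ∨ ∀ b : F, b ^ n * σ D ≠ D) :
    ∃ S : Matrix (Fin n) (Fin n) F, S.det = D ∧ Good σ S := by
  obtain ⟨m, hm⟩ := ho
  obtain ⟨r, rfl⟩ : ∃ r, m = r + 1 := ⟨m - 1, by omega⟩
  have hn2 : n = 2 * (r + 1) := by omega
  let e : Fin n ≃ (Fin r ⊕ Unit) ⊕ (Fin r ⊕ Unit) :=
    (Fintype.equivFinOfCardEq (by simp; omega)).symm
  obtain ⟨S, hS, hF⟩ := gE σ hq (r := r) (by omega) D hD (by rw [hn2] at hcase; exact hcase)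
  have hmul : ∀ M N : Matrix ((Fin r ⊕ Unit) ⊕ (Fin r ⊕ Unit))
      ((Fin r ⊕ Unit) ⊕ (Fin r ⊕ Unit)) F,
      (M * N).submatrix e e = M.submatrix e e * N.submatrix e e := by
    intro M N
    rw [Matrix.submatrix_mul_equiv]
  have hT : ∀ M : Matrix ((Fin r ⊕ Unit) ⊕ (Fin r ⊕ Unit))
      ((Fin r ⊕ Unit) ⊕ (Fin r ⊕ Unit)) F,
      ((M.map σ)ᵀ).submatrix e e = ((M.submatrix e e).map σ)ᵀ := fun M => rfl
  have hC : ∀ P, CgS σ S P → CgS σ (S.submatrix e e) (P.submatrix e e) := by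
    rintro P ⟨g, hg, hP⟩
    refine ⟨g.submatrix e e, by rw [Matrix.det_submatrix_equiv_self, hg], ?_⟩
    rw [← hT, ← hmul, ← hmul, ← hP]
  refine ⟨S.submatrix e e, by rw [Matrix.det_submatrix_equiv_self, hS], fun B hB => ?_⟩
  have hB' : (B.submatrix e.symm e.symm).submatrix e e = B := by
    ext i j; simp
  rw [Matrix.det_submatrix_equiv_self] at hB
  obtain ⟨P, Q, μ, hμ, hP, hQ, hPQ⟩ := hF (B.submatrix e.symm e.symm) (by
    rw [Matrix.det_submatrix_equiv_self, hB])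
  refine ⟨_, _, μ, hμ, hC P hP, hC Q hQ, ?_⟩
  rw [← hT, ← hB', ← hmul, ← hPQ]
  rfl

open scoped Pointwise in
theorem mainE [Finite F] (σ : F ≃+* F)
    (hq : 7 ≤ Nat.card {z : F // σ z = z}) {n : ℕ} (hn : 6 ≤ n) (ho : Even n)
    (A : Matrix (Fin n) (Fin n) F) (hA : A.det ≠ 0) (α : MulAut (CosetT.PSLn n F))
    (hα : IndG α A σ)
    (hcase : (∃ z, σ (σ z) ≠ z) ∨ (∀ z, σ z = z) ∨
      ¬ ∃ g : CosetT.PSLn n F, α ^ 2 = MulAut.conj g) :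
    ∃ x ∈ CosetT.coset α, CosetT.cls x * CosetT.cls x = CosetT.coset (α ^ 2) := by
  obtain ⟨S, hS, hF⟩ := gNE σ hq hn ho A.det hA (by
    by_cases hτ : ∃ z, σ (σ z) ≠ z
    · exact Or.inl hτ
    · push Not at hτ
      rcases hcase with ⟨z, h⟩ | h | h
      · exact absurd (hτ z) h
      · exact Or.inr (Or.inl h)
      · exact Or.inr (Or.inr fun b hb => h (inner_sq hτ A hA α hα b hb)))
  exact packG1 A hA α hα S hS hF

end Pool.Agent.CTG
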