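import Pool.Agent.CTG.FinE
import Pool.Agent.CTG.Ex4

/-! `n = 4`, and the theorem for `n ≥ 4` even (helper47). -/

set_option autoImplicit false

namespace Pool.Agent.CTG

open Matrix Pool.Agent.CTC Module

variable {F : Type*} [Field F]

theorem gE4 [Finite F] (σ : F ≃+* F) (hq : 8 ≤ Nat.card {z : F // σ z = z}) (D : F) (hD : D ≠ 0)
    (hcase : (∃ z, σ (σ z) ≠ z) ∨ (∀ z, σ z = z) ∨ ∀ b : F, b ^ 4 * σ D ≠ D) :
    ∃ (lam : F) (S : Matrix ((Fin 1 ⊕ Unit) ⊕ (Fin 1 ⊕ Unit)) ((Fin 1 ⊕ Unit) ⊕ (Fin 1 ⊕ Unit)) F),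
      lam ≠ 0 ∧ S.det = lam ^ 4 * D ∧ Good σ S := by
  obtain ⟨sg, hsg⟩ : ∃ sg : F, sg = (Matrix.fromBlocks 0 1 1 0 :
    Matrix ((Fin 1 ⊕ Unit) ⊕ (Fin 1 ⊕ Unit)) ((Fin 1 ⊕ Unit) ⊕ (Fin 1 ⊕ Unit)) F).det := ⟨_, rfl⟩
  have hsg2 : sg * sg = 1 := by rw [hsg]; exact sw_det (F := F) _
  have hsg0 : sg ≠ 0 := by intro h; rw [h, zero_mul] at hsg2; exact zero_ne_one hsg2
  obtain ⟨lam, t, c, hlam, ht, hc, htc, n1, n2, n3, n4⟩ := ex4 σ hq (sg * D) (mul_ne_zero hsg0 hD)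
  have hdet : (Bl (Cn 1 t) c).det = sg * (lam ^ 4 * D) := by
    rw [bl_det, cn_det]
    simp only [one_ne_zero, if_false, Nat.sub_self, pow_zero, one_mul]
    rw [htc]; ring
  have hD' : lam ^ 4 * D ≠ 0 := mul_ne_zero (pow_ne_zero _ hlam) hD
  have hΘ : (Bl (Cn 1 t) c).det ≠ 0 := by rw [hdet]; exact mul_ne_zero hsg0 hD'
  obtain ⟨-, c1, -, hc1, -, -, -, -, k3, -⟩ := ex1 σ (by omega) 1
  refine ⟨lam, _, hlam, gEgen σ (by omega) ⟨c1, hc1, k3⟩ le_rfl (lam ^ 4 * D) hD' (Bl (Cn 1 t) c)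
    (fun w hw => cn_c2 σ 1 t c ht hc n2 n3 (by rw [pow_one]; exact n4) w hw)
    (fact_cn σ 1 t c ht hc (by rw [pow_one]; exact n1)) (by rw [hdet, hsg]) ?_⟩
  intro hτ b hb hbD
  rcases hcase with h | h | h
  · obtain ⟨z, hz⟩ := h
    exact absurd (hτ z) hz
  · refine sc_one σ h (Bl (Cn 1 t) c) 1 hΘ (by rw [Matrix.det_one]; exact one_ne_zero) ?_ b hb
    rw [mul_one, one_mul]
    ext i j
    rcases i with i | i <;> rcases j with j | j
    · have hi : i = 0 := Subsingleton.elim _ _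
      have hj : j = 0 := Subsingleton.elim _ _
      subst hi; subst hj
      rfl
    · rfl
    · rfl
    · rfl
  · exfalso
    have hσl : σ lam ≠ 0 := by simpa using hlam
    apply h (b * σ lam / lam)
    rw [map_mul, map_pow] at hbD
    have h1 : b ^ 4 * (σ lam ^ 4 * σ D) = lam ^ 4 * D := hbD
    field_simp
    linear_combination h1

open scoped Pointwise in
theorem main4 [Finite F] (σ : F ≃+* F)
    (hq : 8 ≤ Nat.card {z : F // σ z = z})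
    (A : Matrix (Fin 4) (Fin 4) F) (hA : A.det ≠ 0) (α : MulAut (CosetT.PSLn 4 F))
    (hα : IndG α A σ)
    (hcase : (∃ z, σ (σ z) ≠ z) ∨ (∀ z, σ z = z) ∨
      ¬ ∃ g : CosetT.PSLn 4 F, α ^ 2 = MulAut.conj g) :
    ∃ x ∈ CosetT.coset α, CosetT.cls x * CosetT.cls x = CosetT.coset (α ^ 2) := by
  obtain ⟨lam, S, hlam, hS, hF⟩ := gE4 σ hq A.det hA (by
    by_cases hτ : ∃ z, σ (σ z) ≠ z
    · exact Or.inl hτ
    · push Not at hτ
      rcases hcase with ⟨z, h⟩ | h | h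
      · exact absurd (hτ z) h
      · exact Or.inr (Or.inl h)
      · exact Or.inr (Or.inr fun b hb => h (inner_sq hτ A hA α hα b hb)))
  let e : Fin 4 ≃ (Fin 1 ⊕ Unit) ⊕ (Fin 1 ⊕ Unit) :=
    (Fintype.equivFinOfCardEq (by simp)).symm
  have hmul : ∀ M N : Matrix ((Fin 1 ⊕ Unit) ⊕ (Fin 1 ⊕ Unit))
      ((Fin 1 ⊕ Unit) ⊕ (Fin 1 ⊕ Unit)) F,
      (M * N).submatrix e e = M.submatrix e e * N.submatrix e e := by
    intro M N
    rw [Matrix.submatrix_mul_equiv]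
  have hT : ∀ M : Matrix ((Fin 1 ⊕ Unit) ⊕ (Fin 1 ⊕ Unit))
      ((Fin 1 ⊕ Unit) ⊕ (Fin 1 ⊕ Unit)) F,
      ((M.map σ)ᵀ).submatrix e e = ((M.submatrix e e).map σ)ᵀ := fun M => rfl
  have hC : ∀ P, CgS σ S P → CgS σ (S.submatrix e e) (P.submatrix e e) := by
    rintro P ⟨g, hg, hP⟩
    refine ⟨g.submatrix e e, by rw [Matrix.det_submatrix_equiv_self, hg], ?_⟩
    rw [← hT, ← hmul, ← hmul, ← hP]
  have hα' : IndG α (lam • A) σ := by
    intro g g' hg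
    apply hα g g'
    rw [Matrix.mul_smul, Matrix.smul_mul] at hg
    have h1 := congrArg (fun M => lam⁻¹ • M) hg
    simpa [smul_smul, inv_mul_cancel₀ hlam] using h1
  have hA' : (lam • A).det = lam ^ 4 * A.det := by
    rw [Matrix.det_smul]; simp
  refine packG1 (lam • A) (by rw [hA']; exact mul_ne_zero (pow_ne_zero _ hlam) hA) α hα'
    (S.submatrix e e) (by rw [Matrix.det_submatrix_equiv_self, hS, hA']) fun B hB => ?_
  have hB' : (B.submatrix e.symm e.symm).submatrix e e = B := by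
    ext i j; simp
  rw [Matrix.det_submatrix_equiv_self] at hB
  obtain ⟨P, Q, μ, hμ, hP, hQ, hPQ⟩ := hF (B.submatrix e.symm e.symm) (by
    rw [Matrix.det_submatrix_equiv_self, hB])
  refine ⟨_, _, μ, hμ, hC P hP, hC Q hQ, ?_⟩
  rw [← hT, ← hB', ← hmul, ← hPQ]
  rfl

open scoped Pointwise in
theorem mainX [Finite F] (σ : F ≃+* F) {n : ℕ} (hn : 3 ≤ n)
    (A : Matrix (Fin n) (Fin n) F) (hA : A.det ≠ 0) (α : MulAut (CosetT.PSLn n F))
    (hα : IndG α A σ)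
    (hq : 8 ≤ Nat.card {z : F // σ z = z} ∨ (n ≠ 4 ∧ 7 ≤ Nat.card {z : F // σ z = z}))
    (hcase : Odd n ∨ (∃ z, σ (σ z) ≠ z) ∨ (∀ z, σ z = z) ∨
      ¬ ∃ g : CosetT.PSLn n F, α ^ 2 = MulAut.conj g) :
    ∃ x ∈ CosetT.coset α, CosetT.cls x * CosetT.cls x = CosetT.coset (α ^ 2) := by
  have hq7 : 7 ≤ Nat.card {z : F // σ z = z} := by
    rcases hq with h | ⟨-, h⟩ <;> omega
  rcases Nat.even_or_odd n with he | ho
  · have hcase' : (∃ z, σ (σ z) ≠ z) ∨ (∀ z, σ z = z) ∨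
        ¬ ∃ g : CosetT.PSLn n F, α ^ 2 = MulAut.conj g := by
      rcases hcase with h | h
      · exact absurd h (Nat.not_odd_iff_even.2 he)
      · exact h
    by_cases h4 : n = 4
    · subst h4
      exact main4 σ (by
        rcases hq with h | ⟨h, -⟩
        · exact h
        · exact absurd rfl h) A hA α hα hcase'
    · obtain ⟨m, hm⟩ := he
      exact mainE σ hq7 (by omega) ⟨m, hm⟩ A hA α hα hcase'
  · exact mainG σ hq7 hn ho A hA α hα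

end Pool.Agent.CTG
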