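import Pool.Agent.CTG.KDefs

/-! CTG, module KC2 (`ki_c2`), helper26: the second cyclic condition for matrices over the fixed field. -/

set_option autoImplicit false

namespace Pool.Agent.CTG

open Matrix Pool.Agent.CTC

variable {F : Type*} [Field F]

private theorem key (σ : F ≃+* F) (hσ1 : ∃ z, σ z ≠ z) (x : F)
    (h : ∀ z, z * x + σ (z * x) = 0) : x = 0 := by
  obtain ⟨z, hz⟩ := hσ1
  have a := h 1
  have b := h z
  rw [one_mul] at a
  rw [map_mul] at b
  have c : σ x = -x := by linear_combination a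
  rw [c] at b
  have d : (z - σ z) * x = 0 := by linear_combination b
  rcases mul_eq_zero.mp d with e | e
  · exact absurd (sub_eq_zero.mp e).symm hz
  · exact e

private theorem eig {r : ℕ} (σ : F ≃+* F) (hσ : ∀ z, σ (σ z) = z) (hσ1 : ∃ z, σ z ≠ z)
    (hr : 2 ≤ r) (X1 : Matrix (Fin r) (Fin r) F) (hX : ∀ i j, σ (X1 i j) = X1 i j)
    (h : KI σ X1) (e : F) (he : σ e = e) (w : Fin r → F) (hw : w = e • (X1 *ᵥ w)) : w = 0 := by
  have rat : ∀ u : Fin r → F, (∀ i, σ (u i) = u i) → u = e • (X1 *ᵥ u) → u = 0 := by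
    intro u hu hu2
    by_contra hne
    have he0 : e ≠ 0 := by
      rintro rfl
      exact hne (by rw [hu2, zero_smul])
    have h2 := h u hu hne (Submodule.span F {u}) (Submodule.mem_span_singleton_self u) (by
      intro w hw
      obtain ⟨a, rfl⟩ := Submodule.mem_span_singleton.mp hw
      rw [mulVec_smul]
      refine Submodule.smul_mem _ _ (Submodule.mem_span_singleton.mpr ⟨e⁻¹, ?_⟩)
      conv_lhs => rw [hu2]
      rw [smul_smul, inv_mul_cancel₀ he0, one_smul])
    have h3 := finrank_span_singleton (K := F) hne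
    rw [h2, finrank_top, Module.finrank_fin_fun] at h3
    omega
  funext i
  refine key σ hσ1 _ fun z => ?_
  have h4 := rat (fun i => z * w i + σ (z * w i)) (fun i => by rw [map_add, hσ]; ring) ?_
  · exact congrFun h4 i
  · funext i
    have hi : w i = e * ∑ j, X1 i j * w j := congrFun hw i
    show z * w i + σ (z * w i) = e * ∑ j, X1 i j * (z * w j + σ (z * w j))
    calc z * w i + σ (z * w i)
        = z * (e * ∑ j, X1 i j * w j) + σ (z * (e * ∑ j, X1 i j * w j)) := by rw [← hi]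
      _ = _ := by
        simp only [map_mul, map_sum, he, hX, mul_add, Finset.sum_add_distrib, Finset.mul_sum]
        congr 1 <;> exact Finset.sum_congr rfl fun j _ => by ring

private theorem mat {r : ℕ} (σ : F ≃+* F) (hσ : ∀ z, σ (σ z) = z) (hσ1 : ∃ z, σ z ≠ z)
    (X1 : Matrix (Fin r) (Fin r) F) (hX : ∀ i j, σ (X1 i j) = X1 i j) (hXd : X1.det ≠ 0)
    (h : KI σ X1) (ν : F) (hν : σ ν = ν) (hν0 : ν ≠ 0)
    (h1 : ν ^ r * (X1.det * X1.det) ≠ 1) (w : Matrix (Fin r) (Fin r) F)
    (hw : w = ν • (X1 * w * X1ᵀ)) : w = 0 := by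
  have rat : ∀ u : Matrix (Fin r) (Fin r) F, (∀ i j, σ (u i j) = u i j) →
      u = ν • (X1 * u * X1ᵀ) → u = 0 := by
    intro u hu hu2
    by_contra hne
    obtain ⟨i0, j0, hij⟩ : ∃ i j, u i j ≠ 0 := by
      by_contra hcon
      push Not at hcon
      exact hne (by ext i j; exact hcon i j)
    have hdT : IsUnit (X1ᵀ).det := by rw [det_transpose]; exact hXd.isUnit
    have h2 := h (fun i => u i j0) (fun i => hu i j0) (fun h0 => hij (congrFun h0 i0))
      (LinearMap.range u.mulVecLin) ⟨Pi.single j0 1, by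
        rw [mulVecLin_apply, mulVec_single_one]; rfl⟩ (by
        rintro _ ⟨y, rfl⟩
        refine ⟨ν⁻¹ • ((X1ᵀ)⁻¹ *ᵥ y), ?_⟩
        rw [mulVecLin_apply, mulVecLin_apply]
        conv_lhs => rw [hu2]
        rw [mulVec_smul, smul_mulVec, smul_smul, inv_mul_cancel₀ hν0, one_smul, mulVec_mulVec,
          mulVec_mulVec, Matrix.mul_assoc, Matrix.mul_nonsing_inv _ hdT, Matrix.mul_one])
    have h3 : Function.Surjective u.mulVec := by
      intro y
      have : y ∈ LinearMap.range u.mulVecLin := by rw [h2]; trivial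
      obtain ⟨x, hx⟩ := this
      exact ⟨x, hx⟩
    have h4 : IsUnit u := Matrix.mulVec_surjective_iff_isUnit.mp h3
    have h5 : u.det ≠ 0 := ((Matrix.isUnit_iff_isUnit_det u).mp h4).ne_zero
    have h6 := congrArg Matrix.det hu2
    rw [det_smul, det_mul, det_mul, det_transpose, Fintype.card_fin] at h6
    apply h1
    have h7 : u.det * (ν ^ r * (X1.det * X1.det)) = u.det * 1 := by linear_combination -h6
    exact mul_left_cancel₀ h5 h7
  ext i j
  refine key σ hσ1 _ fun z => ?_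
  have h4 := rat (z • w + (z • w).map σ) (fun i j => by
    simp only [Matrix.add_apply, Matrix.map_apply, map_add, hσ]; ring) ?_
  · have := congrFun (congrFun h4 i) j
    simpa using this
  · have hXm : X1.map σ = X1 := by ext i j; exact hX i j
    have hXt : (X1ᵀ).map σ = X1ᵀ := by ext i j; exact hX j i
    have hmul : ∀ A B : Matrix (Fin r) (Fin r) F, (A * B).map σ = A.map σ * B.map σ := by
      intro A B
      ext i j
      simp [Matrix.mul_apply]
    have hsm : ∀ (a : F) (A : Matrix (Fin r) (Fin r) F), (a • A).map σ = σ a • A.map σ := by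
      intro a A
      ext i j
      simp
    have e1 : z • w = ν • (X1 * (z • w) * X1ᵀ) := by
      conv_lhs => rw [hw]
      rw [Matrix.mul_smul, Matrix.smul_mul, smul_comm]
    have e2 : (z • w).map σ = ν • (X1 * (z • w).map σ * X1ᵀ) := by
      conv_lhs => rw [e1]
      rw [hsm, hν, hmul, hmul, hXm, hXt]
    rw [Matrix.mul_add, Matrix.add_mul, smul_add, ← e1, ← e2]

private theorem b11 {ι : Type*} (X : Matrix ι ι F) (c : F) (i j : ι) :
    Bl X c (Sum.inl i) (Sum.inl j) = X i j := rfl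

private theorem b12 {ι : Type*} (X : Matrix ι ι F) (c : F) (i : ι) (j : Unit) :
    Bl X c (Sum.inl i) (Sum.inr j) = 0 := rfl

private theorem b21 {ι : Type*} (X : Matrix ι ι F) (c : F) (i : Unit) (j : ι) :
    Bl X c (Sum.inr i) (Sum.inl j) = 0 := rfl

private theorem b22 {ι : Type*} (X : Matrix ι ι F) (c : F) (i j : Unit) :
    Bl X c (Sum.inr i) (Sum.inr j) = c := rfl

/-- `ν0 = μ σ μ`. Block `(1,1)`: `w = -μ X1 σ(w)^T` gives `w = ν0 X1 w X1^T`; so do `z w + σ(z w)` for
every `z` (rational); a nonzero rational solution has image containing a nonzero rational vector and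
`X1`-invariant, so it is invertible, and determinants give `1 = ν0^r det(X1)²`.  Blocks `(1,2)`,
`(2,1)`: eigenvectors (as in K2, with `ν0 c1 X1 w = w`); block `(2,2)`: `w = ν0 c1² w`. -/
theorem ki_c2 (σ : F ≃+* F) (hσ : ∀ z, σ (σ z) = z) (hσ1 : ∃ z, σ z ≠ z) {r : ℕ} (hr : 2 ≤ r)
    (X1 : Matrix (Fin r) (Fin r) F) (hX : ∀ i j, σ (X1 i j) = X1 i j) (hXd : X1.det ≠ 0)
    (h : KI σ X1) (hT : KI σ X1ᵀ) (c1 : F) (hc : σ c1 = c1) (hc0 : c1 ≠ 0) (μ : F) (hμ : μ ≠ 0)
    (h1 : (μ * σ μ) ^ r * (X1.det * X1.det) ≠ 1) (h2 : (μ * σ μ) * (c1 * c1) ≠ 1)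
    (w : Matrix (Fin r ⊕ Unit) (Fin r ⊕ Unit) F)
    (hw : w = -(Bl (μ • X1) (μ * c1) * (w.map σ)ᵀ)) : w = 0 := by
  have hσμ : σ μ ≠ 0 := by simpa using hμ
  have hν0 : μ * σ μ ≠ 0 := mul_ne_zero hμ hσμ
  have hν : σ (μ * σ μ) = μ * σ μ := by rw [map_mul, hσ]; ring
  have e11 : ∀ i j, w (Sum.inl i) (Sum.inl j) =
      -(μ * ∑ k, X1 i k * σ (w (Sum.inl j) (Sum.inl k))) := by
    intro i j
    have h3 := congrFun (congrFun hw (Sum.inl i)) (Sum.inl j)
    rw [Matrix.neg_apply, Matrix.mul_apply, Fintype.sum_sum_type] at h3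
    rw [h3]
    simp [b11, b12, Finset.mul_sum, mul_assoc]
  have e12 : ∀ i, w (Sum.inl i) (Sum.inr ()) =
      -(μ * ∑ k, X1 i k * σ (w (Sum.inr ()) (Sum.inl k))) := by
    intro i
    have h3 := congrFun (congrFun hw (Sum.inl i)) (Sum.inr ())
    rw [Matrix.neg_apply, Matrix.mul_apply, Fintype.sum_sum_type] at h3
    rw [h3]
    simp [b11, b12, Finset.mul_sum, mul_assoc]
  have e21 : ∀ j, w (Sum.inr ()) (Sum.inl j) =
      -(μ * c1 * σ (w (Sum.inl j) (Sum.inr ()))) := by
    intro j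
    have h3 := congrFun (congrFun hw (Sum.inr ())) (Sum.inl j)
    rw [Matrix.neg_apply, Matrix.mul_apply, Fintype.sum_sum_type] at h3
    rw [h3]
    simp [b21, b22]
  have e22 : w (Sum.inr ()) (Sum.inr ()) = -(μ * c1 * σ (w (Sum.inr ()) (Sum.inr ()))) := by
    have h3 := congrFun (congrFun hw (Sum.inr ())) (Sum.inr ())
    rw [Matrix.neg_apply, Matrix.mul_apply, Fintype.sum_sum_type] at h3
    refine h3.trans ?_
    simp [b21, b22]
  -- block (1,1)
  have z11 : w.toBlocks₁₁ = 0 := by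
    refine mat σ hσ hσ1 X1 hX hXd h (μ * σ μ) hν hν0 h1 _ ?_
    ext i j
    have e3 : ∀ j k, σ (w (Sum.inl j) (Sum.inl k)) =
        -(σ μ * ∑ l, X1 j l * w (Sum.inl k) (Sum.inl l)) := by
      intro j k
      have := congrArg σ (e11 j k)
      simpa only [map_neg, map_mul, map_sum, hX, hσ] using this
    have e4 : ((μ * σ μ) • (X1 * w.toBlocks₁₁ * X1ᵀ)) i j =
        (μ * σ μ) * ∑ l, (∑ k, X1 i k * w (Sum.inl k) (Sum.inl l)) * X1 j l := by
      simp [Matrix.mul_apply, Matrix.toBlocks₁₁]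
    rw [e4]
    show w (Sum.inl i) (Sum.inl j) = _
    rw [e11 i j]
    simp only [e3, Finset.mul_sum, Finset.sum_mul, mul_neg, Finset.sum_neg_distrib, neg_neg]
    rw [Finset.sum_comm]
    exact Finset.sum_congr rfl fun k _ => Finset.sum_congr rfl fun l _ => by ring
  have z12 : (fun i => w (Sum.inl i) (Sum.inr ())) = 0 := by
    refine eig σ hσ hσ1 hr X1 hX h (μ * σ μ * c1) (by rw [map_mul, hν, hc]) _ ?_
    funext i
    have e3 : ∀ k, σ (w (Sum.inr ()) (Sum.inl k)) = -(σ μ * c1 * w (Sum.inl k) (Sum.inr ())) := by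
      intro k
      have := congrArg σ (e21 k)
      simpa only [map_neg, map_mul, hc, hσ] using this
    show w (Sum.inl i) (Sum.inr ()) =
      μ * σ μ * c1 * ∑ k, X1 i k * w (Sum.inl k) (Sum.inr ())
    rw [e12 i]
    simp only [e3, Finset.mul_sum, mul_neg, Finset.sum_neg_distrib, neg_neg]
    exact Finset.sum_congr rfl fun k _ => by ring
  have z22 : w (Sum.inr ()) (Sum.inr ()) = 0 := by
    have e3 := congrArg σ e22
    rw [map_neg, map_mul, map_mul, hc, hσ] at e3
    rw [e3] at e22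
    by_contra hne
    apply h2
    have : w (Sum.inr ()) (Sum.inr ()) * (μ * σ μ * (c1 * c1)) =
        w (Sum.inr ()) (Sum.inr ()) * 1 := by linear_combination -e22
    exact mul_left_cancel₀ hne this
  ext i j
  rcases i with i | i <;> rcases j with j | j
  · exact congrFun (congrFun z11 i) j
  · exact congrFun z12 i
  · rw [e21 j, congrFun z12 j]; simp
  · exact z22

end Pool.Agent.CTG
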