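import Pool.Agent.CTG.KDefs
import Pool.Agent.CTC.RDefs

/-! K2 of the fourth round (helper47's stubs): cyclicity and no common eigenvectors for `μ • X1`,
`X1` over the fixed field of an involution. -/

set_option autoImplicit false

namespace Pool.Agent.CTG

open Matrix Pool.Agent.CTC

variable {F : Type*} [Field F]

private theorem kcy_map (σ : F ≃+* F) {r : ℕ} (Y : Matrix (Fin r) (Fin r) F)
    (hY : ∀ i j, σ (Y i j) = Y i j) (w : Fin r → F) :
    Y *ᵥ (fun i => σ (w i)) = fun i => σ ((Y *ᵥ w) i) := by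
  funext i
  simp [Matrix.mulVec, dotProduct, map_sum, hY]

private theorem kcy_eig (σ : F ≃+* F) (hσ : ∀ z, σ (σ z) = z) (hσ1 : ∃ z, σ z ≠ z) {r : ℕ}
    (hr : 2 ≤ r) (Y : Matrix (Fin r) (Fin r) F) (hY : ∀ i j, σ (Y i j) = Y i j) (h : KI σ Y)
    (c : F) (hc : σ c = c) (w : Fin r → F) (hw : Y *ᵥ w = c • w) : w = 0 := by
  by_contra hw0
  have hσw : Y *ᵥ (fun i => σ (w i)) = c • fun i => σ (w i) := by
    rw [kcy_map σ Y hY w, hw]
    funext i
    simp [hc]
  -- the rational eigenvectors
  have key : ∀ z : F, (fun i => z * w i + σ (z * w i)) = (0 : Fin r → F) := by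
    intro z
    by_contra hv
    have hrat : ∀ i, σ ((fun i => z * w i + σ (z * w i)) i) =
        (fun i => z * w i + σ (z * w i)) i := by
      intro i
      simp only [map_add, hσ]
      rw [add_comm]
    have hev : Y *ᵥ (fun i => z * w i + σ (z * w i)) =
        c • fun i => z * w i + σ (z * w i) := by
      have h1 : (fun i => z * w i + σ (z * w i)) = z • w + σ z • fun i => σ (w i) := by
        funext i
        simp [map_mul]
      rw [h1, Matrix.mulVec_add, Matrix.mulVec_smul, Matrix.mulVec_smul, hw, hσw, smul_add,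
        smul_comm z c, smul_comm (σ z) c]
    have htop := h _ hrat hv (Submodule.span F {fun i => z * w i + σ (z * w i)})
      (Submodule.mem_span_singleton_self _) (by
        intro u hu
        obtain ⟨a, rfl⟩ := Submodule.mem_span_singleton.1 hu
        rw [Matrix.mulVec_smul, hev]
        exact Submodule.smul_mem _ _ (Submodule.smul_mem _ _
          (Submodule.mem_span_singleton_self _)))
    have h2 := finrank_span_singleton (K := F) hv
    rw [htop, finrank_top, Module.finrank_fin_fun] at h2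
    omega
  obtain ⟨i, hi⟩ : ∃ i, w i ≠ 0 := by
    by_contra hcon
    push Not at hcon
    exact hw0 (funext hcon)
  obtain ⟨z, hz⟩ := hσ1
  have h1 := congrFun (key 1) i
  have h2 := congrFun (key z) i
  simp only [one_mul, Pi.zero_apply, map_mul] at h1 h2
  have h3 : σ (w i) = -w i := by linear_combination h1
  rw [h3] at h2
  have h4 : (z - σ z) * w i = 0 := by linear_combination h2
  rcases mul_eq_zero.1 h4 with h5 | h5
  · exact hz (sub_eq_zero.1 h5).symm
  · exact hi h5

private theorem kcy_sm (σ : F ≃+* F) (hσ : ∀ z, σ (σ z) = z) {r : ℕ}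
    (Y : Matrix (Fin r) (Fin r) F) (v : Fin r → F) : sm (σ.trans σ) Y v = Y *ᵥ v := by
  rw [sm_apply]
  congr 1
  funext i
  exact hσ (v i)

/-- `τ = σ² = 1`, `sm τ X w = X *ᵥ w`. `Cy`: the vector `e_0` is rational. `NC`: an eigenvector `w` of
`X1` for `c1` gives rational ones `z w + σ(z w)`, one of them nonzero, which would be cyclic; for the
functionals the same with `X1ᵀ`. -/
theorem ki_cy_nc (σ : F ≃+* F) (hσ : ∀ z, σ (σ z) = z) (hσ1 : ∃ z, σ z ≠ z) {r : ℕ} (hr : 2 ≤ r)
    (X1 : Matrix (Fin r) (Fin r) F) (hX : ∀ i j, σ (X1 i j) = X1 i j) (h : KI σ X1)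
    (hT : KI σ X1ᵀ) (c1 : F) (hc : σ c1 = c1) (μ : F) (hμ : μ ≠ 0) :
    Cy (σ.trans σ) (μ • X1) ∧ NC (σ.trans σ) (μ • X1) (μ * c1) := by
  refine ⟨⟨Pi.single ⟨0, by omega⟩ 1, fun W heW hW => ?_⟩, fun l hl => ?_, fun w hw => ?_⟩
  · refine h (Pi.single ⟨0, by omega⟩ 1) (fun i => ?_) ?_ W heW fun w hw => ?_
    · by_cases hi : i = ⟨0, by omega⟩
      · subst hi
        simp
      · simp [Pi.single_eq_of_ne hi]
    · intro h0
      have := congrFun h0 ⟨0, by omega⟩
      simp at this
    · have h1 := hW w hw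
      rw [kcy_sm σ hσ, Matrix.smul_mulVec] at h1
      have h2 := W.smul_mem μ⁻¹ h1
      rwa [smul_smul, inv_mul_cancel₀ hμ, one_smul] at h2
  · set w : Fin r → F := fun i => l (Pi.single i 1) with hwdef
    have hlw : ∀ z : Fin r → F, l z = ∑ i, z i * w i := by
      intro z
      conv_lhs => rw [pi_eq_sum_univ' z]
      rw [map_sum]
      refine Finset.sum_congr rfl fun i _ => ?_
      rw [map_smul, smul_eq_mul]
    have hw : X1ᵀ *ᵥ w = c1 • w := by
      funext j
      have h1 := hl (Pi.single j 1)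
      rw [kcy_sm σ hσ, Matrix.smul_mulVec, map_smul, smul_eq_mul] at h1
      simp only [RingEquiv.trans_apply, hσ] at h1
      have h2 : l (X1 *ᵥ Pi.single j 1) = c1 * l (Pi.single j 1) := by
        have h3 : μ * (l (X1 *ᵥ Pi.single j 1) - c1 * l (Pi.single j 1)) = 0 := by
          linear_combination h1
        rcases mul_eq_zero.1 h3 with h4 | h4
        · exact absurd h4 hμ
        · exact sub_eq_zero.1 h4
      rw [hlw (X1 *ᵥ Pi.single j 1)] at h2
      simp only [Matrix.mulVec_single_one, Matrix.col_apply] at h2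
      simp only [Matrix.mulVec, dotProduct, Matrix.transpose_apply, Pi.smul_apply, smul_eq_mul]
      exact h2
    have hw0 := kcy_eig σ hσ hσ1 hr X1ᵀ (fun i j => hX j i) hT c1 hc w hw
    refine LinearMap.ext fun z => ?_
    rw [hlw]
    simp [hw0]
  · rw [kcy_sm σ hσ, Matrix.smul_mulVec] at hw
    have h1 : X1 *ᵥ w = c1 • w := by
      have h2 := congrArg (fun v => μ⁻¹ • v) hw
      simp only [smul_smul, inv_mul_cancel₀ hμ, one_smul] at h2
      rwa [← mul_assoc, inv_mul_cancel₀ hμ, one_mul] at h2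
    exact kcy_eig σ hσ hσ1 hr X1 hX h c1 hc w h1

end Pool.Agent.CTG
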