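import Pool.Agent.CTG.KDefs

/-! Inverses and duals over the fixed field: CTG, module KDS. -/

set_option autoImplicit false

namespace Pool.Agent.CTG

open Matrix Pool.Agent.CTC

variable {F : Type*} [Field F]

/-- a subspace invariant under `X⁻¹` is invariant under `X` -/
theorem ki_inv {r : ℕ} (σ : F ≃+* F) (X1 : Matrix (Fin r) (Fin r) F) (hd : X1.det ≠ 0)
    (h : KI σ X1) : KI σ X1⁻¹ := by
  intro v hv hv0 W hvW hW
  have hu : IsUnit X1.det := isUnit_iff_ne_zero.2 hd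
  refine h v hv hv0 W hvW fun w hw => ?_
  let f : W →ₗ[F] W := (Matrix.mulVecLin X1⁻¹).restrict hW
  have hf : ∀ z : W, ((f z : W) : Fin r → F) = X1⁻¹ *ᵥ (z : Fin r → F) := fun z => rfl
  have hinj : Function.Injective f := by
    intro a b hab
    have h1 : X1⁻¹ *ᵥ (a : Fin r → F) = X1⁻¹ *ᵥ (b : Fin r → F) := by
      rw [← hf, ← hf, hab]
    have h2 := congrArg (fun z => X1 *ᵥ z) h1
    simp only [Matrix.mulVec_mulVec, Matrix.mul_nonsing_inv _ hu, Matrix.one_mulVec] at h2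
    exact Subtype.ext h2
  obtain ⟨z, hz⟩ := (LinearMap.injective_iff_surjective.1 hinj) ⟨w, hw⟩
  have h1 : X1⁻¹ *ᵥ (z : Fin r → F) = w := by
    rw [← hf, hz]
  have h2 : X1 *ᵥ w = (z : Fin r → F) := by
    rw [← h1, Matrix.mulVec_mulVec, Matrix.mul_nonsing_inv _ hu, Matrix.one_mulVec]
  rw [h2]
  exact z.2

theorem ds_smul {r : ℕ} (σ : F ≃+* F) (hσ : ∀ z, σ (σ z) = z) (X1 : Matrix (Fin r) (Fin r) F)
    (hX : ∀ i j, σ (X1 i j) = X1 i j) (hd : X1.det ≠ 0) (μ : F) (hμ : μ ≠ 0) :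
    Ds σ (μ • X1) = (σ μ)⁻¹ • (X1ᵀ)⁻¹ ∧ ∀ i j, σ ((X1ᵀ)⁻¹ i j) = (X1ᵀ)⁻¹ i j := by
  have hu : IsUnit (X1ᵀ).det := by
    rw [Matrix.det_transpose]
    exact isUnit_iff_ne_zero.2 hd
  have hσμ : σ μ ≠ 0 := (map_ne_zero σ).2 hμ
  constructor
  · have h1 : ((μ • X1).map σ)ᵀ = σ μ • X1ᵀ := by
      ext i j
      rw [Matrix.transpose_apply, Matrix.map_apply, Matrix.smul_apply, smul_eq_mul, map_mul, hX,
        Matrix.smul_apply, smul_eq_mul, Matrix.transpose_apply]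
    have h2 : (σ μ • X1ᵀ)⁻¹ = (σ μ)⁻¹ • (X1ᵀ)⁻¹ := by
      refine Matrix.inv_eq_right_inv ?_
      rw [smul_mul_smul_comm, mul_inv_cancel₀ hσμ, one_smul, Matrix.mul_nonsing_inv _ hu]
    rw [Ds, h1, h2]
    ext i j
    rw [Matrix.map_apply]
    exact hσ _
  · have h1 : (X1ᵀ)⁻¹ = ((X1ᵀ)⁻¹).map σ := by
      refine Matrix.inv_eq_right_inv ?_
      have h2 : X1ᵀ = (X1ᵀ).map σ := by
        ext i j
        rw [Matrix.map_apply, Matrix.transpose_apply, hX]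
      have h3 : (X1ᵀ * (X1ᵀ)⁻¹).map σ = (X1ᵀ).map σ * ((X1ᵀ)⁻¹).map σ :=
        Matrix.map_mul (f := (σ : F →+* F))
      rw [Matrix.mul_nonsing_inv _ hu, Matrix.map_one _ (map_zero σ) (map_one σ), ← h2] at h3
      exact h3.symm
    intro i j
    conv_rhs => rw [h1]
    rw [Matrix.map_apply]

end Pool.Agent.CTG
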