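import Mathlib

/-!
# CTG / Nt3: the number theory for `σ` of order two and `D` a square
-/

set_option autoImplicit false

namespace Pool.Agent.CTG

variable {F : Type*} [Field F]

/-- `(d / σ d)² = (b^m)²`, so `d / σ d = ± b^m`, and `(b σ b)^m = 1`; `D1 = D / b^m`. -/
theorem nt3 (σ : F ≃+* F) (hσ : ∀ z, σ (σ z) = z) (m : ℕ) (b D : F) (hD : D ≠ 0)
    (hsq : ∃ d : F, D = d * d) (h : b ^ (2 * m) * σ D = D) :
    (b * σ b) ^ m = 1 ∧ ∃ D1 : F, D1 ≠ 0 ∧ σ D1 = D1 ∧ D = b ^ m * D1 := by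
  obtain ⟨d, rfl⟩ := hsq
  have hd : d ≠ 0 := fun h0 => hD (by rw [h0, mul_zero])
  have hb2 : b ^ (2 * m) = b ^ m * b ^ m := by rw [two_mul, pow_add]
  have hb : b ^ m ≠ 0 := by
    intro h0
    apply hD
    rw [← h, hb2, h0, zero_mul, zero_mul]
  have key : (d - b ^ m * σ d) * (d + b ^ m * σ d) = 0 := by
    have e : (d - b ^ m * σ d) * (d + b ^ m * σ d) = d * d - b ^ (2 * m) * (σ d * σ d) := by
      rw [hb2]
      ring
    rw [e, ← map_mul, h, sub_self]
  have h1 : (b * σ b) ^ m = 1 := by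
    rcases mul_eq_zero.1 key with hk | hk
    · have e : d = b ^ m * σ d := sub_eq_zero.1 hk
      have e2 : σ d = (σ b) ^ m * d := by
        have e3 := congrArg σ e
        rwa [map_mul, map_pow, hσ] at e3
      apply mul_right_cancel₀ hd
      rw [one_mul, mul_pow, mul_assoc, ← e2, ← e]
    · have e : d = -(b ^ m * σ d) := eq_neg_of_add_eq_zero_left hk
      have e2 : σ d = -((σ b) ^ m * d) := by
        have e3 := congrArg σ e
        rwa [map_neg, map_mul, map_pow, hσ] at e3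
      apply mul_right_cancel₀ hd
      rw [one_mul, mul_pow]
      calc b ^ m * σ b ^ m * d = -(b ^ m * (-(σ b ^ m * d))) := by ring
        _ = d := by rw [← e2, ← e]
  refine ⟨h1, b ^ m * σ (d * d), mul_ne_zero hb ((map_ne_zero_iff σ σ.injective).2 hD), ?_, ?_⟩
  · rw [map_mul, map_pow, hσ]
    calc σ b ^ m * (d * d) = σ b ^ m * (b ^ (2 * m) * σ (d * d)) := by rw [h]
      _ = (b * σ b) ^ m * (b ^ m * σ (d * d)) := by
        rw [mul_pow, hb2]
        ring
      _ = b ^ m * σ (d * d) := by rw [h1, one_mul]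
  · rw [← mul_assoc, ← hb2]
    exact h.symm

end Pool.Agent.CTG
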