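import Pool.Agent.CTG.Q2

/-! CTG / Real3 (module REAL3): `σ` of order two, congruence of the standard form with a multiple of
its transpose by a matrix of determinant one. -/

set_option autoImplicit false

namespace Pool.Agent.CTG

open Matrix Pool.Agent.CTC

variable {F : Type*} [Field F]

private theorem r3_detJ {ι : Type*} [Fintype ι] [DecidableEq ι] :
    (Matrix.fromBlocks 0 1 1 0 : Matrix (ι ⊕ ι) (ι ⊕ ι) F).det = (-1) ^ Fintype.card ι := by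
  have h : (Matrix.fromBlocks 0 1 1 0 : Matrix (ι ⊕ ι) (ι ⊕ ι) F) =
      Matrix.fromBlocks 1 1 0 1 * Matrix.fromBlocks 1 0 (-1) 1 * Matrix.fromBlocks 1 1 0 1 *
        Matrix.fromBlocks (-1) 0 0 1 := by
    simp [Matrix.fromBlocks_multiply]
  rw [h, Matrix.det_mul, Matrix.det_mul, Matrix.det_mul, Matrix.det_fromBlocks_zero₂₁,
    Matrix.det_fromBlocks_zero₁₂, Matrix.det_fromBlocks_zero₂₁, Matrix.det_neg]
  simp

private theorem r3_mapT_mul {κ : Type*} [Fintype κ] (σ : F ≃+* F) (M N : Matrix κ κ F) :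
    ((M * N).map σ)ᵀ = (N.map σ)ᵀ * (M.map σ)ᵀ := by
  rw [show (M * N).map σ = M.map σ * N.map σ from Matrix.map_mul (f := (σ : F →+* F)),
    Matrix.transpose_mul]

private theorem r3_one {ι : Type*} [DecidableEq ι] (σ : F ≃+* F) :
    ((1 : Matrix ι ι F).map σ)ᵀ = 1 := by
  rw [Matrix.map_one _ (map_zero _) (map_one _), Matrix.transpose_one]

private theorem r3_zero {ι : Type*} (σ : F ≃+* F) : ((0 : Matrix ι ι F).map σ)ᵀ = 0 := by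
  ext i j
  simp

private theorem r3_det {ι : Type*} [Fintype ι] [DecidableEq ι] (σ : F ≃+* F)
    (M : Matrix ι ι F) : (M.map σ)ᵀ.det = σ M.det := by
  rw [Matrix.det_transpose, show M.map σ = σ.toRingHom.mapMatrix M from rfl, ← RingHom.map_det]
  rfl

private theorem r3_hilbert (σ : F ≃+* F) (hσ : ∀ z, σ (σ z) = z) (hσ1 : ∃ z, σ z ≠ z) (y : F)
    (hy : y * σ y = 1) : ∃ ζ : F, ζ ≠ 0 ∧ y * σ ζ = ζ := by
  by_cases h : 1 + y = 0
  · obtain ⟨z, hz⟩ := hσ1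
    have hy' : y = -1 := by linear_combination h
    refine ⟨z - σ z, sub_ne_zero.2 (Ne.symm hz), ?_⟩
    rw [hy', map_sub, hσ]
    ring
  · refine ⟨1 + y, h, ?_⟩
    rw [map_add, map_one]
    linear_combination hy

/-- `u = σ(Z W)^T`, `v = σ(μ) (Z W)⁻¹`, `g = [[0, u], [v, 0]]`; `det g = sg σ(w ζ) σ(μ)^m / (w ζ)`,
`w = det W`, `ζ = det Z`; `y = sg σ(w) σ(μ)^m / w` has `y σ(y) = 1`, so `y = ζ / σ ζ` (Hilbert 90:
`ζ = 1 + y`, or `z - σ z` if `y = -1`). -/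
theorem real3 {ι : Type*} [Fintype ι] [DecidableEq ι] (σ : F ≃+* F) (hσ : ∀ z, σ (σ z) = z)
    (hσ1 : ∃ z, σ z ≠ z) (Θ W : Matrix ι ι F) (μ : F) (hμ : μ ≠ 0) (hΘ : Θ.det ≠ 0)
    (hW : W.det ≠ 0) (h : Θ * W = (μ / σ μ) • (W * (Θ.map σ)ᵀ))
    (hN : (μ * σ μ) ^ Fintype.card ι = 1)
    (hz : ∀ ζ : F, ζ ≠ 0 → ∃ Z : Matrix ι ι F, Z.det = ζ ∧ Z * Θ = Θ * Z) :
    ∃ g : Matrix (ι ⊕ ι) (ι ⊕ ι) F, g.det = 1 ∧
      μ • ((Q2 0 Θ 1).map σ)ᵀ = g * Q2 0 Θ 1 * (g.map σ)ᵀ := by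
  have hσμ : σ μ ≠ 0 := by simpa using hμ
  have hσW : σ W.det ≠ 0 := by simpa using hW
  set m := Fintype.card ι with hm
  obtain ⟨s, hs⟩ : ∃ s : F, s = (-1) ^ m := ⟨_, rfl⟩
  have hs2 : s * s = 1 := by
    rw [hs, ← mul_pow]
    simp
  have hσs : σ s = s := by rw [hs, map_pow, map_neg, map_one]
  obtain ⟨ζ, hζ, hyζ⟩ := r3_hilbert σ hσ hσ1 (s * (σ μ) ^ m * σ W.det / W.det) (by
    rw [map_div₀, map_mul, map_mul, map_pow, hσ, hσ, hσs]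
    have h1 : s * σ μ ^ m * σ W.det / W.det * (s * μ ^ m * W.det / σ W.det) =
        (s * s) * (μ * σ μ) ^ m := by
      rw [mul_pow]
      field_simp
    rw [h1, hs2, hN, one_mul])
  obtain ⟨Z, hZ, hZΘ⟩ := hz ζ hζ
  obtain ⟨V, hV⟩ : ∃ V, V = Z * W := ⟨_, rfl⟩
  have hVd : V.det = ζ * W.det := by rw [hV, Matrix.det_mul, hZ]
  have hVd0 : V.det ≠ 0 := by rw [hVd]; exact mul_ne_zero hζ hW
  have hVu : IsUnit V.det := isUnit_iff_ne_zero.2 hVd0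
  have hV1 : V⁻¹ * V = 1 := Matrix.nonsing_inv_mul V hVu
  have hΘV : Θ * V = (μ / σ μ) • (V * (Θ.map σ)ᵀ) := by
    rw [hV, ← Matrix.mul_assoc, ← hZΘ, Matrix.mul_assoc, h, Matrix.mul_smul, Matrix.mul_assoc]
  have hmapsmul : ∀ (c : F) (M : Matrix ι ι F), ((c • M).map σ)ᵀ = σ c • (M.map σ)ᵀ := by
    intro c M
    ext i j
    simp
  have hVV : (((V.map σ)ᵀ).map σ)ᵀ = V := by
    ext i j
    simp [hσ]
  refine ⟨Matrix.fromBlocks 0 (V.map σ)ᵀ (σ μ • V⁻¹) 0, ?_, ?_⟩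
  · have hJ : (Matrix.fromBlocks 0 (V.map σ)ᵀ (σ μ • V⁻¹) 0 : Matrix (ι ⊕ ι) (ι ⊕ ι) F) =
        Matrix.fromBlocks 0 1 1 0 * Matrix.fromBlocks (σ μ • V⁻¹) 0 0 (V.map σ)ᵀ := by
      simp [Matrix.fromBlocks_multiply]
    rw [hJ, Matrix.det_mul, r3_detJ, Matrix.det_fromBlocks_zero₂₁, Matrix.det_smul, r3_det,
      hVd, map_mul, ← hm, ← hs]
    have h2 : (V⁻¹).det * (ζ * W.det) = 1 := by
      rw [← hVd, ← Matrix.det_mul, hV1, Matrix.det_one]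
    have h3 : (V⁻¹).det = (ζ * W.det)⁻¹ := eq_inv_of_mul_eq_one_left h2
    rw [h3]
    have h4 : s * (σ μ ^ m * (ζ * W.det)⁻¹ * (σ ζ * σ W.det)) =
        (s * (σ μ) ^ m * σ W.det / W.det * σ ζ) / ζ := by
      field_simp
    rw [h4, hyζ, div_self hζ]
  · have e1 : (V.map σ)ᵀ * ((σ μ • V⁻¹).map σ)ᵀ = μ • (1 : Matrix ι ι F) := by
      rw [hmapsmul, hσ, Matrix.mul_smul, ← r3_mapT_mul, hV1, r3_one]
    have e2 : σ μ • V⁻¹ * Θ * V = μ • (Θ.map σ)ᵀ := by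
      rw [Matrix.mul_assoc, hΘV, Matrix.smul_mul, Matrix.mul_smul, ← Matrix.mul_assoc, hV1,
        Matrix.one_mul, smul_smul, mul_div_cancel₀ _ hσμ]
    unfold Q2
    rw [Matrix.fromBlocks_map, Matrix.fromBlocks_map, Matrix.fromBlocks_transpose,
      Matrix.fromBlocks_transpose, Matrix.fromBlocks_smul, Matrix.fromBlocks_multiply,
      Matrix.fromBlocks_multiply, hVV, r3_zero, r3_one]
    simp only [Matrix.zero_mul, Matrix.mul_zero, add_zero, zero_add, Matrix.mul_one, smul_zero]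
    rw [e1, e2]

end Pool.Agent.CTG
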