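import Pool.Agent.CTG.FinF
import Pool.Agent.CTG.Exk
import Pool.Agent.CTG.Kc2
import Pool.Agent.CTG.Kcy
import Pool.Agent.CTG.Kds
import Pool.Agent.CTG.Real3
import Pool.Agent.CTG.Nt3

/-! `n ≥ 6` even, `σ` of order two, `det A` a square; the final theorem (helper47). -/

set_option autoImplicit false

namespace Pool.Agent.CTG

open Matrix Pool.Agent.CTC Module

variable {F : Type*} [Field F]

theorem bl_mul' {ι : Type*} [Fintype ι] (M N : Matrix ι ι F) (c d : F) :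
    Bl M c * Bl N d = Bl (M * N) (c * d) := by
  ext i j
  rcases i with i | i <;> rcases j with j | j <;>
    simp [Bl, Matrix.mul_apply, Fintype.sum_sum_type]

theorem gEk [Finite F] (σ : F ≃+* F) (hσ : ∀ z, σ (σ z) = z) (hσ1 : ∃ z, σ z ≠ z)
    (hq : 7 ≤ Nat.card {z : F // σ z = z}) {r : ℕ} (hr : 2 ≤ r)
    (D : F) (hD : D ≠ 0) (b : F) (hb : b ≠ 0) (hbD : b ^ (2 * (r + 1)) * σ D = D)
    (hsq : ∃ d : F, D = d * d) :
    ∃ S : Matrix ((Fin r ⊕ Unit) ⊕ (Fin r ⊕ Unit)) ((Fin r ⊕ Unit) ⊕ (Fin r ⊕ Unit)) F,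
      S.det = D ∧ Good σ S := by
  obtain ⟨hN, D1, hD1, hσD1, hDD⟩ := nt3 σ hσ (r + 1) b D hD hsq hbD
  obtain ⟨sg, hsg⟩ : ∃ sg : F, sg = (Matrix.fromBlocks 0 1 1 0 :
    Matrix ((Fin r ⊕ Unit) ⊕ (Fin r ⊕ Unit)) ((Fin r ⊕ Unit) ⊕ (Fin r ⊕ Unit)) F).det := ⟨_, rfl⟩
  have hsg2 : sg * sg = 1 := by rw [hsg]; exact sw_det (F := F) _
  have hsg0 : sg ≠ 0 := by intro h; rw [h, zero_mul] at hsg2; exact zero_ne_one hsg2
  have hσsg : σ sg = sg := by rw [hsg]; exact sg_fix σ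
  have hσb : σ b ≠ 0 := by simpa using hb
  obtain ⟨X1, W, c1, hX1, hc1, hc10, hX1d, hWd, hX1c, hXW, hKI, hKIT, k1, k2⟩ :=
    exk σ hq r hr (sg * D1) (b * σ b) (mul_ne_zero hsg0 hD1) (by rw [map_mul, hσsg, hσD1])
      (mul_ne_zero hb hσb) (by rw [map_mul, hσ, mul_comm])
  have hdetX : (b • X1).det = b ^ r * X1.det := by rw [Matrix.det_smul, Fintype.card_fin]
  have hXd : (b • X1).det ≠ 0 := by rw [hdetX]; exact mul_ne_zero (pow_ne_zero _ hb) hX1d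
  have hcd : b * c1 ≠ 0 := mul_ne_zero hb hc10
  have hdet : (Bl (b • X1) (b * c1)).det = sg * D := by
    rw [bl_det, hdetX, hDD]
    linear_combination (b ^ (r + 1)) * hX1c
  have hΘ : (Bl (b • X1) (b * c1)).det ≠ 0 := by rw [hdet]; exact mul_ne_zero hsg0 hD
  have H2 := ki_c2 σ hσ hσ1 hr X1 hX1 hX1d hKI hKIT c1 hc1 hc10 b hb k1 k2
  obtain ⟨cy, nc⟩ := ki_cy_nc σ hσ hσ1 hr X1 hX1 hKI hKIT c1 hc1 b hb
  obtain ⟨hDs, hrat⟩ := ds_smul σ hσ X1 hX1 hX1d b hb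
  have hTd : X1ᵀ.det ≠ 0 := by rw [Matrix.det_transpose]; exact hX1d
  obtain ⟨cy', nc'⟩ := ki_cy_nc σ hσ hσ1 hr (X1ᵀ)⁻¹ hrat (ki_inv σ X1ᵀ hTd hKIT)
    (by rw [Matrix.transpose_nonsing_inv, Matrix.transpose_transpose]; exact ki_inv σ X1 hX1d hKI)
    c1⁻¹ (by rw [map_inv₀, hc1]) (σ b)⁻¹ (inv_ne_zero hσb)
  have FP : FactP (σ.trans σ) (Ds σ (Bl (b • X1) (b * c1))) (Bl (b • X1) (b * c1)) := by
    rw [ds_bl σ _ _ hXd hcd, hDs]
    have h1 : (σ (σ (σ (b * c1))))⁻¹ = (σ b)⁻¹ * c1⁻¹ := by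
      rw [hσ, map_mul, hc1, mul_inv]
    rw [h1]
    refine factP_bl (σ.trans σ) (by omega) _ _ _ _ ?_ hXd
      (mul_ne_zero (inv_ne_zero hσb) (inv_ne_zero hc10)) hcd cy' cy nc' nc
    rw [Matrix.det_smul]
    exact mul_ne_zero (pow_ne_zero _ (inv_ne_zero hσb)) (inv_det_ne hTd)
  obtain ⟨-, y1, -, hy1, -, -, -, -, k3, -⟩ := ex1 σ hq r
  refine ⟨_, gEgen σ (by omega) ⟨y1, hy1, k3⟩ (by omega) D hD _ H2 FP (by rw [hdet, hsg]) ?_⟩
  intro _ b' hb' _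
  obtain ⟨g, hg, hg'⟩ := real3 σ hσ hσ1 (Bl (b • X1) (b * c1)) (Bl W 1) b hb hΘ
    (by rw [bl_det, mul_one]; exact hWd)
    (by
      have h1 : (Bl (b • X1) (b * c1)).map σ = Bl (σ b • X1) (σ b * c1) := by
        ext i j
        rcases i with i | i <;> rcases j with j | j <;> simp [Bl, hX1, hc1]
      have h2 : (Bl (σ b • X1) (σ b * c1))ᵀ = Bl (σ b • X1ᵀ) (σ b * c1) := by
        ext i j
        rcases i with i | i <;> rcases j with j | j <;> simp [Bl]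
      have h3 : ∀ (s : F) (M : Matrix (Fin r) (Fin r) F) (c : F), s • Bl M c = Bl (s • M) (s * c) := by
        intro s M c
        ext i j
        rcases i with i | i <;> rcases j with j | j <;> simp [Bl]
      rw [h1, h2, bl_mul', bl_mul', h3, one_mul, mul_one, Matrix.mul_smul, smul_smul,
        div_mul_cancel₀ _ hσb, ← mul_assoc, div_mul_cancel₀ _ hσb, Matrix.smul_mul, hXW])
    (by simpa using hN)
    (by
      intro ζ _
      refine ⟨Bl 1 ζ, by rw [bl_det, Matrix.det_one, one_mul], ?_⟩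
      rw [bl_mul', bl_mul', one_mul, mul_one, mul_comm ζ])
  refine ⟨b • ((Q2 0 (Bl (b • X1) (b * c1)) 1).map σ)ᵀ, b' / b, div_ne_zero hb' hb, ⟨g, hg, hg'⟩, ?_⟩
  rw [smul_smul, div_mul_cancel₀ _ hb]

theorem gNE2 [Finite F] (σ : F ≃+* F)
    (hq : 7 ≤ Nat.card {z : F // σ z = z}) {n : ℕ} (hn : 6 ≤ n) (ho : Even n) (D : F)
    (hD : D ≠ 0) (hsq : ∃ d : F, D = d * d) :
    ∃ S : Matrix (Fin n) (Fin n) F, S.det = D ∧ Good σ S := by
  by_cases hcase : (∃ z, σ (σ z) ≠ z) ∨ (∀ z, σ z = z) ∨ ∀ b : F, b ^ n * σ D ≠ D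
  · exact gNE σ hq hn ho D hD hcase
  push Not at hcase
  obtain ⟨hσ, hσ1, b, hbD⟩ := hcase
  obtain ⟨m, hm⟩ := ho
  obtain ⟨r, rfl⟩ : ∃ r, m = r + 1 := ⟨m - 1, by omega⟩
  have hn2 : n = 2 * (r + 1) := by omega
  have hb : b ≠ 0 := by
    rintro rfl
    rw [zero_pow (by omega), zero_mul] at hbD
    exact hD hbD.symm
  let e : Fin n ≃ (Fin r ⊕ Unit) ⊕ (Fin r ⊕ Unit) :=
    (Fintype.equivFinOfCardEq (by simp; omega)).symm
  obtain ⟨S, hS, hF⟩ := gEk σ hσ hσ1 hq (r := r) (by omega) D hD b hb (by rw [← hn2]; exact hbD) hsq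
  have hmul : ∀ M N : Matrix ((Fin r ⊕ Unit) ⊕ (Fin r ⊕ Unit))
      ((Fin r ⊕ Unit) ⊕ (Fin r ⊕ Unit)) F,
      (M * N).submatrix e e = M.submatrix e e * N.submatrix e e := by
    intro M N
    rw [Matrix.submatrix_mul_equiv]
  have hT : ∀ M : Matrix ((Fin r ⊕ Unit) ⊕ (Fin r ⊕ Unit))
      ((Fin r ⊕ Unit) ⊕ (Fin r ⊕ Unit)) F,
      ((M.map σ)ᵀ).submatrix e e = ((M.submatrix e e).map σ)ᵀ := fun M => rfl
  have hC : ∀ P, CgS σ S P → CgS σ (S.submatrix e e) (P.submatrix e e) := by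
    rintro P ⟨g, hg, hP⟩
    refine ⟨g.submatrix e e, by rw [Matrix.det_submatrix_equiv_self, hg], ?_⟩
    rw [← hT, ← hmul, ← hmul, ← hP]
  refine ⟨S.submatrix e e, by rw [Matrix.det_submatrix_equiv_self, hS], fun B hB => ?_⟩
  have hB' : (B.submatrix e.symm e.symm).submatrix e e = B := by
    ext i j; simp
  rw [Matrix.det_submatrix_equiv_self] at hB
  obtain ⟨P, Q, μ, hμ, hP, hQ, hPQ⟩ := hF (B.submatrix e.symm e.symm) (by
    rw [Matrix.det_submatrix_equiv_self, hB])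
  refine ⟨_, _, μ, hμ, hC P hP, hC Q hQ, ?_⟩
  rw [← hT, ← hB', ← hmul, ← hPQ]
  rfl

open scoped Pointwise in
theorem mainY [Finite F] (σ : F ≃+* F) {n : ℕ} (hn : 3 ≤ n)
    (A : Matrix (Fin n) (Fin n) F) (hA : A.det ≠ 0) (α : MulAut (CosetT.PSLn n F))
    (hα : IndG α A σ)
    (hq : 8 ≤ Nat.card {z : F // σ z = z} ∨ (n ≠ 4 ∧ 7 ≤ Nat.card {z : F // σ z = z}))
    (hcase : Odd n ∨ (∃ z, σ (σ z) ≠ z) ∨ (∀ z, σ z = z) ∨
      (¬ ∃ g : CosetT.PSLn n F, α ^ 2 = MulAut.conj g) ∨ (n ≠ 4 ∧ ∃ d : F, A.det = d * d)) :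
    ∃ x ∈ CosetT.coset α, CosetT.cls x * CosetT.cls x = CosetT.coset (α ^ 2) := by
  by_cases h : Odd n ∨ (∃ z, σ (σ z) ≠ z) ∨ (∀ z, σ z = z) ∨
      ¬ ∃ g : CosetT.PSLn n F, α ^ 2 = MulAut.conj g
  · exact mainX σ hn A hA α hα hq h
  · have h1 : n ≠ 4 ∧ ∃ d : F, A.det = d * d := by
      rcases hcase with h1 | h1 | h1 | h1 | h1
      · exact absurd (Or.inl h1) h
      · exact absurd (Or.inr (Or.inl h1)) h
      · exact absurd (Or.inr (Or.inr (Or.inl h1))) h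
      · exact absurd (Or.inr (Or.inr (Or.inr h1))) h
      · exact h1
    have ho : Even n := by
      rw [← Nat.not_odd_iff_even]
      exact fun h2 => h (Or.inl h2)
    have hq7 : 7 ≤ Nat.card {z : F // σ z = z} := by
      rcases hq with h | ⟨-, h⟩ <;> omega
    obtain ⟨m, hm⟩ := ho
    obtain ⟨S, hS, hF⟩ := gNE2 σ hq7 (n := n) (by omega) ⟨m, hm⟩ A.det hA h1.2
    exact packG1 A hA α hα S hS hF

end Pool.Agent.CTG
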