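import Pool.Agent.CTG.FinK
import Pool.Agent.CTG.Ex4k

/-! `n = 4`, `σ` of order two, `det A` a square; the final theorem (helper47). -/

set_option autoImplicit false

namespace Pool.Agent.CTG

open Matrix Pool.Agent.CTC Module

variable {F : Type*} [Field F]

theorem gE4k [Finite F] (σ : F ≃+* F) (hσ : ∀ z, σ (σ z) = z) (hσ1 : ∃ z, σ z ≠ z)
    (hq : 8 ≤ Nat.card {z : F // σ z = z}) (D : F) (hD : D ≠ 0) (b : F) (hb : b ≠ 0)
    (hbD : b ^ 4 * σ D = D) (hsq : ∃ d : F, D = d * d) :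
    ∃ (lam : F) (S : Matrix ((Fin 1 ⊕ Unit) ⊕ (Fin 1 ⊕ Unit)) ((Fin 1 ⊕ Unit) ⊕ (Fin 1 ⊕ Unit)) F),
      lam ≠ 0 ∧ S.det = lam ^ 4 * D ∧ Good σ S := by
  obtain ⟨hN, D1, hD1, hσD1, hDD⟩ := nt3 σ hσ 2 b D hD hsq (by simpa using hbD)
  obtain ⟨sg, hsg⟩ : ∃ sg : F, sg = (Matrix.fromBlocks 0 1 1 0 :
    Matrix ((Fin 1 ⊕ Unit) ⊕ (Fin 1 ⊕ Unit)) ((Fin 1 ⊕ Unit) ⊕ (Fin 1 ⊕ Unit)) F).det := ⟨_, rfl⟩
  have hsg2 : sg * sg = 1 := by rw [hsg]; exact sw_det (F := F) _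
  have hsg0 : sg ≠ 0 := by intro h; rw [h, zero_mul] at hsg2; exact zero_ne_one hsg2
  have hσsg : σ sg = sg := by rw [hsg]; exact sg_fix σ
  have hσb : σ b ≠ 0 := by simpa using hb
  obtain ⟨lam, t1, c1, hlam, ht1, hc1, hσl, hσt, hσc, htc, m1, m2, m3, m4⟩ :=
    ex4k σ hq (sg * D1) (b * σ b) (mul_ne_zero hsg0 hD1) (by rw [map_mul, hσsg, hσD1])
      (by rw [← hN]; ring) (by rw [map_mul, hσ, mul_comm])
  have hNm : ∀ x, Nm (σ.trans σ) x = x := nm_one (σ.trans σ) hσ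
  have ht : b * t1 ≠ 0 := mul_ne_zero hb ht1
  have hc : b * c1 ≠ 0 := mul_ne_zero hb hc1
  have hdet : (Bl (Cn 1 (b * t1)) (b * c1)).det = sg * (lam ^ 4 * D) := by
    rw [bl_det, cn_det]
    simp only [one_ne_zero, if_false, Nat.sub_self, pow_zero, one_mul]
    rw [hDD]
    linear_combination (b ^ 2) * htc
  have hD' : lam ^ 4 * D ≠ 0 := mul_ne_zero (pow_ne_zero _ hlam) hD
  have hΘ : (Bl (Cn 1 (b * t1)) (b * c1)).det ≠ 0 := by rw [hdet]; exact mul_ne_zero hsg0 hD'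
  obtain ⟨-, y1, -, hy1, -, -, -, -, k3, -⟩ := ex1 σ (by omega) 1
  refine ⟨lam, _, hlam, gEgen σ (by omega) ⟨y1, hy1, k3⟩ le_rfl (lam ^ 4 * D) hD'
    (Bl (Cn 1 (b * t1)) (b * c1))
    (fun w hw => cn_c2 σ 1 (b * t1) (b * c1) ht hc ?_ ?_ ?_ w hw)
    (fact_cn σ 1 (b * t1) (b * c1) ht hc ?_) (by rw [hdet, hsg]) ?_⟩
  · rw [hNm, map_mul, hσt]
    intro h; apply m2; rw [← h]; ring
  · rw [hNm, map_mul, hσc]
    intro h; apply m3; rw [← h]; ring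
  · rw [hNm, hNm, map_mul, hσc, pow_one]
    intro h; apply m4; rw [← h]; ring
  · rw [hNm, hNm, pow_one]
    intro h; exact m1 (mul_left_cancel₀ hb h)
  intro _ b' hb' _
  obtain ⟨g, hg, hg'⟩ := real3 σ hσ hσ1 (Bl (Cn 1 (b * t1)) (b * c1)) 1 b hb hΘ
    (by rw [Matrix.det_one]; exact one_ne_zero)
    (by
      rw [mul_one, one_mul]
      ext i j
      rcases i with i | i <;> rcases j with j | j
      · have hi : i = 0 := Subsingleton.elim _ _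
        have hj : j = 0 := Subsingleton.elim _ _
        subst hi; subst hj
        simp only [Matrix.smul_apply, Matrix.transpose_apply, Matrix.map_apply, smul_eq_mul]
        simp only [Bl, Matrix.fromBlocks_apply₁₁, Cn]
        simp [hσt]
        field_simp
      · simp [Bl]
      · simp [Bl]
      · simp [Bl, hσc]
        field_simp)
    (by simpa using hN)
    (by
      intro ζ _
      refine ⟨Bl 1 ζ, by rw [bl_det, Matrix.det_one, one_mul], ?_⟩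
      rw [bl_mul', bl_mul', one_mul, mul_one, mul_comm ζ])
  refine ⟨b • ((Q2 0 (Bl (Cn 1 (b * t1)) (b * c1)) 1).map σ)ᵀ, b' / b, div_ne_zero hb' hb,
    ⟨g, hg, hg'⟩, ?_⟩
  rw [smul_smul, div_mul_cancel₀ _ hb]

open scoped Pointwise in
theorem fin4 [Finite F] (σ : F ≃+* F)
    (A : Matrix (Fin 4) (Fin 4) F) (hA : A.det ≠ 0) (α : MulAut (CosetT.PSLn 4 F))
    (hα : IndG α A σ) (lam : F)
    (S : Matrix ((Fin 1 ⊕ Unit) ⊕ (Fin 1 ⊕ Unit)) ((Fin 1 ⊕ Unit) ⊕ (Fin 1 ⊕ Unit)) F)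
    (hlam : lam ≠ 0) (hS : S.det = lam ^ 4 * A.det) (hF : Good σ S) :
    ∃ x ∈ CosetT.coset α, CosetT.cls x * CosetT.cls x = CosetT.coset (α ^ 2) := by
  let e : Fin 4 ≃ (Fin 1 ⊕ Unit) ⊕ (Fin 1 ⊕ Unit) :=
    (Fintype.equivFinOfCardEq (by simp)).symm
  have hmul : ∀ M N : Matrix ((Fin 1 ⊕ Unit) ⊕ (Fin 1 ⊕ Unit))
      ((Fin 1 ⊕ Unit) ⊕ (Fin 1 ⊕ Unit)) F,
      (M * N).submatrix e e = M.submatrix e e * N.submatrix e e := by
    intro M N
    rw [Matrix.submatrix_mul_equiv]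
  have hT : ∀ M : Matrix ((Fin 1 ⊕ Unit) ⊕ (Fin 1 ⊕ Unit))
      ((Fin 1 ⊕ Unit) ⊕ (Fin 1 ⊕ Unit)) F,
      ((M.map σ)ᵀ).submatrix e e = ((M.submatrix e e).map σ)ᵀ := fun M => rfl
  have hC : ∀ P, CgS σ S P → CgS σ (S.submatrix e e) (P.submatrix e e) := by
    rintro P ⟨g, hg, hP⟩
    refine ⟨g.submatrix e e, by rw [Matrix.det_submatrix_equiv_self, hg], ?_⟩
    rw [← hT, ← hmul, ← hmul, ← hP]
  have hα' : IndG α (lam • A) σ := by
    intro g g' hg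
    apply hα g g'
    rw [Matrix.mul_smul, Matrix.smul_mul] at hg
    have h1 := congrArg (fun M => lam⁻¹ • M) hg
    simpa [smul_smul, inv_mul_cancel₀ hlam] using h1
  have hA' : (lam • A).det = lam ^ 4 * A.det := by
    rw [Matrix.det_smul]; simp
  refine packG1 (lam • A) (by rw [hA']; exact mul_ne_zero (pow_ne_zero _ hlam) hA) α hα'
    (S.submatrix e e) (by rw [Matrix.det_submatrix_equiv_self, hS, hA']) fun B hB => ?_
  have hB' : (B.submatrix e.symm e.symm).submatrix e e = B := by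
    ext i j; simp
  rw [Matrix.det_submatrix_equiv_self] at hB
  obtain ⟨P, Q, μ, hμ, hP, hQ, hPQ⟩ := hF (B.submatrix e.symm e.symm) (by
    rw [Matrix.det_submatrix_equiv_self, hB])
  refine ⟨_, _, μ, hμ, hC P hP, hC Q hQ, ?_⟩
  rw [← hT, ← hB', ← hmul, ← hPQ]
  rfl

open scoped Pointwise in
theorem mainZ [Finite F] (σ : F ≃+* F) {n : ℕ} (hn : 3 ≤ n)
    (A : Matrix (Fin n) (Fin n) F) (hA : A.det ≠ 0) (α : MulAut (CosetT.PSLn n F))
    (hα : IndG α A σ)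
    (hq : 8 ≤ Nat.card {z : F // σ z = z} ∨ (n ≠ 4 ∧ 7 ≤ Nat.card {z : F // σ z = z}))
    (hcase : Odd n ∨ (∃ z, σ (σ z) ≠ z) ∨ (∀ z, σ z = z) ∨
      (¬ ∃ g : CosetT.PSLn n F, α ^ 2 = MulAut.conj g) ∨ IsSquare A.det) :
    ∃ x ∈ CosetT.coset α, CosetT.cls x * CosetT.cls x = CosetT.coset (α ^ 2) := by
  by_cases h : Odd n ∨ (∃ z, σ (σ z) ≠ z) ∨ (∀ z, σ z = z) ∨
      (¬ ∃ g : CosetT.PSLn n F, α ^ 2 = MulAut.conj g) ∨ (n ≠ 4 ∧ ∃ d : F, A.det = d * d)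
  · exact mainY σ hn A hA α hα hq h
  · have h1 : IsSquare A.det := by
      rcases hcase with h1 | h1 | h1 | h1 | h1
      · exact absurd (Or.inl h1) h
      · exact absurd (Or.inr (Or.inl h1)) h
      · exact absurd (Or.inr (Or.inr (Or.inl h1))) h
      · exact absurd (Or.inr (Or.inr (Or.inr (Or.inl h1)))) h
      · exact h1
    have h4 : n = 4 := by
      by_contra h4
      exact h (Or.inr (Or.inr (Or.inr (Or.inr ⟨h4, h1⟩))))
    subst h4
    have hσ : ∀ z, σ (σ z) = z := by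
      by_contra h5
      push Not at h5
      exact h (Or.inr (Or.inl h5))
    have hσ1 : ∃ z, σ z ≠ z := by
      by_contra h5
      push Not at h5
      exact h (Or.inr (Or.inr (Or.inl h5)))
    have hq8 : 8 ≤ Nat.card {z : F // σ z = z} := by
      rcases hq with h5 | ⟨h5, -⟩
      · exact h5
      · exact absurd rfl h5
    by_cases hb : ∀ b : F, b ^ 4 * σ A.det ≠ A.det
    · obtain ⟨lam, S, hlam, hS, hF⟩ := gE4 σ hq8 A.det hA (Or.inr (Or.inr hb))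
      exact fin4 σ A hA α hα lam S hlam hS hF
    · push Not at hb
      obtain ⟨b, hbD⟩ := hb
      have hb0 : b ≠ 0 := by
        rintro rfl
        rw [zero_pow (by norm_num), zero_mul] at hbD
        exact hA hbD.symm
      obtain ⟨lam, S, hlam, hS, hF⟩ := gE4k σ hσ hσ1 hq8 A.det hA b hb0 hbD h1
      exact fin4 σ A hA α hα lam S hlam hS hF

end Pool.Agent.CTG
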