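import Pool.Agent.CTG.Defs

/-! The standard form is congruent to a multiple of its dual, general `Θ` (CTG, N2). -/

set_option autoImplicit false

namespace Pool.Agent.CTG

open Matrix Pool.Agent.CTC

variable {F : Type*} [Field F]

private theorem re_sm {ι : Type*} [DecidableEq ι] (Θ : Matrix ι ι F) (ν : F) :
    Sm Θ ν = Matrix.fromBlocks (Matrix.fromBlocks 0 Θ 1 0) 0 0 (ν • (1 : Matrix Unit Unit F)) := by
  unfold Sm Qm
  congr 1
  · ext i j
    rcases i with i | i <;> rfl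
  · ext i j
    rcases j with j | j <;> rfl
  · ext i j
    simp

private theorem re_aux {ι : Type*} [Fintype ι] [DecidableEq ι] (σ : F ≃+* F)
    (hσ : ∀ z, σ (σ z) = z) (s ν : F) (hs : s * σ s = 1) (hν : s * σ ν = ν)
    (Θ W W' : Matrix ι ι F) (hW : W * W' = 1)
    (hΘ : Θ * W = (s * s) • (W * (Θ.map σ)ᵀ)) :
    Cg σ (Sm Θ ν) (s • ((Sm Θ ν).map σ)ᵀ) := by
  have hW' : W' * W = 1 := mul_eq_one_comm.1 hW
  have hs0 : s ≠ 0 := left_ne_zero_of_mul_eq_one hs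
  have hsi : s⁻¹ * s = 1 := inv_mul_cancel₀ hs0
  have hσs : σ s⁻¹ = s := by
    rw [map_inv₀]
    exact inv_eq_of_mul_eq_one_left hs
  have hmm : ∀ A B : Matrix ι ι F, (A * B).map σ = A.map σ * B.map σ := fun A B =>
    Matrix.map_mul (f := (σ : F →+* F))
  have hm1 : ((1 : Matrix ι ι F)).map σ = 1 := Matrix.map_one _ (map_zero σ) (map_one σ)
  have hm0 : ((0 : Matrix ι ι F)).map σ = 0 := Matrix.map_zero _ (map_zero σ)
  have hσσ : ∀ A : Matrix ι ι F, (((A.map σ)ᵀ).map σ)ᵀ = A := by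
    intro A
    ext i j
    simp [hσ]
  have hsm : ∀ (c : F) (A : Matrix ι ι F), (c • A).map σ = σ c • A.map σ := by
    intro c A
    ext i j
    simp
  have h1 : (W.map σ)ᵀ * (W'.map σ)ᵀ = 1 := by
    rw [← Matrix.transpose_mul, ← hmm, hW', hm1, Matrix.transpose_one]
  refine ⟨Matrix.fromBlocks (Matrix.fromBlocks 0 (W.map σ)ᵀ (s⁻¹ • W') 0) 0 0 1, ?_, ?_⟩
  · have h2 : Matrix.fromBlocks (Matrix.fromBlocks 0 (W.map σ)ᵀ (s⁻¹ • W') 0) 0 0
        (1 : Matrix Unit Unit F) *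
        Matrix.fromBlocks (Matrix.fromBlocks 0 (s • W) (W'.map σ)ᵀ 0) 0 0 1 = 1 := by
      rw [Matrix.fromBlocks_multiply, Matrix.fromBlocks_multiply]
      simp only [Matrix.zero_mul, Matrix.mul_zero, add_zero, zero_add, Matrix.smul_mul,
        Matrix.mul_smul, h1, hW', smul_smul, mul_inv_cancel₀ hs0, one_smul, Matrix.mul_one,
        smul_zero, Matrix.fromBlocks_one]
    have h3 := congrArg Matrix.det h2
    rw [Matrix.det_mul, Matrix.det_one] at h3
    exact left_ne_zero_of_mul_eq_one h3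
  · have h4 : (s⁻¹ • W') * Θ * W = s • (Θ.map σ)ᵀ := by
      rw [Matrix.mul_assoc, hΘ, Matrix.smul_mul, Matrix.mul_smul, ← Matrix.mul_assoc, hW',
        Matrix.one_mul, smul_smul, ← mul_assoc, hsi, one_mul]
    have h5 : (W.map σ)ᵀ * (s • (W'.map σ)ᵀ) = s • (1 : Matrix ι ι F) := by
      rw [Matrix.mul_smul, h1]
    have h6 : (ν • (1 : Matrix Unit Unit F)).map σ = σ ν • 1 := by
      ext i j
      simp
    rw [re_sm]
    simp only [Matrix.fromBlocks_map, Matrix.fromBlocks_transpose, Matrix.fromBlocks_smul,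
      Matrix.fromBlocks_multiply, hσσ, hsm, hσs, Matrix.transpose_smul, h6,
      Matrix.map_zero _ (map_zero σ), Matrix.map_one _ (map_zero σ) (map_one σ),
      Matrix.transpose_zero, Matrix.transpose_one, Matrix.zero_mul, Matrix.mul_zero, add_zero,
      zero_add, Matrix.mul_one, Matrix.one_mul, smul_zero, h4, h5, smul_smul, hν]

/-- `s = y / σ y`, `s σ(s) = 1`; `u = σ(W)^T`, `v = s⁻¹ W⁻¹`, `g = [[0, u], [v, 0]] ⊕ 1`. -/
theorem real1g {ι : Type*} [Fintype ι] [DecidableEq ι] (σ : F ≃+* F) (hσ : ∀ z, σ (σ z) = z) (Θ W : Matrix ι ι F) (y ν1 : F) (hy : y ≠ 0) (hν1 : σ ν1 = ν1) (hW : W.det ≠ 0) (h : Θ * W = W * ((y / σ y * (y / σ y)) • (Θ.map σ)ᵀ)) : Cg σ (Sm Θ (y * ν1)) ((y / σ y) • ((Sm Θ (y * ν1)).map σ)ᵀ) := by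
  have hσy : σ y ≠ 0 := (map_ne_zero σ).2 hy
  have hss : y / σ y * σ (y / σ y) = 1 := by
    rw [map_div₀, hσ]
    field_simp
  refine re_aux σ hσ (y / σ y) (y * ν1) hss ?_ Θ W W⁻¹
    (Matrix.mul_nonsing_inv W (isUnit_iff_ne_zero.2 hW)) ?_
  · rw [map_mul, hν1]
    field_simp
  · rw [h, Matrix.mul_smul]

end Pool.Agent.CTG
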