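import Pool.Agent.CTG.FinL
import Pool.Agent.CTG.AsmG
import Pool.Agent.CTG.Exk2
import Pool.Agent.CTG.Real1g
import Pool.Agent.CTG.Ex3

/-! `n` odd, `n ≠ 5`, `|Fix σ| ≥ 4` (helper47). -/

set_option autoImplicit false

namespace Pool.Agent.CTG

open Matrix Pool.Agent.CTC Module

variable {F : Type*} [Field F]

theorem gOgen [Finite F] (σ : F ≃+* F) (hq : 3 ≤ Nat.card {z : F // σ z = z})
    (hy : ∃ y : F, y ≠ 0 ∧ y * y ≠ 1) {r : ℕ} (D : F) (hD : D ≠ 0)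
    (Θ : Matrix (Fin r ⊕ Unit) (Fin r ⊕ Unit) F) (ν : F) (hν : ν ≠ 0)
    (hdet : Θ.det * ν = (Matrix.fromBlocks 0 1 1 0 :
      Matrix ((Fin r ⊕ Unit) ⊕ (Fin r ⊕ Unit)) ((Fin r ⊕ Unit) ⊕ (Fin r ⊕ Unit)) F).det * D)
    (H1 : ∀ x : (Fin r ⊕ Unit) → F, sm (σ.trans σ) Θ x = (ν / σ ν) • x → x = 0)
    (H2 : ∀ w : Matrix (Fin r ⊕ Unit) (Fin r ⊕ Unit) F, w = -(Θ * (w.map σ)ᵀ) → w = 0)
    (FP : FactP (σ.trans σ) (Ds σ Θ) Θ)
    (hsc : (∀ z, σ (σ z) = z) → ∀ b : F, b ≠ 0 → b ^ (2 * (r + 1) + 1) * σ D = D →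
      ∃ (P : Matrix (((Fin r ⊕ Unit) ⊕ (Fin r ⊕ Unit)) ⊕ Unit)
        (((Fin r ⊕ Unit) ⊕ (Fin r ⊕ Unit)) ⊕ Unit) F) (μ : F),
        μ ≠ 0 ∧ CgS σ (Sm Θ ν) P ∧ μ • P = b • ((Sm Θ ν).map σ)ᵀ) :
    (Sm Θ ν).det = D ∧ Good σ (Sm Θ ν) := by
  have hsg2 := sw_det (F := F) (Fin r ⊕ Unit)
  have hsg0 : (Matrix.fromBlocks 0 1 1 0 :
      Matrix ((Fin r ⊕ Unit) ⊕ (Fin r ⊕ Unit)) ((Fin r ⊕ Unit) ⊕ (Fin r ⊕ Unit)) F).det ≠ 0 := by
    intro h; rw [h, zero_mul] at hsg2; exact zero_ne_one hsg2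
  have hSdet := sm_det' Θ ν D hν hdet
  have hΘ : Θ.det ≠ 0 := by
    intro h
    rw [h, zero_mul] at hdet
    exact mul_ne_zero hsg0 hD hdet.symm
  obtain ⟨T0, hT0⟩ : ∃ T0, σ T0 = Θ.det := ⟨σ.symm Θ.det, σ.apply_symm_apply _⟩
  have u0 : T0 ≠ 0 := by intro h; rw [h, map_zero] at hT0; exact hΘ hT0.symm
  have u1 : σ T0 ≠ 0 := by simpa using u0
  have u2 : σ (σ T0) ≠ 0 := by simpa using u0
  have hh30 : σ T0 * σ (σ T0) / T0 ≠ 0 := div_ne_zero (mul_ne_zero u1 u2) u0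
  have hTs : ∀ {x : Matrix (Fin r ⊕ Unit) (Fin r ⊕ Unit) F}, x.det ≠ 0 → (Ts σ x).det ≠ 0 := by
    intro x hx; rw [Ts_det]; simpa using hx
  refine ⟨hSdet, fun B hB => ?_⟩
  rw [hSdet] at hB
  have hB0 : B.det ≠ 0 := by
    intro h; rw [h, zero_mul] at hB; exact hD hB.symm
  by_cases hτ : ∃ z, σ (σ z) ≠ z
  · obtain ⟨g, L11, L31, L33, U11, U13, U33, E1, E3, l21, l32, u12, u23, hg, hBg, hU1, hU3, hb1,
      hs3⟩ := dec σ hτ hq (m := r + 1) (by omega) (ι := Fin r ⊕ Unit) (by simp) (σ T0)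
        (B.det / (σ T0 * (σ T0 * σ (σ T0) / T0))) (σ T0 * σ (σ T0) / T0)
        u1 (div_ne_zero hB0 (mul_ne_zero u1 hh30)) hh30 B (by field_simp)
    have hb10 : (L11 * E1 * U11).det ≠ 0 := by rw [hb1]; exact u1
    have hs30 : (L33 * E3 * U33).det ≠ 0 := by rw [hs3]; exact hh30
    obtain ⟨β, hβ, hβns⟩ : ∃ β : Matrix (Fin r ⊕ Unit) (Fin r ⊕ Unit) F, β.det = σ T0 / T0 ∧
        (2 ≤ Fintype.card (Fin r ⊕ Unit) → ¬ ∃ μ : F, β⁻¹ * (L33 * E3 * U33) *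
          β.map (σ.trans σ) * Ts σ (Ts σ ((Ts σ (L11 * E1 * U11))⁻¹)) =
            μ • (1 : Matrix (Fin r ⊕ Unit) (Fin r ⊕ Unit) F)) := by
      by_cases h2 : 2 ≤ Fintype.card (Fin r ⊕ Unit)
      · obtain ⟨β, h4, h5⟩ := nsc h2 (σ.trans σ) hτ (L33 * E3 * U33)
          (Ts σ (Ts σ ((Ts σ (L11 * E1 * U11))⁻¹))) hs30 (hTs (hTs (inv_det_ne (hTs hb10))))
          (σ T0 / T0) (div_ne_zero u1 u0)
        exact ⟨β, h4, fun _ => h5⟩
      · refine ⟨Bl 1 (σ T0 / T0), by rw [bl_det, Matrix.det_one, one_mul], fun h => absurd h h2⟩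
    obtain ⟨P, Q, hP, hQ, hPQ⟩ := gcoreG σ D hD Θ ν hν _ rfl hdet H1 H2 FP B hB T0
      hT0 g L11 L31 L33 U11 U13 U33 E1 E3 l21 l32 u12 u23 hg hBg hU1 hU3 hb1 hs3 β hβ hβns
    exact ⟨P, Q, 1, one_ne_zero, hP, hQ, by rw [one_smul]; exact hPQ⟩
  · push Not at hτ
    have hmap : ∀ {κ : Type} (M : Matrix κ κ F), M.map (σ.trans σ) = M := by
      intro κ M; ext i j; exact hτ _
    have hTT : ∀ M : Matrix (Fin r ⊕ Unit) (Fin r ⊕ Unit) F, Ts σ (Ts σ M) = M := hmap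
    have hcard : Fintype.card (((Fin r ⊕ Unit) ⊕ (Fin r ⊕ Unit)) ⊕ Unit) = 2 * (r + 1) + 1 := by
      simp; omega
    by_cases hBs : ∃ b : F, B = b • (1 : Matrix (((Fin r ⊕ Unit) ⊕ (Fin r ⊕ Unit)) ⊕ Unit)
        (((Fin r ⊕ Unit) ⊕ (Fin r ⊕ Unit)) ⊕ Unit) F)
    · obtain ⟨b, rfl⟩ := hBs
      have hb : b ≠ 0 := by
        rintro rfl
        rw [zero_smul, Matrix.det_zero, zero_mul] at hB
        exact hD hB.symm
      rw [Matrix.det_smul, Matrix.det_one, mul_one, hcard] at hB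
      obtain ⟨P, μ, hμ, hP, hPb⟩ := hsc hτ b hb hB
      refine ⟨P, Sm Θ ν, μ, hμ, hP, ⟨1, Matrix.det_one, ?_⟩, ?_⟩
      · rw [Matrix.map_one _ (map_zero σ) (map_one σ), Matrix.transpose_one, one_mul, mul_one]
      · rw [hPb, Matrix.smul_mul, one_mul]
    · obtain ⟨x, hx, hxx⟩ : ∃ x : F, x ≠ 0 ∧ x * x ≠ σ T0 := by
        by_cases h : (1 : F) = σ T0
        · obtain ⟨x1, hx1, hx1'⟩ := hy
          exact ⟨x1, hx1, by rw [← h]; exact hx1'⟩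
        · exact ⟨1, one_ne_zero, by rw [one_mul]; exact h⟩
      obtain ⟨g, L11, L31, L33, U11, U13, U33, E1, E3, l21, l32, u12, u23, hg, hBg, hU1, hU3, hb1,
        hs3, hb1ns⟩ := dec1 (m := r + 1) (by omega) (ι := Fin r ⊕ Unit) (by simp) (σ T0)
          (B.det / (σ T0 * (σ T0 * σ (σ T0) / T0))) (σ T0 * σ (σ T0) / T0) x
          u1 (div_ne_zero hB0 (mul_ne_zero u1 hh30)) hh30 hx hxx B (by field_simp) hBs
      have hb10 : (L11 * E1 * U11).det ≠ 0 := by rw [hb1]; exact u1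
      have hs30 : (L33 * E3 * U33).det ≠ 0 := by rw [hs3]; exact hh30
      obtain ⟨β, hβ, hβns⟩ : ∃ β : Matrix (Fin r ⊕ Unit) (Fin r ⊕ Unit) F, β.det = σ T0 / T0 ∧
          (2 ≤ Fintype.card (Fin r ⊕ Unit) → ¬ ∃ μ : F, β⁻¹ * (L33 * E3 * U33) *
            β.map (σ.trans σ) * Ts σ (Ts σ ((Ts σ (L11 * E1 * U11))⁻¹)) =
              μ • (1 : Matrix (Fin r ⊕ Unit) (Fin r ⊕ Unit) F)) := by
        by_cases h2 : 2 ≤ Fintype.card (Fin r ⊕ Unit)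
        · have hN : ¬ ∃ μ : F, (Ts σ (L11 * E1 * U11))⁻¹ =
              μ • (1 : Matrix (Fin r ⊕ Unit) (Fin r ⊕ Unit) F) := by
            rintro ⟨μ, hμ⟩
            have hμ0 : μ ≠ 0 := by
              rintro rfl
              rw [zero_smul] at hμ
              have h4 := inv_det_ne (hTs hb10)
              rw [hμ, Matrix.det_zero] at h4
              exact h4 rfl
            apply hb1ns (by simpa using h2)
            refine ⟨σ μ⁻¹, ?_⟩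
            have h4 := minv (hTs hb10)
            rw [hμ, Matrix.mul_smul, mul_one] at h4
            have h5 : Ts σ (L11 * E1 * U11) =
                μ⁻¹ • (1 : Matrix (Fin r ⊕ Unit) (Fin r ⊕ Unit) F) := by
              rw [← h4, smul_smul, inv_mul_cancel₀ hμ0, one_smul]
            rw [← hTT (L11 * E1 * U11), h5]
            ext i j
            simp only [Ts, Matrix.transpose_apply, Matrix.map_apply, Matrix.smul_apply,
              Matrix.one_apply, smul_eq_mul, map_mul, eq_comm]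
            split_ifs <;> simp
          obtain ⟨β, h4, h5⟩ := nsc1 h2 (L33 * E3 * U33)
            ((Ts σ (L11 * E1 * U11))⁻¹) hs30 (inv_det_ne (hTs hb10)) hN
            (σ T0 / T0) (div_ne_zero u1 u0)
          refine ⟨β, h4, fun _ => ?_⟩
          rw [hTT, hmap]
          exact h5
        · refine ⟨Bl 1 (σ T0 / T0), by rw [bl_det, Matrix.det_one, one_mul],
            fun h => absurd h h2⟩
      obtain ⟨P, Q, hP, hQ, hPQ⟩ := gcoreG σ D hD Θ ν hν _ rfl hdet H1 H2 FP B hB T0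
        hT0 g L11 L31 L33 U11 U13 U33 E1 E3 l21 l32 u12 u23 hg (by rw [hmap]; exact hBg) hU1 hU3
        hb1 hs3 β hβ hβns
      exact ⟨P, Q, 1, one_ne_zero, hP, hQ, by rw [one_smul]; exact hPQ⟩

end Pool.Agent.CTG
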