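import Pool.Agent.CTG.FinO

/-! `n` odd, `n ≠ 5`, `|Fix σ| ≥ 4`: existence (helper47). -/

set_option autoImplicit false

namespace Pool.Agent.CTG

open Matrix Pool.Agent.CTC Module

variable {F : Type*} [Field F]

theorem kap_ne [Finite F] (σ : F ≃+* F) (ν c : F) (hν : ν ≠ 0)
    (h : Nm (σ.trans σ) c * σ (Nm (σ.trans σ) c) ≠ 1) :
    Nm (σ.trans σ) c ≠ Nm (σ.trans σ) (ν / σ ν) := by
  intro h1
  apply h
  have hσν : σ ν ≠ 0 := by simpa using hν
  have hn := nm_ne (σ.trans σ) ν hν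
  have h2 : Nm (σ.trans σ) (ν / σ ν) * σ (Nm (σ.trans σ) ν) = Nm (σ.trans σ) ν := by
    rw [nm_comm σ (σ.trans σ) (fun z => rfl), ← nm_mul, div_mul_cancel₀ _ hσν]
  have h3 : σ (σ (Nm (σ.trans σ) ν)) = Nm (σ.trans σ) ν := nm_fix (σ.trans σ) ν
  have h4 := congrArg σ h2
  rw [map_mul, h3] at h4
  have hσn : σ (Nm (σ.trans σ) ν) ≠ 0 := by simpa using hn
  rw [h1]
  apply mul_right_cancel₀ hn
  rw [one_mul, mul_assoc, h4, h2]

theorem h1_bl [Finite F] (σ : F ≃+* F) {ι : Type*} [Fintype ι] [DecidableEq ι]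
    (X : Matrix ι ι F) (c ν : F)
    (hX : NC (σ.trans σ) X (ν / σ ν))
    (hn : Nm (σ.trans σ) c ≠ Nm (σ.trans σ) (ν / σ ν)) :
    ∀ x : (ι ⊕ Unit) → F, sm (σ.trans σ) (Bl X c) x = (ν / σ ν) • x → x = 0 := by
  refine (nc_bl (σ.trans σ) X c (ν / σ ν) hX ?_).2
  intro y hy
  have hy' := nm_ne (σ.trans σ) y hy
  constructor
  · intro h
    have h1 := congrArg (Nm (σ.trans σ)) h
    rw [nm_mul, nm_mul, nm_tau] at h1
    exact hn (mul_right_cancel₀ hy' h1)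
  · intro h
    have h1 := congrArg (Nm (σ.trans σ)) h
    rw [nm_mul, nm_mul, nm_tau] at h1
    exact hn (mul_right_cancel₀ hy' h1)

theorem gO2 [Finite F] (σ : F ≃+* F) (hq : 4 ≤ Nat.card {z : F // σ z = z}) {r : ℕ} (hr : 2 ≤ r)
    (D : F) (hD : D ≠ 0) :
    ∃ S : Matrix (((Fin r ⊕ Unit) ⊕ (Fin r ⊕ Unit)) ⊕ Unit)
        (((Fin r ⊕ Unit) ⊕ (Fin r ⊕ Unit)) ⊕ Unit) F, S.det = D ∧ Good σ S := by
  obtain ⟨sg, hsg⟩ : ∃ sg : F, sg = (Matrix.fromBlocks 0 1 1 0 :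
    Matrix ((Fin r ⊕ Unit) ⊕ (Fin r ⊕ Unit)) ((Fin r ⊕ Unit) ⊕ (Fin r ⊕ Unit)) F).det := ⟨_, rfl⟩
  have hsg2 : sg * sg = 1 := by rw [hsg]; exact sw_det (F := F) _
  have hsg0 : sg ≠ 0 := by intro h; rw [h, zero_mul] at hsg2; exact zero_ne_one hsg2
  have hσsg : σ sg = sg := by rw [hsg]; exact sg_fix σ
  have hcard : Fintype.card (((Fin r ⊕ Unit) ⊕ (Fin r ⊕ Unit)) ⊕ Unit) = 2 * (r + 1) + 1 := by
    simp; omega
  obtain ⟨t0, ht0, hσt0, k1⟩ := ex3 σ hq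
  by_cases hA : (∀ z, σ (σ z) = z) ∧ (∃ z, σ z ≠ z) ∧
      ∃ y D1 : F, y ≠ 0 ∧ D1 ≠ 0 ∧ σ D1 = D1 ∧ D = y ^ (2 * (r + 1) + 1) * D1
  · obtain ⟨hσ, hσ1, y, D1, hy, hD1, hσD1, rfl⟩ := hA
    have hNm : ∀ x, Nm (σ.trans σ) x = x := nm_one (σ.trans σ) hσ
    have hσy : σ y ≠ 0 := by simpa using hy
    obtain ⟨X1, W, c1, hX1, hc1, hc10, hX1d, hWd, hXW, hKI, hKIT, m1, m2⟩ := exk2 σ hq r hr
    have hσX1 : σ X1.det = X1.det := by
      have h1 : X1.map σ = X1 := by ext i j; exact hX1 i j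
      rw [← CTC.det_map', h1]
    obtain ⟨ν1, hν1d⟩ : ∃ ν1 : F, ν1 = sg * (y * σ y) ^ (r + 1) * D1 / (X1.det * c1) := ⟨_, rfl⟩
    have hν1 : ν1 ≠ 0 := by
      rw [hν1d]
      exact div_ne_zero (mul_ne_zero (mul_ne_zero hsg0 (pow_ne_zero _ (mul_ne_zero hy hσy))) hD1)
        (mul_ne_zero hX1d hc10)
    have hσν1 : σ ν1 = ν1 := by
      rw [hν1d, map_div₀, map_mul, map_mul, map_pow, map_mul, map_mul, hσ, hσsg, hσD1, hσX1, hc1,
        mul_comm (σ y) y]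
    obtain ⟨s, hs⟩ : ∃ s : F, s = y / σ y := ⟨_, rfl⟩
    have hs0 : s ≠ 0 := by rw [hs]; exact div_ne_zero hy hσy
    have hσs : σ s * s = 1 := by
      rw [hs, map_div₀, hσ]; field_simp
    have hσs' : σ s = s⁻¹ := eq_inv_of_mul_eq_one_left hσs
    have hsσ : s * σ s = 1 := by rw [mul_comm]; exact hσs
    have hνs : y * ν1 / σ (y * ν1) = s := by
      rw [map_mul, hσν1, hs]; field_simp
    have hν : y * ν1 ≠ 0 := mul_ne_zero hy hν1
    have hcd : s * c1 ≠ 0 := mul_ne_zero hs0 hc10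
    have hdetX : (s • X1).det = s ^ r * X1.det := by rw [Matrix.det_smul, Fintype.card_fin]
    have hXd : (s • X1).det ≠ 0 := by rw [hdetX]; exact mul_ne_zero (pow_ne_zero _ hs0) hX1d
    have hdet : (Bl (s • X1) (s * c1)).det * (y * ν1) =
        sg * (y ^ (2 * (r + 1) + 1) * D1) := by
      rw [bl_det, hdetX, hν1d, hs, div_pow]
      field_simp
      ring
    have H2 := ki_c2 σ hσ hσ1 hr X1 hX1 hX1d hKI hKIT c1 hc1 hc10 s hs0
      (by rw [hsσ, one_pow, one_mul]; exact m1) (by rw [hsσ, one_mul]; exact m2)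
    obtain ⟨cy, nc⟩ := ki_cy_nc σ hσ hσ1 hr X1 hX1 hKI hKIT c1 hc1 s hs0
    obtain ⟨-, nc1⟩ := ki_cy_nc σ hσ hσ1 hr X1 hX1 hKI hKIT 1 (map_one σ) s hs0
    obtain ⟨hDs, hrat⟩ := ds_smul σ hσ X1 hX1 hX1d s hs0
    have hTd : X1ᵀ.det ≠ 0 := by rw [Matrix.det_transpose]; exact hX1d
    have hσs0 : σ s ≠ 0 := by simpa using hs0
    obtain ⟨cy', nc'⟩ := ki_cy_nc σ hσ hσ1 hr (X1ᵀ)⁻¹ hrat (ki_inv σ X1ᵀ hTd hKIT)
      (by rw [Matrix.transpose_nonsing_inv, Matrix.transpose_transpose]; exact ki_inv σ X1 hX1d hKI)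
      c1⁻¹ (by rw [map_inv₀, hc1]) (σ s)⁻¹ (inv_ne_zero hσs0)
    have FP : FactP (σ.trans σ) (Ds σ (Bl (s • X1) (s * c1))) (Bl (s • X1) (s * c1)) := by
      rw [ds_bl σ _ _ hXd hcd, hDs]
      have h1 : (σ (σ (σ (s * c1))))⁻¹ = (σ s)⁻¹ * c1⁻¹ := by
        rw [hσ, map_mul, hc1, mul_inv]
      rw [h1]
      refine factP_bl (σ.trans σ) (by omega) _ _ _ _ ?_ hXd
        (mul_ne_zero (inv_ne_zero hσs0) (inv_ne_zero hc10)) hcd cy' cy nc' nc
      rw [Matrix.det_smul]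
      exact mul_ne_zero (pow_ne_zero _ (inv_ne_zero hσs0)) (inv_det_ne hTd)
    have H1 := h1_bl σ (s • X1) (s * c1) (y * ν1) (by rw [hνs]; simpa using nc1) (by
      rw [hNm, hNm, hνs]
      intro h
      have h1 : s * c1 = s * 1 := by rw [h, mul_one]
      apply m2
      rw [mul_left_cancel₀ hs0 h1, one_mul])
    refine ⟨_, gOgen σ (by omega) ⟨t0, ht0, k1⟩ _ hD _ (y * ν1) hν (by rw [hdet, hsg]) H1 H2 FP ?_⟩
    intro _ b hb _
    have hSdet := sm_det' (Bl (s • X1) (s * c1)) (y * ν1) _ hν (by rw [hdet, hsg])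
    have hR := real1g σ hσ (Bl (s • X1) (s * c1)) (Bl W 1) y ν1 hy hσν1
      (by rw [bl_det, mul_one]; exact hWd) (by
        have h1 : (Bl (s • X1) (s * c1)).map σ = Bl (σ s • X1) (σ s * c1) := by
          ext i j
          rcases i with i | i <;> rcases j with j | j <;> simp [Bl, hX1, hc1]
        have h2 : (Bl (σ s • X1) (σ s * c1))ᵀ = Bl (σ s • X1ᵀ) (σ s * c1) := by
          ext i j
          rcases i with i | i <;> rcases j with j | j <;> simp [Bl]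
        have h3 : ∀ (s : F) (M : Matrix (Fin r) (Fin r) F) (c : F),
            s • Bl M c = Bl (s • M) (s * c) := by
          intro s M c
          ext i j
          rcases i with i | i <;> rcases j with j | j <;> simp [Bl]
        have h4 : s * s * σ s = s := by rw [mul_assoc, hsσ, mul_one]
        rw [← hs, h1, h2, h3, bl_mul', bl_mul', one_mul, mul_one, smul_smul, h4, ← mul_assoc, h4,
          Matrix.mul_smul, Matrix.smul_mul, hXW])
    rw [← hs] at hR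
    have hR' : CgS σ (Sm (Bl (s • X1) (s * c1)) (y * ν1))
        (s • ((Sm (Bl (s • X1) (s * c1)) (y * ν1)).map σ)ᵀ) := by
      refine sl_adj σ _ _ (by rw [hSdet]; exact hD) _ hR ?_
      rw [Matrix.det_smul, Matrix.det_transpose, CTC.det_map', hSdet, hcard, map_mul, map_pow,
        hσD1, hs, ← mul_assoc, ← mul_pow, div_mul_cancel₀ _ hσy]
    exact ⟨_, b / s, div_ne_zero hb hs0, hR', by rw [smul_smul, div_mul_cancel₀ _ hs0]⟩
  · obtain ⟨X, hX, hXi, hXn⟩ := irr2 (σ.trans σ) r hr t0 ht0 (by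
      change σ (σ t0) = t0
      rw [hσt0, hσt0])
    obtain ⟨c, hcn⟩ := nm_surj (σ.trans σ) t0 (by
      change σ (σ t0) = t0
      rw [hσt0, hσt0])
    have hc : c ≠ 0 := by
      rintro rfl
      apply ht0
      rw [← hcn]
      have h1 : Nm (σ.trans σ) (0 : F) = Nm (σ.trans σ) 0 * Nm (σ.trans σ) 0 := by
        rw [← nm_mul, mul_zero]
      by_contra h2
      have h3 : Nm (σ.trans σ) (0 : F) = 1 := by
        have h4 : Nm (σ.trans σ) (0 : F) * 1 = Nm (σ.trans σ) 0 * Nm (σ.trans σ) 0 := by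
          rw [mul_one]; exact h1
        exact (mul_left_cancel₀ h2 h4).symm
      apply k1
      rw [← hcn, h3, one_mul]
    have hXc : X.det * c ≠ 0 := mul_ne_zero hX hc
    obtain ⟨ν, hνd⟩ : ∃ ν : F, ν = sg * D / (X.det * c) := ⟨_, rfl⟩
    have hν : ν ≠ 0 := by rw [hνd]; exact div_ne_zero (mul_ne_zero hsg0 hD) hXc
    have hdet : (Bl X c).det * ν = sg * D := by
      rw [bl_det, hνd, mul_div_cancel₀ _ hXc]
    have hcc : Nm (σ.trans σ) c * σ (Nm (σ.trans σ) c) ≠ 1 := by rw [hcn, hσt0]; exact k1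
    have H1 := h1_bl σ X c ν (irr_nc hr _ X _ hXi) (kap_ne σ ν c hν hcc)
    have H2 := c2_irr σ r hr X c hX hc hXi (by rw [hXn, hσt0]; exact k1) hcc
    have FP := fact_irr' σ hr X c hX hc hXi
    refine ⟨_, gOgen σ (by omega) ⟨t0, ht0, k1⟩ D hD (Bl X c) ν hν (by rw [hdet, hsg]) H1 H2 FP ?_⟩
    intro hσ b hb hbD
    by_cases hσ1 : ∃ z, σ z ≠ z
    · exfalso
      apply hA
      obtain ⟨y, D1, h1, h2, h3, h4⟩ := nt1 (n := 2 * (r + 1) + 1) ⟨r + 1, rfl⟩ σ hσ b D hD hbD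
      exact ⟨hσ, hσ1, y, D1, h1, h2, h3, h4⟩
    · push Not at hσ1
      have hSdet := sm_det' (Bl X c) ν D hν (by rw [hdet, hsg])
      have hXi' : Irr F (sm (RingEquiv.refl F) X) := by
        have h1 : sm (σ.trans σ) X = sm (RingEquiv.refl F) X := by
          refine DFunLike.ext _ _ fun v => ?_
          rw [sm_apply, sm_apply]
          congr 1
          ext j
          exact hσ _
        rwa [h1] at hXi
      obtain ⟨u, hu, hXu⟩ := irr_transpose (by omega) X hX hXi'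
      have h3 : (1 : F) / σ 1 = 1 := by rw [map_one, div_one]
      have hR := real1g σ hσ (Bl X c) (Bl u 1) 1 ν one_ne_zero (hσ1 ν)
        (by rw [bl_det, mul_one]; exact hu) (by
          have h1 : (Bl X c).map σ = Bl X c := by ext i j; exact hσ1 _
          have h2 : (Bl X c)ᵀ = Bl Xᵀ c := by
            ext i j
            rcases i with i | i <;> rcases j with j | j <;> simp [Bl]
          rw [h3, mul_one, one_smul, h1, h2, bl_mul', bl_mul', hXu, mul_one, one_mul])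
      rw [h3, one_mul, one_smul] at hR
      have hmap : (Sm (Bl X c) ν).map σ = Sm (Bl X c) ν := by ext i j; exact hσ1 _
      have hR' : CgS σ (Sm (Bl X c) ν) ((Sm (Bl X c) ν).map σ)ᵀ := by
        refine sl_adj σ _ _ (by rw [hSdet]; exact hD) _ hR ?_
        rw [Matrix.det_transpose, hmap]
      exact ⟨_, b, hb, hR', rfl⟩

end Pool.Agent.CTG
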