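import Pool.Agent.CTG.FinP

/-! `n = 3`, `|Fix σ| ≥ 4`; the final theorem for graph automorphisms (helper47). -/

set_option autoImplicit false

namespace Pool.Agent.CTG

open Matrix Pool.Agent.CTC Module

variable {F : Type*} [Field F]

theorem gO0 [Finite F] (σ : F ≃+* F) (hq : 4 ≤ Nat.card {z : F // σ z = z})
    (D : F) (hD : D ≠ 0) :
    ∃ S : Matrix (((Fin 0 ⊕ Unit) ⊕ (Fin 0 ⊕ Unit)) ⊕ Unit)
        (((Fin 0 ⊕ Unit) ⊕ (Fin 0 ⊕ Unit)) ⊕ Unit) F, S.det = D ∧ Good σ S := by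
  obtain ⟨sg, hsg⟩ : ∃ sg : F, sg = (Matrix.fromBlocks 0 1 1 0 :
    Matrix ((Fin 0 ⊕ Unit) ⊕ (Fin 0 ⊕ Unit)) ((Fin 0 ⊕ Unit) ⊕ (Fin 0 ⊕ Unit)) F).det := ⟨_, rfl⟩
  have hsg2 : sg * sg = 1 := by rw [hsg]; exact sw_det (F := F) _
  have hsg0 : sg ≠ 0 := by intro h; rw [h, zero_mul] at hsg2; exact zero_ne_one hsg2
  have hσsg : σ sg = sg := by rw [hsg]; exact sg_fix σ
  have hcard : Fintype.card (((Fin 0 ⊕ Unit) ⊕ (Fin 0 ⊕ Unit)) ⊕ Unit) = 2 * (0 + 1) + 1 := by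
    simp
  obtain ⟨t0, ht0, hσt0, k1⟩ := ex3 σ hq
  have ht01 : t0 ≠ 1 := by
    rintro rfl
    exact k1 (one_mul 1)
  have hd0 : ∀ t : F, (Cn 0 t).det = 1 := by
    intro t; rw [cn_det]; simp
  by_cases hA : (∀ z, σ (σ z) = z) ∧
      ∃ y D1 : F, y ≠ 0 ∧ D1 ≠ 0 ∧ σ D1 = D1 ∧ D = y ^ (2 * (0 + 1) + 1) * D1
  · obtain ⟨hσ, y, D1, hy, hD1, hσD1, rfl⟩ := hA
    have hNm : ∀ x, Nm (σ.trans σ) x = x := nm_one (σ.trans σ) hσ
    have hσy : σ y ≠ 0 := by simpa using hy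
    obtain ⟨ν1, hν1d⟩ : ∃ ν1 : F, ν1 = sg * (y * σ y) * D1 / t0 := ⟨_, rfl⟩
    have hν1 : ν1 ≠ 0 := by
      rw [hν1d]
      exact div_ne_zero (mul_ne_zero (mul_ne_zero hsg0 (mul_ne_zero hy hσy)) hD1) ht0
    have hσν1 : σ ν1 = ν1 := by
      rw [hν1d, map_div₀, map_mul, map_mul, map_mul, hσ, hσsg, hσD1, hσt0, mul_comm (σ y) y]
    obtain ⟨s, hs⟩ : ∃ s : F, s = y / σ y := ⟨_, rfl⟩
    have hs0 : s ≠ 0 := by rw [hs]; exact div_ne_zero hy hσy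
    have hσs : σ s * s = 1 := by
      rw [hs, map_div₀, hσ]; field_simp
    have hsσ : s * σ s = 1 := by rw [mul_comm]; exact hσs
    have hνs : y * ν1 / σ (y * ν1) = s := by
      rw [map_mul, hσν1, hs]; field_simp
    have hν : y * ν1 ≠ 0 := mul_ne_zero hy hν1
    have hcd : s * t0 ≠ 0 := mul_ne_zero hs0 ht0
    have hdet : (Bl (Cn 0 t0) (s * t0)).det * (y * ν1) = sg * (y ^ (2 * (0 + 1) + 1) * D1) := by
      rw [bl_det, hd0, hν1d, hs]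
      field_simp
    have H1 := h1_bl σ (Cn 0 t0) (s * t0) (y * ν1)
      (cn_nc _ 0 t0 _ (by rw [hνs]; exact hs0) (by rw [hNm, pow_zero]; exact ht01)) (by
        rw [hNm, hNm, hνs]
        intro h
        have h1 : s * t0 = s * 1 := by rw [h, mul_one]
        exact ht01 (mul_left_cancel₀ hs0 h1))
    have H2 : ∀ w : Matrix (Fin 0 ⊕ Unit) (Fin 0 ⊕ Unit) F,
        w = -(Bl (Cn 0 t0) (s * t0) * (w.map σ)ᵀ) → w = 0 := by
      intro w hw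
      refine cn_c2 σ 0 t0 (s * t0) ht0 hcd ?_ ?_ ?_ w hw
      · rw [hNm, hσt0]; exact k1
      · rw [hNm, map_mul, hσt0]
        intro h
        apply k1
        have h1 : s * t0 * (σ s * t0) = (s * σ s) * (t0 * t0) := by ring
        rw [h1, hsσ, one_mul] at h
        exact h
      · rw [hNm, pow_zero, mul_one]; exact ht01
    have FP := fact_cn σ 0 t0 (s * t0) ht0 hcd (by rw [hNm, pow_zero]; exact ht01)
    refine ⟨_, gOgen σ (by omega) ⟨t0, ht0, k1⟩ _ hD _ (y * ν1) hν (by rw [hdet, hsg]) H1 H2 FP ?_⟩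
    intro _ b hb _
    have hSdet := sm_det' (Bl (Cn 0 t0) (s * t0)) (y * ν1) _ hν (by rw [hdet, hsg])
    have hR := real1g σ hσ (Bl (Cn 0 t0) (s * t0)) 1 y ν1 hy hσν1
      (by rw [Matrix.det_one]; exact one_ne_zero) (by
        rw [mul_one, one_mul, ← hs]
        ext i j
        rcases i with i | i
        · exact i.elim0
        rcases j with j | j
        · exact j.elim0
        simp only [Matrix.smul_apply, Matrix.transpose_apply, Matrix.map_apply, smul_eq_mul, Bl,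
          Matrix.fromBlocks_apply₂₂, map_mul, hσt0]
        linear_combination (-(s * t0)) * hsσ)
    rw [← hs] at hR
    have hR' : CgS σ (Sm (Bl (Cn 0 t0) (s * t0)) (y * ν1))
        (s • ((Sm (Bl (Cn 0 t0) (s * t0)) (y * ν1)).map σ)ᵀ) := by
      refine sl_adj σ _ _ (by rw [hSdet]; exact hD) _ hR ?_
      rw [Matrix.det_smul, Matrix.det_transpose, CTC.det_map', hSdet, hcard, map_mul, map_pow,
        hσD1, hs, ← mul_assoc, ← mul_pow, div_mul_cancel₀ _ hσy]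
    exact ⟨_, b / s, div_ne_zero hb hs0, hR', by rw [smul_smul, div_mul_cancel₀ _ hs0]⟩
  · obtain ⟨c, hcn⟩ := nm_surj (σ.trans σ) t0 (by
      change σ (σ t0) = t0
      rw [hσt0, hσt0])
    have hc : c ≠ 0 := by
      rintro rfl
      apply ht0
      rw [← hcn]
      have h1 : Nm (σ.trans σ) (0 : F) = Nm (σ.trans σ) 0 * Nm (σ.trans σ) 0 := by
        rw [← nm_mul, mul_zero]
      by_contra h2
      have h3 : Nm (σ.trans σ) (0 : F) = 1 := by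
        have h4 : Nm (σ.trans σ) (0 : F) * 1 = Nm (σ.trans σ) 0 * Nm (σ.trans σ) 0 := by
          rw [mul_one]; exact h1
        exact (mul_left_cancel₀ h2 h4).symm
      apply k1
      rw [← hcn, h3, one_mul]
    obtain ⟨ν, hνd⟩ : ∃ ν : F, ν = sg * D / c := ⟨_, rfl⟩
    have hν : ν ≠ 0 := by rw [hνd]; exact div_ne_zero (mul_ne_zero hsg0 hD) hc
    have hdet : (Bl (Cn 0 c) c).det * ν = sg * D := by
      rw [bl_det, hd0, one_mul, hνd, mul_div_cancel₀ _ hc]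
    have hcc : Nm (σ.trans σ) c * σ (Nm (σ.trans σ) c) ≠ 1 := by rw [hcn, hσt0]; exact k1
    have hσν : σ ν ≠ 0 := by simpa using hν
    have H1 := h1_bl σ (Cn 0 c) c ν
      (cn_nc _ 0 c _ (div_ne_zero hν hσν) (by rw [hcn, pow_zero]; exact ht01))
      (kap_ne σ ν c hν hcc)
    have H2 : ∀ w : Matrix (Fin 0 ⊕ Unit) (Fin 0 ⊕ Unit) F,
        w = -(Bl (Cn 0 c) c * (w.map σ)ᵀ) → w = 0 := by
      intro w hw
      refine cn_c2 σ 0 c c hc hc hcc hcc ?_ w hw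
      rw [hcn, pow_zero, mul_one]; exact ht01
    have FP := fact_cn σ 0 c c hc hc (by rw [hcn, pow_zero]; exact ht01)
    refine ⟨_, gOgen σ (by omega) ⟨t0, ht0, k1⟩ D hD (Bl (Cn 0 c) c) ν hν (by rw [hdet, hsg]) H1 H2
      FP ?_⟩
    intro hσ b hb hbD
    exfalso
    apply hA
    obtain ⟨y, D1, h1, h2, h3, h4⟩ := nt1 (n := 2 * (0 + 1) + 1) ⟨0 + 1, rfl⟩ σ hσ b D hD hbD
    exact ⟨hσ, y, D1, h1, h2, h3, h4⟩

theorem gNO [Finite F] (σ : F ≃+* F)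
    (hq : 4 ≤ Nat.card {z : F // σ z = z}) {n : ℕ} (hn : 3 ≤ n) (ho : Odd n) (h5 : n ≠ 5) (D : F)
    (hD : D ≠ 0) :
    ∃ S : Matrix (Fin n) (Fin n) F, S.det = D ∧ Good σ S := by
  obtain ⟨m, hm⟩ := ho
  obtain ⟨r, rfl⟩ : ∃ r, m = r + 1 := ⟨m - 1, by omega⟩
  let e : Fin n ≃ ((Fin r ⊕ Unit) ⊕ (Fin r ⊕ Unit)) ⊕ Unit :=
    (Fintype.equivFinOfCardEq (by simp; omega)).symm
  obtain ⟨S, hS, hF⟩ : ∃ S : Matrix (((Fin r ⊕ Unit) ⊕ (Fin r ⊕ Unit)) ⊕ Unit)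
        (((Fin r ⊕ Unit) ⊕ (Fin r ⊕ Unit)) ⊕ Unit) F, S.det = D ∧ Good σ S := by
    rcases Nat.eq_zero_or_pos r with h0 | h0
    · subst h0
      exact gO0 σ hq D hD
    · exact gO2 σ hq (by omega) D hD
  have hmul : ∀ M N : Matrix (((Fin r ⊕ Unit) ⊕ (Fin r ⊕ Unit)) ⊕ Unit)
      (((Fin r ⊕ Unit) ⊕ (Fin r ⊕ Unit)) ⊕ Unit) F,
      (M * N).submatrix e e = M.submatrix e e * N.submatrix e e := by
    intro M N
    rw [Matrix.submatrix_mul_equiv]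
  have hT : ∀ M : Matrix (((Fin r ⊕ Unit) ⊕ (Fin r ⊕ Unit)) ⊕ Unit)
      (((Fin r ⊕ Unit) ⊕ (Fin r ⊕ Unit)) ⊕ Unit) F,
      ((M.map σ)ᵀ).submatrix e e = ((M.submatrix e e).map σ)ᵀ := fun M => rfl
  have hC : ∀ P, CgS σ S P → CgS σ (S.submatrix e e) (P.submatrix e e) := by
    rintro P ⟨g, hg, hP⟩
    refine ⟨g.submatrix e e, by rw [Matrix.det_submatrix_equiv_self, hg], ?_⟩
    rw [← hT, ← hmul, ← hmul, ← hP]
  refine ⟨S.submatrix e e, by rw [Matrix.det_submatrix_equiv_self, hS], fun B hB => ?_⟩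
  have hB' : (B.submatrix e.symm e.symm).submatrix e e = B := by
    ext i j; simp
  rw [Matrix.det_submatrix_equiv_self] at hB
  obtain ⟨P, Q, μ, hμ, hP, hQ, hPQ⟩ := hF (B.submatrix e.symm e.symm) (by
    rw [Matrix.det_submatrix_equiv_self, hB])
  refine ⟨_, _, μ, hμ, hC P hP, hC Q hQ, ?_⟩
  rw [← hT, ← hB', ← hmul, ← hPQ]
  rfl

open scoped Pointwise in
theorem mainW [Finite F] (σ : F ≃+* F) {n : ℕ} (hn : 3 ≤ n)
    (A : Matrix (Fin n) (Fin n) F) (hA : A.det ≠ 0) (α : MulAut (CosetT.PSLn n F))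
    (hα : IndG α A σ)
    (h : (Odd n ∧ (7 ≤ Nat.card {z : F // σ z = z} ∨
        n ≠ 5 ∧ 4 ≤ Nat.card {z : F // σ z = z})) ∨
      ((8 ≤ Nat.card {z : F // σ z = z} ∨ n ≠ 4 ∧ 7 ≤ Nat.card {z : F // σ z = z}) ∧
        ((∃ z, σ (σ z) ≠ z) ∨ (∀ z, σ z = z) ∨
          (¬ ∃ g : CosetT.PSLn n F, α ^ 2 = MulAut.conj g) ∨ IsSquare A.det))) :
    ∃ x ∈ CosetT.coset α, CosetT.cls x * CosetT.cls x = CosetT.coset (α ^ 2) := by
  rcases h with ⟨ho, h | ⟨h5, h⟩⟩ | ⟨hq, h⟩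
  · exact mainG σ h hn ho A hA α hα
  · obtain ⟨S, hS, hF⟩ := gNO σ h hn ho h5 A.det hA
    exact packG1 A hA α hα S hS hF
  · exact mainZ σ hn A hA α hα hq (Or.inr h)

end Pool.Agent.CTG
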