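import Pool.Agent.CTG.Q2

/-! Matrices over the fixed field (helper47). -/

set_option autoImplicit false

namespace Pool.Agent.CTG

variable {F : Type*} [Field F]

/-- every nonzero vector with entries in the fixed field of `σ` is cyclic for `X1` -/
def KI {r : ℕ} (σ : F ≃+* F) (X1 : Matrix (Fin r) (Fin r) F) : Prop :=
  ∀ v : Fin r → F, (∀ i, σ (v i) = v i) → v ≠ 0 → ∀ W : Submodule F (Fin r → F), v ∈ W →
    (∀ w ∈ W, Matrix.mulVec X1 w ∈ W) → W = ⊤

end Pool.Agent.CTG
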